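import Mathlib

set_option autoImplicit false

/-!
# Growth of analytic functions in terms of zeros of the real part on the sides of a rectangle
-/

namespace Pool.Agent.H24.Growth

open Complex Set Metric Filter Topology

/-- A continuous function whose cosine has few zeros has small oscillation. -/
lemma osc_le_of_cos_zeros {T : ℝ → ℝ} {p q α : ℝ} {n : ℕ} (hT : ContinuousOn T (Icc p q))
    (hz : ∀ s : Finset ℝ, (∀ t ∈ s, t ∈ Icc p q ∧ Real.cos (T t + α) = 0) → s.card ≤ n) :
    ∀ t1 ∈ Icc p q, ∀ t2 ∈ Icc p q, |T t1 - T t2| ≤ Real.pi * (n + 1) := by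
  have key : ∀ t1 ∈ Icc p q, ∀ t2 ∈ Icc p q, T t2 - T t1 ≤ Real.pi * (n + 1) := by
    intro t1 ht1 t2 ht2
    by_contra hcon
    push Not at hcon
    have hpi := Real.pi_pos
    set j0 : ℤ := ⌈(T t1 + α - Real.pi / 2) / Real.pi⌉ with hj0
    have hj1 : (T t1 + α - Real.pi / 2) / Real.pi ≤ j0 := Int.le_ceil _
    have hj2 : (j0 : ℝ) < (T t1 + α - Real.pi / 2) / Real.pi + 1 := Int.ceil_lt_add_one _
    rw [div_le_iff₀ hpi] at hj1
    have hj2' : (j0 : ℝ) * Real.pi < (T t1 + α - Real.pi / 2) + Real.pi := by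
      have := mul_lt_mul_of_pos_right hj2 hpi
      rw [add_mul, div_mul_cancel₀ _ hpi.ne', one_mul] at this
      exact this
    have hsub : uIcc t1 t2 ⊆ Icc p q := uIcc_subset_Icc ht1 ht2
    have hex : ∀ k : ℕ, k < n + 1 → ∃ s ∈ Icc p q,
        T s = Real.pi / 2 - α + Real.pi * (j0 + k) := by
      intro k hk
      have hkn : (k : ℝ) + 1 ≤ n + 1 := by exact_mod_cast hk
      have hmem : Real.pi / 2 - α + Real.pi * (j0 + k) ∈ uIcc (T t1) (T t2) := by
        rw [mem_uIcc]
        left
        constructor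
        · have : 0 ≤ Real.pi * k := by positivity
          nlinarith
        · have : Real.pi * ((k : ℝ) + 1) ≤ Real.pi * (n + 1) :=
            mul_le_mul_of_nonneg_left hkn hpi.le
          nlinarith
      obtain ⟨s, hs, hTs⟩ := intermediate_value_uIcc (hT.mono hsub) hmem
      exact ⟨s, hsub hs, hTs⟩
    choose! f hf1 hf2 using hex
    have hinj : Set.InjOn f (Finset.range (n + 1) : Finset ℕ) := by
      intro a ha b hb hab
      have ha' : a < n + 1 := by simpa using ha
      have hb' : b < n + 1 := by simpa using hb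
      have h1 := hf2 a ha'
      have h2 := hf2 b hb'
      rw [hab, h2] at h1
      have h3 : Real.pi * ((j0 : ℝ) + b) = Real.pi * (j0 + a) := by linarith
      have h4 := mul_left_cancel₀ hpi.ne' h3
      have h5 : (b : ℝ) = a := by linarith
      exact_mod_cast h5.symm
    have hcard := hz ((Finset.range (n + 1)).image f) (by
      intro t ht
      obtain ⟨k, hk, rfl⟩ := Finset.mem_image.mp ht
      have hk' : k < n + 1 := by simpa using hk
      refine ⟨hf1 k hk', ?_⟩
      rw [hf2 k hk']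
      have e : Real.pi / 2 - α + Real.pi * (j0 + k) + α = ((j0 + k : ℤ) : ℝ) * Real.pi +
          Real.pi / 2 := by
        push_cast; ring
      rw [e, Real.cos_add_pi_div_two, Real.sin_int_mul_pi, neg_zero])
    rw [Finset.card_image_of_injOn hinj, Finset.card_range] at hcard
    omega
  intro t1 ht1 t2 ht2
  rw [abs_le]
  constructor
  · have := key t1 ht1 t2 ht2; linarith
  · have := key t2 ht2 t1 ht1; linarith

/-- The oscillation estimate on a side. -/
lemma side_osc {m n : ℕ} {z : Fin m → ℂ} {G e g : ℂ → ℂ} {ν : ℂ} {γ : ℝ → ℂ} {p q : ℝ}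
    (hν : ν ≠ 0) (hγ : ContinuousOn γ (Icc p q))
    (hpos : ∀ t ∈ Icc p q, ∀ j, 0 < ((γ t - z j) * ν).re)
    (hG : ContinuousOn (fun t => G (γ t)) (Icc p q))
    (he : ContinuousOn (fun t => e (γ t)) (Icc p q))
    (hg : ∀ t ∈ Icc p q, g (γ t) = (∏ j, (γ t - z j)) * exp (G (γ t)))
    (hz : ∀ s : Finset ℝ, (∀ t ∈ s, t ∈ Icc p q ∧ (g (γ t) * exp (e (γ t))).re = 0) →
      s.card ≤ n) :
    ∀ t1 ∈ Icc p q, ∀ t2 ∈ Icc p q,
      |((G (γ t1)).im + (e (γ t1)).im + ∑ j, arg ((γ t1 - z j) * ν)) -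
        ((G (γ t2)).im + (e (γ t2)).im + ∑ j, arg ((γ t2 - z j) * ν))| ≤ Real.pi * (n + 1) := by
  set T : ℝ → ℝ := fun t => (G (γ t)).im + (e (γ t)).im + ∑ j, arg ((γ t - z j) * ν) with hT
  set α : ℝ := arg ((ν ^ m)⁻¹) with hα
  apply osc_le_of_cos_zeros (T := T) (α := α)
  · apply ContinuousOn.add
    · exact (continuous_im.comp_continuousOn hG).add (continuous_im.comp_continuousOn he)
    · apply continuousOn_finsetSum
      intro j _
      have h1 : ContinuousOn (fun t => (γ t - z j) * ν) (Icc p q) :=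
        (hγ.sub continuousOn_const).mul continuousOn_const
      intro t ht
      have h2 : (γ t - z j) * ν ∈ slitPlane := Or.inl (hpos t ht j)
      exact ContinuousAt.comp_continuousWithinAt (g := arg) (f := fun t => (γ t - z j) * ν)
        (continuousAt_arg h2) (h1 t ht)
  · intro s hs
    apply hz s
    intro t ht
    obtain ⟨htI, hcos⟩ := hs t ht
    refine ⟨htI, ?_⟩
    have hne : ∀ j, (γ t - z j) * ν ≠ 0 := by
      intro j h0
      have := hpos t htI j
      rw [h0] at this
      simp at this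
    -- polar form
    have e1 : (∏ j, (γ t - z j)) = (ν ^ m)⁻¹ * ∏ j, ((γ t - z j) * ν) := by
      rw [Finset.prod_mul_distrib, Finset.prod_const, Finset.card_univ, Fintype.card_fin]
      field_simp
    obtain ⟨P, e2⟩ : ∃ P : ℝ, ∏ j, ((γ t - z j) * ν) = (P : ℂ) *
        exp ((∑ j, arg ((γ t - z j) * ν) : ℝ) * I) := by
      refine ⟨∏ j, ‖(γ t - z j) * ν‖, ?_⟩
      push_cast
      rw [Finset.sum_mul, Complex.exp_sum, ← Finset.prod_mul_distrib]
      apply Finset.prod_congr rfl
      intro j _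
      exact (norm_mul_exp_arg_mul_I _).symm
    obtain ⟨r, e3⟩ : ∃ r : ℝ, (ν ^ m)⁻¹ = (r : ℂ) * exp ((α : ℂ) * I) :=
      ⟨_, (norm_mul_exp_arg_mul_I _).symm⟩
    have e4 : ∀ w : ℂ, exp w = ((Real.exp w.re : ℝ) : ℂ) * exp ((w.im : ℂ) * I) := by
      intro w
      rw [ofReal_exp, ← Complex.exp_add, re_add_im]
    have e5 : g (γ t) * exp (e (γ t)) =
        ((r * P * Real.exp (G (γ t)).re *
          Real.exp (e (γ t)).re : ℝ) : ℂ) * exp (((T t + α : ℝ) : ℂ) * I) := by
      rw [hg t htI, e1, e2, e3, e4 (G (γ t)), e4 (e (γ t))]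
      have : exp (((T t + α : ℝ) : ℂ) * I) = exp ((α : ℂ) * I) *
          exp ((∑ j, arg ((γ t - z j) * ν) : ℝ) * I) * exp (((G (γ t)).im : ℂ) * I) *
          exp (((e (γ t)).im : ℂ) * I) := by
        rw [← Complex.exp_add, ← Complex.exp_add, ← Complex.exp_add]
        congr 1
        simp only [hT]
        push_cast
        ring
      rw [this]
      push_cast
      ring
    rw [e5, re_ofReal_mul, exp_ofReal_mul_I_re, hcos, mul_zero]

/-- Extraction of the zeros in a bounded set. -/
lemma extract_zeros {g : ℂ → ℂ} (hg : DifferentiableOn ℂ g (ball 0 16)) {R : Set ℂ}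
    (hR : ∀ z ∈ R, ‖z‖ ≤ 7.1) (hne : ∃ z ∈ ball (0 : ℂ) 16, g z ≠ 0) :
    ∃ (m : ℕ) (z : Fin m → ℂ) (k : ℂ → ℂ), (∀ j, z j ∈ R) ∧
      DifferentiableOn ℂ k (ball 0 16) ∧
      (∀ w, g w = (∏ j, (w - z j)) * k w) ∧ ∀ w ∈ R, k w ≠ 0 := by
  by_contra hcon
  push Not at hcon
  have hall : ∀ m : ℕ, ∃ (z : Fin m → ℂ) (k : ℂ → ℂ), (∀ j, z j ∈ R) ∧
      DifferentiableOn ℂ k (ball 0 16) ∧ (∀ w, g w = (∏ j, (w - z j)) * k w) := by
    intro m
    induction m with
    | zero => exact ⟨Fin.elim0, g, fun j => Fin.elim0 j, hg, fun w => by simp⟩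
    | succ m ih =>
      obtain ⟨z, k, h1, h2, h3⟩ := ih
      obtain ⟨w0, hw0, hk0⟩ := hcon m z k h1 h2 h3
      refine ⟨Fin.snoc z w0, dslope k w0, ?_, ?_, ?_⟩
      · intro j
        refine Fin.lastCases ?_ (fun i => ?_) j
        · simpa using hw0
        · simpa using h1 i
      · rw [Complex.differentiableOn_dslope]
        · exact h2
        · apply isOpen_ball.mem_nhds
          rw [mem_ball_zero_iff]
          have := hR w0 hw0
          norm_num at this ⊢
          linarith
      · intro w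
        rw [h3 w, Fin.prod_univ_castSucc]
        simp only [Fin.snoc_castSucc, Fin.snoc_last]
        have := sub_smul_dslope k w0 w
        rw [hk0, sub_zero, smul_eq_mul] at this
        rw [← this]; ring
  -- a bound on the sphere of radius 15
  obtain ⟨M, hM⟩ := (isCompact_sphere (0 : ℂ) 15).exists_bound_of_continuousOn
    (hg.continuousOn.mono (fun w hw => by
      rw [mem_sphere_zero_iff_norm] at hw
      rw [mem_ball_zero_iff, hw]; norm_num))
  have hM0 : 0 ≤ M := by
    have := hM 15 (by simp)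
    exact (norm_nonneg _).trans this
  have hbound : ∀ m : ℕ, ∀ v : ℂ, ‖v‖ ≤ 1 / 2 → ‖g v‖ ≤ (7.6 / 7.9) ^ m * M := by
    intro m v hv
    obtain ⟨z, k, h1, h2, h3⟩ := hall m
    have hkb : ‖k v‖ ≤ M / 7.9 ^ m := by
      apply Complex.norm_le_of_forall_mem_frontier_norm_le (U := ball (0 : ℂ) 15) isBounded_ball
      · apply DifferentiableOn.diffContOnCl
        rw [closure_ball _ (by norm_num)]
        apply h2.mono
        intro w hw
        rw [mem_closedBall_zero_iff] at hw
        rw [mem_ball_zero_iff]; linarith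
      · intro w hw
        rw [frontier_ball _ (by norm_num)] at hw
        have hwn : ‖w‖ = 15 := by simpa using hw
        have h4 := hM w hw
        rw [h3 w, norm_mul, norm_prod] at h4
        have h5 : (7.9 : ℝ) ^ m ≤ ∏ j, ‖w - z j‖ := by
          have : ∏ _j : Fin m, (7.9 : ℝ) ≤ ∏ j, ‖w - z j‖ := by
            apply Finset.prod_le_prod
            · intro j _; norm_num
            · intro j _
              have := norm_sub_norm_le w (z j)
              have := hR (z j) (h1 j)
              rw [hwn] at *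
              norm_num at *
              linarith
          simpa using this
        rw [le_div_iff₀ (by positivity), mul_comm]
        exact (mul_le_mul_of_nonneg_right h5 (norm_nonneg _)).trans h4
      · apply subset_closure
        rw [mem_ball_zero_iff]; linarith
    rw [h3 v, norm_mul, norm_prod]
    have h6 : ∏ j, ‖v - z j‖ ≤ (7.6 : ℝ) ^ m := by
      have : ∏ j, ‖v - z j‖ ≤ ∏ _j : Fin m, (7.6 : ℝ) := by
        apply Finset.prod_le_prod
        · intro j _; exact norm_nonneg _
        · intro j _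
          have := norm_sub_le v (z j)
          have := hR (z j) (h1 j)
          norm_num at *
          linarith
      simpa using this
    calc (∏ j, ‖v - z j‖) * ‖k v‖ ≤ 7.6 ^ m * (M / 7.9 ^ m) :=
          mul_le_mul h6 hkb (norm_nonneg _) (by positivity)
      _ = (7.6 / 7.9) ^ m * M := by rw [div_pow]; ring
  have hzero : ∀ v : ℂ, ‖v‖ ≤ 1 / 2 → g v = 0 := by
    intro v hv
    have ht : Tendsto (fun m : ℕ => ((7.6 : ℝ) / 7.9) ^ m * M) atTop (𝓝 (0 * M)) := by
      apply Tendsto.mul_const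
      apply tendsto_pow_atTop_nhds_zero_of_lt_one <;> norm_num
    rw [zero_mul] at ht
    have : ‖g v‖ ≤ 0 := ge_of_tendsto' ht (fun m => hbound m v hv)
    exact norm_eq_zero.mp (le_antisymm this (norm_nonneg _))
  obtain ⟨z0, hz0, hgz0⟩ := hne
  apply hgz0
  have han : AnalyticOnNhd ℂ g (ball 0 16) := hg.analyticOnNhd isOpen_ball
  have hpre : IsPreconnected (ball (0 : ℂ) 16) := (convex_ball (0 : ℂ) 16).isPreconnected
  have hev : g =ᶠ[𝓝 0] 0 := by
    filter_upwards [ball_mem_nhds (0 : ℂ) (show (0 : ℝ) < 1 / 2 by norm_num)] with v hv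
    rw [mem_ball_zero_iff] at hv
    exact hzero v hv.le
  exact han.eqOn_zero_of_preconnected_of_eventuallyEq_zero hpre
    (mem_ball_self (by norm_num)) hev hz0

/-- An analytic logarithm on a convex open set. -/
lemma exists_log {U : Set ℂ} (hUo : IsOpen U) (hUc : Convex ℝ U) (hUn : U.Nonempty) {k : ℂ → ℂ}
    (hk : DifferentiableOn ℂ k U) (hk0 : ∀ w ∈ U, k w ≠ 0) :
    ∃ G : ℂ → ℂ, DifferentiableOn ℂ G U ∧ ∀ w ∈ U, exp (G w) = k w := by
  have hsc : IsSimplyConnected U := by
    have := hUc.contractibleSpace hUn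
    exact SimplyConnectedSpace.ofContractible U
  obtain ⟨G, hGc, hGe⟩ := Complex.exists_continuousOn_eqOn_exp_comp hsc hUo hk.continuousOn
    (by rintro ⟨w, hw, h0⟩; exact hk0 w hw h0)
  refine ⟨G, ?_, fun w hw => hGe hw⟩
  intro w0 hw0
  apply DifferentiableAt.differentiableWithinAt
  have hkd : DifferentiableAt ℂ k w0 := (hk w0 hw0).differentiableAt (hUo.mem_nhds hw0)
  have hGca : ContinuousAt G w0 := hGc.continuousAt (hUo.mem_nhds hw0)
  have hev : G =ᶠ[𝓝 w0] fun w => G w0 + log (k w / k w0) := by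
    have h1 : ∀ᶠ w in 𝓝 w0, w ∈ U := hUo.mem_nhds hw0
    have h2 : ∀ᶠ w in 𝓝 w0, ‖G w - G w0‖ < Real.pi := by
      have : Tendsto (fun w => ‖G w - G w0‖) (𝓝 w0) (𝓝 ‖G w0 - G w0‖) :=
        (hGca.sub continuousAt_const).norm
      rw [sub_self, norm_zero] at this
      exact this.eventually (gt_mem_nhds Real.pi_pos)
    filter_upwards [h1, h2] with w hw hw2
    have e1 : k w / k w0 = exp (G w - G w0) := by
      rw [Complex.exp_sub]
      have e2 : exp (G w) = k w := hGe hw
      have e3 : exp (G w0) = k w0 := hGe hw0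
      rw [e2, e3]
    have h3 : |(G w - G w0).im| < Real.pi := (abs_im_le_norm _).trans_lt hw2
    rw [e1, Complex.log_exp (by linarith [(abs_lt.mp h3).1]) (abs_lt.mp h3).2.le]
    ring
  refine DifferentiableAt.congr_of_eventuallyEq ?_ hev
  apply DifferentiableAt.const_add
  apply DifferentiableAt.clog (hkd.div_const _)
  rw [div_self (hk0 w0 hw0)]
  exact one_mem_slitPlane

lemma arg_mul_neg_I {w : ℂ} (h1 : 0 < w.re) (h2 : 0 < w.im) :
    arg (w * (-I)) = arg w - Real.pi / 2 := by
  have hw : w ≠ 0 := by rintro rfl; simp at h1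
  have h3 : 0 ≤ arg w := arg_nonneg_iff.mpr h2.le
  have h4 := arg_le_pi w
  have hpi := Real.pi_pos
  rw [arg_mul hw (neg_ne_zero.mpr I_ne_zero), arg_neg_I]
  · ring
  · rw [arg_neg_I]
    constructor <;> linarith

/-- Polynomial lower bound on a circle. -/
lemma pow_le_of_prod_le {m : ℕ} (z : Fin m → ℂ) {r M : ℝ} (hr : 0 < r)
    (h : ∀ v : ℂ, ‖v‖ = r → ∏ j, ‖v - z j‖ ≤ M) : r ^ m ≤ M := by
  set Q : ℂ → ℂ := fun v => ∏ j, ((r : ℂ) ^ 2 - (starRingEnd ℂ) (z j) * v) with hQ
  have hQd : Differentiable ℂ Q := by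
    apply Differentiable.fun_finsetProd
    intro j _
    exact (differentiable_const _).sub ((differentiable_const _).mul differentiable_id)
  have hb : ‖Q 0‖ ≤ r ^ m * M := by
    apply Complex.norm_le_of_forall_mem_frontier_norm_le (U := ball (0 : ℂ) r) isBounded_ball
      hQd.diffContOnCl
    · intro v hv
      rw [frontier_ball _ hr.ne'] at hv
      have hvn : ‖v‖ = r := by simpa using hv
      have e1 : ∀ j, ‖(r : ℂ) ^ 2 - (starRingEnd ℂ) (z j) * v‖ = r * ‖v - z j‖ := by
        intro j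
        have e2 : (r : ℂ) ^ 2 = v * (starRingEnd ℂ) v := by
          rw [mul_conj, normSq_eq_norm_sq, hvn]; push_cast; ring
        rw [e2]
        have e3 : v * (starRingEnd ℂ) v - (starRingEnd ℂ) (z j) * v =
            v * (starRingEnd ℂ) (v - z j) := by
          rw [map_sub]; ring
        rw [e3, norm_mul, norm_conj, hvn]
      simp only [hQ, norm_prod, e1]
      rw [Finset.prod_mul_distrib, Finset.prod_const, Finset.card_univ, Fintype.card_fin]
      exact mul_le_mul_of_nonneg_left (h v hvn) (by positivity)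
    · exact subset_closure (mem_ball_self hr)
  have e4 : ‖Q 0‖ = r ^ m * r ^ m := by
    simp only [hQ, mul_zero, sub_zero, norm_prod, Finset.prod_const, Finset.card_univ,
      Fintype.card_fin, norm_pow, norm_real, Real.norm_eq_abs, abs_of_pos hr]
    ring
  rw [e4] at hb
  exact le_of_mul_le_mul_left hb (by positivity)

end Pool.Agent.H24.Growth
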