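import Pool.Agent.H24.AnalyticGrowth

set_option autoImplicit false

/-!
# The growth estimate on a rectangle
-/

namespace Pool.Agent.H24.Growth

open Complex Set Metric Filter Topology

/-- The harmonic part: if `Im G` is close to a constant on the sides of the rectangle, then `G`
is close to a constant in the middle. -/
lemma log_bound {G : ℂ → ℂ} {U : Set ℂ} (hG : DifferentiableOn ℂ G U) {a b c d : ℝ}
    (ha : a ≤ -3) (hb : 3 ≤ b) (hc : c ≤ -3) (hd : 3 ≤ d)
    (hU : Icc a b ×ℂ Icc c d ⊆ U) {b0 D : ℝ} (hD : 0 < D)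
    (hR : ∀ t ∈ Icc c d, |(G ⟨b, t⟩).im - b0| ≤ D)
    (hL : ∀ t ∈ Icc c d, |(G ⟨a, t⟩).im - b0| ≤ D)
    (hT : ∀ t ∈ Icc a b, |(G ⟨t, d⟩).im - b0| ≤ D)
    (hB : ∀ t ∈ Icc a b, |(G ⟨t, c⟩).im - b0| ≤ D) :
    ∀ w : ℂ, ‖w‖ ≤ 2.85 → ‖G w - G 0‖ ≤ 76 * D := by
  have hab : a < b := by linarith
  have hcd : c < d := by linarith
  set V : Set ℂ := Ioo a b ×ℂ Ioo c d with hV
  have hclV : closure V = Icc a b ×ℂ Icc c d := by
    rw [hV, closure_reProdIm, closure_Ioo hab.ne, closure_Ioo hcd.ne]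
  have hbdd : Bornology.IsBounded V := by
    apply (isBounded_Ioo a b).reProdIm (isBounded_Ioo c d)
  have hfr : ∀ z ∈ frontier V, |(G z).im - b0| ≤ D := by
    intro z hz
    rw [hV, frontier_reProdIm, closure_Ioo hab.ne, closure_Ioo hcd.ne, frontier_Ioo hab,
      frontier_Ioo hcd] at hz
    rcases hz with ⟨h1, h2⟩ | ⟨h1, h2⟩
    · rcases h2 with h2 | h2
      · have e : z = ⟨z.re, c⟩ := by apply Complex.ext <;> simp_all
        rw [e]; exact hB _ h1
      · have e : z = ⟨z.re, d⟩ := by apply Complex.ext <;> simp_all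
        rw [e]; exact hT _ h1
    · rcases h1 with h1 | h1
      · have e : z = ⟨a, z.im⟩ := by apply Complex.ext <;> simp_all
        rw [e]; exact hL _ h2
      · have e : z = ⟨b, z.im⟩ := by apply Complex.ext <;> simp_all
        rw [e]; exact hR _ h2
  have hGcl : DifferentiableOn ℂ G (closure V) := by rw [hclV]; exact hG.mono hU
  have hin : ∀ z ∈ closure V, |(G z).im - b0| ≤ D := by
    intro z hz
    have h1 : ‖exp (-I * G z)‖ ≤ Real.exp (b0 + D) := by
      apply Complex.norm_le_of_forall_mem_frontier_norm_le (f := fun z => exp (-I * G z)) hbdd _ _ hz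
      · apply DifferentiableOn.diffContOnCl
        exact (hGcl.const_mul (-I)).cexp
      · intro w hw
        rw [norm_exp]
        apply Real.exp_le_exp.mpr
        have := (abs_le.mp (hfr w hw)).2
        have e : (-I * G w).re = (G w).im := by simp
        rw [e]; linarith
    have h2 : ‖exp (I * G z)‖ ≤ Real.exp (-b0 + D) := by
      apply Complex.norm_le_of_forall_mem_frontier_norm_le (f := fun z => exp (I * G z)) hbdd _ _ hz
      · apply DifferentiableOn.diffContOnCl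
        exact (hGcl.const_mul I).cexp
      · intro w hw
        rw [norm_exp]
        apply Real.exp_le_exp.mpr
        have := (abs_le.mp (hfr w hw)).1
        have e : (I * G w).re = -(G w).im := by simp
        rw [e]; linarith
    rw [norm_exp, Real.exp_le_exp] at h1 h2
    have e1 : (-I * G z).re = (G z).im := by simp
    have e2 : (I * G z).re = -(G z).im := by simp
    rw [e1] at h1
    rw [e2] at h2
    rw [abs_le]
    constructor <;> linarith
  have hball : ball (0 : ℂ) 3 ⊆ closure V := by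
    intro z hz
    rw [mem_ball_zero_iff] at hz
    have h1 := abs_le.mp ((abs_re_le_norm z).trans hz.le)
    have h2 := abs_le.mp ((abs_im_le_norm z).trans hz.le)
    rw [hclV]
    exact ⟨⟨by linarith [h1.1], by linarith [h1.2]⟩, ⟨by linarith [h2.1], by linarith [h2.2]⟩⟩
  intro w hw
  set f : ℂ → ℂ := fun z => -I * (G z - G 0) with hf
  have hfd : DifferentiableOn ℂ f (ball 0 3) :=
    ((hGcl.mono hball).sub_const _).const_mul _
  have hmap : MapsTo f (ball 0 3) {z | z.re ≤ 2 * D} := by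
    intro z hz
    have h1 := abs_le.mp (hin z (hball hz))
    have h2 := abs_le.mp (hin 0 (hball (mem_ball_self (by norm_num))))
    have e : (f z).re = (G z).im - (G 0).im := by simp [hf]
    show (f z).re ≤ 2 * D
    rw [e]; linarith [h1.2, h2.1]
  have hw3 : w ∈ ball (0 : ℂ) 3 := by
    rw [mem_ball_zero_iff]
    have : (2.85 : ℝ) < 3 := by norm_num
    linarith
  have hBC := borelCaratheodory_zero (by positivity : (0 : ℝ) < 2 * D) hfd hmap (by norm_num) hw3
    (by simp [hf])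
  have e : ‖f w‖ = ‖G w - G 0‖ := by
    simp [hf]
  rw [e] at hBC
  refine hBC.trans ?_
  rw [div_le_iff₀ (by
    have : (2.85 : ℝ) < 3 := by norm_num
    linarith)]
  norm_num at hw ⊢
  nlinarith [norm_nonneg w]

/-- The growth of an analytic function is controlled by the number of zeros of `Re (g e^e)` on the
sides of a rectangle, for a bounded function `e`. -/
theorem analytic_growth {g e : ℂ → ℂ} {a b c d c0 : ℝ} {n : ℕ}
    (ha : a ∈ Icc (-5 : ℝ) (-3)) (hb : b ∈ Icc (3 : ℝ) 5) (hc : c ∈ Icc (-5 : ℝ) (-3))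
    (hd : d ∈ Icc (3 : ℝ) 5) (hc0 : 0 ≤ c0) (hg : DifferentiableOn ℂ g (ball 0 16))
    (hgR : ∀ t ∈ Icc c d, g ⟨b, t⟩ ≠ 0) (hgL : ∀ t ∈ Icc c d, g ⟨a, t⟩ ≠ 0)
    (hgT : ∀ t ∈ Icc a b, g ⟨t, d⟩ ≠ 0) (hgB : ∀ t ∈ Icc a b, g ⟨t, c⟩ ≠ 0)
    (heR : ContinuousOn (fun t : ℝ => e ⟨b, t⟩) (Icc c d))
    (heL : ContinuousOn (fun t : ℝ => e ⟨a, t⟩) (Icc c d))
    (heT : ContinuousOn (fun t : ℝ => e ⟨t, d⟩) (Icc a b))
    (heB : ContinuousOn (fun t : ℝ => e ⟨t, c⟩) (Icc a b))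
    (hbR : ∀ t ∈ Icc c d, |(e ⟨b, t⟩).im| ≤ c0) (hbL : ∀ t ∈ Icc c d, |(e ⟨a, t⟩).im| ≤ c0)
    (hbT : ∀ t ∈ Icc a b, |(e ⟨t, d⟩).im| ≤ c0) (hbB : ∀ t ∈ Icc a b, |(e ⟨t, c⟩).im| ≤ c0)
    (hzR : ∀ s : Finset ℝ, (∀ t ∈ s, t ∈ Icc c d ∧ (g ⟨b, t⟩ * exp (e ⟨b, t⟩)).re = 0) →
      s.card ≤ n)
    (hzL : ∀ s : Finset ℝ, (∀ t ∈ s, t ∈ Icc c d ∧ (g ⟨a, t⟩ * exp (e ⟨a, t⟩)).re = 0) →
      s.card ≤ n)
    (hzT : ∀ s : Finset ℝ, (∀ t ∈ s, t ∈ Icc a b ∧ (g ⟨t, d⟩ * exp (e ⟨t, d⟩)).re = 0) →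
      s.card ≤ n)
    (hzB : ∀ s : Finset ℝ, (∀ t ∈ s, t ∈ Icc a b ∧ (g ⟨t, c⟩ * exp (e ⟨t, c⟩)).re = 0) →
      s.card ≤ n)
    {M : ℝ} (hM : ∀ v : ℂ, ‖v‖ = 1 / 2 → ‖g v‖ ≤ M) :
    ∀ v : ℂ, ‖v‖ ≤ 2.85 → ‖g v‖ ≤ Real.exp (10000 * (1 + n + c0)) * M := by
  have hab : a < b := by linarith [ha.2, hb.1]
  have hcd : c < d := by linarith [hc.2, hd.1]
  have hM0 : 0 ≤ M := (norm_nonneg _).trans (hM (1 / 2) (by norm_num))
  set R : Set ℂ := Icc a b ×ℂ Icc c d with hR
  have hRn : ∀ z ∈ R, ‖z‖ ≤ 7.1 := by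
    intro z hz
    have h1 := hz.1
    have h2 := hz.2
    have h3 : |z.re| ≤ 5 := abs_le.mpr ⟨by linarith [h1.1, ha.1], by linarith [h1.2, hb.2]⟩
    have h4 : |z.im| ≤ 5 := abs_le.mpr ⟨by linarith [h2.1, hc.1], by linarith [h2.2, hd.2]⟩
    rw [Complex.norm_def]
    apply Real.sqrt_le_iff.mpr
    constructor
    · norm_num
    · rw [normSq_apply]
      have h5 : z.re * z.re ≤ 25 := by
        rw [← abs_mul_abs_self]; nlinarith [abs_nonneg z.re]
      have h6 : z.im * z.im ≤ 25 := by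
        rw [← abs_mul_abs_self]; nlinarith [abs_nonneg z.im]
      norm_num
      linarith
  have mR : ∀ t ∈ Icc c d, (⟨b, t⟩ : ℂ) ∈ R := fun t ht => ⟨right_mem_Icc.mpr hab.le, ht⟩
  have mL : ∀ t ∈ Icc c d, (⟨a, t⟩ : ℂ) ∈ R := fun t ht => ⟨left_mem_Icc.mpr hab.le, ht⟩
  have mT : ∀ t ∈ Icc a b, (⟨t, d⟩ : ℂ) ∈ R := fun t ht => ⟨ht, right_mem_Icc.mpr hcd.le⟩
  have mB : ∀ t ∈ Icc a b, (⟨t, c⟩ : ℂ) ∈ R := fun t ht => ⟨ht, left_mem_Icc.mpr hcd.le⟩
  have hR16 : ∀ z ∈ R, z ∈ ball (0 : ℂ) 16 := by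
    intro z hz
    rw [mem_ball_zero_iff]
    have := hRn z hz
    norm_num at this ⊢
    linarith
  obtain ⟨m, z, k, hz1, hk, hfac, hk0⟩ := extract_zeros hg hRn
    ⟨⟨b, c⟩, hR16 _ (mR c (left_mem_Icc.mpr hcd.le)), hgR c (left_mem_Icc.mpr hcd.le)⟩
  -- the zeros are inside
  have hzero : ∀ j, g (z j) = 0 := by
    intro j
    rw [hfac, Finset.prod_eq_zero (Finset.mem_univ j) (sub_self _), zero_mul]
  have hin : ∀ j, (z j).re ∈ Ioo a b ∧ (z j).im ∈ Ioo c d := by
    intro j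
    have h1 := (hz1 j).1
    have h2 := (hz1 j).2
    have h3 := hzero j
    refine ⟨⟨lt_of_le_of_ne h1.1 ?_, lt_of_le_of_ne h1.2 ?_⟩,
      ⟨lt_of_le_of_ne h2.1 ?_, lt_of_le_of_ne h2.2 ?_⟩⟩
    · intro h
      have e1 : z j = ⟨a, (z j).im⟩ := by apply Complex.ext <;> simp [h]
      exact hgL _ h2 (e1 ▸ h3)
    · intro h
      have e1 : z j = ⟨b, (z j).im⟩ := by apply Complex.ext <;> simp [← h]
      exact hgR _ h2 (e1 ▸ h3)
    · intro h
      have e1 : z j = ⟨(z j).re, c⟩ := by apply Complex.ext <;> simp [h]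
      exact hgB _ h1 (e1 ▸ h3)
    · intro h
      have e1 : z j = ⟨(z j).re, d⟩ := by apply Complex.ext <;> simp [← h]
      exact hgT _ h1 (e1 ▸ h3)
  -- the logarithm
  have hRcomp : IsCompact R := isCompact_Icc.reProdIm isCompact_Icc
  have hRconv : Convex ℝ R := by
    intro x hx y hy s t hs ht hst
    have h1 := (convex_Icc a b) hx.1 hy.1 hs ht hst
    have h2 := (convex_Icc c d) hx.2 hy.2 hs ht hst
    refine ⟨?_, ?_⟩
    · simpa using h1
    · simpa using h2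
  have hopen : IsOpen {w : ℂ | w ∈ ball (0 : ℂ) 16 ∧ k w ≠ 0} :=
    hk.continuousOn.isOpen_inter_preimage isOpen_ball isOpen_compl_singleton
  obtain ⟨δ, hδ, hthick⟩ := hRcomp.exists_thickening_subset_open hopen
    (fun w hw => ⟨hR16 w hw, hk0 w hw⟩)
  obtain ⟨G, hGd, hGe⟩ := exists_log (U := thickening δ R) isOpen_thickening
    (hRconv.thickening δ) ⟨⟨b, c⟩, self_subset_thickening hδ R (mR c (left_mem_Icc.mpr hcd.le))⟩
    (hk.mono fun w hw => (hthick hw).1) (fun w hw => (hthick hw).2)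
  have hRU : R ⊆ thickening δ R := self_subset_thickening hδ R
  have hgG : ∀ w ∈ R, g w = (∏ j, (w - z j)) * exp (G w) := by
    intro w hw
    rw [hfac w, hGe w (hRU hw)]
  have cR : Continuous (fun t : ℝ => (⟨b, t⟩ : ℂ)) := by
    have : (fun t : ℝ => (⟨b, t⟩ : ℂ)) = fun t : ℝ => (b : ℂ) + (t : ℂ) * I := by
      funext t; apply Complex.ext <;> simp
    rw [this]; fun_prop
  have cL : Continuous (fun t : ℝ => (⟨a, t⟩ : ℂ)) := by
    have : (fun t : ℝ => (⟨a, t⟩ : ℂ)) = fun t : ℝ => (a : ℂ) + (t : ℂ) * I := by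
      funext t; apply Complex.ext <;> simp
    rw [this]; fun_prop
  have cT : Continuous (fun t : ℝ => (⟨t, d⟩ : ℂ)) := by
    have : (fun t : ℝ => (⟨t, d⟩ : ℂ)) = fun t : ℝ => (t : ℂ) + (d : ℂ) * I := by
      funext t; apply Complex.ext <;> simp
    rw [this]; fun_prop
  have cB : Continuous (fun t : ℝ => (⟨t, c⟩ : ℂ)) := by
    have : (fun t : ℝ => (⟨t, c⟩ : ℂ)) = fun t : ℝ => (t : ℂ) + (c : ℂ) * I := by
      funext t; apply Complex.ext <;> simp
    rw [this]; fun_prop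
  have hGc : ContinuousOn G (thickening δ R) := hGd.continuousOn
  have sR := side_osc (z := z) (G := G) (e := e) (g := g) (ν := 1) (γ := fun t => ⟨b, t⟩)
    one_ne_zero cR.continuousOn
    (fun t _ j => by
      have := (hin j).1.2
      simp; linarith)
    (hGc.comp cR.continuousOn fun t ht => hRU (mR t ht)) heR (fun t ht => hgG _ (mR t ht)) hzR
  have sL := side_osc (z := z) (G := G) (e := e) (g := g) (ν := -1) (γ := fun t => ⟨a, t⟩)
    (neg_ne_zero.mpr one_ne_zero) cL.continuousOn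
    (fun t _ j => by
      have := (hin j).1.1
      simp; linarith)
    (hGc.comp cL.continuousOn fun t ht => hRU (mL t ht)) heL (fun t ht => hgG _ (mL t ht)) hzL
  have sT := side_osc (z := z) (G := G) (e := e) (g := g) (ν := -I) (γ := fun t => ⟨t, d⟩)
    (neg_ne_zero.mpr I_ne_zero) cT.continuousOn
    (fun t _ j => by
      have := (hin j).2.2
      simp; linarith)
    (hGc.comp cT.continuousOn fun t ht => hRU (mT t ht)) heT (fun t ht => hgG _ (mT t ht)) hzT
  have sB := side_osc (z := z) (G := G) (e := e) (g := g) (ν := I) (γ := fun t => ⟨t, c⟩)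
    I_ne_zero cB.continuousOn
    (fun t _ j => by
      have := (hin j).2.1
      simp; linarith)
    (hGc.comp cB.continuousOn fun t ht => hRU (mB t ht)) heB (fun t ht => hgG _ (mB t ht)) hzB
  have la : a ∈ Icc a b := left_mem_Icc.mpr hab.le
  have lb : b ∈ Icc a b := right_mem_Icc.mpr hab.le
  have lc : c ∈ Icc c d := left_mem_Icc.mpr hcd.le
  have ld : d ∈ Icc c d := right_mem_Icc.mpr hcd.le
  have hpi := Real.pi_pos
  have hpi4 := Real.pi_le_four
  -- the number of zeros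
  have hm : (m : ℝ) ≤ 2 * (n + 1) := by
    have c1 : ∀ j, arg (((⟨b, d⟩ : ℂ) - z j) * -I) =
        arg (((⟨b, d⟩ : ℂ) - z j) * 1) - Real.pi / 2 := by
      intro j
      rw [mul_one]
      have h1 := (hin j).1.2
      have h2 := (hin j).2.2
      apply arg_mul_neg_I
      · simp; linarith
      · simp; linarith
    have c2 : ∀ j, arg (((⟨a, d⟩ : ℂ) - z j) * -1) =
        arg (((⟨a, d⟩ : ℂ) - z j) * -I) - Real.pi / 2 := by
      intro j
      have h1 := (hin j).1.1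
      have h2 := (hin j).2.2
      have e1 : ((⟨a, d⟩ : ℂ) - z j) * -1 = (((⟨a, d⟩ : ℂ) - z j) * -I) * -I := by
        rw [mul_assoc]; congr 1; simp
      rw [e1]
      apply arg_mul_neg_I
      · simp; linarith
      · simp; linarith
    have c3 : ∀ j, arg (((⟨a, c⟩ : ℂ) - z j) * I) =
        arg (((⟨a, c⟩ : ℂ) - z j) * -1) - Real.pi / 2 := by
      intro j
      have h1 := (hin j).1.1
      have h2 := (hin j).2.1
      have e1 : ((⟨a, c⟩ : ℂ) - z j) * I = (((⟨a, c⟩ : ℂ) - z j) * -1) * -I := by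
        ring
      rw [e1]
      apply arg_mul_neg_I
      · simp; linarith
      · simp; linarith
    have c4 : ∀ j, arg (((⟨b, c⟩ : ℂ) - z j) * 1) =
        arg (((⟨b, c⟩ : ℂ) - z j) * I) - Real.pi / 2 := by
      intro j
      have h1 := (hin j).1.2
      have h2 := (hin j).2.1
      have e1 : ((⟨b, c⟩ : ℂ) - z j) * 1 = (((⟨b, c⟩ : ℂ) - z j) * I) * -I := by
        rw [mul_assoc]; congr 1; simp
      rw [e1]
      apply arg_mul_neg_I
      · simp; linarith
      · simp; linarith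
    have t1 := (abs_le.mp (sR d ld c lc)).2
    have t2 := (abs_le.mp (sT a la b lb)).2
    have t3 := (abs_le.mp (sL c lc d ld)).2
    have t4 := (abs_le.mp (sB b lb a la)).2
    simp only [c1, c2, c3, c4, Finset.sum_sub_distrib, Finset.sum_const, Finset.card_univ,
      Fintype.card_fin, nsmul_eq_mul] at t1 t2 t3 t4
    have t5 : 2 * Real.pi * m ≤ 4 * (Real.pi * (n + 1)) := by linarith
    have t6 : Real.pi * m ≤ Real.pi * (2 * (n + 1)) := by linarith
    exact le_of_mul_le_mul_left t6 hpi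
  -- the oscillation of the imaginary part on the sides
  set D : ℝ := Real.pi * (n + 1) + 2 * c0 + 2 * Real.pi * m with hDdef
  have hDpos : 0 < D := by positivity
  have hargs : ∀ (w1 w2 : ℂ) (ν : ℂ),
      |∑ j, arg ((w1 - z j) * ν) - ∑ j, arg ((w2 - z j) * ν)| ≤ 2 * Real.pi * m := by
    intro w1 w2 ν
    rw [← Finset.sum_sub_distrib]
    refine (Finset.abs_sum_le_sum_abs _ _).trans ?_
    calc ∑ j, |arg ((w1 - z j) * ν) - arg ((w2 - z j) * ν)| ≤ ∑ _j : Fin m, 2 * Real.pi := by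
          apply Finset.sum_le_sum
          intro j _
          have h1 := abs_arg_le_pi ((w1 - z j) * ν)
          have h2 := abs_arg_le_pi ((w2 - z j) * ν)
          have := abs_sub (arg ((w1 - z j) * ν)) (arg ((w2 - z j) * ν))
          linarith
      _ = 2 * Real.pi * m := by simp; ring
  have comb : ∀ {x1 x2 y1 y2 s1 s2 : ℝ}, |(x1 + y1 + s1) - (x2 + y2 + s2)| ≤ Real.pi * (n + 1) →
      |y1| ≤ c0 → |y2| ≤ c0 → |s1 - s2| ≤ 2 * Real.pi * m → |x1 - x2| ≤ D := by
    intro x1 x2 y1 y2 s1 s2 h1 h2 h3 h4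
    have h1' := abs_le.mp h1
    have h2' := abs_le.mp h2
    have h3' := abs_le.mp h3
    have h4' := abs_le.mp h4
    rw [abs_le, hDdef]
    constructor <;> linarith
  have oR : ∀ t1 ∈ Icc c d, ∀ t2 ∈ Icc c d, |(G ⟨b, t1⟩).im - (G ⟨b, t2⟩).im| ≤ D :=
    fun t1 h1 t2 h2 => comb (sR t1 h1 t2 h2) (hbR t1 h1) (hbR t2 h2) (hargs _ _ _)
  have oL : ∀ t1 ∈ Icc c d, ∀ t2 ∈ Icc c d, |(G ⟨a, t1⟩).im - (G ⟨a, t2⟩).im| ≤ D :=
    fun t1 h1 t2 h2 => comb (sL t1 h1 t2 h2) (hbL t1 h1) (hbL t2 h2) (hargs _ _ _)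
  have oT : ∀ t1 ∈ Icc a b, ∀ t2 ∈ Icc a b, |(G ⟨t1, d⟩).im - (G ⟨t2, d⟩).im| ≤ D :=
    fun t1 h1 t2 h2 => comb (sT t1 h1 t2 h2) (hbT t1 h1) (hbT t2 h2) (hargs _ _ _)
  have oB : ∀ t1 ∈ Icc a b, ∀ t2 ∈ Icc a b, |(G ⟨t1, c⟩).im - (G ⟨t2, c⟩).im| ≤ D :=
    fun t1 h1 t2 h2 => comb (sB t1 h1 t2 h2) (hbB t1 h1) (hbB t2 h2) (hargs _ _ _)
  have hlog := log_bound hGd ha.2 hb.1 hc.2 hd.1 hRU (b0 := (G ⟨b, c⟩).im) (D := 3 * D)
    (by positivity)
    (fun t ht => by
      have := oR t ht c lc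
      linarith)
    (fun t ht => by
      have h1 := abs_le.mp (oL t ht d ld)
      have h2 := abs_le.mp (oT a la b lb)
      have h3 := abs_le.mp (oR d ld c lc)
      rw [abs_le]
      constructor <;> linarith)
    (fun t ht => by
      have h2 := abs_le.mp (oT t ht b lb)
      have h3 := abs_le.mp (oR d ld c lc)
      rw [abs_le]
      constructor <;> linarith)
    (fun t ht => by
      have := oB t ht b lb
      linarith)
  -- real parts
  have hre : ∀ w : ℂ, ‖w‖ ≤ 2.85 → |(G w).re - (G 0).re| ≤ 228 * D := by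
    intro w hw
    have h1 := hlog w hw
    have h2 := abs_re_le_norm (G w - G 0)
    rw [sub_re] at h2
    linarith
  have hmemR : ∀ w : ℂ, ‖w‖ ≤ 2.85 → w ∈ R := by
    intro w hw
    have h1 := abs_le.mp ((abs_re_le_norm w).trans hw)
    have h2 := abs_le.mp ((abs_im_le_norm w).trans hw)
    norm_num at h1 h2
    exact ⟨⟨by linarith [h1.1, ha.2], by linarith [h1.2, hb.1]⟩,
      ⟨by linarith [h2.1, hc.2], by linarith [h2.2, hd.1]⟩⟩
  have hlow : (1 / 2 : ℝ) ^ m ≤ M * Real.exp (-(G 0).re + 228 * D) := by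
    apply pow_le_of_prod_le z (by norm_num)
    intro v hv
    have hv' : ‖v‖ ≤ 2.85 := by rw [hv]; norm_num
    have h1 := hM v hv
    rw [hgG v (hmemR v hv'), norm_mul, norm_prod, norm_exp] at h1
    have h2 := (abs_le.mp (hre v hv')).1
    have h3 : Real.exp ((G 0).re - 228 * D) ≤ Real.exp (G v).re := by
      apply Real.exp_le_exp.mpr; linarith
    have h4 : (∏ j, ‖v - z j‖) * Real.exp ((G 0).re - 228 * D) ≤ M :=
      (mul_le_mul_of_nonneg_left h3 (Finset.prod_nonneg fun j _ => norm_nonneg _)).trans h1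
    calc ∏ j, ‖v - z j‖ = (∏ j, ‖v - z j‖) * Real.exp ((G 0).re - 228 * D) *
          Real.exp (-(G 0).re + 228 * D) := by
          rw [mul_assoc, ← Real.exp_add]
          have : (G 0).re - 228 * D + (-(G 0).re + 228 * D) = 0 := by ring
          rw [this, Real.exp_zero, mul_one]
      _ ≤ M * Real.exp (-(G 0).re + 228 * D) :=
          mul_le_mul_of_nonneg_right h4 (Real.exp_pos _).le
  intro v hv
  rw [hgG v (hmemR v hv), norm_mul, norm_prod, norm_exp]
  have h5 : ∏ j, ‖v - z j‖ ≤ (10 : ℝ) ^ m := by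
    have : ∏ j, ‖v - z j‖ ≤ ∏ _j : Fin m, (10 : ℝ) := by
      apply Finset.prod_le_prod
      · intro j _; exact norm_nonneg _
      · intro j _
        have := norm_sub_le v (z j)
        have := hRn (z j) (hz1 j)
        norm_num at *
        linarith
    simpa using this
  have h6 : Real.exp (G v).re ≤ Real.exp ((G 0).re + 228 * D) := by
    apply Real.exp_le_exp.mpr
    linarith [(abs_le.mp (hre v hv)).2]
  have h7 : Real.exp ((G 0).re) ≤ 2 ^ m * M * Real.exp (228 * D) := by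
    have e1 : M * Real.exp (-(G 0).re + 228 * D) =
        M * Real.exp (228 * D) / Real.exp ((G 0).re) := by
      rw [add_comm, ← sub_eq_add_neg, Real.exp_sub]; ring
    rw [e1, le_div_iff₀ (Real.exp_pos _)] at hlow
    have e2 : (1 / 2 : ℝ) ^ m = (2 ^ m)⁻¹ := by rw [one_div, inv_pow]
    rw [e2, inv_mul_le_iff₀ (by positivity)] at hlow
    linarith
  have h8 : (20 : ℝ) ^ m ≤ Real.exp (3 * m) := by
    have : (20 : ℝ) ≤ Real.exp 3 := by
      have h9 := Real.exp_one_gt_d9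
      have h10 : Real.exp 3 = Real.exp 1 ^ 3 := by
        rw [← Real.exp_nat_mul]; norm_num
      rw [h10]
      have h11 : (2.7182818283 : ℝ) ^ 3 ≤ Real.exp 1 ^ 3 := by
        apply pow_le_pow_left₀ (by norm_num) h9.le
      have h12 : (20 : ℝ) ≤ 2.7182818283 ^ 3 := by norm_num
      linarith
    calc (20 : ℝ) ^ m ≤ Real.exp 3 ^ m := pow_le_pow_left₀ (by norm_num) this m
      _ = Real.exp (3 * m) := by rw [← Real.exp_nat_mul]; congr 1; ring
  have hn0 : (0 : ℝ) ≤ n := Nat.cast_nonneg n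
  have hm0 : (0 : ℝ) ≤ m := Nat.cast_nonneg m
  have hexp : 3 * (m : ℝ) + 228 * D + 228 * D ≤ 10000 * (1 + n + c0) := by
    have h9 : D ≤ 20 * (n + 1) + 2 * c0 := by
      have h10 : Real.pi * (n + 1) ≤ 4 * (n + 1) := by
        apply mul_le_mul_of_nonneg_right hpi4 (by linarith)
      have h11 : 2 * Real.pi * m ≤ 16 * (n + 1) := by
        calc 2 * Real.pi * m ≤ 2 * 4 * (2 * (n + 1)) := by
              apply mul_le_mul _ hm hm0 (by norm_num)
              linarith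
          _ = 16 * (n + 1) := by ring
      linarith
    linarith
  calc (∏ j, ‖v - z j‖) * Real.exp (G v).re
      ≤ 10 ^ m * Real.exp ((G 0).re + 228 * D) := by
        apply mul_le_mul h5 h6 (Real.exp_pos _).le (by positivity)
    _ = 10 ^ m * Real.exp (228 * D) * Real.exp ((G 0).re) := by rw [Real.exp_add]; ring
    _ ≤ 10 ^ m * Real.exp (228 * D) * (2 ^ m * M * Real.exp (228 * D)) :=
        mul_le_mul_of_nonneg_left h7 (by positivity)
    _ = 20 ^ m * (Real.exp (228 * D) * Real.exp (228 * D)) * M := by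
        have : (20 : ℝ) ^ m = 10 ^ m * 2 ^ m := by rw [← mul_pow]; norm_num
        rw [this]; ring
    _ ≤ Real.exp (3 * m) * (Real.exp (228 * D) * Real.exp (228 * D)) * M := by
        apply mul_le_mul_of_nonneg_right _ hM0
        apply mul_le_mul_of_nonneg_right h8 (by positivity)
    _ = Real.exp (3 * m + 228 * D + 228 * D) * M := by
        rw [Real.exp_add, Real.exp_add]; ring
    _ ≤ Real.exp (10000 * (1 + n + c0)) * M := by
        apply mul_le_mul_of_nonneg_right _ hM0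
        exact Real.exp_le_exp.mpr hexp

end Pool.Agent.H24.Growth
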