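import Mathlib

set_option autoImplicit false

/-!
# Growth estimates for finite sums of solutions of Schroedinger equations in one variable
-/

namespace Pool.Agent.H24

open Set

/-- `VCls σ [μ₁, …, μₙ] g`: the operator `∏ (d²/ds² + σ + μᵢ)` kills `g`. -/
def VCls (σ : ℝ → ℝ) : List ℝ → (ℝ → ℝ) → Prop
  | [], g => ∀ s, g s = 0
  | μ :: l, g => Differentiable ℝ g ∧ Differentiable ℝ (deriv g) ∧
      VCls σ l (fun s => deriv (deriv g) s + (σ s + μ) * g s)

lemma VCls.differentiable {σ : ℝ → ℝ} : ∀ {l : List ℝ} {g : ℝ → ℝ}, VCls σ l g →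
    Differentiable ℝ g
  | [], g, h => by
    have : g = fun _ => 0 := funext h
    rw [this]; exact differentiable_const 0
  | _ :: _, _, h => h.1

lemma deriv_neg_fun (g : ℝ → ℝ) : deriv (fun s => -g s) = fun s => -deriv g s := by
  funext s; exact deriv.fun_neg

lemma VCls.neg {σ : ℝ → ℝ} : ∀ {l : List ℝ} {g : ℝ → ℝ}, VCls σ l g →
    VCls σ l (fun s => -g s)
  | [], g, h => fun s => by simp [h s]
  | μ :: l, g, h => by
    obtain ⟨h1, h2, h3⟩ := h
    refine ⟨h1.neg, ?_, ?_⟩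
    · rw [deriv_neg_fun]; exact h2.neg
    · have h4 := VCls.neg h3
      have e : (fun s => deriv (deriv fun s => -g s) s + (σ s + μ) * -g s) =
          fun s => -(deriv (deriv g) s + (σ s + μ) * g s) := by
        funext s
        rw [deriv_neg_fun, deriv_neg_fun]; ring
      rw [e]; exact h4

/-- If `g'' ≥ m` on `[t - ℓ, t + ℓ]`, the second difference is at least `m ℓ²`. -/
lemma second_difference_ge {g : ℝ → ℝ} (h1 : Differentiable ℝ g)
    (h2 : Differentiable ℝ (deriv g)) {t ℓ m : ℝ} (hℓ : 0 < ℓ)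
    (hm : ∀ s ∈ Icc (t - ℓ) (t + ℓ), m ≤ deriv (deriv g) s) :
    m * ℓ ^ 2 ≤ g (t + ℓ) + g (t - ℓ) - 2 * g t := by
  set f : ℝ → ℝ := fun s => g s - m / 2 * s ^ 2 with hf
  have hd : ∀ s, HasDerivAt f (deriv g s - m * s) s := by
    intro s
    have := (h1 s).hasDerivAt.sub (((hasDerivAt_id s).pow 2).const_mul (m / 2))
    exact this.congr_deriv (by simp; ring)
  have hdf : deriv f = fun s => deriv g s - m * s := funext fun s => (hd s).deriv
  have hdd : ∀ s, HasDerivAt (deriv f) (deriv (deriv g) s - m) s := by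
    intro s
    rw [hdf]
    have := (h2 s).hasDerivAt.sub ((hasDerivAt_id s).const_mul m)
    exact this.congr_deriv (by simp)
  have hconv : ConvexOn ℝ (Icc (t - ℓ) (t + ℓ)) f := by
    apply convexOn_of_deriv2_nonneg (convex_Icc _ _)
    · exact (fun s _ => (hd s).continuousAt.continuousWithinAt)
    · exact (fun s _ => (hd s).differentiableAt.differentiableWithinAt)
    · exact (fun s _ => (hdd s).differentiableAt.differentiableWithinAt)
    · intro s hs
      rw [interior_Icc] at hs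
      simp only [Function.iterate_succ, Function.iterate_zero, Function.comp_apply, id_eq]
      rw [(hdd s).deriv]
      have := hm s ⟨hs.1.le, hs.2.le⟩
      linarith
  have hmid := hconv.2 (show t + ℓ ∈ Icc (t - ℓ) (t + ℓ) from ⟨by linarith, le_rfl⟩)
    (show t - ℓ ∈ Icc (t - ℓ) (t + ℓ) from ⟨le_rfl, by linarith⟩)
    (show (0 : ℝ) ≤ 1 / 2 by norm_num) (show (0 : ℝ) ≤ 1 / 2 by norm_num) (by norm_num)
  have e : (1 / 2 : ℝ) • (t + ℓ) + (1 / 2 : ℝ) • (t - ℓ) = t := by
    simp only [smul_eq_mul]; ring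
  rw [e] at hmid
  simp only [hf, smul_eq_mul] at hmid
  nlinarith only [hmid]

/-- Bound on the first derivative from bounds on the function and its second derivative. -/
lemma deriv_bound {g : ℝ → ℝ} (h1 : Differentiable ℝ g)
    (h2 : Differentiable ℝ (deriv g)) {a c S R : ℝ} (hc : 0 < c)
    (hS : ∀ s ∈ Icc a (a + c), |g s| ≤ S)
    (hR : ∀ s ∈ Icc a (a + c), |deriv (deriv g) s| ≤ R) :
    ∀ s ∈ Icc a (a + c), |deriv g s| ≤ 2 * S / c + R * c := by
  intro s hs
  obtain ⟨ξ, hξ, hξ2⟩ := exists_deriv_eq_slope g (show a < a + c by linarith)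
    h1.continuous.continuousOn (h1.differentiableOn)
  have hξ3 : |deriv g ξ| ≤ 2 * S / c := by
    rw [hξ2, abs_div, add_sub_cancel_left, abs_of_pos hc]
    apply div_le_div_of_nonneg_right _ hc.le
    have h3 := hS a ⟨le_rfl, by linarith⟩
    have h4 := hS (a + c) ⟨by linarith, le_rfl⟩
    calc |g (a + c) - g a| ≤ |g (a + c)| + |g a| := abs_sub _ _
      _ ≤ 2 * S := by linarith
  have hR0 : 0 ≤ R := (abs_nonneg _).trans (hR s hs)
  have hlip : |deriv g s - deriv g ξ| ≤ R * |s - ξ| := by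
    have := (convex_Icc a (a + c)).norm_image_sub_le_of_norm_deriv_le (f := deriv g) (C := R)
      (fun x _ => h2 x) (fun x hx => hR x hx) (show ξ ∈ Icc a (a + c) from ⟨hξ.1.le, hξ.2.le⟩) hs
    simpa [Real.norm_eq_abs] using this
  have hdist : |s - ξ| ≤ c := by
    rw [abs_le]; constructor
    · linarith [hs.1, hξ.2]
    · linarith [hs.2, hξ.1]
  have h5 : |deriv g s| ≤ |deriv g ξ| + |deriv g s - deriv g ξ| := by
    have := abs_add_le (deriv g ξ) (deriv g s - deriv g ξ)
    rwa [add_sub_cancel] at this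
  have h6 : R * |s - ξ| ≤ R * c := mul_le_mul_of_nonneg_left hdist hR0
  linarith only [hξ3, hlip, h5, h6]

/-- Markov type inequality for the classes `VCls`. -/
lemma markov (n : ℕ) (Λ c : ℝ) (hΛ : 0 ≤ Λ) (hc : 0 < c) :
    ∃ M : ℝ, 0 ≤ M ∧ ∀ (l : List ℝ), l.length = n → (∀ μ ∈ l, |μ| ≤ Λ) →
      ∀ σ : ℝ → ℝ, (∀ s, |σ s| ≤ Λ) → ∀ g : ℝ → ℝ, VCls σ l g → ∀ a S : ℝ,
        (∀ s ∈ Icc a (a + c), |g s| ≤ S) →
        ∀ s ∈ Icc a (a + c), |deriv g s| ≤ M * S ∧ |deriv (deriv g) s| ≤ M * S := by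
  induction n with
  | zero =>
    refine ⟨0, le_rfl, ?_⟩
    intro l hl _ σ _ g hg a S hS s _
    have hl' : l = [] := List.length_eq_zero_iff.mp hl
    subst hl'
    have : g = fun _ => 0 := funext hg
    rw [this]; simp
  | succ n ih =>
    obtain ⟨M', hM', ih⟩ := ih
    set ℓ : ℝ := min (c / 2) (1 / (4 * (M' + 1))) with hℓ
    have hℓ0 : 0 < ℓ := by
      rw [hℓ]; apply lt_min (by linarith); positivity
    have hℓc : ℓ ≤ c / 2 := min_le_left _ _
    have hℓM : ℓ ≤ 1 / (4 * (M' + 1)) := min_le_right _ _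
    set Q0 : ℝ := 8 / ℓ ^ 2 + 4 * Λ with hQ0
    have hQ0p : 0 ≤ Q0 := by rw [hQ0]; positivity
    set M2 : ℝ := Q0 + 2 * Λ with hM2
    have hM2p : 0 ≤ M2 := by rw [hM2]; positivity
    refine ⟨2 / c + M2 * c + M2, by positivity, ?_⟩
    intro l hl hμ σ hσ g hg a S hS
    match l, hl, hμ, hg with
    | μ :: l, hl, hμ, hg =>
    have hlen : l.length = n := by simpa using hl
    have hμ1 : |μ| ≤ Λ := hμ μ (by simp)
    have hμl : ∀ ν ∈ l, |ν| ≤ Λ := fun ν hν => hμ ν (by simp [hν])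
    obtain ⟨hg1, hg2, hgq⟩ := hg
    set q : ℝ → ℝ := fun s => deriv (deriv g) s + (σ s + μ) * g s with hq
    have hqd : Differentiable ℝ q := hgq.differentiable
    have haI : a ∈ Icc a (a + c) := ⟨le_rfl, by linarith only [hℓ0, hℓc]⟩
    have hS0 : 0 ≤ S := (abs_nonneg _).trans (hS a haI)
    obtain ⟨s0, hs0, hmax⟩ := (isCompact_Icc (a := a) (b := a + c)).exists_isMaxOn ⟨a, haI⟩
      (hqd.continuous.abs.continuousOn)
    set Q : ℝ := |q s0| with hQ
    have hQle : ∀ s ∈ Icc a (a + c), |q s| ≤ Q := fun s hs => hmax hs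
    have hQ0' : 0 ≤ Q := abs_nonneg _
    have hqder : ∀ s ∈ Icc a (a + c), |deriv q s| ≤ M' * Q := fun s hs =>
      (ih l hlen hμl σ hσ q hgq a Q hQle s hs).1
    have hlow : ∀ s, |(σ s + μ) * g s| ≤ 2 * Λ * |g s| := by
      intro s
      rw [abs_mul]
      apply mul_le_mul_of_nonneg_right _ (abs_nonneg _)
      calc |σ s + μ| ≤ |σ s| + |μ| := abs_add_le _ _
        _ ≤ 2 * Λ := by linarith only [hμ1, hσ s]
    -- the interval J
    set t : ℝ := max (a + ℓ) (min (a + c - ℓ) s0) with ht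
    have ht1 : a + ℓ ≤ t := le_max_left _ _
    have ht2 : t ≤ a + c - ℓ := max_le (by linarith only [hℓc]) (min_le_left _ _)
    have ht3 : |t - s0| ≤ ℓ := by
      rw [abs_le]
      constructor
      · have : s0 - ℓ ≤ t := by
          rcases le_total (a + c - ℓ) s0 with h | h
          · have h7 : a + c - ℓ ≤ t := by rw [ht, min_eq_left h]; exact le_max_right _ _
            linarith only [h7, hs0.2]
          · have h7 : s0 ≤ t := by rw [ht, min_eq_right h]; exact le_max_right _ _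
            linarith only [hℓ0, h7]
        linarith only [this]
      · have : t ≤ s0 + ℓ := by
          apply max_le
          · linarith only [hs0.1]
          · exact (min_le_right _ _).trans (by linarith only [hℓ0])
        linarith only [this]
    have hJ : ∀ s ∈ Icc (t - ℓ) (t + ℓ), s ∈ Icc a (a + c) := by
      intro s hs
      exact ⟨by linarith only [ht1, hs.1], by linarith only [ht2, hs.2]⟩
    have hJs0 : ∀ s ∈ Icc (t - ℓ) (t + ℓ), |q s - q s0| ≤ Q / 2 := by
      intro s hs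
      have h8 := (convex_Icc a (a + c)).norm_image_sub_le_of_norm_deriv_le (f := q) (C := M' * Q)
        (fun x _ => hqd x) (fun x hx => hqder x hx) hs0 (hJ s hs)
      rw [Real.norm_eq_abs, Real.norm_eq_abs] at h8
      have h9 : |s - s0| ≤ 2 * ℓ := by
        have h10 : |s - t| ≤ ℓ := by
          rw [abs_le]; constructor <;> linarith only [hs.1, hs.2]
        calc |s - s0| = |(s - t) + (t - s0)| := by ring_nf
          _ ≤ |s - t| + |t - s0| := abs_add_le _ _
          _ ≤ 2 * ℓ := by linarith only [ht3, h10]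
      have h11 : M' * Q * |s - s0| ≤ M' * Q * (2 * ℓ) :=
        mul_le_mul_of_nonneg_left h9 (by positivity)
      have h12 : M' * (2 * ℓ) ≤ 1 / 2 := by
        have h13 : M' * (2 * ℓ) ≤ M' * (2 * (1 / (4 * (M' + 1)))) :=
          mul_le_mul_of_nonneg_left (by linarith only [hℓM]) hM'
        have h14 : M' * (2 * (1 / (4 * (M' + 1)))) ≤ 1 / 2 := by
          rw [mul_one_div, mul_div_assoc', div_le_iff₀ (by positivity)]
          linarith only []
        linarith only [h13, h14]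
      have h15 : M' * Q * (2 * ℓ) = (M' * (2 * ℓ)) * Q := by ring
      have h16 : (M' * (2 * ℓ)) * Q ≤ 1 / 2 * Q := mul_le_mul_of_nonneg_right h12 hQ0'
      linarith only [h8, h11, h16]
    -- the bound on Q
    have hQS : Q ≤ Q0 * S := by
      have key : ∀ f : ℝ → ℝ, Differentiable ℝ f → Differentiable ℝ (deriv f) →
          (∀ s ∈ Icc a (a + c), |f s| ≤ S) →
          (∀ s ∈ Icc (t - ℓ) (t + ℓ), Q / 2 - 2 * Λ * S ≤ deriv (deriv f) s) → Q ≤ Q0 * S := by
        intro f hf1 hf2 hfS hfm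
        have h17 := second_difference_ge hf1 hf2 hℓ0 hfm
        have h18 := abs_le.mp (hfS (t + ℓ) (hJ _ ⟨by linarith only [hℓ0], le_rfl⟩))
        have h19 := abs_le.mp (hfS (t - ℓ) (hJ _ ⟨le_rfl, by linarith only [hℓ0]⟩))
        have h20 := abs_le.mp (hfS t (hJ _ ⟨by linarith only [hℓ0], by linarith only [hℓ0]⟩))
        have h21 : (Q / 2 - 2 * Λ * S) * ℓ ^ 2 ≤ 4 * S := by linarith only [h17, h19, h20, h18.2, h19.2, h20.1]
        have hℓ2 : 0 < ℓ ^ 2 := by positivity
        have h22 : Q / 2 - 2 * Λ * S ≤ 4 * S / ℓ ^ 2 := by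
          rw [le_div_iff₀ hℓ2]; exact h21
        have h23 : 4 * S / ℓ ^ 2 = 4 / ℓ ^ 2 * S := by ring
        rw [hQ0]
        have h24 : (8 / ℓ ^ 2 + 4 * Λ) * S = 2 * (4 / ℓ ^ 2 * S) + 4 * Λ * S := by ring
        rw [h24]; linarith only [h22, h23]
      rcases le_total 0 (q s0) with hsgn | hsgn
      · apply key g hg1 hg2 hS
        intro s hs
        have h25 := (abs_le.mp (hJs0 s hs)).1
        have h26 : Q = q s0 := abs_of_nonneg hsgn
        have h27 : q s = deriv (deriv g) s + (σ s + μ) * g s := rfl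
        have h28 := (abs_le.mp ((hlow s).trans (mul_le_mul_of_nonneg_left
          (hS s (hJ s hs)) (by positivity)))).2
        linarith only [h25, h26, h28]
      · apply key (fun s => -g s) hg1.neg (by rw [deriv_neg_fun]; exact hg2.neg)
          (fun s hs => by rw [abs_neg]; exact hS s hs)
        intro s hs
        rw [deriv_neg_fun, deriv_neg_fun]
        have h25 := (abs_le.mp (hJs0 s hs)).2
        have h26 : Q = -q s0 := abs_of_nonpos hsgn
        have h27 : q s = deriv (deriv g) s + (σ s + μ) * g s := rfl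
        have h28 := (abs_le.mp ((hlow s).trans (mul_le_mul_of_nonneg_left
          (hS s (hJ s hs)) (by positivity)))).1
        linarith only [h25, h26, h28]
    have hdd : ∀ s ∈ Icc a (a + c), |deriv (deriv g) s| ≤ M2 * S := by
      intro s hs
      have h29 : deriv (deriv g) s = q s - (σ s + μ) * g s := by simp only [hq]; ring
      rw [h29]
      calc |q s - (σ s + μ) * g s| ≤ |q s| + |(σ s + μ) * g s| := abs_sub _ _
        _ ≤ Q + 2 * Λ * |g s| := add_le_add (hQle s hs) (hlow s)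
        _ ≤ Q0 * S + 2 * Λ * S := by
          apply add_le_add hQS
          exact mul_le_mul_of_nonneg_left (hS s hs) (by positivity)
        _ = M2 * S := by rw [hM2]; ring
    have hd1 := deriv_bound hg1 hg2 hc hS hdd
    intro s hs
    constructor
    · refine (hd1 s hs).trans ?_
      have : (2 / c + M2 * c + M2) * S = 2 * S / c + M2 * S * c + M2 * S := by ring
      rw [this]
      have : 0 ≤ M2 * S := by positivity
      linarith
    · refine (hdd s hs).trans ?_
      have : (2 / c + M2 * c + M2) * S = 2 * S / c + M2 * S * c + M2 * S := by ring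
      rw [this]
      have h30 : 0 ≤ 2 * S / c := by positivity
      have h31 : 0 ≤ M2 * S * c := by positivity
      linarith only [h30, h31]

/-- Growth of solutions of `|g''| ≤ A |g| + B` to the right. -/
lemma growth_right {g : ℝ → ℝ} (h1 : Differentiable ℝ g) (h2 : Differentiable ℝ (deriv g))
    {t0 K A B S0 S1 : ℝ} (hA : 0 ≤ A) (hB : 0 ≤ B)
    (h : ∀ s ∈ Icc t0 (t0 + K), |deriv (deriv g) s| ≤ A * |g s| + B)
    (hS0 : |g t0| ≤ S0) (hS1 : |deriv g t0| ≤ S1) :
    ∀ s ∈ Icc t0 (t0 + K), |g s| ≤ (S0 + S1 + B) * Real.exp ((1 + A) * K) := by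
  intro s hs
  have hK : 0 ≤ K := by linarith [hs.1, hs.2]
  have hS0' : 0 ≤ S0 := (abs_nonneg _).trans hS0
  have hS1' : 0 ≤ S1 := (abs_nonneg _).trans hS1
  have hcont : ContinuousOn (fun s => (g s, deriv g s)) (Icc t0 (t0 + K)) :=
    (h1.continuous.prodMk h2.continuous).continuousOn
  have hder : ∀ x ∈ Ico t0 (t0 + K), HasDerivWithinAt (fun s => (g s, deriv g s))
      (deriv g x, deriv (deriv g) x) (Ici x) x := fun x _ =>
    ((h1 x).hasDerivAt.prodMk (h2 x).hasDerivAt).hasDerivWithinAt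
  have hinit : ‖(g t0, deriv g t0)‖ ≤ S0 + S1 := by
    rw [Prod.norm_mk, Real.norm_eq_abs, Real.norm_eq_abs]
    exact max_le (by linarith) (by linarith)
  have hbd : ∀ x ∈ Ico t0 (t0 + K), ‖(deriv g x, deriv (deriv g) x)‖ ≤
      (1 + A) * ‖(g x, deriv g x)‖ + B := by
    intro x hx
    have hx' : x ∈ Icc t0 (t0 + K) := ⟨hx.1, hx.2.le⟩
    have e1 : |g x| ≤ ‖(g x, deriv g x)‖ := by
      rw [Prod.norm_mk, Real.norm_eq_abs, Real.norm_eq_abs]; exact le_max_left _ _
    have e2 : |deriv g x| ≤ ‖(g x, deriv g x)‖ := by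
      rw [Prod.norm_mk, Real.norm_eq_abs, Real.norm_eq_abs]; exact le_max_right _ _
    have e0 : 0 ≤ ‖(g x, deriv g x)‖ := norm_nonneg _
    rw [Prod.norm_mk (deriv g x), Real.norm_eq_abs, Real.norm_eq_abs]
    apply max_le
    · have : 0 ≤ A * ‖(g x, deriv g x)‖ := by positivity
      linarith
    · have h3 := h x hx'
      have h4 : A * |g x| ≤ A * ‖(g x, deriv g x)‖ := mul_le_mul_of_nonneg_left e1 hA
      linarith
  have hG := norm_le_gronwallBound_of_norm_deriv_right_le hcont hder hinit hbd s hs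
  have e1 : |g s| ≤ ‖(g s, deriv g s)‖ := by
    rw [Prod.norm_mk, Real.norm_eq_abs, Real.norm_eq_abs]; exact le_max_left _ _
  refine (e1.trans hG).trans ?_
  rw [gronwallBound_of_K_ne_0 (by positivity : (1 + A) ≠ 0)]
  have hsK : s - t0 ≤ K := by linarith [hs.2]
  have hexp : Real.exp ((1 + A) * (s - t0)) ≤ Real.exp ((1 + A) * K) :=
    Real.exp_le_exp.mpr (mul_le_mul_of_nonneg_left hsK (by positivity))
  have hexp1 : 0 < Real.exp ((1 + A) * (s - t0)) := Real.exp_pos _
  have h5 : B / (1 + A) ≤ B := by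
    rw [div_le_iff₀ (by positivity)]; nlinarith only [hA, hB]
  have h6 : B / (1 + A) * (Real.exp ((1 + A) * (s - t0)) - 1) ≤
      B * Real.exp ((1 + A) * (s - t0)) := by
    have h7 : 0 ≤ B / (1 + A) := by positivity
    calc B / (1 + A) * (Real.exp ((1 + A) * (s - t0)) - 1)
        ≤ B / (1 + A) * Real.exp ((1 + A) * (s - t0)) :=
          mul_le_mul_of_nonneg_left (by linarith) h7
      _ ≤ B * Real.exp ((1 + A) * (s - t0)) := mul_le_mul_of_nonneg_right h5 hexp1.le
  calc (S0 + S1) * Real.exp ((1 + A) * (s - t0)) +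
        B / (1 + A) * (Real.exp ((1 + A) * (s - t0)) - 1)
      ≤ (S0 + S1) * Real.exp ((1 + A) * (s - t0)) + B * Real.exp ((1 + A) * (s - t0)) := by
        linarith only [h6]
    _ = (S0 + S1 + B) * Real.exp ((1 + A) * (s - t0)) := by ring
    _ ≤ (S0 + S1 + B) * Real.exp ((1 + A) * K) :=
        mul_le_mul_of_nonneg_left hexp (by positivity)

lemma deriv_reflect (g : ℝ → ℝ) : deriv (fun s => g (-s)) = fun s => -deriv g (-s) := by
  funext s; exact deriv_comp_neg g s

lemma deriv_deriv_reflect (g : ℝ → ℝ) :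
    deriv (deriv (fun s => g (-s))) = fun s => deriv (deriv g) (-s) := by
  rw [deriv_reflect]
  funext s
  have h1 : deriv (fun s => -((fun s => deriv g (-s)) s)) s = -deriv (fun s => deriv g (-s)) s := by
    rw [deriv_neg_fun]
  rw [show (fun s => -deriv g (-s)) = fun s => -((fun s => deriv g (-s)) s) from rfl, h1,
    deriv_comp_neg (deriv g) s, neg_neg]

/-- Growth to the left. -/
lemma growth_left {g : ℝ → ℝ} (h1 : Differentiable ℝ g) (h2 : Differentiable ℝ (deriv g))
    {t0 K A B S0 S1 : ℝ} (hA : 0 ≤ A) (hB : 0 ≤ B)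
    (h : ∀ s ∈ Icc (t0 - K) t0, |deriv (deriv g) s| ≤ A * |g s| + B)
    (hS0 : |g t0| ≤ S0) (hS1 : |deriv g t0| ≤ S1) :
    ∀ s ∈ Icc (t0 - K) t0, |g s| ≤ (S0 + S1 + B) * Real.exp ((1 + A) * K) := by
  intro s hs
  have hneg : Differentiable ℝ (fun s : ℝ => -s) := differentiable_neg
  have k1 : Differentiable ℝ (fun s => g (-s)) := h1.comp hneg
  have k2 : Differentiable ℝ (deriv (fun s => g (-s))) := by
    rw [deriv_reflect]; exact (h2.comp hneg).neg
  have := growth_right k1 k2 (t0 := -t0) (K := K) hA hB (S0 := S0) (S1 := S1) (by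
    intro x hx
    rw [deriv_deriv_reflect]
    exact h (-x) ⟨by linarith [hx.2], by linarith [hx.1]⟩) (by simpa using hS0) (by
    rw [deriv_reflect]; simpa using hS1) (-s) ⟨by linarith [hs.2], by linarith [hs.1]⟩
  simpa using this

/-- Control on a long interval from control on a short one. -/
lemma extension (n : ℕ) (Λ c K : ℝ) (hΛ : 0 ≤ Λ) (hc : 0 < c) (hK : 0 ≤ K) :
    ∃ E : ℝ, 0 ≤ E ∧ ∀ (l : List ℝ), l.length = n → (∀ μ ∈ l, |μ| ≤ Λ) →
      ∀ σ : ℝ → ℝ, (∀ s, |σ s| ≤ Λ) → ∀ g : ℝ → ℝ, VCls σ l g → ∀ a S : ℝ,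
        (∀ s ∈ Icc a (a + c), |g s| ≤ S) →
        ∀ s ∈ Icc (a - K) (a + c + K), |g s| ≤ E * S := by
  induction n with
  | zero =>
    refine ⟨0, le_rfl, ?_⟩
    intro l hl _ σ _ g hg a S hS s _
    have hl' : l = [] := List.length_eq_zero_iff.mp hl
    subst hl'
    rw [hg s]; simp
  | succ n ih =>
    obtain ⟨E', hE', ih⟩ := ih
    obtain ⟨M, hM, hMark⟩ := markov (n + 1) Λ c hΛ hc
    set D : ℝ := Real.exp ((1 + 2 * Λ) * (c + K)) with hD
    have hD0 : 0 < D := Real.exp_pos _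
    refine ⟨(1 + M + E' * (M + 2 * Λ)) * D, by positivity, ?_⟩
    intro l hl hμ σ hσ g hg a S hS
    have hMk := hMark l hl hμ σ hσ g hg a S hS
    match l, hl, hμ, hg with
    | μ :: l, hl, hμ, hg =>
    have hlen : l.length = n := by simpa using hl
    have hμ1 : |μ| ≤ Λ := hμ μ (by simp)
    have hμl : ∀ ν ∈ l, |ν| ≤ Λ := fun ν hν => hμ ν (by simp [hν])
    obtain ⟨hg1, hg2, hgq⟩ := hg
    set q : ℝ → ℝ := fun s => deriv (deriv g) s + (σ s + μ) * g s with hq
    have haI : a ∈ Icc a (a + c) := ⟨le_rfl, by linarith⟩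
    have hS0 : 0 ≤ S := (abs_nonneg _).trans (hS a haI)
    have hlow : ∀ s, |(σ s + μ) * g s| ≤ 2 * Λ * |g s| := by
      intro s
      rw [abs_mul]
      apply mul_le_mul_of_nonneg_right _ (abs_nonneg _)
      calc |σ s + μ| ≤ |σ s| + |μ| := abs_add_le _ _
        _ ≤ 2 * Λ := by linarith [hσ s]
    have hqI : ∀ s ∈ Icc a (a + c), |q s| ≤ (M + 2 * Λ) * S := by
      intro s hs
      calc |q s| ≤ |deriv (deriv g) s| + |(σ s + μ) * g s| := abs_add_le _ _
        _ ≤ M * S + 2 * Λ * |g s| := add_le_add (hMk s hs).2 (hlow s)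
        _ ≤ M * S + 2 * Λ * S := by
          have := mul_le_mul_of_nonneg_left (hS s hs) (show 0 ≤ 2 * Λ by positivity)
          linarith
        _ = (M + 2 * Λ) * S := by ring
    have hqE := ih l hlen hμl σ hσ q hgq a _ hqI
    have hode : ∀ s ∈ Icc (a - K) (a + c + K),
        |deriv (deriv g) s| ≤ 2 * Λ * |g s| + E' * ((M + 2 * Λ) * S) := by
      intro s hs
      have h29 : deriv (deriv g) s = q s - (σ s + μ) * g s := by simp only [hq]; ring
      rw [h29]
      calc |q s - (σ s + μ) * g s| ≤ |q s| + |(σ s + μ) * g s| := abs_sub _ _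
        _ ≤ E' * ((M + 2 * Λ) * S) + 2 * Λ * |g s| := add_le_add (hqE s hs) (hlow s)
        _ = _ := by ring
    have hB : 0 ≤ E' * ((M + 2 * Λ) * S) := by positivity
    intro s hs
    rcases le_total a s with has | has
    · have := growth_right hg1 hg2 (t0 := a) (K := c + K) (by positivity) hB
        (fun x hx => hode x ⟨by linarith [hx.1], by linarith [hx.2]⟩)
        (hS a haI) (hMk a haI).1 s ⟨has, by linarith [hs.2]⟩
      refine this.trans (le_of_eq ?_)
      rw [hD]; ring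
    · have := growth_left hg1 hg2 (t0 := a) (K := K) (by positivity) hB
        (fun x hx => hode x ⟨by linarith [hx.1], by linarith [hx.2]⟩)
        (hS a haI) (hMk a haI).1 s ⟨hs.1, has⟩
      refine this.trans ?_
      have h40 : Real.exp ((1 + 2 * Λ) * K) ≤ D := by
        rw [hD]; apply Real.exp_le_exp.mpr
        apply mul_le_mul_of_nonneg_left (by linarith only [hc]) (by positivity)
      calc (S + M * S + E' * ((M + 2 * Λ) * S)) * Real.exp ((1 + 2 * Λ) * K)
          ≤ (S + M * S + E' * ((M + 2 * Λ) * S)) * D :=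
            mul_le_mul_of_nonneg_left h40 (by positivity)
        _ = _ := by ring

/-- Growth from `|g''| ≤ B e^{κ |s|}`. -/
lemma growth_exp {g : ℝ → ℝ} (h1 : Differentiable ℝ g) (h2 : Differentiable ℝ (deriv g))
    {K κ B : ℝ} (hκ : 0 < κ) (hB : 0 ≤ B)
    (h : ∀ s ∈ Icc 0 K, |deriv (deriv g) s| ≤ B * Real.exp (κ * s)) :
    ∀ s ∈ Icc 0 K, |g s| ≤ |g 0| + |deriv g 0| * s + B / κ ^ 2 * Real.exp (κ * s) := by
  have hexp : ∀ (C : ℝ) (x : ℝ), HasDerivAt (fun s => C * Real.exp (κ * s))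
      (C * κ * Real.exp (κ * x)) x := by
    intro C x
    have := (((hasDerivAt_id x).const_mul κ).exp).const_mul C
    exact this.congr_deriv (by simp; ring)
  -- first derivative
  have hd1 : ∀ s ∈ Icc 0 K, ‖deriv g s‖ ≤ |deriv g 0| + B / κ * Real.exp (κ * s) := by
    apply image_norm_le_of_norm_deriv_right_le_deriv_boundary (f' := deriv (deriv g))
      (B' := fun s => B * Real.exp (κ * s)) h2.continuous.continuousOn
      (fun x _ => (h2 x).hasDerivAt.hasDerivWithinAt)
    · rw [Real.norm_eq_abs]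
      have : 0 ≤ B / κ * Real.exp (κ * 0) := by positivity
      linarith
    · intro x
      have := (hexp (B / κ) x).const_add (|deriv g 0|)
      exact this.congr_deriv (by field_simp)
    · intro x hx
      rw [Real.norm_eq_abs]
      exact h x ⟨hx.1, hx.2.le⟩
  have hd2 : ∀ s ∈ Icc 0 K, ‖g s‖ ≤ |g 0| + |deriv g 0| * s + B / κ ^ 2 * Real.exp (κ * s) := by
    apply image_norm_le_of_norm_deriv_right_le_deriv_boundary (f' := deriv g)
      (B' := fun s => |deriv g 0| + B / κ * Real.exp (κ * s)) h1.continuous.continuousOn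
      (fun x _ => (h1 x).hasDerivAt.hasDerivWithinAt)
    · rw [Real.norm_eq_abs]
      have : 0 ≤ B / κ ^ 2 * Real.exp (κ * 0) := by positivity
      linarith
    · intro x
      have h5 := (((hasDerivAt_id x).const_mul (|deriv g 0|)).const_add (|g 0|)).add
        (hexp (B / κ ^ 2) x)
      exact h5.congr_deriv (by field_simp)
    · intro x hx
      exact hd1 x ⟨hx.1, hx.2.le⟩
  intro s hs
  have := hd2 s hs
  rwa [Real.norm_eq_abs] at this

/-- A two-sided version of `growth_exp`. -/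
lemma growth_exp_two_sided {g : ℝ → ℝ} (h1 : Differentiable ℝ g) (h2 : Differentiable ℝ (deriv g))
    {K κ B : ℝ} (hκ : 0 < κ) (hB : 0 ≤ B)
    (h : ∀ s ∈ Icc (-K) K, |deriv (deriv g) s| ≤ B * Real.exp (κ * |s|)) :
    ∀ s ∈ Icc (-K) K, |g s| ≤ |g 0| + |deriv g 0| * |s| + B / κ ^ 2 * Real.exp (κ * |s|) := by
  intro s hs
  rcases le_total 0 s with h0 | h0
  · rw [abs_of_nonneg h0]
    apply growth_exp h1 h2 hκ hB (K := K) _ s ⟨h0, hs.2⟩
    intro x hx
    have := h x ⟨by linarith [hx.1, hx.2], hx.2⟩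
    rwa [abs_of_nonneg hx.1] at this
  · rw [abs_of_nonpos h0]
    have hneg : Differentiable ℝ (fun s : ℝ => -s) := differentiable_neg
    have k1 : Differentiable ℝ (fun s => g (-s)) := h1.comp hneg
    have k2 : Differentiable ℝ (deriv (fun s => g (-s))) := by
      rw [deriv_reflect]; exact (h2.comp hneg).neg
    have := growth_exp k1 k2 hκ hB (K := K) (by
      intro x hx
      rw [deriv_deriv_reflect]
      have := h (-x) ⟨by linarith [hx.2], by linarith [hx.1, hx.2]⟩
      rwa [abs_neg, abs_of_nonneg hx.1] at this) (-s) ⟨by linarith, by linarith [hs.1]⟩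
    simpa [deriv_reflect] using this

/-- The normalized growth estimate: a solution of `u_xx + u_yy + (ρ(x) + σ(y)) u = 0` whose
restrictions to vertical lines are killed by a product of `n` operators `d²/dy² + σ + μᵢ` has
controlled growth from `[-c,c]²` to `[-K,K]²`. -/
lemma core (n : ℕ) (Λ c K : ℝ) (hΛ : 0 ≤ Λ) (hc : 0 < c) (hK : c ≤ K) :
    ∃ E : ℝ, 0 ≤ E ∧ ∀ l : List ℝ, l.length = n → (∀ μ ∈ l, |μ| ≤ Λ) → ∀ ρ σ : ℝ → ℝ,
      (∀ x, |ρ x| ≤ Λ) → (∀ y, |σ y| ≤ Λ) → ∀ u : ℝ → ℝ → ℝ,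
      (∀ y, Differentiable ℝ (fun x => u x y)) →
      (∀ y, Differentiable ℝ (deriv (fun x => u x y))) →
      Continuous (fun p : ℝ × ℝ => u p.1 p.2) →
      (∀ x y, deriv (deriv (fun x => u x y)) x + deriv (deriv (fun y => u x y)) y +
        (ρ x + σ y) * u x y = 0) →
      (∀ x, VCls σ l (fun y => u x y)) →
      ∀ m : ℝ, (∀ x ∈ Icc (-c) c, ∀ y ∈ Icc (-c) c, |u x y| ≤ m) →
        ∀ x ∈ Icc (-K) K, ∀ y ∈ Icc (-K) K, |u x y| ≤ E * m := by
  obtain ⟨M, hM, hMark⟩ := markov n Λ (2 * c) hΛ (by positivity)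
  obtain ⟨E', hE', hExt⟩ := extension n Λ (2 * c) K hΛ (by positivity) (hc.le.trans hK)
  set B0 : ℝ := 2 * Λ + M + 1 with hB0
  have hB0p : 0 < B0 := by rw [hB0]; positivity
  set κ : ℝ := Real.sqrt (2 * B0) with hκ
  have hκp : 0 < κ := Real.sqrt_pos.mpr (by positivity)
  have hκ2 : κ ^ 2 = 2 * B0 := Real.sq_sqrt (by positivity)
  set D0 : ℝ := 1 / c + B0 * (2 * c) with hD0
  have hD0p : 0 ≤ D0 := by rw [hD0]; positivity
  have hK0 : 0 ≤ K := hc.le.trans hK
  refine ⟨E' * (2 * (1 + D0 * K) * Real.exp (κ * K)), by positivity, ?_⟩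
  intro l hlen hlist ρ σ hρ hσ u uxdiff uxxdiff ucont hpde uV m hm
  have h0c : (0 : ℝ) ∈ Icc (-c) c := ⟨by linarith only [hc], hc.le⟩
  have hm0 : 0 ≤ m := (abs_nonneg _).trans (hm 0 h0c 0 h0c)
  have pde : ∀ x y, deriv (deriv (fun x => u x y)) x =
      -(ρ x + σ y) * u x y - deriv (deriv (fun y => u x y)) y := by
    intro x y
    linarith only [hpde x y]
  -- bound of u_xx by the sup over the short interval
  have uxxb : ∀ x S, (∀ y ∈ Icc (-c) c, |u x y| ≤ S) → ∀ y ∈ Icc (-c) c,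
      |deriv (deriv (fun x => u x y)) x| ≤ B0 * S := by
    intro x S hS y hy
    have hS0 : 0 ≤ S := (abs_nonneg _).trans (hS y hy)
    have h1 : ∀ s ∈ Icc (-c) (-c + 2 * c), |(fun y => u x y) s| ≤ S := by
      intro s hs; exact hS s ⟨hs.1, by linarith [hs.2]⟩
    have h2 := (hMark l hlen hlist σ hσ _ (uV x) (-c) S h1 y
      ⟨hy.1, by linarith [hy.2]⟩).2
    rw [pde]
    calc |-(ρ x + σ y) * u x y - deriv (deriv fun y => u x y) y|
        ≤ |-(ρ x + σ y) * u x y| + |deriv (deriv fun y => u x y) y| := abs_sub _ _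
      _ ≤ 2 * Λ * S + M * S := by
        apply add_le_add _ h2
        rw [abs_mul, abs_neg]
        apply mul_le_mul _ (hS y hy) (abs_nonneg _) (by positivity)
        calc |ρ x + σ y| ≤ |ρ x| + |σ y| := abs_add_le _ _
          _ ≤ 2 * Λ := by linarith [hρ x, hσ y]
      _ ≤ B0 * S := by rw [hB0]; nlinarith only [hS0]
  -- initial derivative
  have hux0 : ∀ y ∈ Icc (-c) c, |deriv (fun x => u x y) 0| ≤ D0 * m := by
    intro y hy
    have := deriv_bound (uxdiff y) (uxxdiff y) (a := -c) (c := 2 * c) (S := m) (R := B0 * m)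
      (by positivity) (fun x hx => hm x ⟨hx.1, by linarith [hx.2]⟩ y hy)
      (fun x hx => uxxb x m (fun y' hy' => hm x ⟨hx.1, by linarith [hx.2]⟩ y' hy') y hy) 0
      ⟨by linarith, by linarith only [hc]⟩
    refine this.trans (le_of_eq ?_)
    rw [hD0]; field_simp
  -- maximum of the weighted function
  have hcomp : IsCompact (Icc (-K) K ×ˢ Icc (-c) c) := isCompact_Icc.prod isCompact_Icc
  have hne : (Icc (-K) K ×ˢ Icc (-c) c).Nonempty :=
    ⟨(0, 0), ⟨⟨by linarith only [hc, hK], hK0⟩, h0c⟩⟩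
  have hwc : ContinuousOn (fun p : ℝ × ℝ => |u p.1 p.2| * Real.exp (-(κ * |p.1|)))
      (Icc (-K) K ×ˢ Icc (-c) c) := by
    apply Continuous.continuousOn
    apply Continuous.mul ucont.abs
    apply Real.continuous_exp.comp
    exact (continuous_const.mul continuous_fst.abs).neg
  obtain ⟨⟨xs, ys⟩, ⟨hxs, hys⟩, hmax⟩ := hcomp.exists_isMaxOn hne hwc
  set H : ℝ := |u xs ys| * Real.exp (-(κ * |xs|)) with hH
  have hHp : 0 ≤ H := by rw [hH]; positivity
  have hule : ∀ x ∈ Icc (-K) K, ∀ y ∈ Icc (-c) c, |u x y| ≤ H * Real.exp (κ * |x|) := by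
    intro x hx y hy
    have h1 : |u x y| * Real.exp (-(κ * |x|)) ≤ H := hmax (show (x, y) ∈ _ from ⟨hx, hy⟩)
    rw [Real.exp_neg, ← div_eq_mul_inv, div_le_iff₀ (Real.exp_pos _)] at h1
    exact h1
  have hstar := growth_exp_two_sided (uxdiff ys) (uxxdiff ys) (K := K) (κ := κ) (B := B0 * H) hκp
    (by positivity) (by
      intro x hx
      have := uxxb x _ (hule x hx) ys hys
      linarith only [this]) xs hxs
  have hHle : H ≤ 2 * (1 + D0 * K) * m := by
    have h1 : |u xs ys| = H * Real.exp (κ * |xs|) := by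
      rw [hH, mul_assoc, ← Real.exp_add]
      simp
    have h2 : |u 0 ys| ≤ m := hm 0 h0c ys hys
    have h3 := hux0 ys hys
    have h4 : |xs| ≤ K := abs_le.mpr ⟨hxs.1, hxs.2⟩
    have h5 : |deriv (fun x => u x ys) 0| * |xs| ≤ D0 * m * K :=
      mul_le_mul h3 h4 (abs_nonneg _) (by positivity)
    have h6 : B0 * H / κ ^ 2 = H / 2 := by rw [hκ2]; field_simp
    rw [h6] at hstar
    have h7 : H * Real.exp (κ * |xs|) ≤ m + D0 * m * K + H / 2 * Real.exp (κ * |xs|) := by
      rw [← h1]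
      linarith only [hstar, h2, h5]
    have h8 : 1 ≤ Real.exp (κ * |xs|) := Real.one_le_exp (by positivity)
    have h9 : H * 1 ≤ H * Real.exp (κ * |xs|) := mul_le_mul_of_nonneg_left h8 hHp
    nlinarith only [hstar, h1, h2, h5, h9]
  intro x hx y hy
  have h10 : ∀ s ∈ Icc (-c) (-c + 2 * c), |(fun y => u x y) s| ≤ H * Real.exp (κ * K) := by
    intro s hs
    refine (hule x hx s ⟨hs.1, by linarith [hs.2]⟩).trans ?_
    apply mul_le_mul_of_nonneg_left _ hHp
    apply Real.exp_le_exp.mpr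
    exact mul_le_mul_of_nonneg_left (abs_le.mpr ⟨hx.1, hx.2⟩) hκp.le
  have h11 := hExt l hlen hlist σ hσ _ (uV x) (-c) _ h10 y
    ⟨by linarith [hy.1], by linarith only [hc, hy.2]⟩
  refine h11.trans ?_
  have h12 : H * Real.exp (κ * K) ≤ 2 * (1 + D0 * K) * m * Real.exp (κ * K) :=
    mul_le_mul_of_nonneg_right hHle (Real.exp_pos _).le
  calc E' * (H * Real.exp (κ * K)) ≤ E' * (2 * (1 + D0 * K) * m * Real.exp (κ * K)) :=
        mul_le_mul_of_nonneg_left h12 hE'
    _ = _ := by ring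

end Pool.Agent.H24
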