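import Pool.Agent.H24.TorusEigenspace
import Pool.Agent.H24.LiouvilleCore

set_option autoImplicit false

/-!
# Separation of variables on Liouville tori

On the torus with the metric `(ρ(x) + σ(y)) (dx² + dy²)` the operator `T = ∂_x² + lam ρ` preserves
the eigenspace of the eigenvalue `lam`, its complex eigenvalues are real and at most `Λ lam` in
absolute value.  Hence restrictions of eigenfunctions to vertical lines are in a class `VCls`.
-/

namespace Pool.Agent.H24.Torus

open Set Polynomial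

/-- A periodic function with non-negative derivative has derivative zero. -/
lemma deriv_zero_of_periodic {F F' : ℝ → ℝ} {L : ℝ} (hL : 0 < L)
    (hd : ∀ x, HasDerivAt F (F' x) x) (hpos : ∀ x, 0 ≤ F' x) (hper : Function.Periodic F L) :
    ∀ x, F' x = 0 := by
  have hmono : Monotone F := by
    apply monotone_of_deriv_nonneg (fun x => (hd x).differentiableAt)
    intro x; rw [(hd x).deriv]; exact hpos x
  have hconst : ∀ a b, a ≤ b → F a = F b := by
    intro a b hab
    obtain ⟨n, hn⟩ := exists_nat_ge ((b - a) / L)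
    have h1 : b ≤ a + n * L := by
      rw [div_le_iff₀ hL] at hn; linarith
    have h2 : F (a + n * L) = F a := by
      have := hper.nat_mul n a
      simpa using this
    exact le_antisymm (hmono hab) (h2 ▸ hmono h1)
  have hF : F = fun _ => F 0 := by
    funext x
    rcases le_total 0 x with h | h
    · exact (hconst 0 x h).symm
    · exact hconst x 0 h
  intro x
  have h1 := hd x
  rw [hF] at h1
  exact h1.unique (hasDerivAt_const x (F 0))

lemma Smooth2.hasDerivAt_x' {u : ℝ → ℝ → ℝ} (hu : Smooth2 u) (x y : ℝ) :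
    HasDerivAt (fun s => u s y) (Torus.dx u x y) x := (hu.diff_x y x).hasDerivAt

lemma Smooth2.hasDerivAt_y' {u : ℝ → ℝ → ℝ} (hu : Smooth2 u) (x y : ℝ) :
    HasDerivAt (fun t => u x t) (Torus.dy u x y) y := (hu.diff_y x y).hasDerivAt

lemma Periodic2.dx {L1 L2 : ℝ} {u : ℝ → ℝ → ℝ} (hu : Periodic2 L1 L2 u) :
    Periodic2 L1 L2 (dx u) := by
  intro x y
  constructor
  · have h1 : (fun s => u (s + L1) y) = fun s => u s y := funext fun s => (hu s y).1
    have h2 : deriv (fun s => u (s + L1) y) x = deriv (fun s => u s y) (x + L1) :=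
      deriv_comp_add_const (fun s => u s y) L1 x
    simp only [Torus.dx]
    rw [← h2, h1]
  · simp only [Torus.dx]
    have : (fun s => u s (y + L2)) = fun s => u s y := funext fun s => (hu s y).2
    rw [this]

lemma Periodic2.dy {L1 L2 : ℝ} {u : ℝ → ℝ → ℝ} (hu : Periodic2 L1 L2 u) :
    Periodic2 L1 L2 (dy u) := by
  intro x y
  constructor
  · simp only [Torus.dy]
    have : (fun t => u (x + L1) t) = fun t => u x t := funext fun t => (hu x t).1
    rw [this]
  · have h1 : (fun t => u x (t + L2)) = fun t => u x t := funext fun t => (hu x t).2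
    have h2 : deriv (fun t => u x (t + L2)) y = deriv (fun t => u x t) (y + L2) :=
      deriv_comp_add_const (fun t => u x t) L2 y
    simp only [Torus.dy]
    rw [← h2, h1]

/-- The data of a Liouville metric on a torus. -/
structure Liouville (L1 L2 : ℝ) (ρ σ : ℝ → ℝ) : Prop where
  L1_pos : 0 < L1
  L2_pos : 0 < L2
  smooth_rho : ContDiff ℝ (⊤ : ℕ∞) ρ
  smooth_sigma : ContDiff ℝ (⊤ : ℕ∞) σ
  periodic_rho : Function.Periodic ρ L1
  periodic_sigma : Function.Periodic σ L2
  pos : ∀ x y, 0 < ρ x + σ y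

section
variable {L1 L2 lam : ℝ} {ρ σ : ℝ → ℝ}

lemma pde_of_mem (hL : Liouville L1 L2 ρ σ) {u : ℝ → ℝ → ℝ}
    (hu : u ∈ eigenspace (fun x y => ρ x + σ y) L1 L2 lam) (x y : ℝ) :
    dx (dx u) x y + dy (dy u) x y + lam * (ρ x + σ y) * u x y = 0 := by
  have h := hu.2.2 x y
  have hw : ρ x + σ y ≠ 0 := (hL.pos x y).ne'
  simp only [laplaceBeltrami] at h
  field_simp at h
  linarith

lemma mem_of_pde (hL : Liouville L1 L2 ρ σ) {u : ℝ → ℝ → ℝ} (h1 : Smooth2 u)
    (h2 : Periodic2 L1 L2 u)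
    (h3 : ∀ x y, dx (dx u) x y + dy (dy u) x y + lam * (ρ x + σ y) * u x y = 0) :
    u ∈ eigenspace (fun x y => ρ x + σ y) L1 L2 lam := by
  refine ⟨h1, h2, ?_⟩
  intro x y
  have hw : ρ x + σ y ≠ 0 := (hL.pos x y).ne'
  simp only [laplaceBeltrami]
  field_simp
  linarith [h3 x y]

/-- The function `∂_x² u + lam ρ u`. -/
noncomputable def Tfun (lam : ℝ) (ρ : ℝ → ℝ) (u : ℝ → ℝ → ℝ) : ℝ → ℝ → ℝ :=
  fun x y => dx (dx u) x y + lam * ρ x * u x y

lemma dx_mul_y (f : ℝ → ℝ) {u : ℝ → ℝ → ℝ} (hu : Smooth2 u) :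
    dx (fun x y => f y * u x y) = fun x y => f y * dx u x y := by
  funext x y
  exact ((hu.hasDerivAt_x' x y).const_mul (f y)).deriv

lemma dy_mul_x (f : ℝ → ℝ) {u : ℝ → ℝ → ℝ} (hu : Smooth2 u) :
    dy (fun x y => f x * u x y) = fun x y => f x * dy u x y := by
  funext x y
  exact ((hu.hasDerivAt_y' x y).const_mul (f x)).deriv

lemma Smooth2.mul_x {f : ℝ → ℝ} (hf : ContDiff ℝ (⊤ : ℕ∞) f) {u : ℝ → ℝ → ℝ} (hu : Smooth2 u) :
    Smooth2 (fun x y => f x * u x y) :=
  (hf.comp contDiff_fst).mul hu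

lemma Smooth2.mul_y {f : ℝ → ℝ} (hf : ContDiff ℝ (⊤ : ℕ∞) f) {u : ℝ → ℝ → ℝ} (hu : Smooth2 u) :
    Smooth2 (fun x y => f y * u x y) :=
  (hf.comp contDiff_snd).mul hu

lemma Tfun_mem (hL : Liouville L1 L2 ρ σ) {u : ℝ → ℝ → ℝ}
    (hu : u ∈ eigenspace (fun x y => ρ x + σ y) L1 L2 lam) :
    Tfun lam ρ u ∈ eigenspace (fun x y => ρ x + σ y) L1 L2 lam := by
  have hs := hu.1
  have hp := hu.2.1
  have hρ : ContDiff ℝ (⊤ : ℕ∞) (fun x => lam * ρ x) := contDiff_const.mul hL.smooth_rho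
  have hσ : ContDiff ℝ (⊤ : ℕ∞) (fun y => lam * σ y) := contDiff_const.mul hL.smooth_sigma
  have e1 : Tfun lam ρ u = dx (dx u) + fun x y => lam * ρ x * u x y := rfl
  have e2 : Tfun lam ρ u = (-1 : ℝ) • (dy (dy u) + fun x y => lam * σ y * u x y) := by
    funext x y
    have := pde_of_mem hL hu x y
    simp only [Tfun, Pi.smul_apply, Pi.add_apply, smul_eq_mul]
    linarith
  have hR : Smooth2 (fun x y => lam * ρ x * u x y) := Smooth2.mul_x hρ hs
  have hS : Smooth2 (fun x y => lam * σ y * u x y) := Smooth2.mul_y hσ hs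
  have hTs : Smooth2 (Tfun lam ρ u) := by rw [e1]; exact hs.dx.dx.add hR
  apply mem_of_pde hL hTs
  · intro x y
    simp only [Tfun]
    rw [(hp.dx.dx x y).1, (hp.dx.dx x y).2, (hp x y).1, (hp x y).2, hL.periodic_rho x]
    exact ⟨rfl, rfl⟩
  · intro x y
    have d1 : dx (dx (Tfun lam ρ u)) = (-1 : ℝ) • (dx (dx (dy (dy u))) +
        fun x y => lam * σ y * dx (dx u) x y) := by
      have hdx : dx (fun x y => lam * σ y * u x y) = fun x y => lam * σ y * dx u x y :=
        dx_mul_y (fun y => lam * σ y) hs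
      have hdxx : dx (fun x y => lam * σ y * dx u x y) = fun x y => lam * σ y * dx (dx u) x y :=
        dx_mul_y (fun y => lam * σ y) hs.dx
      rw [e2, dx_smul (hs.dy.dy.add hS), dx_add hs.dy.dy hS, hdx,
        dx_smul (hs.dy.dy.dx.add (Smooth2.mul_y hσ hs.dx)),
        dx_add hs.dy.dy.dx (Smooth2.mul_y hσ hs.dx), hdxx]
    have d2 : dy (dy (Tfun lam ρ u)) = dy (dy (dx (dx u))) +
        fun x y => lam * ρ x * dy (dy u) x y := by
      have hdy : dy (fun x y => lam * ρ x * u x y) = fun x y => lam * ρ x * dy u x y :=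
        dy_mul_x (fun x => lam * ρ x) hs
      have hdyy : dy (fun x y => lam * ρ x * dy u x y) = fun x y => lam * ρ x * dy (dy u) x y :=
        dy_mul_x (fun x => lam * ρ x) hs.dy
      rw [e1, dy_add hs.dx.dx hR, hdy, dy_add hs.dx.dx.dy (Smooth2.mul_x hρ hs.dy), hdyy]
    have hcomm : dx (dx (dy (dy u))) = dy (dy (dx (dx u))) := by
      rw [hs.dy.dx_dy_comm, hs.dx_dy_comm, hs.dx.dy.dx_dy_comm, hs.dx.dx_dy_comm]
    have hpde := pde_of_mem hL hu x y
    rw [d1, d2, hcomm]
    simp only [Pi.smul_apply, Pi.add_apply, smul_eq_mul, Tfun]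
    linear_combination lam * ρ x * hpde
end

end Pool.Agent.H24.Torus
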