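import Pool.Agent.H24.SturmLine2

set_option autoImplicit false

/-!
# Sturm's theorem for sums of bounded solutions on the line
-/

namespace Pool.Agent.H24.Sturm

open Set Filter Topology

/-- Both tails: a nonzero bounded solution has no zero where `Γ e^{-2|x|} ≤ 1`. -/
lemma ne_zero_of_tail {g V : ℝ → ℝ} (h1 : Differentiable ℝ g) (h2 : Differentiable ℝ (deriv g))
    {Γ B μ : ℝ} (hΓ0 : 0 ≤ Γ) (hB : ∀ x, |g x| ≤ B) (hV0 : ∀ x, 0 ≤ V x)
    (hV : ∀ x, V x ≤ Γ * Real.exp (-|x|) ^ 2) (hμ : μ = 0 ∨ 1 ≤ μ)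
    (hode : ∀ x, deriv (deriv g) x = (μ - V x) * g x) (hne : ∃ x, g x ≠ 0)
    {z : ℝ} (hz : Γ * Real.exp (-|z|) ^ 2 ≤ 1) : g z ≠ 0 := by
  have hexp : ∀ t : ℝ, Real.exp (-t) ^ 2 = Real.exp (-2 * t) := by
    intro t
    rw [← Real.exp_nat_mul]
    congr 1
    push_cast
    ring
  have huniq : ∀ c d, c < d → (∀ x ∈ Ioo c d, g x = 0) → False := by
    intro c d hcd h0
    have hμ0 : 0 ≤ μ := by rcases hμ with h | h <;> linarith
    have hm : (c + d) / 2 ∈ Ioo c d := ⟨by linarith, by linarith⟩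
    have e1 : g =ᶠ[𝓝 ((c + d) / 2)] fun _ => 0 := by
      filter_upwards [Ioo_mem_nhds hm.1 hm.2] with y hy
      exact h0 y hy
    have e2 : deriv g ((c + d) / 2) = 0 := by
      rw [e1.deriv_eq]; simp
    obtain ⟨x, hx⟩ := hne
    apply hx
    apply eq_zero_of_double_zero (ω := μ + Γ + 1) h1 h2 _ (h0 _ hm) e2 x
    intro y
    rw [hode y, abs_mul]
    apply mul_le_mul_of_nonneg_right _ (abs_nonneg _)
    have h3 : V y ≤ Γ := by
      refine (hV y).trans ?_
      have : Real.exp (-|y|) ^ 2 ≤ 1 := by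
        apply pow_le_one₀ (Real.exp_pos _).le
        exact Real.exp_le_one_iff.mpr (neg_nonpos.mpr (abs_nonneg _))
      nlinarith
    rw [abs_le]
    have h4 := hV0 y
    constructor <;> nlinarith
  intro hgz
  rcases le_total 0 z with h | h
  · have hz' : Γ * Real.exp (-2 * z) ≤ 1 := by
      rw [abs_of_nonneg h, hexp] at hz; exact hz
    have := tail_zero h1 h2 hz' hgz (fun x _ => hB x) hV0 (fun x hx => by
      have := hV x
      rwa [abs_of_nonneg (h.trans hx), hexp] at this) hμ (fun x _ => hode x)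
    exact huniq z (z + 1) (by linarith) fun x hx => this x hx.1.le
  · have hz' : Γ * Real.exp (-2 * -z) ≤ 1 := by
      rw [abs_of_nonpos h, hexp] at hz; exact hz
    have := tail_zero (g := fun s => g (-s)) (V := fun s => V (-s)) (reflect_diff h1)
      (reflect_diff2 h2) hz' (by simpa using hgz) (fun x _ => hB (-x)) (fun x => hV0 (-x))
      (fun x hx => by
        have := hV (-x)
        rwa [abs_neg, abs_of_nonneg (by linarith : (0 : ℝ) ≤ x), hexp] at this) hμ
      (fun x _ => by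
        rw [deriv_deriv_reflect]
        exact hode (-x))
    exact huniq (z - 1) z (by linarith) fun x hx => by
      have h3 := this (-x) (by linarith [hx.2])
      simpa using h3

section
variable {ι : Type*}

/-- **Sturm's theorem on the line**: a nonzero sum of bounded solutions of `F'' = (μ - V) F`,
with distinct parameters `μ ∈ {0} ∪ [1, ∞)` and `0 ≤ V ≤ Γ e^{-2|x|}`, has at most `6 √Γ + 1`
zeros. -/
theorem line_zero_count (S : Finset ι) (μ : ι → ℝ) (F : ι → ℝ → ℝ) (V : ℝ → ℝ) {Γ : ℝ}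
    (hΓ : 1 ≤ Γ) (hVc : Continuous V) (hV0 : ∀ x, 0 ≤ V x)
    (hV : ∀ x, V x ≤ Γ * Real.exp (-|x|) ^ 2)
    (hμ : ∀ i ∈ S, μ i = 0 ∨ 1 ≤ μ i) (hinj : ∀ i ∈ S, ∀ j ∈ S, μ i = μ j → i = j)
    (hbd : ∀ i ∈ S, ∃ B, ∀ x, |F i x| ≤ B)
    (h1 : ∀ i ∈ S, Differentiable ℝ (F i)) (h2 : ∀ i ∈ S, Differentiable ℝ (deriv (F i)))
    (heq : ∀ i ∈ S, ∀ x, deriv (deriv (F i)) x = (μ i - V x) * F i x)
    (hne : ∃ x, ∑ i ∈ S, F i x ≠ 0) (s : Finset ℝ) (hs : ∀ x ∈ s, ∑ i ∈ S, F i x = 0) :
    (s.card : ℝ) ≤ 6 * Real.sqrt Γ + 1 := by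
  classical
  have hΓ0 : 0 < Γ := by linarith
  have hμ0 : ∀ i ∈ S, 0 ≤ μ i := by
    intro i hi
    rcases hμ i hi with h | h <;> linarith
  have hVΓ : ∀ x, V x ≤ Γ := by
    intro x
    refine (hV x).trans ?_
    have : Real.exp (-|x|) ^ 2 ≤ 1 := by
      apply pow_le_one₀ (Real.exp_pos _).le
      exact Real.exp_le_one_iff.mpr (neg_nonpos.mpr (abs_nonneg _))
    nlinarith
  -- remove the components that vanish identically
  set S' := S.filter (fun i => ∃ x, F i x ≠ 0) with hS'
  have hsub : ∀ i ∈ S', i ∈ S := fun i hi => (Finset.mem_filter.mp hi).1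
  have hsum : ∀ x, ∑ i ∈ S', F i x = ∑ i ∈ S, F i x := by
    intro x
    apply Finset.sum_subset (Finset.filter_subset _ _)
    intro i hi hi'
    by_contra hcon
    exact hi' (Finset.mem_filter.mpr ⟨hi, x, hcon⟩)
  have hS'ne : S'.Nonempty := by
    obtain ⟨x, hx⟩ := hne
    rw [← hsum] at hx
    obtain ⟨i, hi, _⟩ := Finset.exists_ne_zero_of_sum_ne_zero hx
    exact ⟨i, hi⟩
  obtain ⟨i0, hi0, hmin⟩ := S'.exists_min_image μ hS'ne
  have hi0S := hsub i0 hi0
  set g := F i0 with hg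
  have hgne : ∃ x, g x ≠ 0 := (Finset.mem_filter.mp hi0).2
  obtain ⟨Bg, hBg⟩ := hbd i0 hi0S
  set A : ℝ := Γ + 1 + ∑ i ∈ S', μ i with hA
  set ν : ι → ℝ := fun i => A - μ i with hν
  set K : ℝ → ℝ := fun x => A - V x with hK
  have hμA : ∀ i ∈ S', μ i ≤ ∑ i ∈ S', μ i := fun i hi =>
    Finset.single_le_sum (f := μ) (fun j hj => hμ0 j (hsub j hj)) hi
  have hν0 : ∀ i ∈ S', 0 < ν i := by
    intro i hi
    have := hμA i hi
    simp only [hν, hA]
    linarith
  have hKpos : ∀ x, 0 < K x := by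
    intro x
    have h3 := hVΓ x
    have h4 : 0 ≤ ∑ i ∈ S', μ i := Finset.sum_nonneg fun j hj => hμ0 j (hsub j hj)
    simp only [hK, hA]
    linarith
  have hKc : Continuous K := continuous_const.sub hVc
  have hlt : ∀ i ∈ S'.erase i0, ν i < ν i0 ∧ 1 ≤ μ i := by
    intro i hi
    have hi' := Finset.mem_erase.mp hi
    have h3 : μ i0 < μ i := by
      refine lt_of_le_of_ne (hmin i hi'.2) ?_
      intro h
      exact hi'.1 (hinj i (hsub i hi'.2) i0 hi0S h.symm)
    refine ⟨by simp only [hν]; linarith, ?_⟩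
    rcases hμ i (hsub i hi'.2) with h | h
    · have := hμ0 i0 hi0S
      linarith
    · exact h
  -- the tail starts at `a0`
  set a0 : ℝ := Real.log Γ / 2 with ha0
  have ha00 : 0 ≤ a0 := by
    have := Real.log_nonneg hΓ
    rw [ha0]; linarith
  have hexpa0 : Real.exp (-a0) ^ 2 * Γ = 1 := by
    rw [← Real.exp_nat_mul, ha0]
    have : ((2 : ℕ) : ℝ) * -(Real.log Γ / 2) = -Real.log Γ := by push_cast; ring
    rw [this, Real.exp_neg, Real.exp_log hΓ0]
    field_simp
  have htailΓ : ∀ x, a0 ≤ |x| → Γ * Real.exp (-|x|) ^ 2 ≤ 1 := by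
    intro x hx
    have h3 : Real.exp (-|x|) ^ 2 ≤ Real.exp (-a0) ^ 2 := by gcongr
    have h4 := mul_le_mul_of_nonneg_left h3 hΓ0.le
    linarith
  have hgtail : ∀ x, a0 ≤ |x| → g x ≠ 0 := fun x hx =>
    ne_zero_of_tail (h1 i0 hi0S) (h2 i0 hi0S) hΓ0.le hBg hV0 hV (hμ i0 hi0S) (heq i0 hi0S) hgne
      (htailΓ x hx)
  -- bounds on the components
  have hcomp : ∀ i ∈ S'.erase i0, ∃ B, 0 ≤ B ∧ (∀ x ∈ Icc (-a0) a0, |F i x| ≤ B ∧
      |deriv (F i) x| ≤ B) ∧ (∀ x, a0 ≤ |x| → |F i x| ≤ B * |g x|) := by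
    intro i hi
    have hi' := Finset.mem_erase.mp hi
    have hiS := hsub i hi'.2
    obtain ⟨BF, hBF⟩ := hbd i hiS
    obtain ⟨B1, hB1⟩ := (isCompact_Icc (a := -a0) (b := a0)).exists_bound_of_continuousOn
      (h1 i hiS).continuous.continuousOn
    obtain ⟨B2, hB2⟩ := (isCompact_Icc (a := -a0) (b := a0)).exists_bound_of_continuousOn
      (h2 i hiS).continuous.continuousOn
    have hV1 : ∀ x, a0 ≤ |x| → V x ≤ 1 := fun x hx => (hV x).trans (htailΓ x hx)
    have hr := tail_ratio (h1 i0 hi0S) (h2 i0 hi0S) (h1 i hiS) (h2 i hiS) (a := a0)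
      (fun x _ => hBg x) (fun x _ => hBF x) (fun x hx => hV1 x (hx.trans (le_abs_self x)))
      (hlt i hi).2 (hmin i hi'.2) (fun x _ => heq i0 hi0S x) (fun x _ => heq i hiS x)
      (fun x hx => hgtail x (hx.trans (le_abs_self x)))
    have hl := tail_ratio (g := fun s => g (-s)) (F := fun s => F i (-s))
      (V := fun s => V (-s)) (reflect_diff (h1 i0 hi0S)) (reflect_diff2 (h2 i0 hi0S))
      (reflect_diff (h1 i hiS)) (reflect_diff2 (h2 i hiS)) (a := a0)
      (fun x _ => hBg (-x)) (fun x _ => hBF (-x))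
      (fun x hx => hV1 (-x) (by rw [abs_neg]; exact hx.trans (le_abs_self x)))
      (hlt i hi).2 (hmin i hi'.2)
      (fun x _ => by rw [deriv_deriv_reflect]; exact heq i0 hi0S (-x))
      (fun x _ => by rw [deriv_deriv_reflect]; exact heq i hiS (-x))
      (fun x hx => hgtail (-x) (by rw [abs_neg]; exact hx.trans (le_abs_self x)))
    set c1 := |F i a0| / |g a0| with hc1
    set c2 := |F i (-a0)| / |g (-a0)| with hc2
    have hc10 : 0 ≤ c1 := by positivity
    have hc20 : 0 ≤ c2 := by positivity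
    refine ⟨|B1| + |B2| + c1 + c2, by positivity, ?_, ?_⟩
    · intro x hx
      have e1 := hB1 x hx
      have e2 := hB2 x hx
      rw [Real.norm_eq_abs] at e1 e2
      have := le_abs_self B1
      have := le_abs_self B2
      have := abs_nonneg B1
      have := abs_nonneg B2
      constructor <;> linarith
    · intro x hx
      have h0 := abs_nonneg B1
      have h0' := abs_nonneg B2
      have hg0 := abs_nonneg (g x)
      rcases le_total 0 x with h | h
      · rw [abs_of_nonneg h] at hx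
        refine (hr x hx).trans (mul_le_mul_of_nonneg_right (by linarith) hg0)
      · rw [abs_of_nonpos h] at hx
        have := hl (-x) hx
        simp only [neg_neg] at this
        exact this.trans (mul_le_mul_of_nonneg_right (by linarith) hg0)
  choose! B hB0 hB1 hB2 using hcomp
  have hν00 : 0 < ν i0 := hν0 i0 hi0
  -- the error term
  set err : ℕ → ℝ := fun k => ∑ i ∈ S'.erase i0, (ν i / ν i0) ^ k * B i with herr
  have hq0 : ∀ i ∈ S'.erase i0, 0 ≤ ν i / ν i0 := fun i hi =>
    div_nonneg (hν0 i (Finset.mem_erase.mp hi).2).le hν00.le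
  have htend0 : ∀ G : ι → ℝ, Tendsto (fun k : ℕ => ∑ i ∈ S'.erase i0, (ν i / ν i0) ^ k * G i)
      atTop (𝓝 0) := by
    intro G
    have : Tendsto (fun k : ℕ => ∑ i ∈ S'.erase i0, (ν i / ν i0) ^ k * G i) atTop
        (𝓝 (∑ i ∈ S'.erase i0, (0 : ℝ) * G i)) := by
      apply tendsto_finsetSum
      intro i hi
      apply Tendsto.mul_const
      apply tendsto_pow_atTop_nhds_zero_of_lt_one (hq0 i hi)
      rw [div_lt_one hν00]; exact (hlt i hi).1
    simpa using this
  have htend : Tendsto err atTop (𝓝 0) := htend0 B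
  -- closeness
  have hident : ∀ (G : ι → ℝ → ℝ) k x, iter S' ν G k x / (-ν i0) ^ k - G i0 x =
      ∑ i ∈ S'.erase i0, (ν i / ν i0) ^ k * G i x := by
    intro G k x
    have hpow : (-ν i0) ^ k ≠ 0 := pow_ne_zero _ (neg_ne_zero.mpr hν00.ne')
    unfold iter
    rw [← Finset.add_sum_erase _ _ hi0, add_div, mul_div_cancel_left₀ _ hpow,
      add_sub_cancel_left, Finset.sum_div]
    apply Finset.sum_congr rfl
    intro i _
    rw [div_pow, neg_pow (ν i), neg_pow (ν i0)]
    have : ((-1 : ℝ)) ^ k ≠ 0 := pow_ne_zero _ (by norm_num)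
    have h3 : ν i0 ^ k ≠ 0 := pow_ne_zero _ hν00.ne'
    field_simp
  have hclose : ∀ (G : ι → ℝ → ℝ) (c : ℝ) k x, (∀ i ∈ S'.erase i0, |G i x| ≤ B i * c) →
      |iter S' ν G k x / (-ν i0) ^ k - G i0 x| ≤ err k * c := by
    intro G c k x hG
    rw [hident, herr]
    simp only
    rw [Finset.sum_mul]
    refine (Finset.abs_sum_le_sum_abs _ _).trans (Finset.sum_le_sum ?_)
    intro i hi
    rw [abs_mul, abs_of_nonneg (pow_nonneg (hq0 i hi) k), mul_assoc]
    exact mul_le_mul_of_nonneg_left (hG i hi) (pow_nonneg (hq0 i hi) k)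
  have d1 : ∀ i ∈ S', Differentiable ℝ (F i) := fun i hi => h1 i (hsub i hi)
  have d2 : ∀ i ∈ S', Differentiable ℝ (deriv (F i)) := fun i hi => h2 i (hsub i hi)
  have deq : ∀ i ∈ S', ∀ x, deriv (deriv (F i)) x = (K x - ν i) * F i x := by
    intro i hi x
    rw [heq i (hsub i hi)]
    simp only [hK, hν]
    ring
  have itd : ∀ k, Differentiable ℝ (iter S' ν F k) := fun k x =>
    (iter_hasDerivAt d1 k x).differentiableAt
  have itdd : ∀ k, Differentiable ℝ (deriv (iter S' ν F k)) := fun k => by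
    rw [iter_deriv d1]
    exact fun x => (iter_hasDerivAt d2 k x).differentiableAt
  have itbd : ∀ k, ∃ B, ∀ x, |iter S' ν F k x| ≤ B := by
    intro k
    choose! b hb using hbd
    refine ⟨∑ i ∈ S', |(-ν i) ^ k| * b i, fun x => ?_⟩
    unfold iter
    refine (Finset.abs_sum_le_sum_abs _ _).trans (Finset.sum_le_sum ?_)
    intro i hi
    rw [abs_mul]
    exact mul_le_mul_of_nonneg_left (hb i (hsub i hi) x) (abs_nonneg _)
  -- vanishing on an interval propagates to later iterates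
  have hprop : ∀ k c d, c < d → (∀ x ∈ Ioo c d, iter S' ν F k x = 0) →
      ∀ j, ∀ x ∈ Ioo c d, iter S' ν F (k + j) x = 0 := by
    intro k c d _ h0 j
    induction j with
    | zero => exact h0
    | succ j ih =>
      intro x hx
      have e1 : iter S' ν F (k + j) =ᶠ[𝓝 x] fun _ => 0 := by
        filter_upwards [Ioo_mem_nhds hx.1 hx.2] with y hy
        exact ih y hy
      have e2 : deriv (iter S' ν F (k + j)) =ᶠ[𝓝 x] fun _ => 0 := by
        refine e1.deriv.trans ?_
        filter_upwards with y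
        simp
      have e3 : deriv (deriv (iter S' ν F (k + j))) x = 0 := by
        rw [e2.deriv_eq]; simp
      have e4 := congrFun (iter_succ d1 d2 deq (k + j)) x
      rw [← add_assoc, ← e4, e3, ih x hx]
      ring
  have hode' : ∀ x, |deriv (deriv g) x| ≤ (μ i0 + Γ + 1) ^ 2 * |g x| := by
    intro y
    rw [hg, heq i0 hi0S y, abs_mul]
    apply mul_le_mul_of_nonneg_right _ (abs_nonneg _)
    have h3 := hVΓ y
    have h4 := hV0 y
    have h5 := hμ0 i0 hi0S
    rw [abs_le]
    constructor <;> nlinarith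
  have hnodouble : ∀ x, g x = 0 → deriv g x ≠ 0 := by
    intro x hx hx'
    obtain ⟨y, hy⟩ := hgne
    exact hy (eq_zero_of_double_zero (h1 i0 hi0S) (h2 i0 hi0S) hode' hx hx' y)
  have hnevan : ∀ k c d, c < d → ∃ x ∈ Ioo c d, iter S' ν F k x ≠ 0 := by
    intro k c d hcd
    by_contra hcon
    push Not at hcon
    have h3 := hprop k c d hcd hcon
    have hg0 : ∀ x ∈ Ioo c d, g x = 0 := by
      intro x hx
      have h4 : ∀ j, |g x| ≤ |∑ i ∈ S'.erase i0, (ν i / ν i0) ^ (k + j) * F i x| := by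
        intro j
        rw [← hident, h3 j x hx, zero_div, zero_sub, abs_neg]
      have h5 : Tendsto (fun j => |∑ i ∈ S'.erase i0, (ν i / ν i0) ^ (k + j) * F i x|) atTop
          (𝓝 0) := by
        have := ((tendsto_add_atTop_iff_nat k).mpr (htend0 fun i => F i x)).abs
        rw [abs_zero] at this
        simpa [add_comm] using this
      have h6 : |g x| ≤ 0 := ge_of_tendsto' h5 h4
      exact abs_eq_zero.mp (le_antisymm h6 (abs_nonneg _))
    have hm : (c + d) / 2 ∈ Ioo c d := ⟨by linarith, by linarith⟩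
    have e1 : g =ᶠ[𝓝 ((c + d) / 2)] fun _ => 0 := by
      filter_upwards [Ioo_mem_nhds hm.1 hm.2] with y hy
      exact hg0 y hy
    have e2 : deriv g ((c + d) / 2) = 0 := by
      rw [e1.deriv_eq]; simp
    exact hnodouble _ (hg0 _ hm) e2
  -- lower bound on the compact part
  obtain ⟨η, hη, hlow⟩ : ∃ η : ℝ, 0 < η ∧ ∀ x ∈ Icc (-a0) a0, η ≤ |g x| + |deriv g x| := by
    have hc : Continuous (fun x => |g x| + |deriv g x|) :=
      (h1 i0 hi0S).continuous.abs.add (h2 i0 hi0S).continuous.abs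
    obtain ⟨m, hm, hmin⟩ := (isCompact_Icc (a := -a0) (b := a0)).exists_isMinOn
      ⟨0, ⟨by linarith, ha00⟩⟩ hc.continuousOn
    refine ⟨|g m| + |deriv g m|, ?_, fun x hx => hmin hx⟩
    by_contra hcon
    push Not at hcon
    have e1 := abs_nonneg (g m)
    have e2 := abs_nonneg (deriv g m)
    exact hnodouble m (abs_eq_zero.mp (by linarith)) (abs_eq_zero.mp (by linarith))
  -- zeros of the iterates
  have h0 : HasZeros (iter S' ν F 0) s.card := by
    apply HasZeros.of_finset
    intro x hx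
    have := hs x hx
    rw [← hsum] at this
    simpa [iter] using this
  have hk : ∀ k, HasZeros (iter S' ν F k) s.card := by
    intro k
    induction k with
    | zero => exact h0
    | succ k ih =>
      rw [← iter_succ d1 d2 deq k]
      obtain ⟨Bk, hBk⟩ := itbd k
      apply ih.step (itd k) (itdd k) _ hKc hKpos hBk (hnevan k)
      have : deriv (deriv (iter S' ν F k)) = fun x => iter S' ν F (k + 1) x +
          K x * iter S' ν F k x := by
        funext x
        have := congrFun (iter_succ d1 d2 deq k) x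
        linarith
      rw [this]
      exact (itd (k + 1)).continuous.add (hKc.mul (itd k).continuous)
  obtain ⟨k, hk1⟩ := (htend.eventually (gt_mem_nhds
    (show (0 : ℝ) < min (η / 8) (1 / 2) by positivity))).exists
  obtain ⟨z, hz1, hz2⟩ := hk k
  have hpow : (-ν i0) ^ k ≠ 0 := pow_ne_zero _ (neg_ne_zero.mpr hν00.ne')
  have hkη : err k ≤ η / 8 := hk1.le.trans (min_le_left _ _)
  have hk2 : err k ≤ 1 / 2 := hk1.le.trans (min_le_right _ _)
  have hza : ∀ i, i < s.card → |z i| ≤ a0 := by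
    intro i hi
    by_contra hcon
    push Not at hcon
    have h3 := hclose F |g (z i)| k (z i) (fun j hj => hB2 j hj _ hcon.le)
    rw [hz2 i hi, zero_div, zero_sub, abs_neg] at h3
    have h4 : 0 < |g (z i)| := abs_pos.mpr (hgtail _ hcon.le)
    have h5 : |g (z i)| ≤ err k * |g (z i)| := h3
    nlinarith
  apply count_of_gaps hΓ0 hexpa0.ge hz1 hza
  intro i hi m hm0 hm
  have hzi := abs_le.mp (hza i (by omega))
  have hzi' := abs_le.mp (hza (i + 1) hi)
  have hin : ∀ x ∈ Icc (z i) (z (i + 1)), x ∈ Icc (-a0) a0 := fun x hx =>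
    ⟨hzi.1.trans hx.1, hx.2.trans hzi'.2⟩
  apply gap_line (f := fun x => iter S' ν F k x / (-ν i0) ^ k) (g := g) hm0 hη (h1 i0 hi0S)
    (h2 i0 hi0S) _ (fun x hx => hlow x (hin x hx)) ((itd k).div_const _) _ _ (hz1 i hi)
    (by simp [hz2 i (by omega)]) (by simp [hz2 (i + 1) hi])
  · intro x hx
    rw [hg, heq i0 hi0S x]
    have h3 := (hV x).trans (hm x hx)
    have h4 := hμ0 i0 hi0S
    have h5 : 0 ≤ (m + (μ i0 - V x)) * (F i0 x * F i0 x) :=
      mul_nonneg (by linarith) (mul_self_nonneg _)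
    linarith
  · intro x hx
    have := hclose F 1 k x (fun j hj => by rw [mul_one]; exact (hB1 j hj x (hin x hx)).1)
    rw [mul_one] at this
    exact this.trans hkη
  · intro x hx
    have e5 : deriv (fun x => iter S' ν F k x / (-ν i0) ^ k) x =
        iter S' ν (fun i => deriv (F i)) k x / (-ν i0) ^ k := by
      rw [deriv_div_const, iter_deriv d1]
    rw [e5]
    have := hclose (fun i => deriv (F i)) 1 k x
      (fun j hj => by rw [mul_one]; exact (hB1 j hj x (hin x hx)).2)
    rw [mul_one] at this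
    exact this.trans hkη

end

end Pool.Agent.H24.Sturm
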