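import Pool.Agent.H24.TorusMetric

set_option autoImplicit false

/-!
# The eigenspaces of the Laplace-Beltrami operator on the torus
-/

namespace Pool.Agent.H24.Torus

open Set

lemma Smooth2.hasFDerivAt {u : ℝ → ℝ → ℝ} (hu : Smooth2 u) (p : ℝ × ℝ) :
    HasFDerivAt (fun p : ℝ × ℝ => u p.1 p.2) (fderiv ℝ (fun p : ℝ × ℝ => u p.1 p.2) p) p := by
  have h : ContDiff ℝ (⊤ : ℕ∞) (fun p : ℝ × ℝ => u p.1 p.2) := hu
  exact (h.differentiable (by simp) p).hasFDerivAt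

lemma Smooth2.hasDerivAt_x {u : ℝ → ℝ → ℝ} (hu : Smooth2 u) (x y : ℝ) :
    HasDerivAt (fun s => u s y) (fderiv ℝ (fun p : ℝ × ℝ => u p.1 p.2) (x, y) (1, 0)) x := by
  have h1 : HasDerivAt (fun s : ℝ => ((s, y) : ℝ × ℝ)) (1, 0) x :=
    (hasDerivAt_id x).prodMk (hasDerivAt_const x y)
  exact (hu.hasFDerivAt (x, y)).comp_hasDerivAt x h1

lemma Smooth2.hasDerivAt_y {u : ℝ → ℝ → ℝ} (hu : Smooth2 u) (x y : ℝ) :
    HasDerivAt (fun t => u x t) (fderiv ℝ (fun p : ℝ × ℝ => u p.1 p.2) (x, y) (0, 1)) y := by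
  have h1 : HasDerivAt (fun t : ℝ => ((x, t) : ℝ × ℝ)) (0, 1) y :=
    (hasDerivAt_const y x).prodMk (hasDerivAt_id y)
  exact (hu.hasFDerivAt (x, y)).comp_hasDerivAt y h1

lemma Smooth2.dx_eq {u : ℝ → ℝ → ℝ} (hu : Smooth2 u) (x y : ℝ) :
    dx u x y = fderiv ℝ (fun p : ℝ × ℝ => u p.1 p.2) (x, y) (1, 0) := (hu.hasDerivAt_x x y).deriv

lemma Smooth2.dy_eq {u : ℝ → ℝ → ℝ} (hu : Smooth2 u) (x y : ℝ) :
    dy u x y = fderiv ℝ (fun p : ℝ × ℝ => u p.1 p.2) (x, y) (0, 1) := (hu.hasDerivAt_y x y).deriv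

lemma smooth_fderiv_apply {U : ℝ × ℝ → ℝ} (hU : ContDiff ℝ (⊤ : ℕ∞) U) (v : ℝ × ℝ) :
    ContDiff ℝ (⊤ : ℕ∞) (fun p => fderiv ℝ U p v) := by
  have h1 : ContDiff ℝ (⊤ : ℕ∞) (fderiv ℝ U) := hU.fderiv_right (by simp)
  exact h1.clm_apply contDiff_const

lemma Smooth2.dx {u : ℝ → ℝ → ℝ} (hu : Smooth2 u) : Smooth2 (dx u) := by
  have e : (fun p : ℝ × ℝ => Torus.dx u p.1 p.2) =
      fun p => fderiv ℝ (fun p : ℝ × ℝ => u p.1 p.2) p (1, 0) := by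
    funext p; exact hu.dx_eq p.1 p.2
  unfold Smooth2
  rw [e]; exact smooth_fderiv_apply hu _

lemma Smooth2.dy {u : ℝ → ℝ → ℝ} (hu : Smooth2 u) : Smooth2 (dy u) := by
  have e : (fun p : ℝ × ℝ => Torus.dy u p.1 p.2) =
      fun p => fderiv ℝ (fun p : ℝ × ℝ => u p.1 p.2) p (0, 1) := by
    funext p; exact hu.dy_eq p.1 p.2
  unfold Smooth2
  rw [e]; exact smooth_fderiv_apply hu _

lemma Smooth2.continuous {u : ℝ → ℝ → ℝ} (hu : Smooth2 u) :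
    Continuous (fun p : ℝ × ℝ => u p.1 p.2) := ContDiff.continuous hu

lemma Smooth2.diff_x {u : ℝ → ℝ → ℝ} (hu : Smooth2 u) (y : ℝ) :
    Differentiable ℝ (fun s => u s y) := fun x => (hu.hasDerivAt_x x y).differentiableAt

lemma Smooth2.diff_y {u : ℝ → ℝ → ℝ} (hu : Smooth2 u) (x : ℝ) :
    Differentiable ℝ (fun t => u x t) := fun y => (hu.hasDerivAt_y x y).differentiableAt

lemma Smooth2.dx_dy_comm {u : ℝ → ℝ → ℝ} (hu : Smooth2 u) :
    Torus.dx (Torus.dy u) = Torus.dy (Torus.dx u) := by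
  funext x y
  set U : ℝ × ℝ → ℝ := fun p => u p.1 p.2 with hU
  have hUs : ContDiff ℝ (⊤ : ℕ∞) U := hu
  have h1 : ContDiff ℝ (⊤ : ℕ∞) (fderiv ℝ U) := hUs.fderiv_right (by simp)
  have hd : ∀ p, HasFDerivAt (fderiv ℝ U) (fderiv ℝ (fderiv ℝ U) p) p := fun p =>
    (h1.differentiable (by simp) p).hasFDerivAt
  rw [hu.dy.dx_eq, hu.dx.dy_eq]
  have e1 : (fun p : ℝ × ℝ => Torus.dy u p.1 p.2) = fun p => fderiv ℝ U p (0, 1) := by
    funext p; exact hu.dy_eq p.1 p.2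
  have e2 : (fun p : ℝ × ℝ => Torus.dx u p.1 p.2) = fun p => fderiv ℝ U p (1, 0) := by
    funext p; exact hu.dx_eq p.1 p.2
  rw [e1, e2]
  have hc : ∀ v : ℝ × ℝ, fderiv ℝ (fun p => fderiv ℝ U p v) (x, y) =
      (fderiv ℝ (fderiv ℝ U) (x, y)).flip v := by
    intro v
    have h3 := (hd (x, y)).clm_apply (hasFDerivAt_const v (x, y))
    rw [h3.fderiv]
    ext <;> simp
  rw [hc, hc]
  simp only [ContinuousLinearMap.flip_apply]
  have hsymm : IsSymmSndFDerivAt ℝ U (x, y) := by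
    apply ContDiffAt.isSymmSndFDerivAt (n := (⊤ : ℕ∞))
    · exact hUs.contDiffAt
    · rw [minSmoothness_of_isRCLikeNormedField]
      decide
  exact hsymm (1, 0) (0, 1)

lemma dx_add {u v : ℝ → ℝ → ℝ} (hu : Smooth2 u) (hv : Smooth2 v) :
    dx (u + v) = dx u + dx v := by
  funext x y
  exact ((hu.diff_x y x).hasDerivAt.add (hv.diff_x y x).hasDerivAt).deriv

lemma dy_add {u v : ℝ → ℝ → ℝ} (hu : Smooth2 u) (hv : Smooth2 v) :
    dy (u + v) = dy u + dy v := by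
  funext x y
  exact ((hu.diff_y x y).hasDerivAt.add (hv.diff_y x y).hasDerivAt).deriv

lemma dx_smul {u : ℝ → ℝ → ℝ} (hu : Smooth2 u) (a : ℝ) : dx (a • u) = a • dx u := by
  funext x y
  exact ((hu.diff_x y x).hasDerivAt.const_mul a).deriv

lemma dy_smul {u : ℝ → ℝ → ℝ} (hu : Smooth2 u) (a : ℝ) : dy (a • u) = a • dy u := by
  funext x y
  exact ((hu.diff_y x y).hasDerivAt.const_mul a).deriv

lemma Smooth2.add {u v : ℝ → ℝ → ℝ} (hu : Smooth2 u) (hv : Smooth2 v) : Smooth2 (u + v) :=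
  ContDiff.add hu hv

lemma Smooth2.smul {u : ℝ → ℝ → ℝ} (hu : Smooth2 u) (a : ℝ) : Smooth2 (a • u) :=
  contDiff_const.mul hu

/-- The eigenspace of the Laplace-Beltrami operator of `w (dx² + dy²)` on the torus
`ℝ² / (L₁ ℤ × L₂ ℤ)` for the eigenvalue `lam`. -/
def eigenspace (w : ℝ → ℝ → ℝ) (L1 L2 lam : ℝ) : Submodule ℝ (ℝ → ℝ → ℝ) where
  carrier := {u | Smooth2 u ∧ Periodic2 L1 L2 u ∧
    ∀ x y, laplaceBeltrami w u x y + lam * u x y = 0}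
  add_mem' := by
    rintro u v ⟨hu1, hu2, hu3⟩ ⟨hv1, hv2, hv3⟩
    refine ⟨hu1.add hv1, ?_, ?_⟩
    · intro x y
      simp only [Pi.add_apply]
      rw [(hu2 x y).1, (hu2 x y).2, (hv2 x y).1, (hv2 x y).2]
      exact ⟨rfl, rfl⟩
    · intro x y
      have h1 := hu3 x y
      have h2 := hv3 x y
      simp only [laplaceBeltrami] at h1 h2 ⊢
      rw [dx_add hu1 hv1, dy_add hu1 hv1, dx_add hu1.dx hv1.dx, dy_add hu1.dy hv1.dy]
      simp only [Pi.add_apply]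
      linear_combination h1 + h2
  zero_mem' := by
    have h0 : ∀ x y, dx (0 : ℝ → ℝ → ℝ) x y = 0 := by intro x y; simp [dx]
    have h0' : dx (0 : ℝ → ℝ → ℝ) = 0 := by funext x y; exact h0 x y
    have h1 : ∀ x y, dy (0 : ℝ → ℝ → ℝ) x y = 0 := by intro x y; simp [dy]
    have h1' : dy (0 : ℝ → ℝ → ℝ) = 0 := by funext x y; exact h1 x y
    refine ⟨contDiff_const, fun x y => ⟨rfl, rfl⟩, ?_⟩
    intro x y
    simp [laplaceBeltrami, h0', h1']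
  smul_mem' := by
    rintro a u ⟨hu1, hu2, hu3⟩
    refine ⟨hu1.smul a, ?_, ?_⟩
    · intro x y
      simp only [Pi.smul_apply]
      rw [(hu2 x y).1, (hu2 x y).2]
      exact ⟨rfl, rfl⟩
    · intro x y
      have h1 := hu3 x y
      simp only [laplaceBeltrami] at h1 ⊢
      rw [dx_smul hu1, dy_smul hu1, dx_smul hu1.dx, dy_smul hu1.dy]
      simp only [Pi.smul_apply, smul_eq_mul]
      linear_combination a * h1

lemma mem_eigenspace {w : ℝ → ℝ → ℝ} {L1 L2 lam : ℝ} {u : ℝ → ℝ → ℝ} :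
    u ∈ eigenspace w L1 L2 lam ↔ Smooth2 u ∧ Periodic2 L1 L2 u ∧
      ∀ x y, laplaceBeltrami w u x y + lam * u x y = 0 := Iff.rfl

lemma isEigenfunction_iff {w : ℝ → ℝ → ℝ} {L1 L2 lam : ℝ} {u : ℝ → ℝ → ℝ} :
    IsEigenfunction w L1 L2 lam u ↔ u ∈ eigenspace w L1 L2 lam ∧ u ≠ 0 := by
  constructor
  · rintro ⟨h1, h2, h3, x, y, h4⟩
    refine ⟨⟨h1, h2, h3⟩, ?_⟩
    rintro rfl
    exact h4 rfl
  · rintro ⟨⟨h1, h2, h3⟩, h4⟩
    refine ⟨h1, h2, h3, ?_⟩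
    by_contra hcon
    push Not at hcon
    exact h4 (by funext x y; exact hcon x y)

end Pool.Agent.H24.Torus
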