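import Mathlib
import Pool.Agent.H24.TorusEigenspace
import Pool.Agent.H24.LiouvilleAlgebra
import Pool.Agent.H24.SturmLine3

set_option autoImplicit false

/-!
# Fourier decomposition of solutions on the cylinder
-/

namespace Pool.Agent.H24.Cyl

open Set Filter Topology MeasureTheory Pool.Agent.H24.Torus

lemma hasDerivAt_param {G : ℝ → ℝ → ℝ} (hG : Smooth2 G) (a b x : ℝ) :
    HasDerivAt (fun x => ∫ s in a..b, G x s) (∫ s in a..b, dx G x s) x := by
  have hc := hG.continuous
  have hdc := hG.dx.continuous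
  obtain ⟨C, hC⟩ := ((isCompact_Icc (a := x - 1) (b := x + 1)).prod
    (isCompact_uIcc (a := a) (b := b))).exists_bound_of_continuousOn hdc.continuousOn
  refine (intervalIntegral.hasDerivAt_integral_of_dominated_loc_of_deriv_le (F := G)
    (F' := fun x s => dx G x s) (s := Icc (x - 1) (x + 1)) (bound := fun _ => C)
    (Icc_mem_nhds (by linarith) (by linarith)) ?_ ?_ ?_ ?_ ?_ ?_).2
  · filter_upwards with y
    have : Continuous (G y) := hc.comp (by fun_prop : Continuous fun s : ℝ => ((y, s) : ℝ × ℝ))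
    exact this.aestronglyMeasurable
  · have : Continuous (G x) := hc.comp (by fun_prop : Continuous fun s : ℝ => ((x, s) : ℝ × ℝ))
    exact this.intervalIntegrable _ _
  · have : Continuous (fun s => dx G x s) :=
      hdc.comp (by fun_prop : Continuous fun s : ℝ => ((x, s) : ℝ × ℝ))
    exact this.aestronglyMeasurable
  · filter_upwards with t ht y hy
    exact hC (y, t) ⟨hy, uIoc_subset_uIcc ht⟩
  · exact intervalIntegrable_const
  · filter_upwards with t _ y _
    exact (hG.diff_x t y).hasDerivAt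

/-- Cosine coefficient. -/
noncomputable def ca (U : ℝ → ℝ → ℝ) (k : ℕ) (x : ℝ) : ℝ :=
  ∫ s in (0 : ℝ)..(2 * Real.pi), U x s * Real.cos (k * s)

/-- Sine coefficient. -/
noncomputable def sb (U : ℝ → ℝ → ℝ) (k : ℕ) (x : ℝ) : ℝ :=
  ∫ s in (0 : ℝ)..(2 * Real.pi), U x s * Real.sin (k * s)

lemma smooth_cos (k : ℕ) : ContDiff ℝ (⊤ : ℕ∞) (fun s : ℝ => Real.cos (k * s)) :=
  Real.contDiff_cos.comp (contDiff_const.mul contDiff_id)

lemma smooth_sin (k : ℕ) : ContDiff ℝ (⊤ : ℕ∞) (fun s : ℝ => Real.sin (k * s)) :=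
  Real.contDiff_sin.comp (contDiff_const.mul contDiff_id)

lemma smooth_mul {U : ℝ → ℝ → ℝ} (hU : Smooth2 U) {e : ℝ → ℝ} (he : ContDiff ℝ (⊤ : ℕ∞) e) :
    Smooth2 (fun x s => U x s * e s) := by
  have h1 : ContDiff ℝ (⊤ : ℕ∞) (fun p : ℝ × ℝ => U p.1 p.2) := hU
  exact h1.mul (he.comp contDiff_snd)

lemma dx_mul {U : ℝ → ℝ → ℝ} (hU : Smooth2 U) (e : ℝ → ℝ) :
    dx (fun x s => U x s * e s) = fun x s => dx U x s * e s := by
  funext x s
  simp only [dx]
  exact deriv_mul_const (hU.diff_x s x) (e s)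

lemma hasDerivAt_coef {U : ℝ → ℝ → ℝ} (hU : Smooth2 U) {e : ℝ → ℝ}
    (he : ContDiff ℝ (⊤ : ℕ∞) e) (x : ℝ) :
    HasDerivAt (fun x => ∫ s in (0 : ℝ)..(2 * Real.pi), U x s * e s)
      (∫ s in (0 : ℝ)..(2 * Real.pi), dx U x s * e s) x := by
  have := hasDerivAt_param (smooth_mul hU he) 0 (2 * Real.pi) x
  rw [dx_mul hU] at this
  exact this

/-- The coefficients solve the radial equation. -/
lemma coef_ode {U : ℝ → ℝ → ℝ} (hU : Smooth2 U) (hper : ∀ x y, U x (y + 2 * Real.pi) = U x y)
    {V : ℝ → ℝ} (hpde : ∀ x y, dx (dx U) x y + dy (dy U) x y + V x * U x y = 0)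
    {e e' : ℝ → ℝ} (he : ContDiff ℝ (⊤ : ℕ∞) e) {μ : ℝ} (he1 : ∀ s, HasDerivAt e (e' s) s)
    (he2 : ∀ s, HasDerivAt e' (-μ * e s) s) (hep : ∀ s, e (s + 2 * Real.pi) = e s)
    (hep' : ∀ s, e' (s + 2 * Real.pi) = e' s) (x : ℝ) :
    ∫ s in (0 : ℝ)..(2 * Real.pi), dx (dx U) x s * e s =
      (μ - V x) * ∫ s in (0 : ℝ)..(2 * Real.pi), U x s * e s := by
  have hcont : ∀ {W : ℝ → ℝ → ℝ}, Smooth2 W → Continuous (fun s => W x s * e s) := by
    intro W hW
    exact (hW.continuous.comp (by fun_prop : Continuous fun s : ℝ => ((x, s) : ℝ × ℝ))).mul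
      he.continuous
  -- integration by parts
  have hparts : ∫ s in (0 : ℝ)..(2 * Real.pi), (dy (dy U) x s * e s + μ * (U x s * e s)) = 0 := by
    have hP : ∀ s ∈ uIcc (0 : ℝ) (2 * Real.pi),
        HasDerivAt (fun s => dy U x s * e s - U x s * e' s)
          (dy (dy U) x s * e s + μ * (U x s * e s)) s := by
      intro s _
      have h1 : HasDerivAt (fun s => dy U x s) (dy (dy U) x s) s := (hU.dy.diff_y x s).hasDerivAt
      have h2 : HasDerivAt (fun s => U x s) (dy U x s) s := (hU.diff_y x s).hasDerivAt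
      refine ((h1.mul (he1 s)).sub (h2.mul (he2 s))).congr_deriv ?_
      ring
    rw [intervalIntegral.integral_eq_sub_of_hasDerivAt hP]
    · have p1 : U x (2 * Real.pi) = U x 0 := by
        have := hper x 0
        rwa [zero_add] at this
      have p2 : dy U x (2 * Real.pi) = dy U x 0 := by
        have h3 : (fun t => U x (t + 2 * Real.pi)) = fun t => U x t := funext fun t => hper x t
        have h4 : deriv (fun t => U x (t + 2 * Real.pi)) 0 =
            deriv (fun t => U x t) (0 + 2 * Real.pi) :=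
          deriv_comp_add_const (fun t => U x t) (2 * Real.pi) 0
        rw [h3, zero_add] at h4
        exact h4.symm
      have p3 : e (2 * Real.pi) = e 0 := by
        have := hep 0
        rwa [zero_add] at this
      have p4 : e' (2 * Real.pi) = e' 0 := by
        have := hep' 0
        rwa [zero_add] at this
      rw [p1, p2, p3, p4, sub_self]
    · exact ((hcont hU.dy.dy).add (continuous_const.mul (hcont hU))).intervalIntegrable _ _
  have e1 : ∀ s, dx (dx U) x s * e s = -(dy (dy U) x s * e s + μ * (U x s * e s)) +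
      (μ - V x) * (U x s * e s) := by
    intro s
    linear_combination (e s) * hpde x s
  simp_rw [e1]
  rw [intervalIntegral.integral_add, intervalIntegral.integral_neg, hparts,
    intervalIntegral.integral_const_mul]
  · ring
  · exact ((hcont hU.dy.dy).add (continuous_const.mul (hcont hU))).neg.intervalIntegrable _ _
  · exact (continuous_const.mul (hcont hU)).intervalIntegrable _ _

lemma cos_deriv (k : ℕ) (s : ℝ) :
    HasDerivAt (fun s : ℝ => Real.cos (k * s)) (-(k * Real.sin (k * s))) s := by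
  have := ((hasDerivAt_id s).const_mul (k : ℝ)).cos
  refine this.congr_deriv ?_
  simp
  ring

lemma sin_deriv (k : ℕ) (s : ℝ) :
    HasDerivAt (fun s : ℝ => Real.sin (k * s)) (k * Real.cos (k * s)) s := by
  have := ((hasDerivAt_id s).const_mul (k : ℝ)).sin
  refine this.congr_deriv ?_
  simp
  ring

lemma cos_per (k : ℕ) (s : ℝ) : Real.cos (k * (s + 2 * Real.pi)) = Real.cos (k * s) := by
  rw [mul_add, Real.cos_add_nat_mul_two_pi]

lemma sin_per (k : ℕ) (s : ℝ) : Real.sin (k * (s + 2 * Real.pi)) = Real.sin (k * s) := by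
  rw [mul_add, Real.sin_add_nat_mul_two_pi]

section
variable {U : ℝ → ℝ → ℝ} (hU : Smooth2 U) (hper : ∀ x y, U x (y + 2 * Real.pi) = U x y)
  {V : ℝ → ℝ} (hpde : ∀ x y, dx (dx U) x y + dy (dy U) x y + V x * U x y = 0)

include hU in
lemma ca_hasDerivAt (k : ℕ) (x : ℝ) : HasDerivAt (ca U k) (ca (dx U) k x) x :=
  hasDerivAt_coef hU (smooth_cos k) x

include hU in
lemma sb_hasDerivAt (k : ℕ) (x : ℝ) : HasDerivAt (sb U k) (sb (dx U) k x) x :=
  hasDerivAt_coef hU (smooth_sin k) x

include hU hper hpde in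
lemma ca_ode (k : ℕ) (x : ℝ) : ca (dx (dx U)) k x = ((k : ℝ) ^ 2 - V x) * ca U k x :=
  coef_ode hU hper hpde (smooth_cos k) (cos_deriv k)
    (fun s => ((sin_deriv k s).const_mul (k : ℝ)).neg.congr_deriv (by ring)) (cos_per k)
    (fun s => by rw [sin_per]) x

include hU hper hpde in
lemma sb_ode (k : ℕ) (x : ℝ) : sb (dx (dx U)) k x = ((k : ℝ) ^ 2 - V x) * sb U k x :=
  coef_ode hU hper hpde (smooth_sin k) (sin_deriv k)
    (fun s => ((cos_deriv k s).const_mul (k : ℝ)).congr_deriv (by ring)) (sin_per k)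
    (fun s => by rw [cos_per]) x

end

lemma coef_bound {U : ℝ → ℝ → ℝ} {B : ℝ} (hB : ∀ x y, |U x y| ≤ B) {e : ℝ → ℝ}
    (he : ∀ s, |e s| ≤ 1) (x : ℝ) :
    |∫ s in (0 : ℝ)..(2 * Real.pi), U x s * e s| ≤ B * (2 * Real.pi) := by
  have := intervalIntegral.norm_integral_le_of_norm_le_const (a := 0) (b := 2 * Real.pi)
    (f := fun s => U x s * e s) (C := B) (fun s _ => by
      rw [Real.norm_eq_abs, abs_mul]
      have h1 := hB x s
      have h2 := he s
      have h3 := abs_nonneg (U x s)
      nlinarith)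
  have h2 : |2 * Real.pi - 0| = 2 * Real.pi := by
    rw [sub_zero]; exact abs_of_pos Real.two_pi_pos
  rw [Real.norm_eq_abs, h2] at this
  exact this

/-- A bounded solution of `F'' = q F` on the line with `q > 0` vanishes. -/
lemma eq_zero_of_bounded {F q : ℝ → ℝ} (h1 : Differentiable ℝ F) (h2 : Differentiable ℝ (deriv F))
    {B : ℝ} (hB : ∀ x, |F x| ≤ B) (hq : ∀ x, 0 < q x)
    (hode : ∀ x, deriv (deriv F) x = q x * F x) (x : ℝ) : F x = 0 := by
  set P : ℝ → ℝ := fun x => F x * F x with hP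
  have hPd : ∀ x, HasDerivAt P (2 * (F x * deriv F x)) x := by
    intro x
    exact ((h1 x).hasDerivAt.mul (h1 x).hasDerivAt).congr_deriv (by ring)
  have hPdiff : Differentiable ℝ P := fun x => (hPd x).differentiableAt
  have hPder : deriv P = fun x => 2 * (F x * deriv F x) := funext fun x => (hPd x).deriv
  have hP2 : ∀ x, HasDerivAt (deriv P)
      (2 * (deriv F x * deriv F x + F x * deriv (deriv F) x)) x := by
    intro x
    rw [hPder]
    exact ((h1 x).hasDerivAt.mul (h2 x).hasDerivAt).const_mul 2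
  have hPB : ∀ x, P x ≤ B * B := by
    intro x
    simp only [hP]
    rw [← abs_mul_abs_self]
    exact mul_le_mul (hB x) (hB x) (abs_nonneg _) ((abs_nonneg _).trans (hB x))
  have hnn : ∀ x, 0 ≤ 2 * (deriv F x * deriv F x + F x * deriv (deriv F) x) := by
    intro x
    rw [hode]
    have e1 := mul_self_nonneg (deriv F x)
    have e2 := mul_nonneg (hq x).le (mul_self_nonneg (F x))
    nlinarith
  have hmono : Monotone (deriv P) := by
    apply monotone_of_deriv_nonneg (fun x => (hP2 x).differentiableAt)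
    intro x
    rw [(hP2 x).deriv]
    exact hnn x
  have hz : ∀ x, deriv P x = 0 := by
    intro x
    apply le_antisymm
    · by_contra hcon
      push Not at hcon
      exact Sturm.not_bounded_of_deriv_ge hPdiff hcon (ξ := x) (fun y hy => hmono hy)
        (fun y _ => hPB y)
    · by_contra hcon
      push Not at hcon
      apply Sturm.not_bounded_of_deriv_ge (P := fun s => P (-s)) (hPdiff.comp differentiable_neg)
        (ξ := -x) (s := -deriv P x) (by linarith) _ (fun y _ => hPB (-y))
      intro y hy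
      rw [Pool.Agent.H24.deriv_reflect]
      have := hmono (show -y ≤ x by linarith)
      linarith
  have hz2 : 2 * (deriv F x * deriv F x + F x * deriv (deriv F) x) = 0 := by
    rw [← (hP2 x).deriv, show deriv P = fun _ => 0 from funext hz]
    simp
  rw [hode] at hz2
  have e1 := mul_self_nonneg (deriv F x)
  have e2 : q x * (F x * F x) = 0 := by
    have e3 := mul_nonneg (hq x).le (mul_self_nonneg (F x))
    nlinarith
  have e3 := (mul_eq_zero.mp e2).resolve_left (hq x).ne'
  exact mul_self_eq_zero.mp e3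

/-- The `k`-th angular component. -/
noncomputable def comp (U : ℝ → ℝ → ℝ) (k : ℕ) (x y : ℝ) : ℝ :=
  (if k = 0 then 1 / (2 * Real.pi) else 1 / Real.pi) *
    (ca U k x * Real.cos (k * y) + sb U k x * Real.sin (k * y))

/-- Fourier expansion with finitely many nonzero coefficients. -/
lemma fourier_finite {u : ℝ → ℝ} (hu : Continuous u) (hper : ∀ y, u (y + 2 * Real.pi) = u y)
    {D : ℕ} (hc : ∀ k : ℕ, D < k → ∫ s in (0 : ℝ)..(2 * Real.pi), u s * Real.cos (k * s) = 0)
    (hs : ∀ k : ℕ, D < k → ∫ s in (0 : ℝ)..(2 * Real.pi), u s * Real.sin (k * s) = 0) (y : ℝ) :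
    u y = ∑ k ∈ Finset.range (D + 1), (if k = 0 then 1 / (2 * Real.pi) else 1 / Real.pi) *
      ((∫ s in (0 : ℝ)..(2 * Real.pi), u s * Real.cos (k * s)) * Real.cos (k * y) +
        (∫ s in (0 : ℝ)..(2 * Real.pi), u s * Real.sin (k * s)) * Real.sin (k * y)) := by
  have hT : Fact (0 < 2 * Real.pi) := ⟨Real.two_pi_pos⟩
  have hpi := Real.pi_pos
  -- the function on the circle
  set f0 : ℝ → ℂ := fun s => (u s : ℂ) with hf0
  have hf0c : Continuous f0 := Complex.continuous_ofReal.comp hu
  have hf0p : Function.Periodic f0 (2 * Real.pi) := fun s => by simp only [hf0]; rw [hper]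
  let f : C(AddCircle (2 * Real.pi), ℂ) := ⟨hf0p.lift, by
    exact continuous_coinduced_dom.mpr (by
      show Continuous (hf0p.lift ∘ QuotientAddGroup.mk)
      exact hf0c)⟩
  have hfx : ∀ x : ℝ, f (x : AddCircle (2 * Real.pi)) = f0 x := fun x => rfl
  set A : ℤ → ℝ := fun n => ∫ s in (0 : ℝ)..(2 * Real.pi), u s * Real.cos (n * s) with hA
  set S : ℤ → ℝ := fun n => ∫ s in (0 : ℝ)..(2 * Real.pi), u s * Real.sin (n * s) with hS
  have hcoef : ∀ n : ℤ, fourierCoeff f n = (1 / (2 * Real.pi) : ℝ) * ((A n : ℂ) - S n * Complex.I) := by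
    intro n
    rw [fourierCoeff_eq_intervalIntegral f n 0, zero_add]
    have e1 : ∀ x : ℝ, fourier (-n) (x : AddCircle (2 * Real.pi)) • f (x : AddCircle (2 * Real.pi)) =
        ((u x * Real.cos (n * x) : ℝ) : ℂ) - ((u x * Real.sin (n * x) : ℝ) : ℂ) * Complex.I := by
      intro x
      rw [hfx, fourier_coe_apply, smul_eq_mul]
      have : 2 * (Real.pi : ℂ) * Complex.I * ((-n : ℤ) : ℂ) * (x : ℂ) / ((2 * Real.pi : ℝ) : ℂ) =
          ((-(n * x) : ℝ) : ℂ) * Complex.I := by
        have : (Real.pi : ℂ) ≠ 0 := by exact_mod_cast hpi.ne'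
        push_cast
        field_simp
      rw [this, Complex.exp_mul_I, ← Complex.ofReal_cos, ← Complex.ofReal_sin, Real.cos_neg,
        Real.sin_neg]
      simp only [hf0]
      push_cast
      ring
    simp_rw [e1]
    have i1 : IntervalIntegrable (fun x : ℝ => ((u x * Real.cos (n * x) : ℝ) : ℂ)) volume 0
        (2 * Real.pi) := by
      apply Continuous.intervalIntegrable
      fun_prop
    have i2 : IntervalIntegrable (fun x : ℝ => ((u x * Real.sin (n * x) : ℝ) : ℂ) * Complex.I)
        volume 0 (2 * Real.pi) := by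
      apply Continuous.intervalIntegrable
      fun_prop
    rw [intervalIntegral.integral_sub i1 i2, intervalIntegral.integral_mul_const,
      intervalIntegral.integral_ofReal, intervalIntegral.integral_ofReal]
    simp only [hA, hS, Complex.real_smul]
  have hAneg : ∀ n : ℤ, A (-n) = A n := by
    intro n
    simp only [hA]
    apply intervalIntegral.integral_congr
    intro s _
    simp only
    rw [show ((-n : ℤ) : ℝ) * s = -(n * s) by push_cast; ring, Real.cos_neg]
  have hSneg : ∀ n : ℤ, S (-n) = -S n := by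
    intro n
    simp only [hS]
    rw [← intervalIntegral.integral_neg]
    apply intervalIntegral.integral_congr
    intro s _
    simp only
    rw [show ((-n : ℤ) : ℝ) * s = -(n * s) by push_cast; ring, Real.sin_neg]
    ring
  have hAz : ∀ n : ℤ, (D : ℤ) < |n| → A n = 0 ∧ S n = 0 := by
    have key : ∀ k : ℕ, D < k → A k = 0 ∧ S k = 0 := by
      intro k hk
      have e1 := hc k hk
      have e2 := hs k hk
      simp only [hA, hS]
      push_cast
      exact ⟨e1, e2⟩
    intro n hn
    rcases le_total 0 n with h | h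
    · obtain ⟨k, rfl⟩ := Int.eq_ofNat_of_zero_le h
      rw [abs_of_nonneg h] at hn
      exact key k (by omega)
    · obtain ⟨k, hk⟩ := Int.eq_ofNat_of_zero_le (by omega : 0 ≤ -n)
      rw [abs_of_nonpos h] at hn
      have h3 := key k (by omega)
      rw [← hk, hAneg, hSneg] at h3
      exact ⟨h3.1, by linarith [h3.2]⟩
  have hfin : ∀ n : ℤ, n ∉ Finset.Icc (-(D : ℤ)) D → fourierCoeff f n = 0 := by
    intro n hn
    have h3 : (D : ℤ) < |n| := by
      by_contra hcon
      push Not at hcon
      exact hn (Finset.mem_Icc.mpr (abs_le.mp hcon))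
    rw [hcoef, (hAz n h3).1, (hAz n h3).2]
    simp
  have hsum : Summable (fourierCoeff f) := summable_of_ne_finset_zero hfin
  have hpt := has_pointwise_sum_fourier_series_of_summable hsum (y : AddCircle (2 * Real.pi))
  have hnat := hpt.nat_add_neg
  rw [hfx] at hnat
  -- the terms
  set g : ℤ → ℂ := fun n => fourierCoeff f n • fourier n (y : AddCircle (2 * Real.pi)) with hg
  have hgre : ∀ n : ℤ, (g n).re = 1 / (2 * Real.pi) *
      (A n * Real.cos (n * y) + S n * Real.sin (n * y)) := by
    intro n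
    simp only [hg]
    rw [hcoef, fourier_coe_apply, smul_eq_mul]
    have : 2 * (Real.pi : ℂ) * Complex.I * (n : ℂ) * (y : ℂ) / ((2 * Real.pi : ℝ) : ℂ) =
        ((n * y : ℝ) : ℂ) * Complex.I := by
      have : (Real.pi : ℂ) ≠ 0 := by exact_mod_cast hpi.ne'
      push_cast
      field_simp
    rw [this, Complex.exp_mul_I, ← Complex.ofReal_cos, ← Complex.ofReal_sin, mul_assoc,
      Complex.re_ofReal_mul]
    congr 1
    simp only [Complex.mul_re, Complex.add_re, Complex.sub_re, Complex.add_im, Complex.sub_im,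
      Complex.ofReal_re, Complex.ofReal_im, Complex.mul_im, Complex.I_re, Complex.I_im]
    ring
  have hre := (Complex.hasSum_re hnat)
  have hterm : ∀ k : ℕ, (g k + g (-k)).re = 1 / Real.pi *
      (A k * Real.cos (k * y) + S k * Real.sin (k * y)) := by
    intro k
    rw [Complex.add_re, hgre, hgre, hAneg, hSneg]
    rw [show ((-k : ℤ) : ℝ) * y = -(k * y) by push_cast; ring, Real.cos_neg, Real.sin_neg]
    push_cast
    field_simp
    ring
  have hre2 : HasSum (fun k : ℕ => 1 / Real.pi * (A k * Real.cos (k * y) + S k * Real.sin (k * y)))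
      (f0 y + g 0).re := by
    have e1 : (fun k : ℕ => 1 / Real.pi * (A k * Real.cos (k * y) + S k * Real.sin (k * y))) =
        fun k : ℕ => (g k + g (-k)).re := funext fun k => (hterm k).symm
    rw [e1]
    exact hre
  have hre3 : HasSum (fun k : ℕ => 1 / Real.pi * (A k * Real.cos (k * y) + S k * Real.sin (k * y)))
      (∑ k ∈ Finset.range (D + 1),
        1 / Real.pi * (A k * Real.cos (k * y) + S k * Real.sin (k * y))) := by
    apply hasSum_sum_of_ne_finset_zero
    intro k hk
    have h3 : D < k := by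
      rw [Finset.mem_range] at hk
      omega
    have h4 := hAz k (by rw [Nat.abs_cast]; exact_mod_cast h3)
    rw [h4.1, h4.2]
    ring
  have hfinal := hre2.unique hre3
  have hg0 : (g 0).re = 1 / (2 * Real.pi) * A 0 := by
    rw [hgre]
    simp
  have hf0re : (f0 y).re = u y := by simp only [hf0]; exact Complex.ofReal_re _
  rw [Complex.add_re, hg0, hf0re, Finset.sum_range_succ'] at hfinal
  have hAk : ∀ k : ℕ, ∫ s in (0 : ℝ)..(2 * Real.pi), u s * Real.cos (k * s) = A k := by
    intro k; simp only [hA]; push_cast; rfl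
  have hSk : ∀ k : ℕ, ∫ s in (0 : ℝ)..(2 * Real.pi), u s * Real.sin (k * s) = S k := by
    intro k; simp only [hS]; push_cast; rfl
  simp_rw [hAk, hSk]
  rw [Finset.sum_range_succ']
  have e2 : ∀ k : ℕ, (if k + 1 = 0 then 1 / (2 * Real.pi) else 1 / Real.pi) = 1 / Real.pi := by
    intro k
    rw [if_neg (Nat.succ_ne_zero k)]
  simp_rw [e2]
  rw [if_pos trivial]
  have e3 : A ((0 : ℕ) : ℤ) * Real.cos (((0 : ℕ) : ℝ) * y) +
      S ((0 : ℕ) : ℤ) * Real.sin (((0 : ℕ) : ℝ) * y) = A 0 := by
    simp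
  rw [e3] at hfinal ⊢
  have e4 : 1 / Real.pi * A 0 = 1 / (2 * Real.pi) * A 0 + 1 / (2 * Real.pi) * A 0 := by
    field_simp
    ring
  rw [e4] at hfinal
  linarith

section
variable {U : ℝ → ℝ → ℝ} (hU : Smooth2 U) (hper : ∀ x y, U x (y + 2 * Real.pi) = U x y)
  {V : ℝ → ℝ} (hpde : ∀ x y, dx (dx U) x y + dy (dy U) x y + V x * U x y = 0)
  {Γ B : ℝ} (hB : ∀ x y, |U x y| ≤ B)

lemma abs_cos_le (k : ℕ) (s : ℝ) : |Real.cos (k * s)| ≤ 1 := Real.abs_cos_le_one _

lemma abs_sin_le (k : ℕ) (s : ℝ) : |Real.sin (k * s)| ≤ 1 := Real.abs_sin_le_one _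

include hU in
lemma ca_diff (k : ℕ) : Differentiable ℝ (ca U k) ∧ deriv (ca U k) = ca (dx U) k :=
  ⟨fun x => (ca_hasDerivAt hU k x).differentiableAt, funext fun x => (ca_hasDerivAt hU k x).deriv⟩

include hU in
lemma sb_diff (k : ℕ) : Differentiable ℝ (sb U k) ∧ deriv (sb U k) = sb (dx U) k :=
  ⟨fun x => (sb_hasDerivAt hU k x).differentiableAt, funext fun x => (sb_hasDerivAt hU k x).deriv⟩

include hU hper hpde hB in
/-- Large frequencies do not occur. -/
lemma coef_zero {k : ℕ} (hk : ∀ x, V x < (k : ℝ) ^ 2) (x : ℝ) : ca U k x = 0 ∧ sb U k x = 0 := by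
  constructor
  · apply eq_zero_of_bounded (F := ca U k) (q := fun x => (k : ℝ) ^ 2 - V x) (ca_diff hU k).1
      (by rw [(ca_diff hU k).2]; exact (ca_diff hU.dx k).1) (B := B * (2 * Real.pi))
      (fun x => coef_bound hB (abs_cos_le k) x) (fun x => by have := hk x; linarith)
    intro x
    rw [(ca_diff hU k).2, (ca_diff hU.dx k).2]
    exact ca_ode hU hper hpde k x
  · apply eq_zero_of_bounded (F := sb U k) (q := fun x => (k : ℝ) ^ 2 - V x) (sb_diff hU k).1
      (by rw [(sb_diff hU k).2]; exact (sb_diff hU.dx k).1) (B := B * (2 * Real.pi))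
      (fun x => coef_bound hB (abs_sin_le k) x) (fun x => by have := hk x; linarith)
    intro x
    rw [(sb_diff hU k).2, (sb_diff hU.dx k).2]
    exact sb_ode hU hper hpde k x

include hU hper hpde hB in
lemma decomp {D : ℕ} (hD : ∀ x, V x < ((D : ℝ) + 1) ^ 2) (x y : ℝ) :
    U x y = ∑ k ∈ Finset.range (D + 1), comp U k x y := by
  have hz : ∀ k : ℕ, D < k → ca U k x = 0 ∧ sb U k x = 0 := by
    intro k hk
    apply coef_zero hU hper hpde hB
    intro x
    refine (hD x).trans_le ?_
    have : (D : ℝ) + 1 ≤ k := by exact_mod_cast hk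
    gcongr
  have hcont : Continuous (U x) :=
    hU.continuous.comp (by fun_prop : Continuous fun s : ℝ => ((x, s) : ℝ × ℝ))
  exact fourier_finite hcont (hper x) (fun k hk => (hz k hk).1) (fun k hk => (hz k hk).2) y

/-- Normalization of the components. -/
noncomputable def cst (k : ℕ) : ℝ := if k = 0 then 1 / (2 * Real.pi) else 1 / Real.pi

include hU in
lemma comp_x (k : ℕ) (y : ℝ) : Differentiable ℝ (fun x => comp U k x y) ∧
    deriv (fun x => comp U k x y) = fun x => comp (dx U) k x y := by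
  have h : ∀ x, HasDerivAt (fun x => comp U k x y) (comp (dx U) k x y) x := by
    intro x
    unfold comp
    exact (((ca_hasDerivAt hU k x).mul_const _).add ((sb_hasDerivAt hU k x).mul_const _)).const_mul _
  exact ⟨fun x => (h x).differentiableAt, funext fun x => (h x).deriv⟩

include hU hper hpde in
lemma comp_x_ode (k : ℕ) (x y : ℝ) : deriv (deriv fun x => comp U k x y) x =
    ((k : ℝ) ^ 2 - V x) * comp U k x y := by
  rw [(comp_x hU k y).2, (comp_x hU.dx k y).2]
  simp only [comp]
  rw [ca_ode hU hper hpde, sb_ode hU hper hpde]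
  ring

include hB in
lemma comp_bound (k : ℕ) (x y : ℝ) :
    |comp U k x y| ≤ |cst k| * (B * (2 * Real.pi) + B * (2 * Real.pi)) := by
  unfold comp
  rw [abs_mul]
  apply mul_le_mul_of_nonneg_left _ (abs_nonneg _)
  refine (abs_add_le _ _).trans (add_le_add ?_ ?_)
  · rw [abs_mul]
    have h1 : |ca U k x| ≤ B * (2 * Real.pi) := coef_bound hB (abs_cos_le k) x
    have h2 := abs_cos_le k y
    have h3 := abs_nonneg (ca U k x)
    nlinarith
  · rw [abs_mul]
    have h1 : |sb U k x| ≤ B * (2 * Real.pi) := coef_bound hB (abs_sin_le k) x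
    have h2 := abs_sin_le k y
    have h3 := abs_nonneg (sb U k x)
    nlinarith

lemma comp_y (U : ℝ → ℝ → ℝ) (k : ℕ) (x : ℝ) : Differentiable ℝ (fun y => comp U k x y) ∧
    Differentiable ℝ (deriv fun y => comp U k x y) ∧
    ∀ y, deriv (deriv fun y => comp U k x y) y = -(k : ℝ) ^ 2 * comp U k x y := by
  have h : ∀ y, HasDerivAt (fun y => comp U k x y) (cst k * (ca U k x * -(k * Real.sin (k * y)) +
      sb U k x * (k * Real.cos (k * y)))) y := by
    intro y
    exact (((cos_deriv k y).const_mul _).add ((sin_deriv k y).const_mul _)).const_mul _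
  have h' : ∀ y, HasDerivAt (fun y => cst k * (ca U k x * -(k * Real.sin (k * y)) +
      sb U k x * (k * Real.cos (k * y)))) (-(k : ℝ) ^ 2 * comp U k x y) y := by
    intro y
    refine ((((sin_deriv k y).const_mul (k : ℝ)).neg.const_mul (ca U k x)).add
      (((cos_deriv k y).const_mul (k : ℝ)).const_mul (sb U k x))).const_mul (cst k)
      |>.congr_deriv ?_
    unfold comp cst
    ring
  have e : deriv (fun y => comp U k x y) = fun y => cst k * (ca U k x * -(k * Real.sin (k * y)) +
      sb U k x * (k * Real.cos (k * y))) := funext fun y => (h y).deriv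
  refine ⟨fun y => (h y).differentiableAt, ?_, ?_⟩
  · rw [e]; exact fun y => (h' y).differentiableAt
  · rw [e]; exact fun y => (h' y).deriv

include hU hper hpde hB in
/-- Zeros on a circle of latitude. -/
lemma circle_zeros {D : ℕ} (hD : ∀ x, V x < ((D : ℝ) + 1) ^ 2) (x : ℝ) (hne : ∃ y, U x y ≠ 0)
    (a : ℝ) (s : Finset ℝ) (hs : ∀ y ∈ s, y ∈ Ico a (a + 2 * Real.pi) ∧ U x y = 0) :
    (s.card : ℝ) ≤ 2 * (2 * Real.pi) * (D + 1) := by
  have hdec := decomp hU hper hpde hB hD x
  apply Sturm.zero_count (Finset.range (D + 1)) (fun k => 1 + (k : ℝ) ^ 2)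
    (fun k y => comp U k x y) (fun _ => 1) Real.two_pi_pos (ω := D + 1) (by positivity)
    continuous_const (fun _ => one_pos) (a := a) (s := s)
  · intro k _
    positivity
  · intro i _ j _ h
    have h2 : (i : ℝ) ^ 2 = (j : ℝ) ^ 2 := by linarith
    have h3 : (i : ℝ) = j := by
      have := abs_eq_abs.mpr (sq_eq_sq_iff_eq_or_eq_neg.mp h2)
      rwa [abs_of_nonneg (Nat.cast_nonneg i), abs_of_nonneg (Nat.cast_nonneg j)] at this
    exact_mod_cast h3
  · intro k hk y
    rw [Finset.mem_range] at hk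
    have : (k : ℝ) ≤ D + 1 := by exact_mod_cast hk.le
    rw [show (1 : ℝ) - (1 + (k : ℝ) ^ 2) = -(k : ℝ) ^ 2 by ring, abs_neg,
      abs_of_nonneg (by positivity)]
    gcongr
  · intro k _ y
    simp only [comp]
    rw [cos_per, sin_per]
  · intro k _
    exact (comp_y U k x).1
  · intro k _
    exact (comp_y U k x).2.1
  · intro k _ y
    rw [(comp_y U k x).2.2]
    ring
  · obtain ⟨y, hy⟩ := hne
    exact ⟨y, by rwa [← hdec]⟩
  · intro y hy
    refine ⟨(hs y hy).1, ?_⟩
    rw [← hdec]; exact (hs y hy).2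

lemma sq_inj {i j : ℕ} (h : (i : ℝ) ^ 2 = (j : ℝ) ^ 2) : i = j := by
  have h3 : (i : ℝ) = j := by
    have := abs_eq_abs.mpr (sq_eq_sq_iff_eq_or_eq_neg.mp h)
    rwa [abs_of_nonneg (Nat.cast_nonneg i), abs_of_nonneg (Nat.cast_nonneg j)] at this
  exact_mod_cast h3

include hU hper hpde hB in
/-- Zeros on a meridian. -/
lemma meridian_zeros (hΓ : 1 ≤ Γ) (hVc : Continuous V) (hV0 : ∀ x, 0 ≤ V x)
    (hV : ∀ x, V x ≤ Γ * Real.exp (-|x|) ^ 2) (y : ℝ) (hne : ∃ x, U x y ≠ 0)
    (s : Finset ℝ) (hs : ∀ x ∈ s, U x y = 0) : (s.card : ℝ) ≤ 6 * Real.sqrt Γ + 1 := by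
  obtain ⟨D, hDn⟩ := exists_nat_gt Γ
  have hD : ∀ x, V x < ((D : ℝ) + 1) ^ 2 := by
    intro x
    have h1 : Real.exp (-|x|) ^ 2 ≤ 1 := by
      apply pow_le_one₀ (Real.exp_pos _).le
      exact Real.exp_le_one_iff.mpr (neg_nonpos.mpr (abs_nonneg _))
    have h2 := hV x
    have h3 : (0 : ℝ) ≤ D := Nat.cast_nonneg D
    nlinarith
  have hdec := fun x => decomp hU hper hpde hB hD x y
  apply Sturm.line_zero_count (Finset.range (D + 1)) (fun k => (k : ℝ) ^ 2)
    (fun k x => comp U k x y) V hΓ hVc hV0 hV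
  · intro k _
    rcases Nat.eq_zero_or_pos k with h | h
    · left; simp [h]
    · right
      have : (1 : ℝ) ≤ k := by exact_mod_cast h
      nlinarith
  · intro i _ j _ h
    exact sq_inj h
  · intro k _
    exact ⟨_, fun x => comp_bound hB k x y⟩
  · intro k _
    exact (comp_x hU k y).1
  · intro k _
    rw [(comp_x hU k y).2]
    exact (comp_x hU.dx k y).1
  · intro k _ x
    exact comp_x_ode hU hper hpde k x y
  · obtain ⟨x, hx⟩ := hne
    exact ⟨x, by rwa [← hdec]⟩
  · intro x hx
    rw [← hdec]; exact hs x hx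

include hU hper hpde hB in
/-- There is no nonzero solution if `Γ < 1`. -/
lemma one_le_gamma (hΓ0 : 0 ≤ Γ) (hV0 : ∀ x, 0 < V x)
    (hV : ∀ x, V x ≤ Γ * Real.exp (-|x|) ^ 2) (hne : ∃ x y, U x y ≠ 0) : 1 ≤ Γ := by
  by_contra hcon
  push Not at hcon
  have hexp : ∀ x : ℝ, Real.exp (-|x|) ^ 2 ≤ 1 := by
    intro x
    apply pow_le_one₀ (Real.exp_pos _).le
    exact Real.exp_le_one_iff.mpr (neg_nonpos.mpr (abs_nonneg _))
  have hV1 : ∀ x, V x < ((0 : ℕ) + 1 : ℝ) ^ 2 := by
    intro x
    have h1 := hV x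
    have h2 := hexp x
    simp only [Nat.cast_zero, zero_add, one_pow]
    nlinarith
  have hdec : ∀ x y, U x y = comp U 0 x 0 := by
    intro x y
    have := decomp hU hper hpde hB hV1 x y
    rw [zero_add, Finset.sum_range_one] at this
    rw [this]
    simp [comp]
  set g : ℝ → ℝ := fun x => comp U 0 x 0 with hg
  have hg1 : Differentiable ℝ g := (comp_x hU 0 0).1
  have hg2 : Differentiable ℝ (deriv g) := by
    rw [hg, (comp_x hU 0 0).2]
    exact (comp_x hU.dx 0 0).1
  have hode : ∀ x, deriv (deriv g) x = (0 - V x) * g x := by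
    intro x
    have := comp_x_ode hU hper hpde 0 x 0
    simpa using this
  obtain ⟨x0, y0, hxy⟩ := hne
  have hgne : ∃ x, g x ≠ 0 := ⟨x0, by rw [hg]; simp only; rwa [← hdec x0 y0]⟩
  have hgB : ∀ x, |g x| ≤ B := by
    intro x
    have := hB x 0
    rwa [hdec x 0] at this
  have hnz : ∀ x, g x ≠ 0 := by
    intro x
    apply Sturm.ne_zero_of_tail hg1 hg2 hΓ0 hgB (fun x => (hV0 x).le) hV (Or.inl rfl) hode hgne
    have := hexp x
    nlinarith
  -- one sign
  have key : ∀ g : ℝ → ℝ, Differentiable ℝ g → Differentiable ℝ (deriv g) →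
      (∀ x, deriv (deriv g) x = (0 - V x) * g x) → (∀ x, |g x| ≤ B) → (∀ x, 0 < g x) →
      False := by
    intro g hg1 hg2 hode hgB hpos
    have hlt : ∀ x, deriv (deriv g) x < 0 := by
      intro x
      rw [hode x]
      have := mul_pos (hV0 x) (hpos x)
      linarith
    have hanti : Antitone (deriv g) := antitone_of_deriv_nonpos hg2 fun x => (hlt x).le
    have hz : ∀ x, deriv g x = 0 := by
      intro x
      apply le_antisymm
      · by_contra hcon
        push Not at hcon
        apply Sturm.not_bounded_of_deriv_ge (P := fun s => -g (-s)) (hg1.comp differentiable_neg).neg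
          (ξ := -x) (s := deriv g x) hcon _ (B := B)
        · intro y _
          have := (abs_le.mp (hgB (-y))).1
          linarith
        · intro y hy
          have e1 : deriv (fun s => -g (-s)) = fun s => deriv g (-s) := by
            rw [deriv_neg_fun (fun s => g (-s)), Pool.Agent.H24.deriv_reflect]
            funext s
            ring
          rw [e1]
          exact hanti (by linarith)
      · by_contra hcon
        push Not at hcon
        apply Sturm.not_bounded_of_deriv_ge (P := fun s => -g s) hg1.neg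
          (ξ := x) (s := -deriv g x) (by linarith) _ (B := B)
        · intro y _
          have := (abs_le.mp (hgB y)).1
          linarith
        · intro y hy
          rw [deriv_neg_fun]
          have := hanti hy
          linarith
    have := hlt 0
    rw [show deriv g = fun _ => 0 from funext hz] at this
    simp at this
  rcases lt_or_gt_of_ne (hnz 0) with h | h
  · have hneg : ∀ x, g x < 0 := by
      intro x
      by_contra hc
      push Not at hc
      have hc' : 0 < g x := lt_of_le_of_ne hc (hnz x).symm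
      obtain ⟨z, hz⟩ := mem_range_of_exists_le_of_exists_ge hg1.continuous ⟨0, h.le⟩ ⟨x, hc⟩
      exact hnz _ hz
    exact key (fun s => -g s) hg1.neg (by rw [deriv_neg_fun]; exact hg2.neg)
      (fun x => by rw [Sturm.neg_deriv2]; simp only; rw [hode]; ring)
      (fun x => by rw [abs_neg]; exact hgB x) (fun x => by have := hneg x; linarith)
  · have hpos : ∀ x, 0 < g x := by
      intro x
      by_contra hc
      push Not at hc
      obtain ⟨z, hz⟩ := mem_range_of_exists_le_of_exists_ge hg1.continuous ⟨x, hc⟩ ⟨0, h.le⟩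
      exact hnz _ hz
    exact key g hg1 hg2 hode hgB hpos

end

end Pool.Agent.H24.Cyl
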