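import Pool.Agent.H24.LiouvilleCore

set_option autoImplicit false

/-!
# Sturm's zero count

The operator `f ↦ f'' - K f` with `K > 0` does not decrease the density of zeros.
-/

namespace Pool.Agent.H24.Sturm

open Set Filter Topology

/-- The zeros of `f` contain an increasing sequence of mean gap at most `d`. -/
def ZeroDens (f : ℝ → ℝ) (d : ℝ) : Prop :=
  ∃ x : ℕ → ℝ, StrictMono x ∧ (∀ i, f (x i) = 0) ∧ ∃ C : ℝ, ∀ i : ℕ, x i ≤ C + d * i

lemma deriv2_nonpos_of_isLocalMax {f : ℝ → ℝ} {c : ℝ} (h : IsLocalMax f c)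
    (h1 : Differentiable ℝ f) : deriv (deriv f) c ≤ 0 := by
  by_contra hcon
  push Not at hcon
  have h0 : deriv f c = 0 := h.deriv_eq_zero
  have hmin : IsLocalMin f c := isLocalMin_of_deriv_deriv_pos hcon h0 h1.continuous.continuousAt
  have he : f =ᶠ[𝓝 c] fun _ => f c := by
    filter_upwards [h, hmin] with x hx hy
    exact le_antisymm hx hy
  have he2 : deriv f =ᶠ[𝓝 c] fun _ => 0 := by
    have := he.deriv
    refine this.trans ?_
    filter_upwards with x
    simp
  have he3 := he2.deriv_eq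
  rw [he3] at hcon
  simp at hcon

lemma deriv2_nonneg_of_isLocalMin {f : ℝ → ℝ} {c : ℝ} (h : IsLocalMin f c)
    (h1 : Differentiable ℝ f) : 0 ≤ deriv (deriv f) c := by
  have h2 := deriv2_nonpos_of_isLocalMax (f := fun s => -f s) (c := c) h.neg h1.neg
  rw [deriv_neg_fun, deriv_neg_fun] at h2
  linarith

/-- Between two zeros of `f` there is a point where `f` and `f'' - K f` have opposite signs. -/
lemma exists_opposite {f K : ℝ → ℝ} (h1 : Differentiable ℝ f) (hK : ∀ x, 0 < K x)
    {z1 z2 : ℝ} (hz : z1 < z2) (hf1 : f z1 = 0) (hf2 : f z2 = 0)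
    (hne : ∃ x ∈ Ioo z1 z2, f x ≠ 0) :
    ∃ a ∈ Ioo z1 z2, f a * (deriv (deriv f) a - K a * f a) < 0 := by
  obtain ⟨x0, hx0, hfx0⟩ := hne
  obtain ⟨c, hc, hmax⟩ := (isCompact_Icc (a := z1) (b := z2)).exists_isMaxOn
    ⟨z1, left_mem_Icc.mpr hz.le⟩ (f := fun x => |f x|) h1.continuous.abs.continuousOn
  have hcpos : 0 < |f c| := lt_of_lt_of_le (abs_pos.mpr hfx0) (hmax ⟨hx0.1.le, hx0.2.le⟩)
  have hcne : f c ≠ 0 := abs_pos.mp hcpos
  have hcI : c ∈ Ioo z1 z2 := by
    refine ⟨lt_of_le_of_ne hc.1 ?_, lt_of_le_of_ne hc.2 ?_⟩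
    · rintro rfl; exact hcne hf1
    · rintro rfl; exact hcne hf2
  refine ⟨c, hcI, ?_⟩
  have hnhds : Icc z1 z2 ∈ 𝓝 c := Icc_mem_nhds hcI.1 hcI.2
  rcases lt_or_gt_of_ne hcne with hneg | hpos
  · have hmin : IsLocalMin f c := by
      filter_upwards [hnhds] with x hx
      have := hmax hx
      simp only [mem_ofPred_eq] at this
      rw [abs_of_neg hneg] at this
      have := neg_abs_le (f x)
      linarith
    have := deriv2_nonneg_of_isLocalMin hmin h1
    have hk := mul_neg_of_pos_of_neg (hK c) hneg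
    apply mul_neg_of_neg_of_pos hneg
    linarith
  · have hmx : IsLocalMax f c := by
      filter_upwards [hnhds] with x hx
      have := hmax hx
      simp only [mem_ofPred_eq] at this
      rw [abs_of_pos hpos] at this
      have := le_abs_self (f x)
      linarith
    have := deriv2_nonpos_of_isLocalMax hmx h1
    have hk := mul_pos (hK c) hpos
    apply mul_neg_of_pos_of_neg hpos
    linarith

/-- One sign case of the next lemma. -/
lemma exists_zero_between_aux {f K : ℝ → ℝ} (h1 : Differentiable ℝ f)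
    (hc : Continuous (deriv (deriv f))) (hKc : Continuous K) (hK : ∀ x, 0 < K x)
    {a b z : ℝ} (haz : a < z) (hzb : z < b) (hfz : f z = 0) (hfa : 0 < f a) (hfb : 0 < f b)
    (hga : deriv (deriv f) a - K a * f a < 0) :
    ∃ y ∈ Ioo a b, deriv (deriv f) y - K y * f y = 0 := by
  have hab : a < b := haz.trans hzb
  obtain ⟨m, hm, hmin⟩ := (isCompact_Icc (a := a) (b := b)).exists_isMinOn
    ⟨a, left_mem_Icc.mpr hab.le⟩ (f := f) h1.continuous.continuousOn
  have hfm : f m ≤ 0 := by
    have := hmin (show z ∈ Icc a b from ⟨haz.le, hzb.le⟩)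
    simpa [hfz] using this
  have hmI : m ∈ Ioo a b := by
    refine ⟨lt_of_le_of_ne hm.1 ?_, lt_of_le_of_ne hm.2 ?_⟩
    · rintro rfl; linarith
    · rintro rfl; linarith
  have hloc : IsLocalMin f m := by
    filter_upwards [Icc_mem_nhds hmI.1 hmI.2] with x hx
    exact hmin hx
  have h2 := deriv2_nonneg_of_isLocalMin hloc h1
  have hgm : 0 ≤ deriv (deriv f) m - K m * f m := by
    have := mul_nonneg (hK m).le (neg_nonneg.mpr hfm)
    linarith
  have hcont : ContinuousOn (fun y => deriv (deriv f) y - K y * f y) (Icc a m) :=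
    (hc.sub (hKc.mul h1.continuous)).continuousOn
  obtain ⟨y, hy, hgy⟩ := intermediate_value_Icc hmI.1.le hcont
    (show (0 : ℝ) ∈ Icc (deriv (deriv f) a - K a * f a) (deriv (deriv f) m - K m * f m) from
      ⟨hga.le, hgm⟩)
  refine ⟨y, ⟨lt_of_le_of_ne hy.1 ?_, lt_of_le_of_lt hy.2 hmI.2⟩, hgy⟩
  rintro rfl
  simp only at hgy
  linarith

lemma exists_zero_between {f K : ℝ → ℝ} (h1 : Differentiable ℝ f)
    (hc : Continuous (deriv (deriv f))) (hKc : Continuous K) (hK : ∀ x, 0 < K x)
    {a b z : ℝ} (haz : a < z) (hzb : z < b) (hfz : f z = 0)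
    (ha : f a * (deriv (deriv f) a - K a * f a) < 0)
    (hb : f b * (deriv (deriv f) b - K b * f b) < 0) :
    ∃ y ∈ Ioo a b, deriv (deriv f) y - K y * f y = 0 := by
  have hab : a < b := haz.trans hzb
  have hcont : ContinuousOn (fun y => deriv (deriv f) y - K y * f y) (Icc a b) :=
    (hc.sub (hKc.mul h1.continuous)).continuousOn
  rcases lt_or_gt_of_ne (left_ne_zero_of_mul ha.ne) with hfa | hfa
  · have hga : 0 < deriv (deriv f) a - K a * f a := by
      by_contra hcon
      push Not at hcon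
      have := mul_nonneg_of_nonpos_of_nonpos hfa.le hcon
      linarith
    rcases lt_or_gt_of_ne (left_ne_zero_of_mul hb.ne) with hfb | hfb
    · -- both negative: apply the auxiliary lemma to `-f`
      have e2 : ∀ s, deriv (deriv fun s => -f s) s = -deriv (deriv f) s := by
        intro s; rw [deriv_neg_fun, deriv_neg_fun]
      have h3 := exists_zero_between_aux (f := fun s => -f s) (K := K) h1.neg
        (by
          have : deriv (deriv fun s => -f s) = fun s => -deriv (deriv f) s := funext e2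
          rw [this]; exact hc.neg) hKc hK haz hzb (by simp [hfz]) (by simpa using hfa)
        (by simpa using hfb) (by rw [e2]; linarith)
      obtain ⟨y, hy, hgy⟩ := h3
      rw [e2] at hgy
      exact ⟨y, hy, by linarith⟩
    · have hgb : deriv (deriv f) b - K b * f b < 0 := by
        by_contra hcon
        push Not at hcon
        have := mul_nonneg hfb.le hcon
        linarith
      obtain ⟨y, hy, hgy⟩ := intermediate_value_Icc' hab.le hcont
        (show (0 : ℝ) ∈ Icc (deriv (deriv f) b - K b * f b) (deriv (deriv f) a - K a * f a) from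
          ⟨hgb.le, hga.le⟩)
      simp only at hgy
      refine ⟨y, ⟨lt_of_le_of_ne hy.1 ?_, lt_of_le_of_ne hy.2 ?_⟩, hgy⟩
      · rintro rfl; linarith
      · rintro rfl; linarith
  · have hga : deriv (deriv f) a - K a * f a < 0 := by
      by_contra hcon
      push Not at hcon
      have := mul_nonneg hfa.le hcon
      linarith
    rcases lt_or_gt_of_ne (left_ne_zero_of_mul hb.ne) with hfb | hfb
    · have hgb : 0 < deriv (deriv f) b - K b * f b := by
        by_contra hcon
        push Not at hcon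
        have := mul_nonneg_of_nonpos_of_nonpos hfb.le hcon
        linarith
      obtain ⟨y, hy, hgy⟩ := intermediate_value_Icc hab.le hcont
        (show (0 : ℝ) ∈ Icc (deriv (deriv f) a - K a * f a) (deriv (deriv f) b - K b * f b) from
          ⟨hga.le, hgb.le⟩)
      simp only at hgy
      refine ⟨y, ⟨lt_of_le_of_ne hy.1 ?_, lt_of_le_of_ne hy.2 ?_⟩, hgy⟩
      · rintro rfl; linarith
      · rintro rfl; linarith
    · exact exists_zero_between_aux h1 hc hKc hK haz hzb hfz hfa hfb hga

/-- The operator `f ↦ f'' - K f` does not decrease the density of zeros. -/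
lemma ZeroDens.step {f K : ℝ → ℝ} {d : ℝ} (h : ZeroDens f d)
    (h1 : Differentiable ℝ f) (hc : Continuous (deriv (deriv f))) (hKc : Continuous K)
    (hK : ∀ x, 0 < K x) (hne : ∀ a b, a < b → ∃ x ∈ Ioo a b, f x ≠ 0) :
    ZeroDens (fun x => deriv (deriv f) x - K x * f x) d := by
  obtain ⟨x, hx, hfx, C, hC⟩ := h
  have hlt : ∀ i, x i < x (i + 1) := fun i => hx (Nat.lt_succ_self i)
  have ha : ∀ i, ∃ a ∈ Ioo (x i) (x (i + 1)), f a * (deriv (deriv f) a - K a * f a) < 0 :=
    fun i => exists_opposite h1 hK (hlt i) (hfx i) (hfx (i + 1)) (hne _ _ (hlt i))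
  choose a ha1 ha2 using ha
  have hz : ∀ i, ∃ y ∈ Ioo (a i) (a (i + 1)), deriv (deriv f) y - K y * f y = 0 :=
    fun i => exists_zero_between h1 hc hKc hK (ha1 i).2 (ha1 (i + 1)).1 (hfx (i + 1))
      (ha2 i) (ha2 (i + 1))
  choose z hz1 hz2 using hz
  refine ⟨z, strictMono_nat_of_lt_succ fun i => (hz1 i).2.trans (hz1 (i + 1)).1, hz2,
    C + 2 * d, ?_⟩
  intro i
  have h3 := hC (i + 1 + 1)
  have h4 := (hz1 i).2.trans (ha1 (i + 1)).2
  push_cast at h3
  linarith

/-- If any two zeros have distance at least `δ`, then `δ ≤ d`. -/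
lemma ZeroDens.le {f : ℝ → ℝ} {d δ : ℝ} (h : ZeroDens f d)
    (hgap : ∀ z1 z2, z1 < z2 → f z1 = 0 → f z2 = 0 → δ ≤ z2 - z1) : δ ≤ d := by
  obtain ⟨x, hx, hfx, C, hC⟩ := h
  have h1 : ∀ i : ℕ, x 0 + δ * i ≤ x i := by
    intro i
    induction i with
    | zero => simp
    | succ i ih =>
      have := hgap (x i) (x (i + 1)) (hx (Nat.lt_succ_self i)) (hfx _) (hfx _)
      push_cast
      linarith
  by_contra hcon
  push Not at hcon
  obtain ⟨n, hn⟩ := exists_nat_gt ((C - x 0) / (δ - d))
  rw [div_lt_iff₀ (by linarith)] at hn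
  have h2 := h1 n
  have h3 := hC n
  nlinarith

/-- Zeros of a periodic function in a period interval give a sequence of zeros. -/
lemma ZeroDens.of_finset {f : ℝ → ℝ} {L : ℝ} (hL : 0 < L) (hper : Function.Periodic f L)
    {a : ℝ} (s : Finset ℝ) (hs : ∀ x ∈ s, x ∈ Ico a (a + L) ∧ f x = 0) (hn : 0 < s.card) :
    ZeroDens f (L / s.card) := by
  set n := s.card with hn'
  set e := s.orderEmbOfFin hn'.symm with he
  set y : ℕ → ℝ := fun i => e ⟨i % n, Nat.mod_lt _ hn⟩ with hy
  have hmem : ∀ i, y i ∈ Ico a (a + L) ∧ f (y i) = 0 := fun i => hs _ (Finset.orderEmbOfFin_mem _ _ _)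
  refine ⟨fun i => y i + (i / n : ℕ) * L, ?_, ?_, a + L, ?_⟩
  · apply strictMono_nat_of_lt_succ
    intro i
    have hdm := Nat.div_add_mod i n
    have hmod := Nat.mod_lt i hn
    by_cases hcase : i % n + 1 < n
    · have e1 : (i + 1) % n = i % n + 1 := by
        conv_lhs => rw [← hdm]
        rw [add_assoc, Nat.mul_add_mod]
        exact Nat.mod_eq_of_lt hcase
      have e2 : (i + 1) / n = i / n := by
        conv_lhs => rw [← hdm]
        rw [add_assoc, Nat.mul_add_div hn, Nat.div_eq_of_lt hcase, add_zero]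
      simp only [e2]
      have : y i < y (i + 1) := by
        apply e.strictMono
        simp only [Fin.mk_lt_mk, e1]
        omega
      linarith
    · have e0 : i % n + 1 = n := by omega
      have e1 : (i + 1) / n = i / n + 1 := by
        conv_lhs => rw [← hdm]
        rw [add_assoc, e0, Nat.mul_add_div hn, Nat.div_self hn]
      simp only [e1]
      have h1 := (hmem i).1.2
      have h2 := (hmem (i + 1)).1.1
      push_cast
      linarith
  · intro i
    simp only
    have := hper.nat_mul (i / n) (y i)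
    rw [this]
    exact (hmem i).2
  · intro i
    have h1 := (hmem i).1.2
    have hn0 : (0 : ℝ) < n := by exact_mod_cast hn
    have h2 : ((i / n : ℕ) : ℝ) ≤ (i : ℝ) / n := Nat.cast_div_le
    have h3 : ((i / n : ℕ) : ℝ) * L ≤ (i : ℝ) / n * L := mul_le_mul_of_nonneg_right h2 hL.le
    have h4 : (i : ℝ) / n * L = L / n * i := by ring
    simp only
    linarith

end Pool.Agent.H24.Sturm
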