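import Pool.Agent.H24.LiouvilleSpectrum
import Pool.Agent.H24.Sturm

set_option autoImplicit false

/-!
# Interior gradient estimate for the Poisson equation in the plane, by a barrier argument
-/

namespace Pool.Agent.H24.Torus

open Set Filter Topology

/-- Minimum principle on a rectangle. -/
lemma min_principle {v : ℝ → ℝ → ℝ} (hv : Smooth2 v) {a b c e : ℝ} (hab : a < b) (hce : c < e)
    (hlap : ∀ x ∈ Ioo a b, ∀ y ∈ Ioo c e, dx (dx v) x y + dy (dy v) x y < 0)
    (h1 : ∀ y ∈ Icc c e, 0 ≤ v a y) (h2 : ∀ y ∈ Icc c e, 0 ≤ v b y)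
    (h3 : ∀ x ∈ Icc a b, 0 ≤ v x c) (h4 : ∀ x ∈ Icc a b, 0 ≤ v x e) :
    ∀ x ∈ Icc a b, ∀ y ∈ Icc c e, 0 ≤ v x y := by
  obtain ⟨⟨x0, y0⟩, hp0, hmin⟩ := ((isCompact_Icc (a := a) (b := b)).prod
    (isCompact_Icc (a := c) (b := e))).exists_isMinOn
    ⟨(a, c), left_mem_Icc.mpr hab.le, left_mem_Icc.mpr hce.le⟩ hv.continuous.continuousOn
  have hx0 : x0 ∈ Icc a b := hp0.1
  have hy0 : y0 ∈ Icc c e := hp0.2
  have hmin' : ∀ x ∈ Icc a b, ∀ y ∈ Icc c e, v x0 y0 ≤ v x y := fun x hx y hy =>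
    hmin (show (x, y) ∈ Icc a b ×ˢ Icc c e from ⟨hx, hy⟩)
  suffices h : 0 ≤ v x0 y0 from fun x hx y hy => h.trans (hmin' x hx y hy)
  by_contra hcon
  push Not at hcon
  have hxI : x0 ∈ Ioo a b := by
    refine ⟨lt_of_le_of_ne hx0.1 ?_, lt_of_le_of_ne hx0.2 ?_⟩
    · rintro rfl; linarith [h1 y0 hy0]
    · rintro rfl; linarith [h2 y0 hy0]
  have hyI : y0 ∈ Ioo c e := by
    refine ⟨lt_of_le_of_ne hy0.1 ?_, lt_of_le_of_ne hy0.2 ?_⟩
    · rintro rfl; linarith [h3 x0 hx0]
    · rintro rfl; linarith [h4 x0 hx0]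
  have m1 : IsLocalMin (fun s => v s y0) x0 := by
    filter_upwards [Icc_mem_nhds hxI.1 hxI.2] with x hx
    exact hmin' x hx y0 hy0
  have m2 : IsLocalMin (fun t => v x0 t) y0 := by
    filter_upwards [Icc_mem_nhds hyI.1 hyI.2] with y hy
    exact hmin' x0 hx0 y hy
  have k1 : 0 ≤ dx (dx v) x0 y0 := Sturm.deriv2_nonneg_of_isLocalMin m1 (hv.diff_x y0)
  have k2 : 0 ≤ dy (dy v) x0 y0 := Sturm.deriv2_nonneg_of_isLocalMin m2 (hv.diff_y x0)
  linarith [hlap x0 hxI y0 hyI]

/-- The odd reflection trick at the origin. -/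
lemma gradient_aux {u : ℝ → ℝ → ℝ} (hu : Smooth2 u) {d M N : ℝ} (hd : 0 < d) (hN : 0 ≤ N)
    (hM : ∀ x ∈ Icc (-d) d, ∀ y ∈ Icc (-d) d, |u x y| ≤ M)
    (hlap : ∀ x ∈ Icc (-d) d, ∀ y ∈ Icc (-d) d, |dx (dx u) x y + dy (dy u) x y| ≤ N) :
    |dx u 0 0| ≤ 2 * M / d + N * d / 2 := by
  have hM0 : 0 ≤ M := (abs_nonneg _).trans (hM 0 ⟨by linarith, hd.le⟩ 0 ⟨by linarith, hd.le⟩)
  -- it suffices to bound with a larger constant
  suffices hkey : ∀ N' > N, |dx u 0 0| ≤ 2 * M / d + N' * d / 2 by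
    apply le_of_forall_gt_imp_ge_of_dense
    intro z hz
    have h1 := hkey (N + (z - (2 * M / d + N * d / 2)) * 2 / d) (by
      have : 0 < (z - (2 * M / d + N * d / 2)) * 2 / d := by
        apply div_pos _ hd
        linarith only [hz]
      linarith only [this])
    have e : 2 * M / d + (N + (z - (2 * M / d + N * d / 2)) * 2 / d) * d / 2 = z := by
      field_simp; ring
    rwa [e] at h1
  intro N' hN'
  have hrefl : Smooth2 (fun x y => u (-x) y) := by
    have : ContDiff ℝ (⊤ : ℕ∞) (fun p : ℝ × ℝ => (-p.1, p.2)) :=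
      (contDiff_fst.neg).prodMk contDiff_snd
    exact ContDiff.comp (g := fun p : ℝ × ℝ => u p.1 p.2) hu this
  set ur : ℝ → ℝ → ℝ := fun x y => u (-x) y with hur
  have dur : dx ur = fun x y => -dx u (-x) y := by
    funext x y
    have h1 : HasDerivAt (fun s : ℝ => -s) (-1) x := hasDerivAt_neg x
    have h2 := (hu.hasDerivAt_x' (-x) y).comp x h1
    show deriv (fun s => u (-s) y) x = _
    have h3 : HasDerivAt (fun s => u (-s) y) (dx u (-x) y * -1) x := h2
    rw [h3.deriv]; ring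
  have ddur : dx (dx ur) = fun x y => dx (dx u) (-x) y := by
    funext x y
    rw [dur]
    have h1 : HasDerivAt (fun s : ℝ => -s) (-1) x := hasDerivAt_neg x
    have h2 := ((hu.dx.hasDerivAt_x' (-x) y).comp x h1).neg
    have h3 : HasDerivAt (fun s => -dx u (-s) y) (-(dx (dx u) (-x) y * -1)) x := h2
    show deriv (fun s => -dx u (-s) y) x = _
    rw [h3.deriv]; ring
  have ddyur : dy (dy ur) = fun x y => dy (dy u) (-x) y := rfl
  -- the barrier
  set ψ : ℝ → ℝ → ℝ := fun x y => M / d ^ 2 * (y ^ 2 + x * (2 * d - x)) + N' / 2 * (x * (d - x))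
    with hψ
  have hψs : Smooth2 ψ := by
    unfold Smooth2
    simp only [hψ]
    fun_prop
  have dψ : ∀ x y, dx (dx ψ) x y + dy (dy ψ) x y = -N' := by
    intro x y
    have e1 : dx ψ = fun x y => M / d ^ 2 * (2 * d - 2 * x) + N' / 2 * (d - 2 * x) := by
      funext x y
      have h1 : HasDerivAt (fun s : ℝ => M / d ^ 2 * (y ^ 2 + s * (2 * d - s)) +
          N' / 2 * (s * (d - s))) (M / d ^ 2 * (2 * d - 2 * x) + N' / 2 * (d - 2 * x)) x := by
        have h2 := ((((hasDerivAt_id x).mul ((hasDerivAt_id x).const_sub (2 * d))).const_add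
          (y ^ 2)).const_mul (M / d ^ 2)).add
          (((hasDerivAt_id x).mul ((hasDerivAt_id x).const_sub d)).const_mul (N' / 2))
        exact h2.congr_deriv (by simp; ring)
      exact h1.deriv
    have e2 : dy ψ = fun x y => M / d ^ 2 * (2 * y) := by
      funext x y
      have h1 : HasDerivAt (fun t : ℝ => M / d ^ 2 * (t ^ 2 + x * (2 * d - x)) +
          N' / 2 * (x * (d - x))) (M / d ^ 2 * (2 * y)) y := by
        have h2 := ((((hasDerivAt_id y).pow 2).add_const (x * (2 * d - x))).const_mul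
          (M / d ^ 2)).add_const (N' / 2 * (x * (d - x)))
        exact h2.congr_deriv (by simp)
      exact h1.deriv
    rw [e1, e2]
    have h3 : HasDerivAt (fun s : ℝ => M / d ^ 2 * (2 * d - 2 * s) + N' / 2 * (d - 2 * s))
        (M / d ^ 2 * (-2) + N' / 2 * (-2)) x := by
      have h2 := ((((hasDerivAt_id x).const_mul 2).const_sub (2 * d)).const_mul (M / d ^ 2)).add
        ((((hasDerivAt_id x).const_mul 2).const_sub d).const_mul (N' / 2))
      exact h2.congr_deriv (by simp)
    have h4 : HasDerivAt (fun t : ℝ => M / d ^ 2 * (2 * t)) (M / d ^ 2 * 2) y := by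
      have h2 := ((hasDerivAt_id y).const_mul 2).const_mul (M / d ^ 2)
      exact h2.congr_deriv (by simp)
    have h5 : dx (fun x _ => M / d ^ 2 * (2 * d - 2 * x) + N' / 2 * (d - 2 * x)) x y =
        M / d ^ 2 * (-2) + N' / 2 * (-2) := h3.deriv
    have h6 : dy (fun _ y => M / d ^ 2 * (2 * y)) x y = M / d ^ 2 * 2 := h4.deriv
    rw [h5, h6]; ring
  -- the comparison for both signs
  have hcomp : ∀ ε : ℝ, |ε| = 1 → ∀ x ∈ Icc 0 d, ∀ y ∈ Icc (-d) d,
      0 ≤ ψ x y + ε / 2 * (u x y - ur x y) := by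
    intro ε hε
    set v : ℝ → ℝ → ℝ := ψ + ((ε / 2) • u + (-(ε / 2)) • ur) with hvdef
    have hvs : Smooth2 v := hψs.add ((hu.smul _).add (hrefl.smul _))
    have hve : ∀ x y, v x y = ψ x y + ε / 2 * (u x y - ur x y) := by
      intro x y
      simp only [hvdef, Pi.add_apply, Pi.smul_apply, smul_eq_mul]; ring
    have hvl : ∀ x y, dx (dx v) x y + dy (dy v) x y = -N' +
        ε / 2 * ((dx (dx u) x y + dy (dy u) x y) -
          (dx (dx u) (-x) y + dy (dy u) (-x) y)) := by
      intro x y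
      have a1 : dx v = dx ψ + ((ε / 2) • dx u + (-(ε / 2)) • dx ur) := by
        rw [hvdef, dx_add hψs ((hu.smul _).add (hrefl.smul _)), dx_add (hu.smul _) (hrefl.smul _),
          dx_smul hu, dx_smul hrefl]
      have a2 : dx (dx v) = dx (dx ψ) + ((ε / 2) • dx (dx u) + (-(ε / 2)) • dx (dx ur)) := by
        rw [a1, dx_add hψs.dx ((hu.dx.smul _).add (hrefl.dx.smul _)),
          dx_add (hu.dx.smul _) (hrefl.dx.smul _), dx_smul hu.dx, dx_smul hrefl.dx]
      have b1 : dy v = dy ψ + ((ε / 2) • dy u + (-(ε / 2)) • dy ur) := by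
        rw [hvdef, dy_add hψs ((hu.smul _).add (hrefl.smul _)), dy_add (hu.smul _) (hrefl.smul _),
          dy_smul hu, dy_smul hrefl]
      have b2 : dy (dy v) = dy (dy ψ) + ((ε / 2) • dy (dy u) + (-(ε / 2)) • dy (dy ur)) := by
        rw [b1, dy_add hψs.dy ((hu.dy.smul _).add (hrefl.dy.smul _)),
          dy_add (hu.dy.smul _) (hrefl.dy.smul _), dy_smul hu.dy, dy_smul hrefl.dy]
      rw [a2, b2, ddur, ddyur]
      simp only [Pi.add_apply, Pi.smul_apply, smul_eq_mul]
      linear_combination dψ x y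
    have hbound : ∀ x ∈ Icc (-d) d, ∀ y ∈ Icc (-d) d, -M ≤ ε / 2 * (u x y - ur x y) := by
      intro x hx y hy
      have h1 := hM x hx y hy
      have h2 := hM (-x) ⟨by linarith [hx.2], by linarith [hx.1]⟩ y hy
      have h3 : |ε / 2 * (u x y - ur x y)| ≤ M := by
        rw [abs_mul, abs_div, hε]
        have := abs_sub (u x y) (ur x y)
        simp only [hur] at this ⊢
        norm_num
        linarith
      exact (abs_le.mp h3).1
    have hfin := min_principle hvs (a := 0) (b := d) (c := -d) (e := d) hd (by linarith)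
      (by
        intro x hx y hy
        rw [hvl]
        have hxI : x ∈ Icc (-d) d := ⟨by linarith [hx.1], hx.2.le⟩
        have hxI' : -x ∈ Icc (-d) d := ⟨by linarith [hx.2], by linarith [hx.1]⟩
        have hyI : y ∈ Icc (-d) d := ⟨hy.1.le, hy.2.le⟩
        have l1 := hlap x hxI y hyI
        have l2 := hlap (-x) hxI' y hyI
        set A := dx (dx u) x y + dy (dy u) x y
        set B := dx (dx u) (-x) y + dy (dy u) (-x) y
        have h3 : |ε / 2 * (A - B)| ≤ N := by
          rw [abs_mul, abs_div, hε]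
          have := abs_sub A B
          norm_num
          linarith
        have := (abs_le.mp h3).2
        linarith)
      (by
        intro y hy
        rw [hve]
        have e1 : ε / 2 * (u 0 y - ur 0 y) = 0 := by simp [hur]
        rw [e1, add_zero]
        simp only [hψ]
        have : 0 ≤ M / d ^ 2 * (y ^ 2 + 0 * (2 * d - 0)) := by
          rw [zero_mul, add_zero]; positivity
        linarith only [this])
      (by
        intro y hy
        rw [hve]
        have h1 := hbound d ⟨by linarith, le_rfl⟩ y hy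
        have h2 : M ≤ ψ d y := by
          simp only [hψ]
          have e1 : d * (2 * d - d) = d ^ 2 := by ring
          have e2 : N' / 2 * (d * (d - d)) = 0 := by ring
          rw [e1, e2, add_zero]
          have : M / d ^ 2 * (y ^ 2 + d ^ 2) = M + M / d ^ 2 * y ^ 2 := by
            field_simp; ring
          rw [this]
          have : 0 ≤ M / d ^ 2 * y ^ 2 := by positivity
          linarith only [this]
        linarith only [h1, h2])
      (by
        intro x hx
        rw [hve]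
        have h1 := hbound x ⟨by linarith [hx.1], hx.2⟩ (-d) ⟨le_rfl, by linarith⟩
        have h2 : M ≤ ψ x (-d) := by
          simp only [hψ]
          have e3 : 0 ≤ x * (2 * d - x) := mul_nonneg hx.1 (by linarith [hx.2])
          have e4 : 0 ≤ N' / 2 * (x * (d - x)) :=
            mul_nonneg (by linarith) (mul_nonneg hx.1 (by linarith [hx.2]))
          have : M / d ^ 2 * ((-d) ^ 2 + x * (2 * d - x)) = M + M / d ^ 2 * (x * (2 * d - x)) := by
            field_simp
          rw [this]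
          have : 0 ≤ M / d ^ 2 * (x * (2 * d - x)) := by positivity
          linarith only [e4, this]
        linarith)
      (by
        intro x hx
        rw [hve]
        have h1 := hbound x ⟨by linarith [hx.1], hx.2⟩ d ⟨by linarith, le_rfl⟩
        have h2 : M ≤ ψ x d := by
          simp only [hψ]
          have e3 : 0 ≤ x * (2 * d - x) := mul_nonneg hx.1 (by linarith [hx.2])
          have e4 : 0 ≤ N' / 2 * (x * (d - x)) :=
            mul_nonneg (by linarith) (mul_nonneg hx.1 (by linarith [hx.2]))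
          have : M / d ^ 2 * (d ^ 2 + x * (2 * d - x)) = M + M / d ^ 2 * (x * (2 * d - x)) := by
            field_simp
          rw [this]
          have : 0 ≤ M / d ^ 2 * (x * (2 * d - x)) := by positivity
          linarith only [e4, this]
        linarith)
    intro x hx y hy
    rw [← hve]
    exact hfin x hx y hy
  -- the derivative at zero
  have hw : HasDerivAt (fun x => 1 / 2 * (u x 0 - ur x 0)) (dx u 0 0) 0 := by
    have h1 := hu.hasDerivAt_x' 0 0
    have h2 := hrefl.hasDerivAt_x' 0 0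
    have h3 := (h1.sub h2).const_mul (1 / 2)
    refine h3.congr_deriv ?_
    have : dx ur 0 0 = -dx u 0 0 := by rw [dur]; simp
    rw [show (dx fun x y => u (-x) y) 0 0 = dx ur 0 0 from rfl, this]
    ring
  have hslope := hasDerivAt_iff_tendsto_slope_zero.mp hw
  have hslope' : Tendsto (fun t : ℝ => |t⁻¹ • (1 / 2 * (u (0 + t) 0 - ur (0 + t) 0) -
      1 / 2 * (u 0 0 - ur 0 0))|) (𝓝[>] 0) (𝓝 |dx u 0 0|) :=
    (hslope.mono_left (nhdsWithin_mono _ fun x hx => (ne_of_gt hx : x ≠ 0))).abs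
  have hrhs : Tendsto (fun t : ℝ => M / d ^ 2 * (2 * d - t) + N' / 2 * (d - t)) (𝓝[>] 0)
      (𝓝 (2 * M / d + N' * d / 2)) := by
    have hc : Continuous (fun t : ℝ => M / d ^ 2 * (2 * d - t) + N' / 2 * (d - t)) := by
      fun_prop
    have := (hc.tendsto 0).mono_left (nhdsWithin_le_nhds (s := Ioi (0 : ℝ)))
    have e : M / d ^ 2 * (2 * d - 0) + N' / 2 * (d - 0) = 2 * M / d + N' * d / 2 := by
      field_simp; ring
    rwa [e] at this
  refine le_of_tendsto_of_tendsto hslope' hrhs ?_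
  have hmem : Ioo 0 d ∈ 𝓝[>] (0 : ℝ) := Ioo_mem_nhdsGT hd
  filter_upwards [hmem] with t ht
  have ht0 : 0 < t := ht.1
  have h1 := hcomp 1 (by simp) t ⟨ht.1.le, ht.2.le⟩ 0 ⟨by linarith, hd.le⟩
  have h2 := hcomp (-1) (by simp) t ⟨ht.1.le, ht.2.le⟩ 0 ⟨by linarith, hd.le⟩
  have e0 : 1 / 2 * (u 0 0 - ur 0 0) = 0 := by simp [hur]
  rw [e0, sub_zero, zero_add, smul_eq_mul, abs_mul, abs_inv, abs_of_pos ht0,
    inv_mul_le_iff₀ ht0]
  simp only [hψ] at h1 h2
  rw [abs_le]
  constructor
  · nlinarith only [h1]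
  · nlinarith only [h2]

/-- Interior gradient estimate. -/
lemma gradient_estimate {u : ℝ → ℝ → ℝ} (hu : Smooth2 u) {d M N : ℝ} (hd : 0 < d) (hN : 0 ≤ N)
    (p : ℝ × ℝ) (hM : ∀ x y, |x - p.1| ≤ d → |y - p.2| ≤ d → |u x y| ≤ M)
    (hlap : ∀ x y, |x - p.1| ≤ d → |y - p.2| ≤ d → |dx (dx u) x y + dy (dy u) x y| ≤ N) :
    |dx u p.1 p.2| ≤ 2 * M / d + N * d / 2 ∧ |dy u p.1 p.2| ≤ 2 * M / d + N * d / 2 := by
  have tr : ContDiff ℝ (⊤ : ℕ∞) (fun q : ℝ × ℝ => (p.1 + q.1, p.2 + q.2)) :=
    (contDiff_const.add contDiff_fst).prodMk (contDiff_const.add contDiff_snd)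
  have hU : Smooth2 (fun X Y => u (p.1 + X) (p.2 + Y)) :=
    ContDiff.comp (g := fun p : ℝ × ℝ => u p.1 p.2) hu tr
  have tr' : ContDiff ℝ (⊤ : ℕ∞) (fun q : ℝ × ℝ => (p.1 + q.2, p.2 + q.1)) :=
    (contDiff_const.add contDiff_snd).prodMk (contDiff_const.add contDiff_fst)
  have hV : Smooth2 (fun X Y => u (p.1 + Y) (p.2 + X)) :=
    ContDiff.comp (g := fun p : ℝ × ℝ => u p.1 p.2) hu tr'
  have a1 : dx (fun X Y => u (p.1 + X) (p.2 + Y)) = fun X Y => dx u (p.1 + X) (p.2 + Y) := by
    funext X Y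
    exact deriv_comp_const_add (fun s => u s (p.2 + Y)) p.1 X
  have a2 : dx (dx (fun X Y => u (p.1 + X) (p.2 + Y))) =
      fun X Y => dx (dx u) (p.1 + X) (p.2 + Y) := by
    rw [a1]; funext X Y
    exact deriv_comp_const_add (fun s => dx u s (p.2 + Y)) p.1 X
  have a3 : dy (fun X Y => u (p.1 + X) (p.2 + Y)) = fun X Y => dy u (p.1 + X) (p.2 + Y) := by
    funext X Y
    exact deriv_comp_const_add (fun s => u (p.1 + X) s) p.2 Y
  have a4 : dy (dy (fun X Y => u (p.1 + X) (p.2 + Y))) =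
      fun X Y => dy (dy u) (p.1 + X) (p.2 + Y) := by
    rw [a3]; funext X Y
    exact deriv_comp_const_add (fun s => dy u (p.1 + X) s) p.2 Y
  have b1 : dx (fun X Y => u (p.1 + Y) (p.2 + X)) = fun X Y => dy u (p.1 + Y) (p.2 + X) := by
    funext X Y
    exact deriv_comp_const_add (fun s => u (p.1 + Y) s) p.2 X
  have b2 : dx (dx (fun X Y => u (p.1 + Y) (p.2 + X))) =
      fun X Y => dy (dy u) (p.1 + Y) (p.2 + X) := by
    rw [b1]; funext X Y
    exact deriv_comp_const_add (fun s => dy u (p.1 + Y) s) p.2 X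
  have b3 : dy (fun X Y => u (p.1 + Y) (p.2 + X)) = fun X Y => dx u (p.1 + Y) (p.2 + X) := by
    funext X Y
    exact deriv_comp_const_add (fun s => u s (p.2 + X)) p.1 Y
  have b4 : dy (dy (fun X Y => u (p.1 + Y) (p.2 + X))) =
      fun X Y => dx (dx u) (p.1 + Y) (p.2 + X) := by
    rw [b3]; funext X Y
    exact deriv_comp_const_add (fun s => dx u s (p.2 + X)) p.1 Y
  constructor
  · have := gradient_aux hU hd hN (M := M)
      (fun x hx y hy => hM _ _ (by rw [add_sub_cancel_left]; exact abs_le.mpr hx)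
        (by rw [add_sub_cancel_left]; exact abs_le.mpr hy))
      (fun x hx y hy => by
        rw [a2, a4]
        exact hlap _ _ (by rw [add_sub_cancel_left]; exact abs_le.mpr hx)
          (by rw [add_sub_cancel_left]; exact abs_le.mpr hy))
    rw [a1] at this
    simpa using this
  · have := gradient_aux hV hd hN (M := M)
      (fun x hx y hy => hM _ _ (by rw [add_sub_cancel_left]; exact abs_le.mpr hy)
        (by rw [add_sub_cancel_left]; exact abs_le.mpr hx))
      (fun x hx y hy => by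
        rw [b2, b4, add_comm]
        exact hlap _ _ (by rw [add_sub_cancel_left]; exact abs_le.mpr hy)
          (by rw [add_sub_cancel_left]; exact abs_le.mpr hx))
    rw [b1] at this
    simpa using this

end Pool.Agent.H24.Torus
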