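import Mathlib
import Pool.Agent.H24.TorusEigenspace

set_option autoImplicit false

/-!
# Liouville metrics on the sphere

The sphere is the quotient of the plane by the group generated by the translations of the lattice
`L1 ℤ × L2 ℤ` and by `p ↦ -p`, that is the quotient of a torus by its hyperelliptic involution.  A
Liouville metric on it is induced by `(ρ(x) + σ(y)) (dx² + dy²)`, where the even periodic functions
`ρ` and `σ` are such that `ρ(x) + σ(y)` vanishes, to the second order, exactly at the four branch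
points, the points of `(L1/2) ℤ × (L2/2) ℤ`.
-/

namespace Pool.Agent.H24.LSphere

open Pool.Agent.H24.Torus

/-- The points `p` and `q` of the plane represent the same point of the sphere. -/
def SameOrbit (L1 L2 : ℝ) (p q : ℝ × ℝ) : Prop :=
  ∃ j k : ℤ, (q.1 = p.1 + j * L1 ∧ q.2 = p.2 + k * L2) ∨
    (q.1 = -p.1 + j * L1 ∧ q.2 = -p.2 + k * L2)

/-- Riemannian distance on the sphere: infimum of the lengths of `C¹` paths of the plane from `p`
to a representative of the class of `q`. -/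
noncomputable def sphereDist (w : ℝ → ℝ → ℝ) (L1 L2 : ℝ) (p q : ℝ × ℝ) : ℝ :=
  sInf {ℓ | ∃ γ : ℝ → ℝ × ℝ, ContDiff ℝ 1 γ ∧ γ 0 = p ∧ SameOrbit L1 L2 q (γ 1) ∧
    ℓ = pathLength w γ}

/-- The geodesic disc `B(p, r)` of the sphere, as an invariant subset of the plane. -/
def geodDisc (w : ℝ → ℝ → ℝ) (L1 L2 : ℝ) (p : ℝ × ℝ) (r : ℝ) : Set (ℝ × ℝ) :=
  {q | sphereDist w L1 L2 p q < r}

/-- The doubling index `log₂ (sup_{B(p,2r)} |u| / sup_{B(p,r)} |u|)`. -/
noncomputable def doublingIndex (w : ℝ → ℝ → ℝ) (L1 L2 : ℝ) (u : ℝ → ℝ → ℝ) (p : ℝ × ℝ)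
    (r : ℝ) : ℝ :=
  Real.logb 2 (supAbs u (geodDisc w L1 L2 p (2 * r)) / supAbs u (geodDisc w L1 L2 p r))

/-- Periodic data: the functions `ρ` and `σ`. -/
structure Periodic (L1 L2 : ℝ) (ρ σ : ℝ → ℝ) : Prop where
  L1_pos : 0 < L1
  L2_pos : 0 < L2
  smooth_rho : ContDiff ℝ (⊤ : ℕ∞) ρ
  smooth_sigma : ContDiff ℝ (⊤ : ℕ∞) σ
  periodic_rho : Function.Periodic ρ L1
  periodic_sigma : Function.Periodic σ L2

/-- `(ρ(x) + σ(y)) (dx² + dy²)` induces a metric on the sphere: `ρ` and `σ` are smooth, even and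
periodic, and `ρ(x) + σ(y)` is positive except at the branch points, where it vanishes with a
positive second derivative. -/
structure LiouvilleSphere (L1 L2 : ℝ) (ρ σ : ℝ → ℝ) : Prop extends Periodic L1 L2 ρ σ where
  even_rho : ∀ x, ρ (-x) = ρ x
  even_sigma : ∀ y, σ (-y) = σ y
  pos : ∀ x y, (∀ j k : ℤ, x = j * (L1 / 2) → y ≠ k * (L2 / 2)) → 0 < ρ x + σ y
  zero : ρ 0 + σ 0 = 0
  zero_rho : ρ (L1 / 2) + σ 0 = 0
  zero_sigma : ρ 0 + σ (L2 / 2) = 0
  rho2 : 0 < deriv (deriv ρ) 0 ∧ 0 < deriv (deriv ρ) (L1 / 2)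
  sigma2 : 0 < deriv (deriv σ) 0 ∧ 0 < deriv (deriv σ) (L2 / 2)

/-- `u` is a Laplace eigenfunction with eigenvalue `lam` on the sphere with the metric
`w (dx² + dy²)`: the lift to the plane is smooth, doubly periodic, even, not identically zero, and
`u_xx + u_yy + lam w u = 0`. -/
structure IsEigenfunction (w : ℝ → ℝ → ℝ) (L1 L2 lam : ℝ) (u : ℝ → ℝ → ℝ) : Prop where
  smooth : Smooth2 u
  periodic : Periodic2 L1 L2 u
  even : ∀ x y, u (-x) (-y) = u x y
  eq : ∀ x y, dx (dx u) x y + dy (dy u) x y + lam * w x y * u x y = 0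
  ne_zero : ∃ x y, u x y ≠ 0

/-- An admissible covering (with constants `C, C₁, C₂`) by `N` geodesic discs of radius
`C / √lam` with centres `p i`. -/
structure IsAdmissibleCovering (w : ℝ → ℝ → ℝ) (L1 L2 lam : ℝ) (u : ℝ → ℝ → ℝ)
    (C C1 C2 : ℝ) (N : ℕ) (p : Fin N → ℝ × ℝ) : Prop where
  cover : ∀ q : ℝ × ℝ, ∃ i, q ∈ geodDisc w L1 L2 (p i) (C / Real.sqrt lam)
  card_lower : C2⁻¹ * lam ≤ (N : ℝ)
  card_upper : (N : ℝ) ≤ C2 * lam
  overlap : ∀ q : ℝ × ℝ,
    (({i | q ∈ geodDisc w L1 L2 (p i) (C / Real.sqrt lam)} : Set (Fin N)).ncard : ℝ) ≤ C1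
  zero : ∀ i, u (p i).1 (p i).2 = 0

/-- The distance of `x` to `(L/2) ℤ`. -/
noncomputable def dl (L x : ℝ) : ℝ := |x - round (x / (L / 2)) * (L / 2)|

/-- The distance, in the maximum norm, of `p` to the branch points. -/
noncomputable def dB (L1 L2 : ℝ) (p : ℝ × ℝ) : ℝ := max (dl L1 p.1) (dl L2 p.2)

end Pool.Agent.H24.LSphere
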