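import Pool.Agent.H24.LiouvilleSpectrum

set_option autoImplicit false

/-!
# Doubling index of eigenfunctions on Liouville tori for eigenvalues of bounded multiplicity
-/

namespace Pool.Agent.H24.Torus

open Set

lemma deriv_scale {g : ℝ → ℝ} (p r c : ℝ) (hg : Differentiable ℝ g) :
    deriv (fun Y => c * g (p + r * Y)) = fun Y => (c * r) * deriv g (p + r * Y) := by
  funext Y
  have h1 : HasDerivAt (fun Y : ℝ => p + r * Y) r Y := by
    have := ((hasDerivAt_id Y).const_mul r).const_add p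
    exact this.congr_deriv (by simp)
  have h2 := ((hg (p + r * Y)).hasDerivAt.comp Y h1).const_mul c
  rw [show (fun Y => c * g (p + r * Y)) = fun Y => c * (g ∘ fun Y => p + r * Y) Y from rfl,
    h2.deriv]
  ring

lemma differentiable_scale {g : ℝ → ℝ} (p r c : ℝ) (hg : Differentiable ℝ g) :
    Differentiable ℝ (fun Y => c * g (p + r * Y)) := by
  apply Differentiable.const_mul
  exact hg.comp ((differentiable_id.const_mul r).const_add p)

lemma vcls_scale {lam r : ℝ} (hr : r ^ 2 * lam = 1) (p : ℝ) (σ : ℝ → ℝ) : ∀ (l : List ℝ)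
    (g : ℝ → ℝ) (c : ℝ), VCls (fun y => lam * σ y) l g →
    VCls (fun Y => σ (p + r * Y)) (l.map fun μ => r ^ 2 * μ) (fun Y => c * g (p + r * Y))
  | [], g, c, h => fun s => by
    show c * g (p + r * s) = 0
    rw [h (p + r * s), mul_zero]
  | μ :: l, g, c, h => by
    obtain ⟨h1, h2, h3⟩ := h
    have e1 := deriv_scale p r c h1
    have e2 : deriv (deriv fun Y => c * g (p + r * Y)) =
        fun Y => (c * r * r) * deriv (deriv g) (p + r * Y) := by
      rw [e1]; exact deriv_scale p r (c * r) h2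
    refine ⟨differentiable_scale p r c h1, ?_, ?_⟩
    · rw [e1]; exact differentiable_scale p r (c * r) h2
    · have h4 := vcls_scale hr p σ l _ (c * r ^ 2) h3
      have e3 : (fun s => deriv (deriv fun Y => c * g (p + r * Y)) s +
          (σ (p + r * s) + r ^ 2 * μ) * (c * g (p + r * s))) =
          fun Y => (c * r ^ 2) * (deriv (deriv g) (p + r * Y) +
            (lam * σ (p + r * Y) + μ) * g (p + r * Y)) := by
        funext Y
        rw [e2]
        simp only
        linear_combination (-(c * σ (p + r * Y) * g (p + r * Y))) * hr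
      show VCls _ (l.map fun μ => r ^ 2 * μ) _
      rw [e3]; exact h4

section
variable {L1 L2 : ℝ} {ρ σ : ℝ → ℝ}

lemma Liouville.bounds (hL : Liouville L1 L2 ρ σ) :
    ∃ w0 W Λ : ℝ, 0 < w0 ∧ (∀ x y, w0 ≤ ρ x + σ y) ∧ (∀ x y, ρ x + σ y ≤ W) ∧ 0 ≤ Λ ∧
      (∀ x, |ρ x| ≤ Λ) ∧ (∀ y, |σ y| ≤ Λ) := by
  have c1 := hL.periodic_rho.compact_of_continuous hL.L1_pos.ne' hL.smooth_rho.continuous
  have c2 := hL.periodic_sigma.compact_of_continuous hL.L2_pos.ne' hL.smooth_sigma.continuous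
  obtain ⟨a1, ⟨x1, rfl⟩, h1⟩ := c1.exists_isLeast (range_nonempty ρ)
  obtain ⟨a2, ⟨x2, rfl⟩, h2⟩ := c2.exists_isLeast (range_nonempty σ)
  obtain ⟨a3, ⟨x3, rfl⟩, h3⟩ := c1.exists_isGreatest (range_nonempty ρ)
  obtain ⟨a4, ⟨x4, rfl⟩, h4⟩ := c2.exists_isGreatest (range_nonempty σ)
  have l1 : ∀ x, ρ x1 ≤ ρ x := fun x => h1 (mem_range_self x)
  have l2 : ∀ y, σ x2 ≤ σ y := fun y => h2 (mem_range_self y)
  have l3 : ∀ x, ρ x ≤ ρ x3 := fun x => h3 (mem_range_self x)
  have l4 : ∀ y, σ y ≤ σ x4 := fun y => h4 (mem_range_self y)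
  refine ⟨ρ x1 + σ x2, ρ x3 + σ x4, |ρ x1| + |ρ x3| + |σ x2| + |σ x4|, hL.pos _ _,
    fun x y => add_le_add (l1 x) (l2 y), fun x y => add_le_add (l3 x) (l4 y), by positivity,
    fun x => ?_, fun y => ?_⟩
  · have b1 := abs_nonneg (ρ x1)
    have b2 := abs_nonneg (ρ x3)
    have b3 := abs_nonneg (σ x2)
    have b4 := abs_nonneg (σ x4)
    rw [abs_le]
    constructor
    · have := l1 x
      have := neg_abs_le (ρ x1)
      linarith
    · have := l3 x
      have := le_abs_self (ρ x3)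
      linarith
  · have b1 := abs_nonneg (ρ x1)
    have b2 := abs_nonneg (ρ x3)
    have b3 := abs_nonneg (σ x2)
    have b4 := abs_nonneg (σ x4)
    rw [abs_le]
    constructor
    · have := l2 y
      have := neg_abs_le (σ x2)
      linarith
    · have := l4 y
      have := le_abs_self (σ x4)
      linarith

lemma Liouville.continuous (hL : Liouville L1 L2 ρ σ) :
    Continuous (fun p : ℝ × ℝ => ρ p.1 + σ p.2) :=
  (hL.smooth_rho.continuous.comp continuous_fst).add
    (hL.smooth_sigma.continuous.comp continuous_snd)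

/-- The core estimate in the original scale. -/
lemma square_growth (hL : Liouville L1 L2 ρ σ) {Λ : ℝ} (hΛ : 0 ≤ Λ)
    (hρ : ∀ x, |ρ x| ≤ Λ) (hσ : ∀ y, |σ y| ≤ Λ) (n : ℕ) {c K : ℝ} (hc : 0 < c) (hK : c ≤ K) :
    ∃ E : ℝ, 1 ≤ E ∧ ∀ lam : ℝ, 0 < lam →
      Module.rank ℝ (eigenspace (fun x y => ρ x + σ y) L1 L2 lam) ≤ n →
      ∀ u ∈ eigenspace (fun x y => ρ x + σ y) L1 L2 lam, ∀ p : ℝ × ℝ, ∀ m : ℝ,
        (∀ x y, |x - p.1| ≤ c / Real.sqrt lam → |y - p.2| ≤ c / Real.sqrt lam → |u x y| ≤ m) →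
        ∀ x y, |x - p.1| ≤ K / Real.sqrt lam → |y - p.2| ≤ K / Real.sqrt lam →
          |u x y| ≤ E * m := by
  choose E hE0 hE using fun k : ℕ => core k Λ c K hΛ hc hK
  refine ⟨1 + ∑ k ∈ Finset.range (n + 1), E k, ?_, ?_⟩
  · have : 0 ≤ ∑ k ∈ Finset.range (n + 1), E k := Finset.sum_nonneg fun k _ => hE0 k
    linarith
  intro lam hlam hrank u hu p m hm
  obtain ⟨l, hlen, hlist, hV⟩ := exists_vcls hL hlam.le hρ hσ hrank
  set r : ℝ := 1 / Real.sqrt lam with hr
  have hs : 0 < Real.sqrt lam := Real.sqrt_pos.mpr hlam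
  have hr0 : 0 < r := by positivity
  have hr2 : r ^ 2 * lam = 1 := by
    rw [hr, div_pow, Real.sq_sqrt hlam.le]; field_simp
  have hus := hu.1
  set v : ℝ → ℝ → ℝ := fun X Y => u (p.1 + r * X) (p.2 + r * Y) with hv
  have dX : ∀ Y, deriv (fun X => v X Y) = fun X => r * dx u (p.1 + r * X) (p.2 + r * Y) := by
    intro Y
    have := deriv_scale p.1 r 1 (hus.diff_x (p.2 + r * Y))
    simp only [one_mul] at this
    exact this
  have dXX : ∀ Y, deriv (deriv (fun X => v X Y)) =
      fun X => r * r * dx (dx u) (p.1 + r * X) (p.2 + r * Y) := by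
    intro Y
    rw [dX Y]
    exact deriv_scale p.1 r r (hus.dx.diff_x (p.2 + r * Y))
  have dY : ∀ X, deriv (fun Y => v X Y) = fun Y => r * dy u (p.1 + r * X) (p.2 + r * Y) := by
    intro X
    have := deriv_scale p.2 r 1 (hus.diff_y (p.1 + r * X))
    simp only [one_mul] at this
    exact this
  have dYY : ∀ X, deriv (deriv (fun Y => v X Y)) =
      fun Y => r * r * dy (dy u) (p.1 + r * X) (p.2 + r * Y) := by
    intro X
    rw [dY X]
    exact deriv_scale p.2 r r (hus.dy.diff_y (p.1 + r * X))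
  have hm0 : 0 ≤ m := (abs_nonneg (u p.1 p.2)).trans (hm p.1 p.2 (by
    rw [sub_self, abs_zero]; positivity) (by rw [sub_self, abs_zero]; positivity))
  have key := hE l.length (l.map fun μ => r ^ 2 * μ) (by simp) (by
      intro μ hμ
      obtain ⟨μ', hμ', rfl⟩ := List.mem_map.mp hμ
      have h1 := hlist μ' hμ'
      rw [abs_mul, abs_of_nonneg (sq_nonneg r)]
      calc r ^ 2 * |μ'| ≤ r ^ 2 * (lam * Λ) := mul_le_mul_of_nonneg_left h1 (sq_nonneg r)
        _ = (r ^ 2 * lam) * Λ := by ring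
        _ = Λ := by rw [hr2, one_mul])
    (fun X => ρ (p.1 + r * X)) (fun Y => σ (p.2 + r * Y)) (fun X => hρ _) (fun Y => hσ _) v
    (by
      intro Y
      have := differentiable_scale p.1 r 1 (hus.diff_x (p.2 + r * Y))
      simp only [one_mul] at this
      exact this)
    (by
      intro Y
      rw [dX Y]
      exact differentiable_scale p.1 r r (hus.dx.diff_x (p.2 + r * Y)))
    (by
      have h1 : Continuous (fun q : ℝ × ℝ => (p.1 + r * q.1, p.2 + r * q.2)) := by fun_prop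
      exact hus.continuous.comp h1)
    (by
      intro X Y
      rw [dXX, dYY]
      simp only [hv]
      have := pde_of_mem hL hu (p.1 + r * X) (p.2 + r * Y)
      linear_combination r ^ 2 * this - (ρ (p.1 + r * X) + σ (p.2 + r * Y)) *
        u (p.1 + r * X) (p.2 + r * Y) * hr2)
    (by
      intro X
      have := vcls_scale hr2 p.2 σ l _ 1 (hV u hu (p.1 + r * X))
      simp only [one_mul] at this
      exact this)
    m (by
      intro X hX Y hY
      apply hm
      · rw [add_sub_cancel_left, abs_mul, abs_of_pos hr0, hr]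
        have := abs_le.mpr hX
        rw [div_mul_eq_mul_div, one_mul]
        gcongr
      · rw [add_sub_cancel_left, abs_mul, abs_of_pos hr0, hr]
        have := abs_le.mpr hY
        rw [div_mul_eq_mul_div, one_mul]
        gcongr)
  intro x y hx hy
  have hX : (x - p.1) * Real.sqrt lam ∈ Icc (-K) K := by
    rw [mem_Icc, ← abs_le, abs_mul, abs_of_pos hs]
    rwa [le_div_iff₀ hs] at hx
  have hY : (y - p.2) * Real.sqrt lam ∈ Icc (-K) K := by
    rw [mem_Icc, ← abs_le, abs_mul, abs_of_pos hs]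
    rwa [le_div_iff₀ hs] at hy
  have h1 := key _ hX _ hY
  have ex : p.1 + r * ((x - p.1) * Real.sqrt lam) = x := by
    rw [hr]; field_simp; ring
  have ey : p.2 + r * ((y - p.2) * Real.sqrt lam) = y := by
    rw [hr]; field_simp; ring
  simp only [hv, ex, ey] at h1
  refine h1.trans (mul_le_mul_of_nonneg_right ?_ hm0)
  have h2 : E l.length ≤ ∑ k ∈ Finset.range (n + 1), E k :=
    Finset.single_le_sum (f := E) (fun k _ => hE0 k) (Finset.mem_range.mpr (by omega))
  linarith

end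

lemma Periodic2.bounded {L1 L2 : ℝ} (hL1 : 0 < L1) (hL2 : 0 < L2) {u : ℝ → ℝ → ℝ}
    (hu : Periodic2 L1 L2 u) (huc : Continuous (fun p : ℝ × ℝ => u p.1 p.2)) :
    ∃ B, ∀ x y, |u x y| ≤ B := by
  obtain ⟨B, hB⟩ := (isCompact_Icc (a := (0 : ℝ)) (b := L1)).prod
    (isCompact_Icc (a := (0 : ℝ)) (b := L2)) |>.exists_bound_of_continuousOn huc.continuousOn
  refine ⟨B, fun x y => ?_⟩
  have p1 : ∀ y, Function.Periodic (fun x => u x y) L1 := fun y x => (hu x y).1
  have p2 : ∀ x, Function.Periodic (fun y => u x y) L2 := fun x y => (hu x y).2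
  obtain ⟨x', hx', ex⟩ := (p1 y).exists_mem_Ico₀ hL1 x
  obtain ⟨y', hy', ey⟩ := (p2 x').exists_mem_Ico₀ hL2 y
  rw [show u x y = u x' y from ex, show u x' y = u x' y' from ey]
  exact hB (x', y') ⟨⟨hx'.1, hx'.2.le⟩, ⟨hy'.1, hy'.2.le⟩⟩

end Pool.Agent.H24.Torus
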