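import Pool.Agent.H24.Sturm

set_option autoImplicit false

/-!
# Zero count for sums of periodic solutions of Sturm-Liouville equations
-/

namespace Pool.Agent.H24.Sturm

open Set Filter Topology

/-- If `g'' = κ g` with `|κ| ≤ ω²` and `|g| + |g'| ≥ η`, then the zeros of a function that is
`C¹` close to `g` have gaps at least `1 / (2 ω)`. -/
lemma gap_of_close {f g : ℝ → ℝ} {ω η : ℝ} (hω : 0 < ω) (hη : 0 < η)
    (h1 : Differentiable ℝ g) (h2 : Differentiable ℝ (deriv g))
    (hode : ∀ x, |deriv (deriv g) x| ≤ ω ^ 2 * |g x|)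
    (hlow : ∀ x, η ≤ |g x| + |deriv g x|) (hf : Differentiable ℝ f)
    (hfg : ∀ x, |f x - g x| ≤ η / 8) (hfg' : ∀ x, |deriv f x - deriv g x| ≤ η / 8)
    {z1 z2 : ℝ} (hz : z1 < z2) (hf1 : f z1 = 0) (hf2 : f z2 = 0) :
    1 / (2 * ω) ≤ z2 - z1 := by
  have hg1 : |g z1| ≤ η / 8 := by
    have := hfg z1
    rw [hf1, zero_sub, abs_neg] at this
    exact this
  have hg2 : |g z2| ≤ η / 8 := by
    have := hfg z2
    rw [hf2, zero_sub, abs_neg] at this
    exact this
  obtain ⟨c', hc', hfc'⟩ := exists_deriv_eq_zero hz hf.continuous.continuousOn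
    (hf1.trans hf2.symm)
  have hgc' : 7 * η / 8 ≤ |g c'| := by
    have e1 := hfg' c'
    rw [hfc', zero_sub, abs_neg] at e1
    have := hlow c'
    linarith
  obtain ⟨c, hc, hmax⟩ := (isCompact_Icc (a := z1) (b := z2)).exists_isMaxOn
    ⟨z1, left_mem_Icc.mpr hz.le⟩ (f := fun x => |g x|) h1.continuous.abs.continuousOn
  have hM : ∀ x ∈ Icc z1 z2, |g x| ≤ |g c| := fun x hx => hmax hx
  have hMbig : 7 * η / 8 ≤ |g c| := hgc'.trans (hM c' ⟨hc'.1.le, hc'.2.le⟩)
  have hcI : c ∈ Ioo z1 z2 := by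
    refine ⟨lt_of_le_of_ne hc.1 ?_, lt_of_le_of_ne hc.2 ?_⟩
    · rintro rfl; linarith
    · rintro rfl; linarith
  have hcne : g c ≠ 0 := by
    intro h0; rw [h0, abs_zero] at hMbig; linarith
  have hnhds : Icc z1 z2 ∈ 𝓝 c := Icc_mem_nhds hcI.1 hcI.2
  have hext : IsLocalExtr g c := by
    rcases lt_or_gt_of_ne hcne with hneg | hpos
    · left
      filter_upwards [hnhds] with x hx
      have := hM x hx
      rw [abs_of_neg hneg] at this
      have := neg_abs_le (g x)
      linarith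
    · right
      filter_upwards [hnhds] with x hx
      have := hM x hx
      rw [abs_of_pos hpos] at this
      have := le_abs_self (g x)
      linarith
  have hder0 : deriv g c = 0 := hext.deriv_eq_zero
  set M := |g c| with hMdef
  have hd1 : ∀ x ∈ Icc z1 c, |deriv g x| ≤ ω ^ 2 * M * (c - z1) := by
    intro x hx
    have hb : ∀ y ∈ Icc z1 c, ‖deriv (deriv g) y‖ ≤ ω ^ 2 * M := by
      intro y hy
      rw [Real.norm_eq_abs]
      exact (hode y).trans (mul_le_mul_of_nonneg_left (hM y ⟨hy.1, hy.2.trans hc.2⟩) (by positivity))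
    have := (convex_Icc z1 c).norm_image_sub_le_of_norm_deriv_le
      (fun y _ => h2 y) hb hx (right_mem_Icc.mpr hc.1)
    rw [hder0, zero_sub, norm_neg, Real.norm_eq_abs, Real.norm_eq_abs,
      abs_of_nonneg (by linarith [hx.2] : (0 : ℝ) ≤ c - x)] at this
    refine this.trans ?_
    apply mul_le_mul_of_nonneg_left _ (by positivity)
    linarith [hx.1]
  have hd2 : |g c - g z1| ≤ ω ^ 2 * M * (c - z1) * (c - z1) := by
    have hb : ∀ y ∈ Icc z1 c, ‖deriv g y‖ ≤ ω ^ 2 * M * (c - z1) := hd1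
    have := (convex_Icc z1 c).norm_image_sub_le_of_norm_deriv_le
      (fun y _ => h1 y) hb (left_mem_Icc.mpr hc.1) (right_mem_Icc.mpr hc.1)
    rw [Real.norm_eq_abs, Real.norm_eq_abs, abs_of_nonneg (by linarith [hc.1] : 0 ≤ c - z1)] at this
    exact this
  have hd3 : M - η / 8 ≤ |g c - g z1| := by
    have := abs_sub_abs_le_abs_sub (g c) (g z1)
    linarith
  have hMpos : 0 < M := abs_pos.mpr hcne
  have h4 : (6 / 7 : ℝ) ≤ (ω * (c - z1)) ^ 2 := by
    have h5 : 6 / 7 * M ≤ M * (ω * (c - z1)) ^ 2 := by nlinarith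
    nlinarith
  have hcz : 0 < c - z1 := by linarith [hcI.1]
  have h6 : 1 / 2 ≤ ω * (c - z1) := by
    by_contra hcon
    push Not at hcon
    have h7 : 0 < ω * (c - z1) := by positivity
    nlinarith
  have h8 : 1 / (2 * ω) ≤ c - z1 := by
    rw [div_le_iff₀ (by positivity)]
    linarith
  linarith [hcI.2]

lemma periodic_deriv {f : ℝ → ℝ} {L : ℝ} (hf : Function.Periodic f L) :
    Function.Periodic (deriv f) L := by
  intro x
  have h1 : (fun s => f (s + L)) = f := funext hf
  have h2 : deriv (fun s => f (s + L)) x = deriv f (x + L) := deriv_comp_add_const f L x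
  rw [← h2, h1]

lemma periodic_bounded {f : ℝ → ℝ} {L : ℝ} (hL : 0 < L) (hf : Function.Periodic f L)
    (hc : Continuous f) : ∃ B, ∀ x, |f x| ≤ B := by
  obtain ⟨B, hB⟩ := (isCompact_Icc (a := (0 : ℝ)) (b := L)).exists_bound_of_continuousOn
    hc.continuousOn
  refine ⟨B, fun x => ?_⟩
  obtain ⟨y, hy, hxy⟩ := hf.exists_mem_Ico₀ hL x
  rw [hxy]
  exact hB y ⟨hy.1, hy.2.le⟩

/-- A nonzero solution of `|g''| ≤ ω² |g|` has no double zero. -/
lemma eq_zero_of_double_zero {g : ℝ → ℝ} {ω : ℝ} (h1 : Differentiable ℝ g)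
    (h2 : Differentiable ℝ (deriv g)) (hode : ∀ x, |deriv (deriv g) x| ≤ ω ^ 2 * |g x|)
    {t0 : ℝ} (h0 : g t0 = 0) (h0' : deriv g t0 = 0) (x : ℝ) : g x = 0 := by
  have hb : ∀ s, |deriv (deriv g) s| ≤ ω ^ 2 * |g s| + 0 := fun s => by
    rw [add_zero]; exact hode s
  rcases le_total t0 x with h | h
  · have := growth_right h1 h2 (t0 := t0) (K := x - t0) (S0 := 0) (S1 := 0) (sq_nonneg ω) le_rfl
      (fun s _ => hb s) (by simp [h0]) (by simp [h0']) x ⟨h, by linarith⟩
    simpa using this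
  · have := growth_left h1 h2 (t0 := t0) (K := t0 - x) (S0 := 0) (S1 := 0) (sq_nonneg ω) le_rfl
      (fun s _ => hb s) (by simp [h0]) (by simp [h0']) x ⟨by linarith, h⟩
    simpa using this

lemma exists_lower_bound {g : ℝ → ℝ} {L ω : ℝ} (hL : 0 < L) (hper : Function.Periodic g L)
    (h1 : Differentiable ℝ g) (h2 : Differentiable ℝ (deriv g))
    (hode : ∀ x, |deriv (deriv g) x| ≤ ω ^ 2 * |g x|) (hne : ∃ x, g x ≠ 0) :
    ∃ η, 0 < η ∧ ∀ x, η ≤ |g x| + |deriv g x| := by
  have hc : Continuous (fun x => |g x| + |deriv g x|) :=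
    h1.continuous.abs.add h2.continuous.abs
  obtain ⟨m, hm, hmin⟩ := (isCompact_Icc (a := (0 : ℝ)) (b := L)).exists_isMinOn
    ⟨0, left_mem_Icc.mpr hL.le⟩ hc.continuousOn
  refine ⟨|g m| + |deriv g m|, ?_, ?_⟩
  · by_contra hcon
    push Not at hcon
    have e1 := abs_nonneg (g m)
    have e2 := abs_nonneg (deriv g m)
    have e3 : g m = 0 := abs_eq_zero.mp (by linarith)
    have e4 : deriv g m = 0 := abs_eq_zero.mp (by linarith)
    obtain ⟨x, hx⟩ := hne
    exact hx (eq_zero_of_double_zero h1 h2 hode e3 e4 x)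
  · intro x
    have hp : Function.Periodic (fun x => |g x| + |deriv g x|) L := by
      intro x
      simp only
      rw [hper x, periodic_deriv hper x]
    obtain ⟨y, hy, hxy⟩ := hp.exists_mem_Ico₀ hL x
    rw [show |g x| + |deriv g x| = |g y| + |deriv g y| from hxy]
    exact hmin ⟨hy.1, hy.2.le⟩

section
variable {ι : Type*}

/-- The `k`-th iterate. -/
def iter (S : Finset ι) (ν : ι → ℝ) (F : ι → ℝ → ℝ) (k : ℕ) : ℝ → ℝ :=
  fun x => ∑ i ∈ S, (-ν i) ^ k * F i x

lemma iter_hasDerivAt {S : Finset ι} {ν : ι → ℝ} {F : ι → ℝ → ℝ}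
    (h1 : ∀ i ∈ S, Differentiable ℝ (F i)) (k : ℕ) (x : ℝ) :
    HasDerivAt (iter S ν F k) (∑ i ∈ S, (-ν i) ^ k * deriv (F i) x) x := by
  unfold iter
  exact HasDerivAt.fun_sum fun i hi => (h1 i hi x).hasDerivAt.const_mul _

lemma iter_deriv {S : Finset ι} {ν : ι → ℝ} {F : ι → ℝ → ℝ}
    (h1 : ∀ i ∈ S, Differentiable ℝ (F i)) (k : ℕ) :
    deriv (iter S ν F k) = iter S ν (fun i => deriv (F i)) k :=
  funext fun x => (iter_hasDerivAt h1 k x).deriv

lemma iter_succ {S : Finset ι} {ν : ι → ℝ} {F : ι → ℝ → ℝ} {K : ℝ → ℝ}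
    (h1 : ∀ i ∈ S, Differentiable ℝ (F i)) (h2 : ∀ i ∈ S, Differentiable ℝ (deriv (F i)))
    (heq : ∀ i ∈ S, ∀ x, deriv (deriv (F i)) x = (K x - ν i) * F i x) (k : ℕ) :
    (fun x => deriv (deriv (iter S ν F k)) x - K x * iter S ν F k x) =
      iter S ν F (k + 1) := by
  funext x
  rw [iter_deriv h1, iter_deriv h2]
  simp only [iter]
  rw [Finset.mul_sum, ← Finset.sum_sub_distrib]
  apply Finset.sum_congr rfl
  intro i hi
  rw [heq i hi]
  ring

/-- **Sturm's theorem**, quantitative form: a nonzero sum of periodic solutions of the equations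
`F'' = (K - ν) F` for distinct parameters `ν > 0` has at most `2 L ω` zeros per period, if
`|K - ν| ≤ ω²`. -/
theorem zero_count (S : Finset ι) (ν : ι → ℝ) (F : ι → ℝ → ℝ) (K : ℝ → ℝ) {L ω : ℝ}
    (hL : 0 < L) (hω : 0 < ω) (hKc : Continuous K) (hK : ∀ x, 0 < K x)
    (hν : ∀ i ∈ S, 0 < ν i) (hinj : ∀ i ∈ S, ∀ j ∈ S, ν i = ν j → i = j)
    (hb : ∀ i ∈ S, ∀ x, |K x - ν i| ≤ ω ^ 2)
    (hper : ∀ i ∈ S, Function.Periodic (F i) L)
    (h1 : ∀ i ∈ S, Differentiable ℝ (F i)) (h2 : ∀ i ∈ S, Differentiable ℝ (deriv (F i)))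
    (heq : ∀ i ∈ S, ∀ x, deriv (deriv (F i)) x = (K x - ν i) * F i x)
    (hne : ∃ x, ∑ i ∈ S, F i x ≠ 0) (a : ℝ) (s : Finset ℝ)
    (hs : ∀ x ∈ s, x ∈ Ico a (a + L) ∧ ∑ i ∈ S, F i x = 0) :
    (s.card : ℝ) ≤ 2 * L * ω := by
  classical
  -- remove the components that vanish identically
  set S' := S.filter (fun i => ∃ x, F i x ≠ 0) with hS'
  have hsub : ∀ i ∈ S', i ∈ S := fun i hi => (Finset.mem_filter.mp hi).1
  have hsum : ∀ x, ∑ i ∈ S', F i x = ∑ i ∈ S, F i x := by
    intro x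
    apply Finset.sum_subset (Finset.filter_subset _ _)
    intro i hi hi'
    by_contra hcon
    exact hi' (Finset.mem_filter.mpr ⟨hi, x, hcon⟩)
  have hS'ne : S'.Nonempty := by
    obtain ⟨x, hx⟩ := hne
    rw [← hsum] at hx
    obtain ⟨i, hi, _⟩ := Finset.exists_ne_zero_of_sum_ne_zero hx
    exact ⟨i, hi⟩
  obtain ⟨i0, hi0, hmaxν⟩ := S'.exists_max_image ν hS'ne
  have hi0S := hsub i0 hi0
  have hlt : ∀ i ∈ S'.erase i0, ν i < ν i0 := by
    intro i hi
    have hi' := Finset.mem_erase.mp hi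
    refine lt_of_le_of_ne (hmaxν i hi'.2) ?_
    intro h
    exact hi'.1 (hinj i (hsub i hi'.2) i0 hi0S h)
  set g := F i0 with hg
  have hode : ∀ x, |deriv (deriv g) x| ≤ ω ^ 2 * |g x| := by
    intro x
    rw [hg, heq i0 hi0S x, abs_mul]
    exact mul_le_mul_of_nonneg_right (hb i0 hi0S x) (abs_nonneg _)
  obtain ⟨η, hη, hlow⟩ := exists_lower_bound hL (hper i0 hi0S) (h1 i0 hi0S) (h2 i0 hi0S) hode
    (Finset.mem_filter.mp hi0).2
  -- common bound
  have hbd : ∀ i ∈ S', ∃ B, ∀ x, |F i x| ≤ B ∧ |deriv (F i) x| ≤ B := by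
    intro i hi
    obtain ⟨B1, hB1⟩ := periodic_bounded hL (hper i (hsub i hi)) (h1 i (hsub i hi)).continuous
    obtain ⟨B2, hB2⟩ := periodic_bounded hL (periodic_deriv (hper i (hsub i hi)))
      (h2 i (hsub i hi)).continuous
    exact ⟨max B1 B2, fun x => ⟨(hB1 x).trans (le_max_left _ _), (hB2 x).trans (le_max_right _ _)⟩⟩
  choose! B hB using hbd
  have hν0 : 0 < ν i0 := hν i0 hi0S
  -- the error term
  set err : ℕ → ℝ := fun k => ∑ i ∈ S'.erase i0, (ν i / ν i0) ^ k * B i with herr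
  have htend : Tendsto err atTop (𝓝 0) := by
    have : Tendsto err atTop (𝓝 (∑ i ∈ S'.erase i0, (0 : ℝ) * B i)) := by
      apply tendsto_finsetSum
      intro i hi
      apply Tendsto.mul_const
      have hi' := Finset.mem_erase.mp hi
      apply tendsto_pow_atTop_nhds_zero_of_lt_one
      · exact div_nonneg (hν i (hsub i hi'.2)).le hν0.le
      · rw [div_lt_one hν0]; exact hlt i hi
    simpa using this
  -- closeness
  have hclose : ∀ (G : ι → ℝ → ℝ), (∀ i ∈ S', ∀ x, |G i x| ≤ B i) → ∀ k x,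
      |iter S' ν G k x / (-ν i0) ^ k - G i0 x| ≤ err k := by
    intro G hG k x
    have hpow : (-ν i0) ^ k ≠ 0 := pow_ne_zero _ (neg_ne_zero.mpr hν0.ne')
    have e1 : iter S' ν G k x / (-ν i0) ^ k - G i0 x =
        ∑ i ∈ S'.erase i0, (ν i / ν i0) ^ k * G i x := by
      unfold iter
      rw [← Finset.add_sum_erase _ _ hi0, add_div, mul_div_cancel_left₀ _ hpow,
        add_sub_cancel_left, Finset.sum_div]
      apply Finset.sum_congr rfl
      intro i _
      rw [div_pow, neg_pow (ν i), neg_pow (ν i0)]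
      have : ((-1 : ℝ)) ^ k ≠ 0 := pow_ne_zero _ (by norm_num)
      have h3 : ν i0 ^ k ≠ 0 := pow_ne_zero _ hν0.ne'
      field_simp
    rw [e1]
    refine (Finset.abs_sum_le_sum_abs _ _).trans (Finset.sum_le_sum ?_)
    intro i hi
    have hi' := Finset.mem_erase.mp hi
    rw [abs_mul, abs_of_nonneg (pow_nonneg (div_nonneg (hν i (hsub i hi'.2)).le hν0.le) k)]
    exact mul_le_mul_of_nonneg_left (hG i hi'.2 x)
      (pow_nonneg (div_nonneg (hν i (hsub i hi'.2)).le hν0.le) k)
  have d1 : ∀ i ∈ S', Differentiable ℝ (F i) := fun i hi => h1 i (hsub i hi)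
  have d2 : ∀ i ∈ S', Differentiable ℝ (deriv (F i)) := fun i hi => h2 i (hsub i hi)
  have deq : ∀ i ∈ S', ∀ x, deriv (deriv (F i)) x = (K x - ν i) * F i x :=
    fun i hi => heq i (hsub i hi)
  have itd : ∀ k, Differentiable ℝ (iter S' ν F k) := fun k x =>
    (iter_hasDerivAt d1 k x).differentiableAt
  have itdd : ∀ k, Differentiable ℝ (deriv (iter S' ν F k)) := fun k => by
    rw [iter_deriv d1]
    exact fun x => (iter_hasDerivAt d2 k x).differentiableAt
  -- vanishing on an interval propagates to later iterates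
  have hprop : ∀ k c d, c < d → (∀ x ∈ Ioo c d, iter S' ν F k x = 0) →
      ∀ j, ∀ x ∈ Ioo c d, iter S' ν F (k + j) x = 0 := by
    intro k c d _ h0 j
    induction j with
    | zero => exact h0
    | succ j ih =>
      intro x hx
      have e1 : iter S' ν F (k + j) =ᶠ[𝓝 x] fun _ => 0 := by
        filter_upwards [Ioo_mem_nhds hx.1 hx.2] with y hy
        exact ih y hy
      have e2 : deriv (iter S' ν F (k + j)) =ᶠ[𝓝 x] fun _ => 0 := by
        refine e1.deriv.trans ?_
        filter_upwards with y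
        simp
      have e3 : deriv (deriv (iter S' ν F (k + j))) x = 0 := by
        rw [e2.deriv_eq]; simp
      have e4 := congrFun (iter_succ d1 d2 deq (k + j)) x
      rw [← add_assoc, ← e4, e3, ih x hx]
      ring
  have hnevan : ∀ k c d, c < d → ∃ x ∈ Ioo c d, iter S' ν F k x ≠ 0 := by
    intro k c d hcd
    by_contra hcon
    push Not at hcon
    have h3 := hprop k c d hcd hcon
    have hg0 : ∀ x ∈ Ioo c d, g x = 0 := by
      intro x hx
      have h4 : ∀ j, |g x| ≤ err (k + j) := by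
        intro j
        have := hclose F (fun i hi x => (hB i hi x).1) (k + j) x
        rw [h3 j x hx, zero_div, zero_sub, abs_neg] at this
        exact this
      have h5 : Tendsto (fun j => err (k + j)) atTop (𝓝 0) := by
        have := (tendsto_add_atTop_iff_nat k).mpr htend
        simpa [add_comm] using this
      have h6 : |g x| ≤ 0 := ge_of_tendsto' h5 h4
      exact abs_eq_zero.mp (le_antisymm h6 (abs_nonneg _))
    have hm : (c + d) / 2 ∈ Ioo c d := ⟨by linarith, by linarith⟩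
    have e1 : g =ᶠ[𝓝 ((c + d) / 2)] fun _ => 0 := by
      filter_upwards [Ioo_mem_nhds hm.1 hm.2] with y hy
      exact hg0 y hy
    have e2 : deriv g ((c + d) / 2) = 0 := by
      rw [e1.deriv_eq]; simp
    have h8 : η ≤ |g ((c + d) / 2)| + |deriv g ((c + d) / 2)| := hlow ((c + d) / 2)
    rw [hg0 _ hm, e2] at h8
    simp at h8
    linarith
  -- the number of zeros
  rcases Nat.eq_zero_or_pos s.card with hs0 | hs0
  · rw [hs0]
    push_cast
    positivity
  have hsumper : Function.Periodic (iter S' ν F 0) L := by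
    intro x
    simp only [iter, pow_zero, one_mul]
    apply Finset.sum_congr rfl
    intro i hi
    exact hper i (hsub i hi) x
  have h0 : ZeroDens (iter S' ν F 0) (L / s.card) := by
    apply ZeroDens.of_finset hL hsumper s (a := a) _ hs0
    intro x hx
    refine ⟨(hs x hx).1, ?_⟩
    have := (hs x hx).2
    rw [← hsum] at this
    simpa [iter] using this
  have hk : ∀ k, ZeroDens (iter S' ν F k) (L / s.card) := by
    intro k
    induction k with
    | zero => exact h0
    | succ k ih =>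
      rw [← iter_succ d1 d2 deq k]
      apply ih.step (itd k) _ hKc hK (hnevan k)
      have : deriv (deriv (iter S' ν F k)) = fun x => iter S' ν F (k + 1) x +
          K x * iter S' ν F k x := by
        funext x
        have := congrFun (iter_succ d1 d2 deq k) x
        linarith
      rw [this]
      exact (itd (k + 1)).continuous.add (hKc.mul (itd k).continuous)
  obtain ⟨k, hk1⟩ := (htend.eventually (gt_mem_nhds (show (0 : ℝ) < η / 8 by positivity))).exists
  have hgap := (hk k).le (δ := 1 / (2 * ω)) (by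
    intro z1 z2 hz hf1 hf2
    have hpow : (-ν i0) ^ k ≠ 0 := pow_ne_zero _ (neg_ne_zero.mpr hν0.ne')
    have hdiv : Differentiable ℝ (fun x => iter S' ν F k x / (-ν i0) ^ k) :=
      (itd k).div_const _
    apply gap_of_close (f := fun x => iter S' ν F k x / (-ν i0) ^ k) hω hη (h1 i0 hi0S)
      (h2 i0 hi0S) hode hlow hdiv _ _ hz (by simp [hf1]) (by simp [hf2])
    · intro x
      exact (hclose F (fun i hi x => (hB i hi x).1) k x).trans hk1.le
    · intro x
      have e5 : deriv (fun x => iter S' ν F k x / (-ν i0) ^ k) x =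
          iter S' ν (fun i => deriv (F i)) k x / (-ν i0) ^ k := by
        rw [deriv_div_const, iter_deriv d1]
      rw [e5]
      exact (hclose (fun i => deriv (F i)) (fun i hi x => (hB i hi x).2) k x).trans hk1.le)
  have hcard : (0 : ℝ) < s.card := by exact_mod_cast hs0
  rw [le_div_iff₀ hcard, div_mul_eq_mul_div, one_mul, div_le_iff₀ (by positivity)] at hgap
  linarith

end

end Pool.Agent.H24.Sturm
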