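import Pool.Agent.H24.GradientEstimate
import Pool.Agent.H24.SturmCount
import Pool.Agent.H24.LiouvilleScaling

set_option autoImplicit false

/-!
# Eigenfunctions on Liouville tori: finite multiplicity, decomposition, zeros on lines
-/

namespace Pool.Agent.H24.Torus

open Set Polynomial

section
variable {L1 L2 lam : ℝ} {ρ σ : ℝ → ℝ}

/-- The sup norm is attained. -/
lemma exists_max_abs {L1 L2 : ℝ} (hL1 : 0 < L1) (hL2 : 0 < L2) {u : ℝ → ℝ → ℝ}
    (hu : Periodic2 L1 L2 u) (huc : Continuous (fun p : ℝ × ℝ => u p.1 p.2)) :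
    ∃ x0 y0, ∀ x y, |u x y| ≤ |u x0 y0| := by
  obtain ⟨⟨x0, y0⟩, _, hmax⟩ := ((isCompact_Icc (a := (0 : ℝ)) (b := L1)).prod
    (isCompact_Icc (a := (0 : ℝ)) (b := L2))).exists_isMaxOn
    ⟨(0, 0), left_mem_Icc.mpr hL1.le, left_mem_Icc.mpr hL2.le⟩ huc.abs.continuousOn
  refine ⟨x0, y0, fun x y => ?_⟩
  have p1 : ∀ y, Function.Periodic (fun x => u x y) L1 := fun y x => (hu x y).1
  have p2 : ∀ x, Function.Periodic (fun y => u x y) L2 := fun x y => (hu x y).2
  obtain ⟨x', hx', ex⟩ := (p1 y).exists_mem_Ico₀ hL1 x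
  obtain ⟨y', hy', ey⟩ := (p2 x').exists_mem_Ico₀ hL2 y
  rw [show u x y = u x' y from ex, show u x' y = u x' y' from ey]
  exact hmax (show (x', y') ∈ Icc 0 L1 ×ˢ Icc 0 L2 from ⟨⟨hx'.1, hx'.2.le⟩, ⟨hy'.1, hy'.2.le⟩⟩)

/-- Global gradient bound for eigenfunctions. -/
lemma gradient_bound (hL : Liouville L1 L2 ρ σ) {W : ℝ} (hW : ∀ x y, |ρ x + σ y| ≤ W)
    {u : ℝ → ℝ → ℝ} (hu : u ∈ eigenspace (fun x y => ρ x + σ y) L1 L2 lam) {B : ℝ}
    (hB : ∀ x y, |u x y| ≤ B) (x y : ℝ) :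
    |dx u x y| ≤ (2 + |lam| * W / 2) * B ∧ |dy u x y| ≤ (2 + |lam| * W / 2) * B := by
  have hB0 : 0 ≤ B := (abs_nonneg _).trans (hB 0 0)
  have hW0 : 0 ≤ W := (abs_nonneg _).trans (hW 0 0)
  have := gradient_estimate hu.1 (d := 1) (M := B) (N := |lam| * W * B) one_pos (by positivity)
    (x, y) (fun x y _ _ => hB x y) (fun x y _ _ => by
      have h := pde_of_mem hL hu x y
      have e : dx (dx u) x y + dy (dy u) x y = -(lam * (ρ x + σ y) * u x y) := by linarith
      rw [e, abs_neg, abs_mul, abs_mul]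
      exact mul_le_mul (mul_le_mul_of_nonneg_left (hW x y) (abs_nonneg _)) (hB x y)
        (abs_nonneg _) (by positivity))
  have e : 2 * B / 1 + |lam| * W * B * 1 / 2 = (2 + |lam| * W / 2) * B := by ring
  rw [e] at this
  exact this

/-- Evaluation at a grid. -/
noncomputable def gridEval (w : ℝ → ℝ → ℝ) (L1 L2 lam : ℝ) (J : ℕ) :
    eigenspace w L1 L2 lam →ₗ[ℝ] (Fin J × Fin J → ℝ) where
  toFun u := fun ij => u.1 (ij.1 * (L1 / J)) (ij.2 * (L2 / J))
  map_add' u v := by funext ij; rfl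
  map_smul' a u := by funext ij; rfl

lemma exists_grid_near {L : ℝ} (hL : 0 < L) {J : ℕ} (hJ : 0 < J) {x : ℝ} (hx : x ∈ Ico 0 L) :
    ∃ i : Fin J, |x - i * (L / J)| ≤ L / J := by
  have hJ' : (0 : ℝ) < J := by exact_mod_cast hJ
  have h0 : 0 ≤ x * J / L := div_nonneg (mul_nonneg hx.1 hJ'.le) hL.le
  have hfl := Nat.floor_le h0
  have hfl' := Nat.lt_floor_add_one (x * J / L)
  have hlt : ⌊x * J / L⌋₊ < J := by
    rw [Nat.floor_lt h0, div_lt_iff₀ hL]
    nlinarith [hx.2]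
  refine ⟨⟨⌊x * J / L⌋₊, hlt⟩, ?_⟩
  rw [le_div_iff₀ hL] at hfl
  rw [div_lt_iff₀ hL] at hfl'
  set k : ℝ := (⌊x * J / L⌋₊ : ℝ)
  have e : x - k * (L / J) = (x * J - k * L) / J := by field_simp
  show |x - k * (L / J)| ≤ L / J
  rw [e, abs_div, abs_of_pos hJ', div_le_div_iff_of_pos_right hJ', abs_le]
  constructor <;> nlinarith

/-- The eigenspaces are finite dimensional. -/
lemma finite_eigenspace (hL : Liouville L1 L2 ρ σ) :
    Module.Finite ℝ (eigenspace (fun x y => ρ x + σ y) L1 L2 lam) := by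
  obtain ⟨w0, W, Λ, hw0, hw, hW, hΛ, hρ, hσ⟩ := hL.bounds
  have hWabs : ∀ x y, |ρ x + σ y| ≤ W := fun x y => by
    rw [abs_of_pos (hL.pos x y)]; exact hW x y
  have hW0 : 0 ≤ W := (abs_nonneg _).trans (hWabs 0 0)
  set G : ℝ := 2 + |lam| * W / 2 with hG
  have hGpos : 0 < G := by positivity
  obtain ⟨J, hJ⟩ := exists_nat_gt ((L1 + L2) * G)
  have hL12 : 0 < (L1 + L2) * G := mul_pos (add_pos hL.L1_pos hL.L2_pos) hGpos
  have hJ0' : (0 : ℝ) < J := hL12.trans hJ
  have hJ0 : 0 < J := by exact_mod_cast hJ0'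
  apply Module.Finite.of_injective (gridEval (fun x y => ρ x + σ y) L1 L2 lam J)
  rw [← LinearMap.ker_eq_bot, LinearMap.ker_eq_bot']
  intro u hu
  have hgrid : ∀ i j : Fin J, u.1 (i * (L1 / J)) (j * (L2 / J)) = 0 := fun i j =>
    congrFun hu (i, j)
  obtain ⟨x0, y0, hmax⟩ := exists_max_abs hL.L1_pos hL.L2_pos u.2.2.1 u.2.1.continuous
  set B := |u.1 x0 y0| with hB
  have hgrad := gradient_bound hL hWabs u.2 hmax
  have p1 : ∀ y, Function.Periodic (fun x => u.1 x y) L1 := fun y x => (u.2.2.1 x y).1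
  have p2 : ∀ x, Function.Periodic (fun y => u.1 x y) L2 := fun x y => (u.2.2.1 x y).2
  obtain ⟨x', hx', ex⟩ := (p1 y0).exists_mem_Ico₀ hL.L1_pos x0
  obtain ⟨y', hy', ey⟩ := (p2 x').exists_mem_Ico₀ hL.L2_pos y0
  obtain ⟨i, hi⟩ := exists_grid_near hL.L1_pos hJ0 hx'
  obtain ⟨j, hj⟩ := exists_grid_near hL.L2_pos hJ0 hy'
  have e0 : u.1 x0 y0 = u.1 x' y' := (show u.1 x0 y0 = u.1 x' y0 from ex).trans ey
  have s1 : |u.1 x' y' - u.1 (i * (L1 / J)) y'| ≤ G * B * (L1 / J) := by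
    have := (convex_univ (𝕜 := ℝ) (E := ℝ)).norm_image_sub_le_of_norm_deriv_le
      (f := fun s => u.1 s y') (C := G * B)
      (fun s _ => u.2.1.diff_x y' s) (fun s _ => (hgrad s y').1) (mem_univ (i * (L1 / J)))
      (mem_univ x')
    simp only [Real.norm_eq_abs] at this
    exact this.trans (mul_le_mul_of_nonneg_left hi (by positivity))
  have s2 : |u.1 (i * (L1 / J)) y' - u.1 (i * (L1 / J)) (j * (L2 / J))| ≤ G * B * (L2 / J) := by
    have := (convex_univ (𝕜 := ℝ) (E := ℝ)).norm_image_sub_le_of_norm_deriv_le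
      (f := fun t => u.1 (i * (L1 / J)) t) (C := G * B)
      (fun s _ => u.2.1.diff_y (i * (L1 / J)) s) (fun s _ => (hgrad (i * (L1 / J)) s).2)
      (mem_univ (j * (L2 / J))) (mem_univ y')
    simp only [Real.norm_eq_abs] at this
    exact this.trans (mul_le_mul_of_nonneg_left hj (by positivity))
  have s3 : B ≤ G * B * ((L1 + L2) / J) := by
    have e1 : u.1 x' y' = (u.1 x' y' - u.1 (i * (L1 / J)) y') +
        (u.1 (i * (L1 / J)) y' - u.1 (i * (L1 / J)) (j * (L2 / J))) := by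
      rw [hgrid i j]; ring
    calc B = |u.1 x' y'| := by rw [hB, e0]
      _ ≤ G * B * (L1 / J) + G * B * (L2 / J) := by
          rw [e1]; exact (abs_add_le _ _).trans (add_le_add s1 s2)
      _ = G * B * ((L1 + L2) / J) := by ring
  have s4 : B = 0 := by
    by_contra hne
    have hBpos : 0 < B := lt_of_le_of_ne (abs_nonneg _) (Ne.symm hne)
    have h1 : G * ((L1 + L2) / J) < 1 := by
      rw [mul_div_assoc', div_lt_one hJ0']; linarith
    have h2 : G * B * ((L1 + L2) / J) = B * (G * ((L1 + L2) / J)) := by ring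
    rw [h2] at s3
    nlinarith
  apply Subtype.ext
  funext x y
  have := hmax x y
  rw [s4] at this
  exact abs_eq_zero.mp (le_antisymm this (abs_nonneg _))

/-- No Jordan blocks. -/
lemma no_jordan (hL : Liouville L1 L2 ρ σ) {μ : ℝ}
    (w v : eigenspace (fun x y => ρ x + σ y) L1 L2 lam)
    (h1 : Tend lam hL w = μ • w + v) (h2 : Tend lam hL v = μ • v) : v = 0 := by
  have e1 : ∀ x y, dx (dx w.1) x y + lam * ρ x * w.1 x y = μ * w.1 x y + v.1 x y := by
    intro x y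
    rw [← Tend_apply hL w x y, h1]; rfl
  have e2 : ∀ x y, dx (dx v.1) x y + lam * ρ x * v.1 x y = μ * v.1 x y := by
    intro x y
    rw [← Tend_apply hL v x y, h2]; rfl
  apply Subtype.ext
  funext x y
  have hw := w.2.1
  have hv := v.2.1
  have hwp := w.2.2.1
  have hvp := v.2.2.1
  have key := deriv_zero_of_periodic (F := fun x => dx w.1 x y * v.1 x y -
      w.1 x y * dx v.1 x y) (F' := fun x => v.1 x y ^ 2) hL.L1_pos
    (fun x => by
      have d1 := hw.hasDerivAt_x' x y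
      have d2 := hv.hasDerivAt_x' x y
      have d3 := hw.dx.hasDerivAt_x' x y
      have d4 := hv.dx.hasDerivAt_x' x y
      refine ((d3.mul d2).sub (d1.mul d4)).congr_deriv ?_
      have h3 : dx (dx w.1) x y = μ * w.1 x y + v.1 x y - lam * ρ x * w.1 x y := by
        linarith [e1 x y]
      have h4 : dx (dx v.1) x y = μ * v.1 x y - lam * ρ x * v.1 x y := by
        linarith [e2 x y]
      rw [h3, h4]; ring)
    (fun x => by positivity)
    (fun x => by
      simp only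
      rw [(hwp x y).1, (hvp x y).1, (hwp.dx x y).1, (hvp.dx x y).1]) x
  exact pow_eq_zero_iff (two_ne_zero) |>.mp key

/-- Decomposition into eigenvectors. -/
lemma decomp_of_prod (hL : Liouville L1 L2 ρ σ) : ∀ (l : List ℝ)
    (w : eigenspace (fun x y => ρ x + σ y) L1 L2 lam),
    aeval (Tend lam hL) ((l.map fun μ => X - C μ).prod) w = 0 →
    ∃ (S : Finset ℝ) (f : ℝ → eigenspace (fun x y => ρ x + σ y) L1 L2 lam),
      (∀ μ ∈ S, Tend lam hL (f μ) = μ • f μ) ∧ w = ∑ μ ∈ S, f μ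
  | [], w, h => by
    have h1 : w = 0 := by simpa using h
    exact ⟨∅, fun _ => 0, by simp, by simp [h1]⟩
  | μ :: l, w, h => by
    classical
    set T := Tend lam hL with hT
    have h1 : aeval T ((l.map fun μ => X - C μ).prod) (T w - μ • w) = 0 := by
      rw [← h, List.map_cons, List.prod_cons, mul_comm, map_mul, Module.End.mul_apply]
      congr 1
      simp [Module.algebraMap_end_apply]
    obtain ⟨S, f, hf, hsum⟩ := decomp_of_prod hL l _ h1
    rw [← hT] at hf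
    -- the corrected vector
    set r := w - ∑ ν ∈ S.erase μ, (ν - μ)⁻¹ • f ν with hr
    set v := T r - μ • r with hv
    have hv1 : v = if μ ∈ S then f μ else 0 := by
      have e1 : v = (T w - μ • w) - ∑ ν ∈ S.erase μ, (T ((ν - μ)⁻¹ • f ν) - μ • (ν - μ)⁻¹ • f ν) := by
        rw [hv, hr, map_sub, map_sum, smul_sub, Finset.smul_sum, Finset.sum_sub_distrib]
        abel
      have e2 : ∀ ν ∈ S.erase μ, T ((ν - μ)⁻¹ • f ν) - μ • (ν - μ)⁻¹ • f ν = f ν := by
        intro ν hν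
        have hν' := Finset.mem_erase.mp hν
        have hne : ν - μ ≠ 0 := sub_ne_zero.mpr hν'.1
        rw [map_smul, hf ν hν'.2, smul_comm μ]
        calc (ν - μ)⁻¹ • ν • f ν - (ν - μ)⁻¹ • μ • f ν = ((ν - μ)⁻¹ * (ν - μ)) • f ν := by module
          _ = f ν := by rw [inv_mul_cancel₀ hne, one_smul]
      rw [e1, Finset.sum_congr rfl e2, hsum]
      by_cases hμ : μ ∈ S
      · rw [if_pos hμ, ← Finset.add_sum_erase _ _ hμ]; abel
      · rw [if_neg hμ, Finset.erase_eq_of_notMem hμ]; abel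
    have hv2 : T v = μ • v := by
      rw [hv1]
      by_cases hμ : μ ∈ S
      · rw [if_pos hμ]; exact hf μ hμ
      · rw [if_neg hμ]; simp
    have hv0 : v = 0 := by
      apply no_jordan hL r v _ hv2
      rw [← hT, hv]; abel
    have hTr : T r = μ • r := by
      rw [← sub_eq_zero]; exact hv0
    refine ⟨insert μ (S.erase μ), fun ν => if ν = μ then r else (ν - μ)⁻¹ • f ν, ?_, ?_⟩
    · intro ν hν
      by_cases hνμ : ν = μ
      · simp only [hνμ]
        exact hTr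
      · simp only [if_neg hνμ]
        have hν' : ν ∈ S := by
          rcases Finset.mem_insert.mp hν with h | h
          · exact absurd h hνμ
          · exact Finset.mem_of_mem_erase h
        rw [map_smul, hf ν hν', smul_comm]
    · rw [Finset.sum_insert (Finset.notMem_erase μ S), if_pos rfl]
      have e3 : ∑ ν ∈ S.erase μ, (if ν = μ then r else (ν - μ)⁻¹ • f ν) =
          ∑ ν ∈ S.erase μ, (ν - μ)⁻¹ • f ν := by
        apply Finset.sum_congr rfl
        intro ν hν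
        rw [if_neg (Finset.mem_erase.mp hν).1]
      rw [e3, hr]; abel

/-- Every eigenfunction is a sum of separated ones. -/
lemma exists_decomp (hL : Liouville L1 L2 ρ σ) (hlam : 0 ≤ lam) {Λ : ℝ}
    (hρ : ∀ x, |ρ x| ≤ Λ) (hσ : ∀ y, |σ y| ≤ Λ) {u : ℝ → ℝ → ℝ}
    (hu : u ∈ eigenspace (fun x y => ρ x + σ y) L1 L2 lam) :
    ∃ (S : Finset ℝ) (U : ℝ → ℝ → ℝ → ℝ),
      (∀ μ ∈ S, U μ ∈ eigenspace (fun x y => ρ x + σ y) L1 L2 lam ∧ |μ| ≤ lam * Λ ∧
        (∀ x y, dx (dx (U μ)) x y = (μ - lam * ρ x) * U μ x y) ∧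
        (∀ x y, dy (dy (U μ)) x y = -(μ + lam * σ y) * U μ x y)) ∧
      ∀ x y, u x y = ∑ μ ∈ S, U μ x y := by
  classical
  have hfin := finite_eigenspace (lam := lam) hL
  set T := Tend lam hL with hT
  have hint : IsIntegral ℝ T := Algebra.IsIntegral.isIntegral T
  have hsp := minpoly_splits (lam := lam) hL
  have hprod := hsp.eq_prod_roots_of_monic (minpoly.monic hint)
  have e : (((minpoly ℝ T).roots.toList).map fun μ => X - C μ).prod = minpoly ℝ T := by
    rw [← Multiset.prod_coe, ← Multiset.map_coe, Multiset.coe_toList]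
    exact hprod.symm
  obtain ⟨S, f, hf, hsum⟩ := decomp_of_prod hL _ ⟨u, hu⟩ (by
    rw [e, ← hT]
    exact congrArg (fun A : Module.End ℝ _ => A ⟨u, hu⟩) (minpoly.aeval ℝ T))
  refine ⟨S.filter (fun μ => f μ ≠ 0), fun μ => (f μ).1, ?_, ?_⟩
  · intro μ hμ
    obtain ⟨hμS, hμ0⟩ := Finset.mem_filter.mp hμ
    have hb := eigenvalue_bound hL hlam (fun x => (abs_le.mp (hρ x)).2)
      (fun y => (abs_le.mp (hσ y)).2) (f μ) hμ0 (hf μ hμS)
    have e1 : ∀ x y, dx (dx (f μ).1) x y = (μ - lam * ρ x) * (f μ).1 x y := by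
      intro x y
      have h1 : dx (dx (f μ).1) x y + lam * ρ x * (f μ).1 x y = μ * (f μ).1 x y := by
        rw [← Tend_apply hL (f μ) x y, hf μ hμS]; rfl
      linarith
    refine ⟨(f μ).2, abs_le.mpr hb, e1, ?_⟩
    intro x y
    have := pde_of_mem hL (f μ).2 x y
    linear_combination this - e1 x y
  · intro x y
    have h1 : (⟨u, hu⟩ : eigenspace (fun x y => ρ x + σ y) L1 L2 lam) =
        ∑ μ ∈ S.filter (fun μ => f μ ≠ 0), f μ := by
      rw [hsum]
      symm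
      apply Finset.sum_subset (Finset.filter_subset _ _)
      intro μ hμ hμ'
      by_contra hcon
      exact hμ' (Finset.mem_filter.mpr ⟨hμ, hcon⟩)
    have h2 := congrArg (fun w : eigenspace (fun x y => ρ x + σ y) L1 L2 lam => w.1 x y) h1
    simp only at h2
    rw [h2, AddSubmonoidClass.coe_finsetSum, Finset.sum_apply, Finset.sum_apply]

/-- Zeros of an eigenfunction on a horizontal line. -/
lemma horizontal_zeros (hL : Liouville L1 L2 ρ σ) (hlam : 0 < lam) {Λ : ℝ} (hΛ : 0 ≤ Λ)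
    (hρ : ∀ x, |ρ x| ≤ Λ) (hσ : ∀ y, |σ y| ≤ Λ) {u : ℝ → ℝ → ℝ}
    (hu : u ∈ eigenspace (fun x y => ρ x + σ y) L1 L2 lam) (y : ℝ) (hne : ∃ x, u x y ≠ 0)
    (a : ℝ) (s : Finset ℝ) (hs : ∀ x ∈ s, x ∈ Ico a (a + L1) ∧ u x y = 0) :
    (s.card : ℝ) ≤ 2 * L1 * Real.sqrt (lam * (2 * Λ + 1)) := by
  obtain ⟨S, U, hU, hsum⟩ := exists_decomp hL hlam.le hρ hσ hu
  have hω : 0 < lam * (2 * Λ + 1) := by positivity
  apply Sturm.zero_count S (fun μ => lam * (Λ + 1) - μ) (fun μ x => U μ x y)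
    (fun x => lam * (Λ + 1 - ρ x)) hL.L1_pos (Real.sqrt_pos.mpr hω) (a := a) (s := s)
  · exact continuous_const.mul (continuous_const.sub hL.smooth_rho.continuous)
  · intro x
    have := (abs_le.mp (hρ x)).2
    exact mul_pos hlam (by linarith)
  · intro μ hμ
    have := (abs_le.mp (hU μ hμ).2.1).2
    nlinarith
  · intro i _ j _ h
    linarith
  · intro μ hμ x
    rw [Real.sq_sqrt hω.le]
    have h1 := abs_le.mp (hU μ hμ).2.1
    have h2 := abs_le.mp (hρ x)
    have h3 : |lam * ρ x| ≤ lam * Λ := by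
      rw [abs_mul, abs_of_pos hlam]; exact mul_le_mul_of_nonneg_left (hρ x) hlam.le
    have h4 := abs_le.mp h3
    rw [abs_le]
    constructor <;> nlinarith
  · intro μ hμ x
    exact ((hU μ hμ).1.2.1 x y).1
  · intro μ hμ
    exact (hU μ hμ).1.1.diff_x y
  · intro μ hμ
    exact (hU μ hμ).1.1.dx.diff_x y
  · intro μ hμ x
    have := (hU μ hμ).2.2.1 x y
    show dx (dx (U μ)) x y = _
    rw [this]; ring
  · obtain ⟨x, hx⟩ := hne
    exact ⟨x, by rwa [← hsum]⟩
  · intro x hx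
    refine ⟨(hs x hx).1, ?_⟩
    rw [← hsum]; exact (hs x hx).2

/-- Zeros of an eigenfunction on a vertical line. -/
lemma vertical_zeros (hL : Liouville L1 L2 ρ σ) (hlam : 0 < lam) {Λ : ℝ} (hΛ : 0 ≤ Λ)
    (hρ : ∀ x, |ρ x| ≤ Λ) (hσ : ∀ y, |σ y| ≤ Λ) {u : ℝ → ℝ → ℝ}
    (hu : u ∈ eigenspace (fun x y => ρ x + σ y) L1 L2 lam) (x : ℝ) (hne : ∃ y, u x y ≠ 0)
    (a : ℝ) (s : Finset ℝ) (hs : ∀ y ∈ s, y ∈ Ico a (a + L2) ∧ u x y = 0) :
    (s.card : ℝ) ≤ 2 * L2 * Real.sqrt (lam * (2 * Λ + 1)) := by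
  obtain ⟨S, U, hU, hsum⟩ := exists_decomp hL hlam.le hρ hσ hu
  have hω : 0 < lam * (2 * Λ + 1) := by positivity
  apply Sturm.zero_count S (fun μ => lam * (Λ + 1) + μ) (fun μ y => U μ x y)
    (fun y => lam * (Λ + 1 - σ y)) hL.L2_pos (Real.sqrt_pos.mpr hω) (a := a) (s := s)
  · exact continuous_const.mul (continuous_const.sub hL.smooth_sigma.continuous)
  · intro y
    have := (abs_le.mp (hσ y)).2
    exact mul_pos hlam (by linarith)
  · intro μ hμ
    have := (abs_le.mp (hU μ hμ).2.1).1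
    nlinarith
  · intro i _ j _ h
    linarith
  · intro μ hμ y
    rw [Real.sq_sqrt hω.le]
    have h1 := abs_le.mp (hU μ hμ).2.1
    have h3 : |lam * σ y| ≤ lam * Λ := by
      rw [abs_mul, abs_of_pos hlam]; exact mul_le_mul_of_nonneg_left (hσ y) hlam.le
    have h4 := abs_le.mp h3
    rw [abs_le]
    constructor <;> nlinarith
  · intro μ hμ y
    exact ((hU μ hμ).1.2.1 x y).2
  · intro μ hμ
    exact (hU μ hμ).1.1.diff_y x
  · intro μ hμ
    exact (hU μ hμ).1.1.dy.diff_y x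
  · intro μ hμ y
    have := (hU μ hμ).2.2.2 x y
    show dy (dy (U μ)) x y = _
    rw [this]; ring
  · obtain ⟨y, hy⟩ := hne
    exact ⟨y, by rwa [← hsum]⟩
  · intro y hy
    refine ⟨(hs y hy).1, ?_⟩
    rw [← hsum]; exact (hs y hy).2

end

end Pool.Agent.H24.Torus
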