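import Pool.Agent.H24.LiouvilleAlgebra

set_option autoImplicit false

/-!
# The spectrum of `∂_x² + lam ρ` on an eigenspace of a Liouville torus
-/

namespace Pool.Agent.H24.Torus

open Set Polynomial

section
variable {L1 L2 lam : ℝ} {ρ σ : ℝ → ℝ}

/-- The operator `∂_x² + lam ρ` as an endomorphism of the eigenspace. -/
noncomputable def Tend (lam : ℝ) (hL : Liouville L1 L2 ρ σ) :
    Module.End ℝ (eigenspace (fun x y => ρ x + σ y) L1 L2 lam) where
  toFun u := ⟨Tfun lam ρ u.1, Tfun_mem hL u.2⟩
  map_add' u v := by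
    apply Subtype.ext
    funext x y
    have hu := u.2.1
    have hv := v.2.1
    show Tfun lam ρ (u.1 + v.1) x y = Tfun lam ρ u.1 x y + Tfun lam ρ v.1 x y
    simp only [Tfun]
    rw [dx_add hu hv, dx_add hu.dx hv.dx]
    simp only [Pi.add_apply]
    ring
  map_smul' a u := by
    apply Subtype.ext
    funext x y
    have hu := u.2.1
    show Tfun lam ρ (a • u.1) x y = a * Tfun lam ρ u.1 x y
    simp only [Tfun]
    rw [dx_smul hu, dx_smul hu.dx]
    simp only [Pi.smul_apply, smul_eq_mul]
    ring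

lemma Tend_apply (hL : Liouville L1 L2 ρ σ)
    (u : eigenspace (fun x y => ρ x + σ y) L1 L2 lam) (x y : ℝ) :
    (Tend lam hL u).1 x y = dx (dx u.1) x y + lam * ρ x * u.1 x y := rfl

lemma dx_periodic_x {L1 L2 : ℝ} {u : ℝ → ℝ → ℝ} (hu : Periodic2 L1 L2 u) (y : ℝ) :
    Function.Periodic (fun x => u x y) L1 := fun x => (hu x y).1

/-- No non-real eigenvalue. -/
lemma no_complex (hL : Liouville L1 L2 ρ σ) {a b : ℝ} (hb : b ≠ 0)
    (w v : eigenspace (fun x y => ρ x + σ y) L1 L2 lam)
    (h1 : Tend lam hL w = a • w - b • v) (h2 : Tend lam hL v = a • v + b • w) : w = 0 := by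
  have e1 : ∀ x y, dx (dx w.1) x y + lam * ρ x * w.1 x y = a * w.1 x y - b * v.1 x y := by
    intro x y
    rw [← Tend_apply hL w x y, h1]; rfl
  have e2 : ∀ x y, dx (dx v.1) x y + lam * ρ x * v.1 x y = a * v.1 x y + b * w.1 x y := by
    intro x y
    rw [← Tend_apply hL v x y, h2]; rfl
  apply Subtype.ext
  funext x y
  have hw := w.2.1
  have hv := v.2.1
  have hwp := w.2.2.1
  have hvp := v.2.2.1
  have key := deriv_zero_of_periodic (F := fun x => -b * (dx w.1 x y * v.1 x y -
      w.1 x y * dx v.1 x y)) (F' := fun x => b ^ 2 * (w.1 x y ^ 2 + v.1 x y ^ 2)) hL.L1_pos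
    (fun x => by
      have d1 := hw.hasDerivAt_x' x y
      have d2 := hv.hasDerivAt_x' x y
      have d3 := hw.dx.hasDerivAt_x' x y
      have d4 := hv.dx.hasDerivAt_x' x y
      refine (((d3.mul d2).sub (d1.mul d4)).const_mul (-b)).congr_deriv ?_
      have h3 : dx (dx w.1) x y = a * w.1 x y - b * v.1 x y - lam * ρ x * w.1 x y := by
        linarith [e1 x y]
      have h4 : dx (dx v.1) x y = a * v.1 x y + b * w.1 x y - lam * ρ x * v.1 x y := by
        linarith [e2 x y]
      rw [h3, h4]; ring)
    (fun x => by positivity)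
    (fun x => by
      simp only
      rw [(hwp x y).1, (hvp x y).1, (hwp.dx x y).1, (hvp.dx x y).1]) x
  have hb2 : 0 < b ^ 2 := by positivity
  have h5 : w.1 x y ^ 2 + v.1 x y ^ 2 = 0 := by
    rcases mul_eq_zero.mp key with h | h
    · exact absurd h hb2.ne'
    · exact h
  show w.1 x y = 0
  nlinarith [sq_nonneg (w.1 x y), sq_nonneg (v.1 x y)]

/-- Bounds for the real eigenvalues. -/
lemma eigenvalue_bound (hL : Liouville L1 L2 ρ σ) (hlam : 0 ≤ lam) {P Q : ℝ}
    (hP : ∀ x, ρ x ≤ P) (hQ : ∀ y, σ y ≤ Q) {μ : ℝ}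
    (w : eigenspace (fun x y => ρ x + σ y) L1 L2 lam) (hw0 : w ≠ 0)
    (h : Tend lam hL w = μ • w) : -(lam * Q) ≤ μ ∧ μ ≤ lam * P := by
  have e1 : ∀ x y, dx (dx w.1) x y + lam * ρ x * w.1 x y = μ * w.1 x y := by
    intro x y
    rw [← Tend_apply hL w x y, h]; rfl
  have e2 : ∀ x y, dy (dy w.1) x y = -(μ + lam * σ y) * w.1 x y := by
    intro x y
    have := pde_of_mem hL w.2 x y
    linear_combination this - e1 x y
  have hw := w.2.1
  have hwp := w.2.2.1
  constructor
  · by_contra hcon
    push Not at hcon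
    apply hw0
    apply Subtype.ext
    funext x y
    have key := deriv_zero_of_periodic (F := fun y => w.1 x y * dy w.1 x y)
      (F' := fun y => dy w.1 x y ^ 2 + -(μ + lam * σ y) * w.1 x y ^ 2) hL.L2_pos
      (fun y => by
        have d1 := hw.hasDerivAt_y' x y
        have d2 := hw.dy.hasDerivAt_y' x y
        refine (d1.mul d2).congr_deriv ?_
        rw [e2]; ring)
      (fun y => by
        have h1 : 0 ≤ -(μ + lam * σ y) := by
          have := mul_le_mul_of_nonneg_left (hQ y) hlam
          linarith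
        positivity)
      (fun y => by
        simp only
        rw [(hwp x y).2, (hwp.dy x y).2]) y
    have h1 : 0 < -(μ + lam * σ y) := by
      have := mul_le_mul_of_nonneg_left (hQ y) hlam
      linarith
    have h2 : -(μ + lam * σ y) * w.1 x y ^ 2 = 0 := by
      have h3 : 0 ≤ -(μ + lam * σ y) * w.1 x y ^ 2 := by positivity
      nlinarith [sq_nonneg (dy w.1 x y)]
    have h4 : w.1 x y ^ 2 = 0 := by
      rcases mul_eq_zero.mp h2 with h | h
      · exact absurd h h1.ne'
      · exact h
    exact pow_eq_zero_iff (two_ne_zero) |>.mp h4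
  · by_contra hcon
    push Not at hcon
    apply hw0
    apply Subtype.ext
    funext x y
    have e3 : ∀ x y, dx (dx w.1) x y = (μ - lam * ρ x) * w.1 x y := by
      intro x y; linarith [e1 x y]
    have key := deriv_zero_of_periodic (F := fun x => w.1 x y * dx w.1 x y)
      (F' := fun x => dx w.1 x y ^ 2 + (μ - lam * ρ x) * w.1 x y ^ 2) hL.L1_pos
      (fun x => by
        have d1 := hw.hasDerivAt_x' x y
        have d2 := hw.dx.hasDerivAt_x' x y
        refine (d1.mul d2).congr_deriv ?_
        rw [e3]; ring)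
      (fun x => by
        have h1 : 0 ≤ μ - lam * ρ x := by
          have := mul_le_mul_of_nonneg_left (hP x) hlam
          linarith
        positivity)
      (fun x => by
        simp only
        rw [(hwp x y).1, (hwp.dx x y).1]) x
    have h1 : 0 < μ - lam * ρ x := by
      have := mul_le_mul_of_nonneg_left (hP x) hlam
      linarith
    have h2 : (μ - lam * ρ x) * w.1 x y ^ 2 = 0 := by
      have h3 : 0 ≤ (μ - lam * ρ x) * w.1 x y ^ 2 := by positivity
      nlinarith [sq_nonneg (dx w.1 x y)]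
    have h4 : w.1 x y ^ 2 = 0 := by
      rcases mul_eq_zero.mp h2 with h | h
      · exact absurd h h1.ne'
      · exact h
    exact pow_eq_zero_iff (two_ne_zero) |>.mp h4

/-- The quadratic factor acts injectively. -/
lemma quadratic_injective (hL : Liouville L1 L2 ρ σ) {z : ℂ} (hz : z.im ≠ 0)
    (w : eigenspace (fun x y => ρ x + σ y) L1 L2 lam)
    (h : aeval (Tend lam hL) (X ^ 2 - C (2 * z.re) * X + C (‖z‖ ^ 2)) w = 0) : w = 0 := by
  set T := Tend lam hL with hT
  have h1 : T (T w) - (2 * z.re) • T w + (‖z‖ ^ 2) • w = 0 := by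
    have e : aeval T (X ^ 2 - C (2 * z.re) * X + C (‖z‖ ^ 2)) w =
        T (T w) - (2 * z.re) • T w + (‖z‖ ^ 2) • w := by
      simp [pow_two, Module.algebraMap_end_apply]
      module
    rw [← e]; exact h
  have hnorm : ‖z‖ ^ 2 = z.re ^ 2 + z.im ^ 2 := by
    rw [← Complex.normSq_eq_norm_sq, Complex.normSq_apply]; ring
  apply no_complex hL (a := z.re) (b := z.im) hz w ((-(z.im)⁻¹) • (T w - z.re • w))
  · rw [smul_smul]
    have : z.im * -(z.im)⁻¹ = -1 := by field_simp
    rw [this]
    module
  · rw [← hT, map_smul, map_sub, map_smul]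
    have h2 : T (T w) = (2 * z.re) • T w - (‖z‖ ^ 2) • w := by
      rw [← sub_eq_zero, ← h1]; abel
    rw [h2, hnorm]
    have h3 : z.im • w = (-(z.im)⁻¹) • (-(z.im ^ 2) • w) := by
      rw [smul_smul]; congr 1; field_simp
    rw [h3]
    module

/-- The minimal polynomial splits. -/
lemma minpoly_splits (hL : Liouville L1 L2 ρ σ)
    [Module.Finite ℝ (eigenspace (fun x y => ρ x + σ y) L1 L2 lam)] :
    (minpoly ℝ (Tend lam hL)).Splits := by
  set T := Tend lam hL with hT
  have hint : IsIntegral ℝ T := Algebra.IsIntegral.isIntegral T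
  have hne : minpoly ℝ T ≠ 0 := minpoly.ne_zero hint
  have hirr : ∀ g : ℝ[X], Irreducible g → g ∣ minpoly ℝ T → degree g = 1 := by
    intro g hg hdvd
    obtain ⟨z, hz⟩ : ∃ z : ℂ, aeval z g = 0 :=
      IsAlgClosed.exists_aeval_eq_zero _ g (degree_pos_of_irreducible hg).ne'
    by_cases him : z.im = 0
    · have hzr : z = ((z.re : ℝ) : ℂ) := by apply Complex.ext <;> simp [him]
      apply degree_eq_one_of_irreducible_of_root hg (x := z.re)
      rw [hzr] at hz
      have h2 : ((eval z.re g : ℝ) : ℂ) = 0 := by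
        rw [← hz]
        have := Polynomial.aeval_algebraMap_apply ℂ z.re g
        simpa using this.symm
      exact_mod_cast h2
    · exfalso
      obtain ⟨r, hr⟩ := (g.quadratic_dvd_of_aeval_eq_zero_im_ne_zero hz him).trans hdvd
      have h0 : aeval T r = 0 := by
        apply LinearMap.ext
        intro w
        apply quadratic_injective hL him
        rw [← hT, ← Module.End.mul_apply, ← map_mul, ← hr]
        exact congrArg (fun A : Module.End ℝ _ => A w) (minpoly.aeval ℝ T)
      have h1 : minpoly ℝ T ∣ r := minpoly.dvd ℝ T h0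
      have hr0 : r ≠ 0 := by
        rintro rfl
        exact hne (by rw [hr, mul_zero])
      have hq : (X ^ 2 - C (2 * z.re) * X + C (‖z‖ ^ 2) : ℝ[X]).natDegree = 2 := by
        compute_degree!
      have hq0 : (X ^ 2 - C (2 * z.re) * X + C (‖z‖ ^ 2) : ℝ[X]) ≠ 0 := by
        intro h; rw [h] at hq; simp at hq
      have h2 := natDegree_le_of_dvd h1 hr0
      rw [hr, natDegree_mul hq0 hr0, hq] at h2
      omega
  have h := (UniqueFactorizationMonoid.factors_prod hne)
  obtain ⟨u, hu⟩ := h
  rw [← hu]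
  refine (Splits.multisetProd fun g hg ↦ ?_).mul u.isUnit.splits
  exact Splits.of_degree_eq_one (hirr g (UniqueFactorizationMonoid.irreducible_of_factor g hg)
    (UniqueFactorizationMonoid.dvd_of_mem_factors hg))

/-- Products of `T - μ` and the class `VCls`. -/
lemma vcls_of_prod (hL : Liouville L1 L2 ρ σ) : ∀ (l : List ℝ)
    (w : eigenspace (fun x y => ρ x + σ y) L1 L2 lam),
    aeval (Tend lam hL) ((l.map fun μ => X - C μ).prod) w = 0 →
    ∀ x, VCls (fun y => lam * σ y) l (fun y => w.1 x y)
  | [], w, h => by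
    intro x s
    have h1 : w = 0 := by simpa using h
    rw [h1]; rfl
  | μ :: l, w, h => by
    intro x
    have hw := w.2.1
    have h1 : aeval (Tend lam hL) ((l.map fun μ => X - C μ).prod)
        (Tend lam hL w - μ • w) = 0 := by
      rw [← h, List.map_cons, List.prod_cons, mul_comm, map_mul, Module.End.mul_apply]
      congr 1
      simp [Module.algebraMap_end_apply]
    have h2 := (vcls_of_prod hL l _ h1 x).neg
    refine ⟨hw.diff_y x, hw.dy.diff_y x, ?_⟩
    have e : (fun s => deriv (deriv fun y => w.1 x y) s + (lam * σ s + μ) * w.1 x s) =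
        fun s => -((Tend lam hL w - μ • w).1 x s) := by
      funext s
      have h3 : (Tend lam hL w - μ • w).1 x s =
          dx (dx w.1) x s + lam * ρ x * w.1 x s - μ * w.1 x s := rfl
      have h4 : deriv (deriv fun y => w.1 x y) s = dy (dy w.1) x s := rfl
      have h5 := pde_of_mem hL w.2 x s
      rw [h3, h4]
      linear_combination h5
    rw [e]; exact h2

/-- Eigenfunctions with an eigenvalue of multiplicity at most `n` restrict to vertical lines as
functions of the class `VCls` with at most `n` parameters. -/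
lemma exists_vcls (hL : Liouville L1 L2 ρ σ) (hlam : 0 ≤ lam) {Λ : ℝ}
    (hρ : ∀ x, |ρ x| ≤ Λ) (hσ : ∀ y, |σ y| ≤ Λ) {n : ℕ}
    (hn : Module.rank ℝ (eigenspace (fun x y => ρ x + σ y) L1 L2 lam) ≤ n) :
    ∃ l : List ℝ, l.length ≤ n ∧ (∀ μ ∈ l, |μ| ≤ lam * Λ) ∧
      ∀ u ∈ eigenspace (fun x y => ρ x + σ y) L1 L2 lam, ∀ x,
        VCls (fun y => lam * σ y) l (fun y => u x y) := by
  have hfin : Module.Finite ℝ (eigenspace (fun x y => ρ x + σ y) L1 L2 lam) := by
    rw [← Module.rank_lt_aleph0_iff]
    exact lt_of_le_of_lt hn (Cardinal.natCast_lt_aleph0)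
  have hfr : Module.finrank ℝ (eigenspace (fun x y => ρ x + σ y) L1 L2 lam) ≤ n :=
    Module.finrank_le_of_rank_le hn
  set T := Tend lam hL with hT
  have hint : IsIntegral ℝ T := Algebra.IsIntegral.isIntegral T
  have hsp := minpoly_splits (lam := lam) hL
  have hprod := hsp.eq_prod_roots_of_monic (minpoly.monic hint)
  refine ⟨(minpoly ℝ T).roots.toList, ?_, ?_, ?_⟩
  · rw [Multiset.length_toList]
    refine (card_roots' _).trans ?_
    refine le_trans ?_ hfr
    have h1 := LinearMap.minpoly_dvd_charpoly T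
    have h2 := natDegree_le_of_dvd h1 (LinearMap.charpoly_monic T).ne_zero
    rwa [LinearMap.charpoly_natDegree] at h2
  · intro μ hμ
    rw [Multiset.mem_toList, mem_roots'] at hμ
    obtain ⟨w, hw⟩ := (Module.End.hasEigenvalue_of_isRoot hμ.2).exists_hasEigenvector
    have hb := eigenvalue_bound hL hlam (fun x => (abs_le.mp (hρ x)).2)
      (fun y => (abs_le.mp (hσ y)).2) w hw.2 hw.apply_eq_smul
    exact abs_le.mpr hb
  · intro u hu x
    apply vcls_of_prod hL _ ⟨u, hu⟩
    have e : (((minpoly ℝ T).roots.toList).map fun μ => X - C μ).prod = minpoly ℝ T := by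
      rw [← Multiset.prod_coe, ← Multiset.map_coe, Multiset.coe_toList]
      exact hprod.symm
    rw [e, ← hT]
    exact congrArg (fun A : Module.End ℝ _ => A ⟨u, hu⟩) (minpoly.aeval ℝ T)
end

end Pool.Agent.H24.Torus
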