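import Mathlib

set_option autoImplicit false

/-!
# A positive solution of `φ'' = - q φ` for small `q`
-/

namespace Pool.Agent.H24.Torus

open Set Metric ODE
open scoped NNReal

/-- For `|q| ≤ 1/160000` the equation `φ'' = - q φ` has a solution close to `1` on `(-19, 19)`. -/
lemma exists_phi {q : ℝ → ℝ} (hq : Continuous q) (hq' : ∀ x, |q x| ≤ 1 / 160000) :
    ∃ φ ψ : ℝ → ℝ, (∀ x ∈ Ioo (-19 : ℝ) 19, HasDerivAt φ (ψ x) x ∧
      HasDerivAt ψ (-(q x) * φ x) x ∧ |φ x - 1| ≤ 1 / 10 ∧ |ψ x| ≤ 1 / 10) := by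
  set η : ℝ := 1 / 400 with hη
  set f : ℝ → ℝ × ℝ → ℝ × ℝ := fun t p => (η * p.2, -(400 * q t) * p.1) with hf
  have h0 : (0 : ℝ) ∈ Icc (-19 : ℝ) 19 := by norm_num
  set t₀ : Icc (-19 : ℝ) 19 := ⟨0, h0⟩ with ht₀
  set a : ℝ≥0 := ⟨1 / 10, by norm_num⟩ with ha
  set L : ℝ≥0 := ⟨1 / 200, by norm_num⟩ with hL
  set K : ℝ≥0 := ⟨1 / 400, by norm_num⟩ with hK
  have hq2 : ∀ t, |400 * q t| ≤ 1 / 400 := by
    intro t
    have := hq' t
    rw [abs_mul, abs_of_pos (by norm_num : (0 : ℝ) < 400)]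
    linarith
  have hpl : IsPicardLindelof f t₀ ((1 : ℝ), (0 : ℝ)) a 0 L K := by
    refine ⟨?_, ?_, ?_, ?_⟩
    · intro t _
      apply LipschitzOnWith.of_dist_le_mul
      intro x _ y _
      have hx1 : dist x.1 y.1 ≤ dist x y := by rw [Prod.dist_eq]; exact le_max_left _ _
      have hx2 : dist x.2 y.2 ≤ dist x y := by rw [Prod.dist_eq]; exact le_max_right _ _
      rw [Prod.dist_eq]
      apply max_le
      · simp only [hf]
        rw [Real.dist_eq, ← mul_sub, abs_mul, ← Real.dist_eq]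
        have : |η| = 1 / 400 := by rw [hη]; norm_num
        rw [this]
        exact mul_le_mul_of_nonneg_left hx2 (by norm_num)
      · simp only [hf]
        rw [Real.dist_eq, ← mul_sub, abs_mul, abs_neg, ← Real.dist_eq]
        exact mul_le_mul (hq2 t) hx1 dist_nonneg (by norm_num)
    · intro x _
      apply Continuous.continuousOn
      simp only [hf]
      fun_prop
    · intro t _ x hx
      have hx' : dist x ((1 : ℝ), (0 : ℝ)) ≤ 1 / 10 := hx
      rw [Prod.dist_eq] at hx'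
      have h1 := (le_max_left _ _).trans hx'
      have h2 := (le_max_right _ _).trans hx'
      rw [Real.dist_eq] at h1 h2
      simp only [sub_zero] at h1 h2
      have h3 : |x.1| ≤ 11 / 10 := by
        rw [abs_le] at h1 ⊢
        constructor <;> linarith
      rw [Prod.norm_def]
      apply max_le
      · simp only [hf, Real.norm_eq_abs]
        rw [abs_mul]
        have : |η| = 1 / 400 := by rw [hη]; norm_num
        rw [this]
        have e1 : ((L : ℝ≥0) : ℝ) = 1 / 200 := rfl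
        rw [e1]
        linarith
      · simp only [hf, Real.norm_eq_abs]
        rw [abs_mul, abs_neg]
        have e1 : ((L : ℝ≥0) : ℝ) = 1 / 200 := rfl
        rw [e1]
        calc |400 * q t| * |x.1| ≤ 1 / 400 * (11 / 10) :=
              mul_le_mul (hq2 t) h3 (abs_nonneg _) (by norm_num)
          _ ≤ 1 / 200 := by norm_num
    · have e1 : ((L : ℝ≥0) : ℝ) = 1 / 200 := rfl
      have e2 : ((a : ℝ≥0) : ℝ) = 1 / 10 := rfl
      rw [e1, e2]
      simp only [ht₀]
      norm_num
  have hx : ((1 : ℝ), (0 : ℝ)) ∈ closedBall ((1 : ℝ), (0 : ℝ)) ((0 : ℝ≥0) : ℝ) :=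
    mem_closedBall_self le_rfl
  obtain ⟨α, hα⟩ := FunSpace.exists_isFixedPt_next hpl hx
  have hball : ∀ t, α.compProj t ∈ closedBall ((1 : ℝ), (0 : ℝ)) (a : ℝ) :=
    fun t => α.compProj_mem_closedBall hpl.mul_max_le
  have hder : ∀ t ∈ Icc (-19 : ℝ) 19,
      HasDerivWithinAt α.compProj (f t (α.compProj t)) (Icc (-19 : ℝ) 19) t := by
    intro t ht
    apply hasDerivWithinAt_picard_Icc t₀.2 hpl.continuousOn_uncurry
      α.continuous_compProj.continuousOn (fun _ ht' ↦ α.compProj_mem_closedBall hpl.mul_max_le)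
      ((1 : ℝ), (0 : ℝ)) ht |>.congr_of_mem _ ht
    intro t' ht'
    nth_rw 1 [← hα]
    rw [FunSpace.compProj_of_mem ht', FunSpace.next_apply]
  refine ⟨fun x => (α.compProj x).1, fun x => η * (α.compProj x).2, ?_⟩
  intro x hx
  have h1 : HasDerivAt α.compProj (f x (α.compProj x)) x :=
    (hder x (Ioo_subset_Icc_self hx)).hasDerivAt (Icc_mem_nhds hx.1 hx.2)
  have h2 : HasDerivAt (fun x => (α.compProj x).1) (f x (α.compProj x)).1 x := h1.fst
  have h3 : HasDerivAt (fun x => (α.compProj x).2) (f x (α.compProj x)).2 x := h1.snd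
  have h4 : dist (α.compProj x) ((1 : ℝ), (0 : ℝ)) ≤ 1 / 10 := hball x
  rw [Prod.dist_eq] at h4
  have h5 := (le_max_left _ _).trans h4
  have h6 := (le_max_right _ _).trans h4
  rw [Real.dist_eq] at h5 h6
  simp only [sub_zero] at h5 h6
  refine ⟨h2, ?_, h5, ?_⟩
  · refine (h3.const_mul η).congr_deriv ?_
    simp only [hf, hη]
    ring
  · simp only
    rw [abs_mul]
    have : |η| = 1 / 400 := by rw [hη]; norm_num
    rw [this]
    linarith

end Pool.Agent.H24.Torus
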