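import Mathlib

set_option autoImplicit false

/-!
# Rotationally symmetric metrics on the sphere

The sphere is the unit sphere of `E3`, with the metric `f(z) g₀`, where `g₀` is the round metric and
`z` the third coordinate; by the uniformization theorem every smooth metric on `S²` invariant under
a circle of rotations is isometric to such a metric.  Functions on the sphere are the functions on
`E3` without the origin which are homogeneous of degree zero; the Laplacian of such a function on
`E3` restricts on the unit sphere to the Laplacian of the round metric.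
-/

namespace Pool.Agent.H24.Sphere

open Set

/-- The Euclidean space of dimension three. -/
abbrev E3 : Type := EuclideanSpace ℝ (Fin 3)

/-- Length of the path `γ`, restricted to `[0, 1]`, for the metric `f(z) g₀`. -/
noncomputable def pathLength (f : ℝ → ℝ) (γ : ℝ → E3) : ℝ :=
  ∫ t in (0 : ℝ)..1, Real.sqrt (f (γ t 2)) * ‖deriv γ t‖

/-- Riemannian distance of two points of the unit sphere: infimum of the lengths of `C¹` paths on
the unit sphere. -/
noncomputable def sphereDist (f : ℝ → ℝ) (p q : E3) : ℝ :=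
  sInf {ℓ | ∃ γ : ℝ → E3, ContDiff ℝ 1 γ ∧ (∀ t, ‖γ t‖ = 1) ∧ γ 0 = p ∧ γ 1 = q ∧
    ℓ = pathLength f γ}

/-- The geodesic disc `B(p, r)`. -/
def geodDisc (f : ℝ → ℝ) (p : E3) (r : ℝ) : Set E3 := {q | ‖q‖ = 1 ∧ sphereDist f p q < r}

/-- `sup_S |u|`. -/
noncomputable def supAbs (u : E3 → ℝ) (S : Set E3) : ℝ := sSup ((fun q => |u q|) '' S)

/-- The doubling index `log₂ (sup_{B(p,2r)} |u| / sup_{B(p,r)} |u|)`. -/
noncomputable def doublingIndex (f : ℝ → ℝ) (u : E3 → ℝ) (p : E3) (r : ℝ) : ℝ :=
  Real.logb 2 (supAbs u (geodDisc f p (2 * r)) / supAbs u (geodDisc f p r))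

/-- `u` is a Laplace eigenfunction with eigenvalue `lam` on the unit sphere with the metric
`f(z) g₀`: a smooth function on the sphere (extended to a function homogeneous of degree zero), not
identically zero, and `f(z)⁻¹ Δ₀ u + lam u = 0`. -/
structure IsEigenfunction (f : ℝ → ℝ) (lam : ℝ) (u : E3 → ℝ) : Prop where
  smooth : ContDiffOn ℝ (⊤ : ℕ∞) u {0}ᶜ
  homogeneous : ∀ (t : ℝ) (v : E3), 0 < t → u (t • v) = u v
  eq : ∀ v : E3, ‖v‖ = 1 → (f (v 2))⁻¹ * Laplacian.laplacian u v + lam * u v = 0
  ne_zero : ∃ v : E3, ‖v‖ = 1 ∧ u v ≠ 0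

/-- An admissible covering (with constants `C, C₁, C₂`) by `N` geodesic discs of radius
`C / √lam` with centres `p i`. -/
structure IsAdmissibleCovering (f : ℝ → ℝ) (lam : ℝ) (u : E3 → ℝ)
    (C C1 C2 : ℝ) (N : ℕ) (p : Fin N → E3) : Prop where
  unit : ∀ i, ‖p i‖ = 1
  cover : ∀ q : E3, ‖q‖ = 1 → ∃ i, q ∈ geodDisc f (p i) (C / Real.sqrt lam)
  card_lower : C2⁻¹ * lam ≤ (N : ℝ)
  card_upper : (N : ℝ) ≤ C2 * lam
  overlap : ∀ q : E3, ‖q‖ = 1 →
    (({i | q ∈ geodDisc f (p i) (C / Real.sqrt lam)} : Set (Fin N)).ncard : ℝ) ≤ C1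
  zero : ∀ i, u (p i) = 0

/-- The conformal chart of the sphere without the poles on the cylinder. -/
noncomputable def chart (x y : ℝ) : E3 :=
  !₂[Real.cos y / Real.cosh x, Real.sin y / Real.cosh x, Real.tanh x]

end Pool.Agent.H24.Sphere
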