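import Mathlib
import Pool.Agent.H24.SphereModel

set_option autoImplicit false

/-!
# Distances in the conformal chart of the sphere
-/

namespace Pool.Agent.H24.Sphere

open Set

lemma norm_sq_three (v : E3) : ‖v‖ ^ 2 = v 0 ^ 2 + v 1 ^ 2 + v 2 ^ 2 := by
  rw [EuclideanSpace.norm_sq_eq, Fin.sum_univ_three]
  simp only [Real.norm_eq_abs, sq_abs]

@[simp] lemma chart_zero (x y : ℝ) : chart x y 0 = Real.cos y / Real.cosh x := rfl
@[simp] lemma chart_one (x y : ℝ) : chart x y 1 = Real.sin y / Real.cosh x := rfl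
@[simp] lemma chart_two (x y : ℝ) : chart x y 2 = Real.tanh x := rfl

/-- The poles. -/
noncomputable def north : E3 := !₂[0, 0, 1]

/-- The poles. -/
noncomputable def south : E3 := !₂[0, 0, -1]

@[simp] lemma north_zero : north 0 = 0 := rfl
@[simp] lemma north_one : north 1 = 0 := rfl
@[simp] lemma north_two : north 2 = 1 := rfl
@[simp] lemma south_zero : south 0 = 0 := rfl
@[simp] lemma south_one : south 1 = 0 := rfl
@[simp] lemma south_two : south 2 = -1 := rfl

lemma norm_chart (x y : ℝ) : ‖chart x y‖ = 1 := by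
  have h1 : ‖chart x y‖ ^ 2 = 1 := by
    rw [norm_sq_three, chart_zero, chart_one, chart_two, Real.tanh_eq_sinh_div_cosh]
    have hc := Real.cosh_pos x
    have h2 := Real.cosh_sq x
    have h3 := Real.sin_sq_add_cos_sq y
    field_simp
    nlinarith
  nlinarith [norm_nonneg (chart x y)]

lemma norm_north : ‖north‖ = 1 := by
  have h1 : ‖north‖ ^ 2 = 1 := by
    rw [norm_sq_three]; simp
  nlinarith [norm_nonneg north]

lemma norm_south : ‖south‖ = 1 := by
  have h1 : ‖south‖ ^ 2 = 1 := by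
    rw [norm_sq_three]; simp
  nlinarith [norm_nonneg south]

/-- The chordal distance in the chart. -/
lemma dist_chart_sq (x y x' y' : ℝ) : ‖chart x y - chart x' y'‖ ^ 2 =
    4 * (Real.sinh ((x - x') / 2) ^ 2 + Real.sin ((y - y') / 2) ^ 2) /
      (Real.cosh x * Real.cosh x') := by
  have hc := Real.cosh_pos x
  have hc' := Real.cosh_pos x'
  have e1 : Real.sinh ((x - x') / 2) ^ 2 = (Real.cosh (x - x') - 1) / 2 := by
    have := Real.cosh_two_mul ((x - x') / 2)
    rw [mul_div_cancel₀ _ (two_ne_zero)] at this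
    have h2 := Real.cosh_sq ((x - x') / 2)
    linarith
  have e2 : Real.sin ((y - y') / 2) ^ 2 = (1 - Real.cos (y - y')) / 2 := by
    have := Real.cos_two_mul ((y - y') / 2)
    rw [mul_div_cancel₀ _ (two_ne_zero)] at this
    have h2 := Real.sin_sq_add_cos_sq ((y - y') / 2)
    linarith
  rw [e1, e2, Real.cosh_sub, Real.cos_sub, norm_sq_three]
  simp only [PiLp.sub_apply, chart_zero, chart_one, chart_two, Real.tanh_eq_sinh_div_cosh]
  have h1 := Real.cosh_sq x
  have h2 := Real.cosh_sq x'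
  have h3 := Real.sin_sq_add_cos_sq y
  have h4 := Real.sin_sq_add_cos_sq y'
  field_simp
  have e3 : Real.sinh x ^ 2 = Real.cosh x ^ 2 - 1 := by linarith
  have e4 : Real.sinh x' ^ 2 = Real.cosh x' ^ 2 - 1 := by linarith
  have e5 : Real.sin y ^ 2 = 1 - Real.cos y ^ 2 := by linarith
  have e6 : Real.sin y' ^ 2 = 1 - Real.cos y' ^ 2 := by linarith
  linear_combination (2 * Real.cosh x' ^ 2) * e3 + (2 * Real.cosh x ^ 2) * e4 +
    (2 * Real.cosh x' ^ 2) * e5 + (2 * Real.cosh x ^ 2) * e6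

lemma exp_abs_le_two_cosh (x : ℝ) : Real.exp |x| ≤ 2 * Real.cosh x := by
  rw [← Real.cosh_abs, Real.cosh_eq]
  have := Real.exp_pos (-|x|)
  linarith

lemma cosh_le_exp_abs (x : ℝ) : Real.cosh x ≤ Real.exp |x| := by
  rw [← Real.cosh_abs, Real.cosh_eq]
  have : Real.exp (-|x|) ≤ Real.exp |x| := Real.exp_le_exp.mpr (by linarith [abs_nonneg x])
  linarith

lemma sinh_le {t : ℝ} (h0 : 0 ≤ t) (h1 : t ≤ 1 / 2) : Real.sinh t ≤ 3 / 2 * t := by
  rw [Real.sinh_eq]
  have e1 : Real.exp t * Real.exp (-t) = 1 := by rw [← Real.exp_add]; simp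
  have e2 : 1 - t ≤ Real.exp (-t) := by have := Real.add_one_le_exp (-t); linarith
  have e3 := Real.exp_pos t
  have e4 : (1 - t) * Real.exp t ≤ 1 := by nlinarith
  have e5 : (1 - t) * (Real.exp t - Real.exp (-t)) ≤ (1 - t) * (3 * t) := by nlinarith
  have e6 := le_of_mul_le_mul_left e5 (by linarith)
  linarith

/-- Upper bound of the chordal distance. -/
lemma chart_upper {x y x' y' δ : ℝ} (hx : |x' - x| ≤ δ) (hy : |y' - y| ≤ δ) (hδ : δ ≤ 1) :
    ‖chart x' y' - chart x y‖ ≤ 6 * Real.exp (-|x|) * δ := by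
  have hδ0 : 0 ≤ δ := (abs_nonneg _).trans hx
  apply le_of_sq_le_sq _ (by positivity)
  rw [dist_chart_sq]
  have hc := Real.cosh_pos x
  have hc' := Real.cosh_pos x'
  have h1 : Real.sinh ((x' - x) / 2) ^ 2 ≤ (3 / 4 * δ) ^ 2 := by
    rw [← sq_abs, Real.abs_sinh]
    have h0 : 0 ≤ Real.sinh |(x' - x) / 2| := Real.sinh_nonneg_iff.mpr (abs_nonneg _)
    apply pow_le_pow_left₀ h0
    have h2 : |(x' - x) / 2| ≤ δ / 2 := by
      rw [abs_div, abs_two]; linarith
    have := sinh_le (abs_nonneg ((x' - x) / 2)) (by linarith)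
    linarith
  have h2 : Real.sin ((y' - y) / 2) ^ 2 ≤ (δ / 2) ^ 2 := by
    rw [← sq_abs]
    apply pow_le_pow_left₀ (abs_nonneg _)
    refine (Real.abs_sin_le_abs).trans ?_
    rw [abs_div, abs_two]; linarith
  have h3 := exp_abs_le_two_cosh x
  have h4 := exp_abs_le_two_cosh x'
  have h5 : Real.exp |x| ≤ Real.exp |x'| * Real.exp 1 := by
    rw [← Real.exp_add]
    apply Real.exp_le_exp.mpr
    have := abs_sub_abs_le_abs_sub x x'
    rw [abs_sub_comm] at this
    linarith
  have h6 : Real.exp 1 ≤ 2.7182818286 := Real.exp_one_lt_d9.le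
  have h7 : Real.exp |x| ^ 2 ≤ 2.7182818286 * 4 * (Real.cosh x' * Real.cosh x) := by
    have e1 := Real.exp_pos |x|
    have e2 := Real.exp_pos |x'|
    calc Real.exp |x| ^ 2 = Real.exp |x| * Real.exp |x| := sq _
      _ ≤ (2 * Real.cosh x) * (Real.exp |x'| * Real.exp 1) := by gcongr
      _ ≤ (2 * Real.cosh x) * (2 * Real.cosh x' * 2.7182818286) := by gcongr
      _ = _ := by ring
  rw [div_le_iff₀ (by positivity)]
  have h8 : Real.exp (-|x|) ^ 2 * Real.exp |x| ^ 2 = 1 := by
    rw [← mul_pow, ← Real.exp_add]; simp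
  have h9 : 1 ≤ 2.7182818286 * 4 * (Real.exp (-|x|) ^ 2 * (Real.cosh x' * Real.cosh x)) := by
    rw [← h8]
    calc Real.exp (-|x|) ^ 2 * Real.exp |x| ^ 2
        ≤ Real.exp (-|x|) ^ 2 * (2.7182818286 * 4 * (Real.cosh x' * Real.cosh x)) := by gcongr
      _ = _ := by ring
  calc 4 * (Real.sinh ((x' - x) / 2) ^ 2 + Real.sin ((y' - y) / 2) ^ 2)
      ≤ 4 * ((3 / 4 * δ) ^ 2 + (δ / 2) ^ 2) := by gcongr
    _ = 3.25 * δ ^ 2 * 1 := by ring
    _ ≤ 3.25 * δ ^ 2 * (2.7182818286 * 4 * (Real.exp (-|x|) ^ 2 * (Real.cosh x' * Real.cosh x))) := by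
        gcongr
    _ ≤ (6 * Real.exp (-|x|) * δ) ^ 2 * (Real.cosh x' * Real.cosh x) := by
        have : 0 ≤ δ ^ 2 * (Real.exp (-|x|) ^ 2 * (Real.cosh x' * Real.cosh x)) := by positivity
        nlinarith

/-- Lower bound of the chordal distance. -/
lemma chart_lower {x y x' y' d : ℝ} (hd : ‖chart x' y' - chart x y‖ ≤ d)
    (hdx : d * Real.exp |x| ≤ 1 / 2) : |x' - x| ≤ 2 * (d * Real.exp |x|) ∧
      ∃ k : ℤ, |y' - y - 2 * Real.pi * k| ≤ 3 * (d * Real.exp |x|) := by
  set δ : ℝ := d * Real.exp |x| with hδ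
  have hd0 : 0 ≤ d := (norm_nonneg _).trans hd
  have he := Real.exp_pos |x|
  have hδ0 : 0 ≤ δ := by positivity
  have hc := Real.cosh_pos x
  have hc' := Real.cosh_pos x'
  have h1 : 4 * (Real.sinh ((x' - x) / 2) ^ 2 + Real.sin ((y' - y) / 2) ^ 2) ≤
      d ^ 2 * (Real.cosh x' * Real.cosh x) := by
    rw [← div_le_iff₀ (by positivity), ← dist_chart_sq]
    exact pow_le_pow_left₀ (norm_nonneg _) hd 2
  set t : ℝ := |x' - x| with ht
  have ht0 : 0 ≤ t := abs_nonneg _
  have h2 : Real.cosh x' ≤ Real.cosh x * Real.exp t := by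
    have e1 : Real.cosh x' = Real.cosh x * Real.cosh (x' - x) + Real.sinh x * Real.sinh (x' - x) := by
      rw [← Real.cosh_add]; congr 1; ring
    have e2 : |Real.sinh x| ≤ Real.cosh x := by
      rw [Real.abs_sinh, ← Real.cosh_abs]; exact (Real.sinh_lt_cosh _).le
    have e3 : Real.cosh (x' - x) = Real.cosh t := by rw [ht, Real.cosh_abs]
    have e4 : |Real.sinh (x' - x)| = Real.sinh t := by rw [ht, Real.abs_sinh]
    have e5 : Real.cosh t + Real.sinh t = Real.exp t := Real.cosh_add_sinh t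
    have e6 : Real.sinh x * Real.sinh (x' - x) ≤ Real.cosh x * Real.sinh t := by
      rw [← e4]
      refine (le_abs_self _).trans ?_
      rw [abs_mul]
      exact mul_le_mul_of_nonneg_right e2 (abs_nonneg _)
    rw [e1, e3, ← e5]
    linarith
  have h3 : Real.cosh x ≤ Real.exp |x| := cosh_le_exp_abs x
  have h4 : d ^ 2 * (Real.cosh x' * Real.cosh x) ≤ δ ^ 2 * Real.exp t := by
    calc d ^ 2 * (Real.cosh x' * Real.cosh x)
        ≤ d ^ 2 * ((Real.cosh x * Real.exp t) * Real.cosh x) := by gcongr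
      _ ≤ d ^ 2 * ((Real.exp |x| * Real.exp t) * Real.exp |x|) := by gcongr
      _ = δ ^ 2 * Real.exp t := by rw [hδ]; ring
  have h5 : Real.sinh ((x' - x) / 2) ^ 2 = Real.sinh (t / 2) ^ 2 := by
    rw [← sq_abs, Real.abs_sinh, abs_div, abs_two]
  have het := Real.exp_pos t
  -- `1 - e^{-t} ≤ δ`
  have h6 : 1 - Real.exp (-t) ≤ δ := by
    have e1 : 4 * Real.sinh (t / 2) ^ 2 = Real.exp t * (1 - Real.exp (-t)) ^ 2 := by
      rw [Real.sinh_eq]
      have a1 : Real.exp t = Real.exp (t / 2) * Real.exp (t / 2) := by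
        rw [← Real.exp_add]; congr 1; ring
      have a2 : Real.exp (-t) = Real.exp (-(t / 2)) * Real.exp (-(t / 2)) := by
        rw [← Real.exp_add]; congr 1; ring
      have a3 : Real.exp (t / 2) * Real.exp (-(t / 2)) = 1 := by rw [← Real.exp_add]; simp
      rw [a1, a2]
      linear_combination (2 * Real.exp (t / 2) * Real.exp (-(t / 2)) - Real.exp (-(t / 2)) ^ 2 *
        (Real.exp (t / 2) * Real.exp (-(t / 2)) + 1)) * a3
    have e2 : Real.exp t * (1 - Real.exp (-t)) ^ 2 ≤ Real.exp t * δ ^ 2 := by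
      rw [← e1]
      have := sq_nonneg (Real.sin ((y' - y) / 2))
      linarith
    have e3 := le_of_mul_le_mul_left e2 het
    exact le_of_sq_le_sq e3 hδ0
  have h7 : Real.exp t * Real.exp (-t) = 1 := by rw [← Real.exp_add]; simp
  have h8 : (1 - δ) * Real.exp t ≤ 1 := by nlinarith
  have h9 := Real.add_one_le_exp t
  have h10 : t ≤ 2 * δ := by nlinarith
  refine ⟨h10, round ((y' - y) / (2 * Real.pi)), ?_⟩
  set k : ℤ := round ((y' - y) / (2 * Real.pi)) with hk
  have hπ := Real.pi_pos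
  have hr := abs_sub_round ((y' - y) / (2 * Real.pi))
  rw [← hk] at hr
  set w : ℝ := (y' - y) / 2 - k * Real.pi with hw
  have hw2 : y' - y - 2 * Real.pi * k = 2 * w := by rw [hw]; ring
  have hw3 : (y' - y) / (2 * Real.pi) - k = w / Real.pi := by rw [hw]; field_simp
  rw [hw3, abs_div, abs_of_pos hπ, div_le_iff₀ hπ] at hr
  have hs := Real.mul_abs_le_abs_sin (x := w) (by linarith)
  have hsin : Real.sin w ^ 2 = Real.sin ((y' - y) / 2) ^ 2 := by
    have e1 : ((-1 : ℝ) ^ k) ^ 2 = 1 := by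
      rcases Int.even_or_odd k with h | h
      · rw [h.neg_one_zpow]; norm_num
      · rw [h.neg_one_zpow]; norm_num
    rw [hw, Real.sin_sub_int_mul_pi, mul_pow, e1, one_mul]
  have h11 : 4 * Real.sin w ^ 2 ≤ δ ^ 2 * Real.exp t := by
    rw [hsin]
    have := sq_nonneg (Real.sinh ((x' - x) / 2))
    linarith
  have h12 : Real.exp t ≤ 2 := by nlinarith
  have h13 : (2 / Real.pi * |w|) ^ 2 ≤ Real.sin w ^ 2 := by
    rw [← sq_abs (Real.sin w)]
    exact pow_le_pow_left₀ (by positivity) hs 2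
  have h14 : 2 / Real.pi * |w| ≤ 3 / 4 * δ := by
    apply le_of_sq_le_sq _ (by positivity)
    nlinarith
  rw [hw2, abs_mul, abs_two]
  rw [div_mul_eq_mul_div, div_le_iff₀ hπ] at h14
  have := Real.pi_lt_d2
  nlinarith

/-- The distance to the north pole. -/
lemma chart_north_sq (x y : ℝ) : ‖chart x y - north‖ ^ 2 = 4 / (Real.exp (2 * x) + 1) := by
  rw [norm_sq_three]
  simp only [PiLp.sub_apply, chart_zero, chart_one, chart_two, north_zero, north_one, north_two,
    sub_zero]
  have e1 : Real.exp (2 * x) = Real.exp x * Real.exp x := by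
    rw [← Real.exp_add]; congr 1; ring
  have e2 := Real.exp_pos x
  have e3 : Real.exp x * Real.exp (-x) = 1 := by rw [← Real.exp_add]; simp
  have e4 := Real.exp_pos (-x)
  have hc := Real.cosh_pos x
  have h1 : (Real.cos y / Real.cosh x) ^ 2 + (Real.sin y / Real.cosh x) ^ 2 =
      1 / Real.cosh x ^ 2 := by
    rw [div_pow, div_pow, ← add_div]
    congr 1
    linarith [Real.sin_sq_add_cos_sq y]
  rw [h1, Real.tanh_eq_sinh_div_cosh]
  have h2 : Real.cosh x = (Real.exp x + Real.exp (-x)) / 2 := Real.cosh_eq x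
  have h3 : Real.sinh x = (Real.exp x - Real.exp (-x)) / 2 := Real.sinh_eq x
  have h4 : 1 / Real.cosh x ^ 2 + (Real.sinh x / Real.cosh x - 1) ^ 2 =
      2 * (Real.cosh x - Real.sinh x) / Real.cosh x := by
    have := Real.cosh_sq x
    field_simp
    linear_combination (-1 : ℝ) * this
  rw [h4, h2, h3, e1, div_eq_div_iff (by positivity) (by positivity)]
  linear_combination (2 * Real.exp x) * e3

lemma chart_south (x y : ℝ) : ‖chart x y - south‖ = ‖chart (-x) y - north‖ := by
  have h : ‖chart x y - south‖ ^ 2 = ‖chart (-x) y - north‖ ^ 2 := by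
    rw [norm_sq_three, norm_sq_three]
    simp only [PiLp.sub_apply, chart_zero, chart_one, chart_two, north_zero, north_one, north_two,
      south_zero, south_one, south_two, sub_zero, Real.cosh_neg, Real.tanh_neg]
    ring
  have h1 := norm_nonneg (chart x y - south)
  have h2 := norm_nonneg (chart (-x) y - north)
  nlinarith

lemma chart_north_upper (x y : ℝ) : ‖chart x y - north‖ ≤ 2 * Real.exp (-x) := by
  apply le_of_sq_le_sq _ (by positivity)
  rw [chart_north_sq, div_le_iff₀ (by positivity)]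
  have e1 : Real.exp (2 * x) = Real.exp x * Real.exp x := by
    rw [← Real.exp_add]; congr 1; ring
  have e3 : Real.exp x * Real.exp (-x) = 1 := by rw [← Real.exp_add]; simp
  have e4 := Real.exp_pos (-x)
  rw [e1]
  have : (2 * Real.exp (-x)) ^ 2 * (Real.exp x * Real.exp x + 1) =
      4 * (Real.exp x * Real.exp (-x)) ^ 2 + 4 * Real.exp (-x) ^ 2 := by ring
  rw [this, e3]
  nlinarith

lemma chart_north_lower {x y d : ℝ} (h : ‖chart x y - north‖ ≤ d) (hd : d ≤ 1) :
    Real.exp (-x) ≤ d := by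
  have h1 := chart_north_sq x y
  have h2 : ‖chart x y - north‖ ^ 2 ≤ d ^ 2 := pow_le_pow_left₀ (norm_nonneg _) h 2
  rw [h1, div_le_iff₀ (by positivity)] at h2
  have e1 : Real.exp (2 * x) = Real.exp x * Real.exp x := by
    rw [← Real.exp_add]; congr 1; ring
  have e2 := Real.exp_pos x
  have e3 : Real.exp x * Real.exp (-x) = 1 := by rw [← Real.exp_add]; simp
  rw [e1] at h2
  have hd0 : 0 ≤ d := (norm_nonneg _).trans h
  have h3 : 1 ≤ d * Real.exp x := by
    have : (1 : ℝ) ^ 2 ≤ (d * Real.exp x) ^ 2 := by nlinarith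
    exact le_of_sq_le_sq this (by positivity)
  have e4 := Real.exp_pos (-x)
  calc Real.exp (-x) = 1 * Real.exp (-x) := by ring
    _ ≤ d * Real.exp x * Real.exp (-x) := by gcongr
    _ = d := by rw [mul_assoc, e3, mul_one]

lemma chart_north_ge (x y : ℝ) : 1 ≤ ‖chart x y - north‖ * Real.exp |x| := by
  have h1 := chart_north_sq x y
  have h2 : (1 : ℝ) ^ 2 ≤ (‖chart x y - north‖ * Real.exp |x|) ^ 2 := by
    rw [mul_pow, h1]
    have e1 : Real.exp (2 * x) = Real.exp x * Real.exp x := by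
      rw [← Real.exp_add]; congr 1; ring
    have e2 : Real.exp x ≤ Real.exp |x| := Real.exp_le_exp.mpr (le_abs_self x)
    have e3 : 1 ≤ Real.exp |x| := Real.one_le_exp (abs_nonneg x)
    have e4 := Real.exp_pos x
    rw [div_mul_eq_mul_div, le_div_iff₀ (by positivity), e1]
    nlinarith
  exact le_of_sq_le_sq h2 (by positivity)

/-- The chart covers the sphere without the poles. -/
lemma exists_chart {v : E3} (hv : ‖v‖ = 1) : v = north ∨ v = south ∨
    ∃ x y, y ∈ Ico 0 (2 * Real.pi) ∧ v = chart x y := by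
  have h1 := norm_sq_three v
  rw [hv] at h1
  by_cases hlt : v 2 ^ 2 < 1
  · right; right
    set ρ : ℝ := Real.sqrt (1 - v 2 ^ 2) with hρ
    have hρ0 : 0 < ρ := Real.sqrt_pos.mpr (by linarith)
    have hρ2 : ρ ^ 2 = 1 - v 2 ^ 2 := Real.sq_sqrt (by linarith)
    set z : ℂ := ⟨v 0 / ρ, v 1 / ρ⟩ with hz
    have hz1 : ‖z‖ = 1 := by
      rw [Complex.norm_def, Complex.normSq_mk]
      have : v 0 / ρ * (v 0 / ρ) + v 1 / ρ * (v 1 / ρ) = 1 := by
        field_simp
        linarith
      rw [this, Real.sqrt_one]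
    have hz0 : z ≠ 0 := by
      intro h
      rw [h] at hz1
      simp at hz1
    obtain ⟨k, hk, _⟩ := existsUnique_add_zsmul_mem_Ico Real.two_pi_pos (Complex.arg z) 0
    simp only [zsmul_eq_mul, zero_add] at hk
    refine ⟨Real.arsinh (v 2 / ρ), Complex.arg z + k * (2 * Real.pi), hk, ?_⟩
    have hcosh : Real.cosh (Real.arsinh (v 2 / ρ)) = 1 / ρ := by
      rw [Real.cosh_arsinh]
      have : 1 + (v 2 / ρ) ^ 2 = (1 / ρ) ^ 2 := by
        field_simp
        linarith
      rw [this, Real.sqrt_sq (by positivity)]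
    have hcos : Real.cos (Complex.arg z + k * (2 * Real.pi)) = v 0 / ρ := by
      rw [Real.cos_add_int_mul_two_pi, Complex.cos_arg hz0, hz1, div_one]
    have hsin : Real.sin (Complex.arg z + k * (2 * Real.pi)) = v 1 / ρ := by
      rw [Real.sin_add_int_mul_two_pi, Complex.sin_arg, hz1, div_one]
    ext i
    fin_cases i
    · simp only [Fin.zero_eta, chart_zero]
      rw [hcosh, hcos]
      field_simp
    · simp only [Fin.mk_one, chart_one]
      rw [hcosh, hsin]
      field_simp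
    · simp only [Fin.reduceFinMk, chart_two]
      rw [Real.tanh_eq_sinh_div_cosh, hcosh, Real.sinh_arsinh]
      field_simp
  · have h2 : v 2 ^ 2 = 1 := by nlinarith [sq_nonneg (v 0), sq_nonneg (v 1)]
    have h3 : v 0 = 0 := by
      have : v 0 ^ 2 = 0 := by nlinarith [sq_nonneg (v 0), sq_nonneg (v 1)]
      exact pow_eq_zero_iff (two_ne_zero) |>.mp this
    have h4 : v 1 = 0 := by
      have : v 1 ^ 2 = 0 := by nlinarith [sq_nonneg (v 0), sq_nonneg (v 1)]
      exact pow_eq_zero_iff (two_ne_zero) |>.mp this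
    rcases mul_self_eq_one_iff.mp ((sq (v 2)).symm.trans h2) with h | h
    · left
      ext i
      fin_cases i
      · exact h3
      · exact h4
      · exact h
    · right; left
      ext i
      fin_cases i
      · exact h3
      · exact h4
      · exact h

end Pool.Agent.H24.Sphere
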