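import Pool.Agent.H24.SturmCount

set_option autoImplicit false

/-!
# Zero count for sums of bounded solutions on the line
-/

namespace Pool.Agent.H24.Sturm

open Set Filter Topology

/-- A function whose derivative is at least `s > 0` on a half-line is not bounded above. -/
lemma not_bounded_of_deriv_ge {P : ℝ → ℝ} (hP : Differentiable ℝ P) {ξ s B : ℝ} (hs : 0 < s)
    (h : ∀ x, ξ ≤ x → s ≤ deriv P x) (hB : ∀ x, ξ ≤ x → P x ≤ B) : False := by
  have h1 : ∀ x, ξ ≤ x → s * (x - ξ) ≤ P x - P ξ := by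
    intro x hx
    exact (convex_Icc ξ x).mul_sub_le_image_sub_of_le_deriv hP.continuous.continuousOn
      hP.differentiableOn (fun y hy => by
        rw [interior_Icc] at hy
        exact h y hy.1.le) ξ (left_mem_Icc.mpr hx) x (right_mem_Icc.mpr hx) hx
  set x := ξ + (|B - P ξ| + 1) / s with hx
  have hx1 : ξ ≤ x := by
    have : 0 ≤ (|B - P ξ| + 1) / s := by positivity
    linarith
  have h2 := h1 x hx1
  have h3 := hB x hx1
  have h4 : s * (x - ξ) = |B - P ξ| + 1 := by
    rw [hx]; field_simp; ring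
  have := le_abs_self (B - P ξ)
  linarith

/-- A bounded solution of `f f'' ≥ 0` on a half-line which vanishes at the end point is zero. -/
lemma zero_of_bounded_right {f : ℝ → ℝ} (h1 : Differentiable ℝ f)
    (h2 : Differentiable ℝ (deriv f)) {x0 B : ℝ} (h0 : f x0 = 0)
    (hB : ∀ x, x0 ≤ x → |f x| ≤ B) (h : ∀ x, x0 < x → 0 ≤ f x * deriv (deriv f) x) :
    ∀ x, x0 ≤ x → f x = 0 := by
  intro x1 hx1
  by_contra hne
  have hlt : x0 < x1 := by
    refine lt_of_le_of_ne hx1 ?_
    rintro rfl
    exact hne h0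
  set P : ℝ → ℝ := fun x => f x * f x with hP
  have hPd : ∀ x, HasDerivAt P (2 * (f x * deriv f x)) x := by
    intro x
    have := (h1 x).hasDerivAt.mul (h1 x).hasDerivAt
    exact this.congr_deriv (by ring)
  have hPdiff : Differentiable ℝ P := fun x => (hPd x).differentiableAt
  have hPder : deriv P = fun x => 2 * (f x * deriv f x) := funext fun x => (hPd x).deriv
  have hP2 : ∀ x, HasDerivAt (fun x => 2 * (f x * deriv f x))
      (2 * (deriv f x * deriv f x + f x * deriv (deriv f) x)) x := by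
    intro x
    exact ((h1 x).hasDerivAt.mul (h2 x).hasDerivAt).const_mul 2
  obtain ⟨ξ, hξ, hξ2⟩ := exists_deriv_eq_slope P hlt hPdiff.continuous.continuousOn
    hPdiff.differentiableOn
  have hs : 0 < deriv P ξ := by
    rw [hξ2]
    apply div_pos _ (by linarith)
    simp only [hP, h0]
    have : 0 < f x1 * f x1 := mul_self_pos.mpr hne
    linarith
  have hmono : MonotoneOn (deriv P) (Ioi x0) := by
    rw [hPder]
    apply monotoneOn_of_deriv_nonneg (convex_Ioi x0)
    · exact fun x _ => (hP2 x).continuousAt.continuousWithinAt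
    · exact fun x _ => (hP2 x).differentiableAt.differentiableWithinAt
    · intro x hx
      rw [interior_Ioi] at hx
      rw [(hP2 x).deriv]
      have := h x hx
      nlinarith [mul_self_nonneg (deriv f x)]
  apply not_bounded_of_deriv_ge hPdiff hs (ξ := ξ) (B := B * B)
  · intro x hx
    exact hmono hξ.1 (hξ.1.trans_le hx) hx
  · intro x hx
    have := hB x (hξ.1.le.trans hx)
    simp only [hP]
    rw [← abs_mul_abs_self]
    exact mul_le_mul this this (abs_nonneg _) ((abs_nonneg _).trans this)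

lemma reflect_diff {f : ℝ → ℝ} (h1 : Differentiable ℝ f) :
    Differentiable ℝ (fun s => f (-s)) := h1.comp differentiable_neg

lemma reflect_diff2 {f : ℝ → ℝ} (h2 : Differentiable ℝ (deriv f)) :
    Differentiable ℝ (deriv fun s => f (-s)) := by
  rw [deriv_reflect]
  exact (h2.comp differentiable_neg).neg

lemma zero_of_bounded_left {f : ℝ → ℝ} (h1 : Differentiable ℝ f)
    (h2 : Differentiable ℝ (deriv f)) {x0 B : ℝ} (h0 : f x0 = 0)
    (hB : ∀ x, x ≤ x0 → |f x| ≤ B) (h : ∀ x, x < x0 → 0 ≤ f x * deriv (deriv f) x) :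
    ∀ x, x ≤ x0 → f x = 0 := by
  intro x hx
  have := zero_of_bounded_right (f := fun s => f (-s)) (reflect_diff h1) (reflect_diff2 h2)
    (x0 := -x0) (B := B) (by simpa using h0) (fun y hy => hB _ (by linarith))
    (fun y hy => by
      rw [deriv_deriv_reflect]
      exact h (-y) (by linarith)) (-x) (by linarith)
  simpa using this

/-- Zeros, as an increasing sequence. -/
def HasZeros (f : ℝ → ℝ) (N : ℕ) : Prop :=
  ∃ x : ℕ → ℝ, (∀ i, i + 1 < N → x i < x (i + 1)) ∧ ∀ i, i < N → f (x i) = 0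

lemma HasZeros.of_finset {f : ℝ → ℝ} (s : Finset ℝ) (hs : ∀ x ∈ s, f x = 0) :
    HasZeros f s.card := by
  rcases Nat.eq_zero_or_pos s.card with h0 | h0
  · rw [h0]
    exact ⟨fun _ => 0, by omega, by omega⟩
  set e := s.orderEmbOfFin rfl with he
  refine ⟨fun i => if h : i < s.card then e ⟨i, h⟩ else 0, ?_, ?_⟩
  · intro i hi
    simp only
    rw [dif_pos (by omega), dif_pos hi]
    apply e.strictMono
    simp
  · intro i hi
    simp only
    rw [dif_pos hi]
    exact hs _ (Finset.orderEmbOfFin_mem _ _ _)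

/-- The operator `f ↦ f'' - K f` does not decrease the number of zeros of a bounded function. -/
lemma HasZeros.step {f K : ℝ → ℝ} {N : ℕ} (h : HasZeros f N) (h1 : Differentiable ℝ f)
    (h2 : Differentiable ℝ (deriv f)) (hc : Continuous (deriv (deriv f))) (hKc : Continuous K)
    (hK : ∀ x, 0 < K x) {B : ℝ} (hB : ∀ x, |f x| ≤ B)
    (hne : ∀ a b, a < b → ∃ x ∈ Ioo a b, f x ≠ 0) :
    HasZeros (fun x => deriv (deriv f) x - K x * f x) N := by
  obtain ⟨x, hx, hfx⟩ := h
  rcases Nat.eq_zero_or_pos N with h0 | hN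
  · subst h0
    exact ⟨fun _ => 0, by omega, by omega⟩
  -- the point to the right of the last zero
  have hright : ∀ x0, f x0 = 0 → ∃ a, x0 < a ∧ f a * (deriv (deriv f) a - K a * f a) < 0 := by
    intro x0 hx0
    by_contra hcon
    push Not at hcon
    obtain ⟨y, hy, hfy⟩ := hne x0 (x0 + 1) (by linarith)
    apply hfy
    apply zero_of_bounded_right h1 h2 hx0 (fun x _ => hB x) _ y hy.1.le
    intro z hz
    have := hcon z hz
    have hk : 0 ≤ K z * (f z * f z) := mul_nonneg (hK z).le (mul_self_nonneg _)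
    nlinarith
  have hleft : ∀ x0, f x0 = 0 → ∃ a, a < x0 ∧ f a * (deriv (deriv f) a - K a * f a) < 0 := by
    intro x0 hx0
    by_contra hcon
    push Not at hcon
    obtain ⟨y, hy, hfy⟩ := hne (x0 - 1) x0 (by linarith)
    apply hfy
    apply zero_of_bounded_left h1 h2 hx0 (fun x _ => hB x) _ y hy.2.le
    intro z hz
    have := hcon z hz
    have hk : 0 ≤ K z * (f z * f z) := mul_nonneg (hK z).le (mul_self_nonneg _)
    nlinarith
  -- the sequence of test points
  have ha : ∀ i, i ≤ N → ∃ a, (i = 0 ∨ x (i - 1) < a) ∧ (i = N ∨ a < x i) ∧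
      f a * (deriv (deriv f) a - K a * f a) < 0 := by
    intro i hi
    rcases Nat.eq_zero_or_pos i with h0 | h0
    · subst h0
      obtain ⟨a, ha, ha'⟩ := hleft (x 0) (hfx 0 hN)
      exact ⟨a, Or.inl rfl, Or.inr ha, ha'⟩
    rcases hi.lt_or_eq with h3 | h3
    · have hlt : x (i - 1) < x i := by
        have := hx (i - 1) (by omega)
        rwa [Nat.sub_add_cancel h0] at this
      obtain ⟨a, ha, ha'⟩ := exists_opposite h1 hK hlt (hfx _ (by omega)) (hfx _ h3)
        (hne _ _ hlt)
      exact ⟨a, Or.inr ha.1, Or.inr ha.2, ha'⟩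
    · obtain ⟨a, ha, ha'⟩ := hright (x (N - 1)) (hfx _ (by omega))
      refine ⟨a, Or.inr ?_, Or.inl h3, ha'⟩
      rw [h3]; exact ha
  choose! a ha1 ha2 ha3 using ha
  have hz : ∀ i, i < N → ∃ y ∈ Ioo (a i) (a (i + 1)), deriv (deriv f) y - K y * f y = 0 := by
    intro i hi
    have e1 : a i < x i := (ha2 i hi.le).resolve_left (by omega)
    have e2 : x i < a (i + 1) := by
      have := (ha1 (i + 1) hi).resolve_left (by omega)
      simpa using this
    exact exists_zero_between h1 hc hKc hK e1 e2 (hfx i hi) (ha3 i hi.le) (ha3 (i + 1) hi)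
  choose! z hz1 hz2 using hz
  refine ⟨z, ?_, hz2⟩
  intro i hi
  exact (hz1 i (by omega)).2.trans (hz1 (i + 1) hi).1

end Pool.Agent.H24.Sturm
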