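import Pool.Agent.H24.SturmTail

set_option autoImplicit false

/-!
# Zero count for sums of bounded solutions of `F'' = (μ - V) F` on the line
-/

namespace Pool.Agent.H24.Sturm

open Set Filter Topology

lemma neg_deriv2 (g : ℝ → ℝ) : deriv (deriv fun s => -g s) = fun s => -deriv (deriv g) s := by
  rw [deriv_neg_fun, deriv_neg_fun]

lemma quarter_aux {g : ℝ → ℝ} (h1 : Differentiable ℝ g) (h2 : Differentiable ℝ (deriv g))
    {z Γ B : ℝ} (hΓ : Γ * Real.exp (-2 * z) ≤ 1) (hg0 : g z = 0) (hB0 : 0 ≤ B)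
    (hB : ∀ x, z ≤ x → |g x| ≤ B)
    (hode : ∀ x, z ≤ x → |deriv (deriv g) x| ≤ Γ * Real.exp (-2 * x) * B) :
    ∀ x, z ≤ x → g x ≤ B / 4 := by
  have hexp : ∀ x : ℝ, HasDerivAt (fun x => Real.exp (-2 * x)) (-2 * Real.exp (-2 * x)) x := by
    intro x
    have := ((hasDerivAt_id x).const_mul (-2 : ℝ)).exp
    refine this.congr_deriv ?_
    simp
    ring
  -- the derivative decays
  have hd : ∀ x, z ≤ x → deriv g x ≤ B * Γ / 2 * Real.exp (-2 * x) := by
    intro x1 hx1
    by_contra hcon
    push Not at hcon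
    set H : ℝ → ℝ := fun y => deriv g y - B * Γ / 2 * Real.exp (-2 * y) with hH
    have hHd : ∀ y, HasDerivAt H (deriv (deriv g) y - B * Γ / 2 * (-2 * Real.exp (-2 * y))) y :=
      fun y => (h2 y).hasDerivAt.sub ((hexp y).const_mul _)
    have hmono : MonotoneOn H (Ici z) := by
      apply monotoneOn_of_deriv_nonneg (convex_Ici z)
      · exact fun y _ => (hHd y).continuousAt.continuousWithinAt
      · exact fun y _ => (hHd y).differentiableAt.differentiableWithinAt
      · intro y hy
        rw [interior_Ici] at hy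
        rw [(hHd y).deriv]
        have := (abs_le.mp (hode y (le_of_lt hy))).1
        nlinarith
    apply not_bounded_of_deriv_ge h1 (ξ := x1)
      (s := deriv g x1 - B * Γ / 2 * Real.exp (-2 * x1)) (B := B) (by linarith)
    · intro y hy
      have h3 : H x1 ≤ H y := hmono hx1 (hx1.trans hy) hy
      simp only [hH] at h3
      have h4 : 0 ≤ B * Γ / 2 * Real.exp (-2 * y) := by
        have h5 := (abs_nonneg _).trans (hode y (hx1.trans hy))
        nlinarith
      linarith
    · intro y hy
      exact (le_abs_self _).trans (hB y (hx1.trans hy))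
  intro x hx
  set G : ℝ → ℝ := fun y => g y + B * Γ / 4 * Real.exp (-2 * y) with hG
  have hGd : ∀ y, HasDerivAt G (deriv g y + B * Γ / 4 * (-2 * Real.exp (-2 * y))) y :=
    fun y => (h1 y).hasDerivAt.add ((hexp y).const_mul _)
  have hanti : AntitoneOn G (Ici z) := by
    apply antitoneOn_of_deriv_nonpos (convex_Ici z)
    · exact fun y _ => (hGd y).continuousAt.continuousWithinAt
    · exact fun y _ => (hGd y).differentiableAt.differentiableWithinAt
    · intro y hy
      rw [interior_Ici] at hy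
      rw [(hGd y).deriv]
      have := hd y (le_of_lt hy)
      linarith
  have h3 : G x ≤ G z := hanti (mem_Ici.mpr le_rfl) (mem_Ici.mpr hx) hx
  simp only [hG, hg0] at h3
  have h4 : 0 ≤ B * Γ / 4 * Real.exp (-2 * x) := by
    have h5 := (abs_nonneg _).trans (hode x hx)
    nlinarith
  have h5 : B * Γ / 4 * Real.exp (-2 * z) ≤ B / 4 := by
    have : B * (Γ * Real.exp (-2 * z)) ≤ B * 1 := mul_le_mul_of_nonneg_left hΓ hB0
    linarith
  linarith

/-- A bounded solution on a half-line where `V` is small vanishes identically if it has a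
zero. -/
lemma tail_zero {g V : ℝ → ℝ} (h1 : Differentiable ℝ g) (h2 : Differentiable ℝ (deriv g))
    {z Γ B μ : ℝ} (hΓ : Γ * Real.exp (-2 * z) ≤ 1) (hg0 : g z = 0)
    (hB : ∀ x, z ≤ x → |g x| ≤ B) (hV0 : ∀ x, 0 ≤ V x)
    (hV : ∀ x, z ≤ x → V x ≤ Γ * Real.exp (-2 * x)) (hμ : μ = 0 ∨ 1 ≤ μ)
    (hode : ∀ x, z ≤ x → deriv (deriv g) x = (μ - V x) * g x) :
    ∀ x, z ≤ x → g x = 0 := by
  have hexp : ∀ x, z ≤ x → Γ * Real.exp (-2 * x) ≤ 1 := by
    intro x hx
    have h3 : Real.exp (-2 * x) ≤ Real.exp (-2 * z) := Real.exp_le_exp.mpr (by linarith)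
    rcases le_total 0 Γ with h | h
    · exact (mul_le_mul_of_nonneg_left h3 h).trans hΓ
    · have := mul_nonpos_of_nonpos_of_nonneg h (Real.exp_pos (-2 * x)).le
      linarith
  rcases hμ with hμ | hμ
  · subst hμ
    have hB0 : 0 ≤ B := (abs_nonneg _).trans (hB z le_rfl)
    have hn : ∀ n : ℕ, ∀ x, z ≤ x → |g x| ≤ B / 4 ^ n := by
      intro n
      induction n with
      | zero => simpa using hB
      | succ n ih =>
        have hodeb : ∀ x, z ≤ x → |deriv (deriv g) x| ≤ Γ * Real.exp (-2 * x) * (B / 4 ^ n) := by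
          intro x hx
          rw [hode x hx, zero_sub, abs_mul, abs_neg, abs_of_nonneg (hV0 x)]
          exact mul_le_mul (hV x hx) (ih x hx) (abs_nonneg _) ((hV0 x).trans (hV x hx))
        have hBn : 0 ≤ B / 4 ^ n := by positivity
        intro x hx
        have e : B / 4 ^ (n + 1) = B / 4 ^ n / 4 := by rw [pow_succ]; field_simp
        rw [e]
        apply abs_le'.mpr
        constructor
        · exact quarter_aux h1 h2 hΓ hg0 hBn ih hodeb x hx
        · apply quarter_aux (g := fun s => -g s) h1.neg _ hΓ (by simp [hg0]) hBn _ _ x hx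
          · rw [deriv_neg_fun]; exact h2.neg
          · intro x hx; rw [abs_neg]; exact ih x hx
          · intro x hx; rw [neg_deriv2, abs_neg]; exact hodeb x hx
    intro x hx
    have h3 : Tendsto (fun n : ℕ => B / (4 : ℝ) ^ n) atTop (𝓝 0) := by
      have := (tendsto_pow_atTop_nhds_zero_of_lt_one (r := (1 / 4 : ℝ)) (by norm_num)
        (by norm_num)).const_mul B
      rw [mul_zero] at this
      refine this.congr fun n => ?_
      rw [one_div, inv_pow, div_eq_mul_inv]
    exact abs_eq_zero.mp (le_antisymm (ge_of_tendsto' h3 fun n => hn n x hx) (abs_nonneg _))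
  · apply zero_of_bounded_right h1 h2 hg0 hB
    intro x hx
    rw [hode x hx.le]
    have h3 := (hV x hx.le).trans (hexp x hx.le)
    have h4 : 0 ≤ (μ - V x) * (g x * g x) := mul_nonneg (by linarith) (mul_self_nonneg _)
    linarith

/-- A bounded function which is concave where it is negative is nonnegative. -/
lemma nonneg_of_concave {D : ℝ → ℝ} (h1 : Differentiable ℝ D) (h2 : Differentiable ℝ (deriv D))
    {a B : ℝ} (hB : ∀ x, a ≤ x → |D x| ≤ B) (h0 : 0 ≤ D a)
    (hcc : ∀ x, a ≤ x → D x < 0 → deriv (deriv D) x ≤ 0) : ∀ x, a ≤ x → 0 ≤ D x := by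
  intro x1 hx1
  by_contra hcon
  push Not at hcon
  -- the last zero before `x1`
  obtain ⟨x0, hx0, hx0max⟩ := ((isCompact_Icc (a := a) (b := x1)).inter_right
    (isClosed_le (continuous_const (y := (0 : ℝ))) h1.continuous)).exists_isGreatest
    ⟨a, left_mem_Icc.mpr hx1, h0⟩
  have hx01 : x0 ∈ Icc a x1 := hx0.1
  have hx02 : 0 ≤ D x0 := hx0.2
  have hlt : x0 < x1 := by
    refine lt_of_le_of_ne hx01.2 ?_
    rintro rfl
    linarith
  obtain ⟨ξ, hξ, hξ2⟩ := exists_deriv_eq_slope D hlt h1.continuous.continuousOn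
    h1.differentiableOn
  have hs : deriv D ξ < 0 := by
    rw [hξ2]
    exact div_neg_of_neg_of_pos (by linarith) (by linarith)
  have hneg0 : ∀ x ∈ Ioc x0 x1, D x < 0 := by
    intro x hx
    by_contra hc
    push Not at hc
    have : x ≤ x0 := hx0max ⟨⟨hx01.1.trans hx.1.le, hx.2⟩, hc⟩
    linarith [hx.1]
  have haξ : a ≤ ξ := hx01.1.trans hξ.1.le
  have hneg : ∀ x, ξ ≤ x → D x < 0 := by
    intro x2 hx2
    by_contra hc
    push Not at hc
    -- the first zero after `ξ`
    obtain ⟨y, hy, hymin⟩ := ((isCompact_Icc (a := ξ) (b := x2)).inter_right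
      (isClosed_le (continuous_const (y := (0 : ℝ))) h1.continuous)).exists_isLeast
      ⟨x2, right_mem_Icc.mpr hx2, hc⟩
    have hy1 : y ∈ Icc ξ x2 := hy.1
    have hy2 : 0 ≤ D y := hy.2
    have hneg1 : ∀ x ∈ Ico ξ y, D x < 0 := by
      intro x hx
      by_contra hc
      push Not at hc
      have : y ≤ x := hymin ⟨⟨hx.1, hx.2.le.trans hy1.2⟩, hc⟩
      linarith [hx.2]
    have hanti : AntitoneOn (deriv D) (Icc ξ y) := by
      apply antitoneOn_of_deriv_nonpos (convex_Icc ξ y) h2.continuous.continuousOn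
        h2.differentiableOn
      intro x hx
      rw [interior_Icc] at hx
      exact hcc x (haξ.trans hx.1.le) (hneg1 x ⟨hx.1.le, hx.2⟩)
    have hanti2 : AntitoneOn D (Icc ξ y) := by
      apply antitoneOn_of_deriv_nonpos (convex_Icc ξ y) h1.continuous.continuousOn
        h1.differentiableOn
      intro x hx
      rw [interior_Icc] at hx
      have := hanti (left_mem_Icc.mpr hy1.1) ⟨hx.1.le, hx.2.le⟩ hx.1.le
      linarith
    have := hanti2 (left_mem_Icc.mpr hy1.1) (right_mem_Icc.mpr hy1.1) hy1.1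
    have := hneg0 ξ ⟨hξ.1, hξ.2.le⟩
    linarith
  have hanti : AntitoneOn (deriv D) (Ici ξ) := by
    apply antitoneOn_of_deriv_nonpos (convex_Ici ξ) h2.continuous.continuousOn
      h2.differentiableOn
    intro x hx
    rw [interior_Ici] at hx
    exact hcc x (haξ.trans (le_of_lt hx)) (hneg x (le_of_lt hx))
  apply not_bounded_of_deriv_ge (P := fun s => -D s) h1.neg (ξ := ξ) (s := -deriv D ξ) (B := B)
    (by linarith)
  · intro x hx
    rw [deriv_neg_fun]
    have := hanti (mem_Ici.mpr le_rfl) (mem_Ici.mpr hx) hx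
    simp only
    linarith
  · intro x hx
    have := (abs_le.mp (hB x (haξ.trans hx))).1
    linarith

/-- Comparison of two bounded solutions in the region where `V ≤ 1`. -/
lemma tail_ratio {g F V : ℝ → ℝ} (hg1 : Differentiable ℝ g) (hg2 : Differentiable ℝ (deriv g))
    (hF1 : Differentiable ℝ F) (hF2 : Differentiable ℝ (deriv F)) {a μ0 μ Bg BF : ℝ}
    (hBg : ∀ x, a ≤ x → |g x| ≤ Bg) (hBF : ∀ x, a ≤ x → |F x| ≤ BF)
    (hV1 : ∀ x, a ≤ x → V x ≤ 1) (hμ : 1 ≤ μ) (hμ0 : μ0 ≤ μ)
    (hgo : ∀ x, a ≤ x → deriv (deriv g) x = (μ0 - V x) * g x)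
    (hFo : ∀ x, a ≤ x → deriv (deriv F) x = (μ - V x) * F x) (hne : ∀ x, a ≤ x → g x ≠ 0) :
    ∀ x, a ≤ x → |F x| ≤ |F a| / |g a| * |g x| := by
  -- the case `g a > 0` and one sign of `F`
  have main : ∀ g F : ℝ → ℝ, Differentiable ℝ g → Differentiable ℝ (deriv g) →
      Differentiable ℝ F → Differentiable ℝ (deriv F) → (∀ x, a ≤ x → |g x| ≤ Bg) →
      (∀ x, a ≤ x → |F x| ≤ BF) → (∀ x, a ≤ x → deriv (deriv g) x = (μ0 - V x) * g x) →
      (∀ x, a ≤ x → deriv (deriv F) x = (μ - V x) * F x) → (∀ x, a ≤ x → g x ≠ 0) →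
      0 < g a → ∀ x, a ≤ x → 0 < g x ∧ F x ≤ |F a| / |g a| * |g x| := by
    intro g F hg1 hg2 hF1 hF2 hBg hBF hgo hFo hne hga x hx
    have hpos : ∀ x, a ≤ x → 0 < g x := by
      intro x hx
      by_contra hcon
      push Not at hcon
      obtain ⟨y, hy, hgy⟩ := intermediate_value_Icc' hx hg1.continuous.continuousOn
        (show (0 : ℝ) ∈ Icc (g x) (g a) from ⟨hcon, hga.le⟩)
      exact hne y hy.1 hgy
    refine ⟨hpos x hx, ?_⟩
    set C := |F a| / |g a| with hC
    have hC0 : 0 ≤ C := by positivity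
    have hCa : C * g a = |F a| := by
      rw [hC, abs_of_pos hga]; field_simp
    set D : ℝ → ℝ := fun s => C * g s - F s with hD
    have hD1 : deriv D = fun s => C * deriv g s - deriv F s := by
      funext s
      exact (((hg1 s).hasDerivAt.const_mul C).sub (hF1 s).hasDerivAt).deriv
    have hD2 : deriv (deriv D) = fun s => C * deriv (deriv g) s - deriv (deriv F) s := by
      rw [hD1]
      funext s
      exact (((hg2 s).hasDerivAt.const_mul C).sub (hF2 s).hasDerivAt).deriv
    have hDnn := nonneg_of_concave (D := D) ((hg1.const_mul C).sub hF1)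
      (by rw [hD1]; exact (hg2.const_mul C).sub hF2) (a := a) (B := C * Bg + BF)
      (by
        intro s hs
        simp only [hD]
        refine (abs_sub _ _).trans ?_
        rw [abs_mul, abs_of_nonneg hC0]
        exact add_le_add (mul_le_mul_of_nonneg_left (hBg s hs) hC0) (hBF s hs))
      (by
        simp only [hD]
        rw [hCa]
        linarith [le_abs_self (F a)])
      (by
        intro s hs hDs
        rw [hD2]
        simp only
        rw [hgo s hs, hFo s hs]
        simp only [hD] at hDs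
        have e1 := hV1 s hs
        have e2 : (μ - V s) * (C * g s - F s) ≤ 0 :=
          mul_nonpos_of_nonneg_of_nonpos (by linarith) hDs.le
        have e3 : 0 ≤ (μ - μ0) * (C * g s) :=
          mul_nonneg (by linarith) (mul_nonneg hC0 (hpos s hs).le)
        nlinarith) x hx
    simp only [hD] at hDnn
    rw [abs_of_pos (hpos x hx)]
    linarith
  have two : ∀ g : ℝ → ℝ, Differentiable ℝ g → Differentiable ℝ (deriv g) →
      (∀ x, a ≤ x → |g x| ≤ Bg) → (∀ x, a ≤ x → deriv (deriv g) x = (μ0 - V x) * g x) →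
      (∀ x, a ≤ x → g x ≠ 0) → 0 < g a → ∀ x, a ≤ x → |F x| ≤ |F a| / |g a| * |g x| := by
    intro g hg1 hg2 hBg hgo hne hga x hx
    apply abs_le'.mpr
    constructor
    · exact (main g F hg1 hg2 hF1 hF2 hBg hBF hgo hFo hne hga x hx).2
    · have := (main g (fun s => -F s) hg1 hg2 hF1.neg (by rw [deriv_neg_fun]; exact hF2.neg) hBg
        (fun x hx => by rw [abs_neg]; exact hBF x hx) hgo
        (fun x hx => by rw [neg_deriv2]; simp only; rw [hFo x hx]; ring) hne hga x hx).2
      simpa only [abs_neg] using this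
  rcases lt_or_gt_of_ne (hne a le_rfl) with h | h
  · intro x hx
    have := two (fun s => -g s) hg1.neg (by rw [deriv_neg_fun]; exact hg2.neg)
      (fun x hx => by rw [abs_neg]; exact hBg x hx)
      (fun x hx => by rw [neg_deriv2]; simp only; rw [hgo x hx]; ring)
      (fun x hx => neg_ne_zero.mpr (hne x hx)) (by linarith) x hx
    simpa only [abs_neg] using this
  · exact two g hg1 hg2 hBg hgo hne h

end Pool.Agent.H24.Sturm
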