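import Pool.Agent.H24.SturmLine

set_option autoImplicit false

/-!
# Gap and tail estimates for bounded solutions of `g'' = (μ - V) g` on the line
-/

namespace Pool.Agent.H24.Sturm

open Set Filter Topology

/-- Gap between two zeros of a function `C¹` close to a function `g` with `g g'' ≥ - m g²`. -/
lemma gap_line_aux {g : ℝ → ℝ} {m η z1 z2 : ℝ} (hm : 0 ≤ m) (hη : 0 < η)
    (h1 : Differentiable ℝ g) (h2 : Differentiable ℝ (deriv g))
    (hode : ∀ x ∈ Icc z1 z2, -m * (g x * g x) ≤ g x * deriv (deriv g) x)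
    (hz : z1 < z2) (hg1 : |g z1| ≤ η / 8) (hg2 : |g z2| ≤ η / 8)
    {c : ℝ} (hc : c ∈ Icc z1 z2) (hM : ∀ x ∈ Icc z1 z2, |g x| ≤ g c)
    (hMbig : 7 * η / 8 ≤ g c) : 6 / 7 ≤ m * (z2 - z1) ^ 2 := by
  have hcI : c ∈ Ioo z1 z2 := by
    refine ⟨lt_of_le_of_ne hc.1 ?_, lt_of_le_of_ne hc.2 ?_⟩
    · rintro rfl
      have := le_abs_self (g z1)
      linarith
    · rintro rfl
      have := le_abs_self (g c)
      linarith
  have hgc : 0 < g c := by linarith
  have hext : IsLocalMax g c := by
    filter_upwards [Icc_mem_nhds hcI.1 hcI.2] with x hx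
    exact (le_abs_self _).trans (hM x hx)
  have hder0 : deriv g c = 0 := hext.deriv_eq_zero
  -- the last point before `c` where `g ≤ η / 8`
  obtain ⟨zs, hzs, hzsmax⟩ := ((isCompact_Icc (a := z1) (b := c)).inter_right
    (isClosed_le h1.continuous (continuous_const (y := η / 8)))).exists_isGreatest
    ⟨z1, left_mem_Icc.mpr hc.1, (le_abs_self _).trans hg1⟩
  have hzs1 : zs ∈ Icc z1 c := hzs.1
  have hzs2 : g zs ≤ η / 8 := hzs.2
  have hpos : ∀ x ∈ Ioc zs c, 0 < g x := by
    intro x hx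
    by_contra hcon
    push Not at hcon
    have : x ≤ zs := hzsmax ⟨⟨hzs1.1.trans hx.1.le, hx.2⟩, by
      simp only [mem_ofPred_eq]; linarith⟩
    linarith [hx.1]
  have hdd : ∀ x ∈ Ioo zs c, -(m * g c) ≤ deriv (deriv g) x := by
    intro x hx
    have hgx := hpos x ⟨hx.1, hx.2.le⟩
    have h3 := hode x ⟨hzs1.1.trans hx.1.le, hx.2.le.trans hc.2⟩
    have h4 : g x ≤ g c := (le_abs_self _).trans
      (hM x ⟨hzs1.1.trans hx.1.le, hx.2.le.trans hc.2⟩)
    have h5 : -m * g x ≤ deriv (deriv g) x := by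
      by_contra hcon
      push Not at hcon
      have := mul_lt_mul_of_pos_left hcon hgx
      nlinarith
    nlinarith
  have hd1 : ∀ x ∈ Icc zs c, deriv g x ≤ m * g c * (c - zs) := by
    intro x hx
    have := (convex_Icc zs c).mul_sub_le_image_sub_of_le_deriv h2.continuous.continuousOn
      h2.differentiableOn (C := -(m * g c)) (fun y hy => by
        rw [interior_Icc] at hy
        exact hdd y hy) x hx c (right_mem_Icc.mpr hzs1.2) hx.2
    rw [hder0] at this
    have h6 : m * g c * (c - x) ≤ m * g c * (c - zs) :=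
      mul_le_mul_of_nonneg_left (by linarith [hx.1]) (by positivity)
    linarith
  have hd2 := (convex_Icc zs c).image_sub_le_mul_sub_of_deriv_le h1.continuous.continuousOn
    h1.differentiableOn (C := m * g c * (c - zs)) (fun y hy => by
      rw [interior_Icc] at hy
      exact hd1 y ⟨hy.1.le, hy.2.le⟩) zs (left_mem_Icc.mpr hzs1.2) c
      (right_mem_Icc.mpr hzs1.2) hzs1.2
  have h7 : c - zs ≤ z2 - z1 := by linarith [hzs1.1, hc.2]
  have h8 : 0 ≤ c - zs := by linarith [hzs1.2]
  have h9 : 6 / 7 * g c ≤ m * g c * (c - zs) ^ 2 := by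
    have : 6 / 7 * g c ≤ g c - η / 8 := by linarith
    nlinarith
  have h10 : 6 / 7 ≤ m * (c - zs) ^ 2 := by
    by_contra hcon
    push Not at hcon
    have := mul_lt_mul_of_pos_right hcon hgc
    nlinarith
  have h11 : (c - zs) ^ 2 ≤ (z2 - z1) ^ 2 := pow_le_pow_left₀ h8 h7 2
  nlinarith

lemma gap_line {f g : ℝ → ℝ} {m η z1 z2 : ℝ} (hm : 0 ≤ m) (hη : 0 < η)
    (h1 : Differentiable ℝ g) (h2 : Differentiable ℝ (deriv g))
    (hode : ∀ x ∈ Icc z1 z2, -m * (g x * g x) ≤ g x * deriv (deriv g) x)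
    (hlow : ∀ x ∈ Icc z1 z2, η ≤ |g x| + |deriv g x|) (hf : Differentiable ℝ f)
    (hfg : ∀ x ∈ Icc z1 z2, |f x - g x| ≤ η / 8)
    (hfg' : ∀ x ∈ Icc z1 z2, |deriv f x - deriv g x| ≤ η / 8)
    (hz : z1 < z2) (hf1 : f z1 = 0) (hf2 : f z2 = 0) : 6 / 7 ≤ m * (z2 - z1) ^ 2 := by
  have hg1 : |g z1| ≤ η / 8 := by
    have := hfg z1 (left_mem_Icc.mpr hz.le)
    rw [hf1, zero_sub, abs_neg] at this
    exact this
  have hg2 : |g z2| ≤ η / 8 := by
    have := hfg z2 (right_mem_Icc.mpr hz.le)
    rw [hf2, zero_sub, abs_neg] at this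
    exact this
  obtain ⟨c', hc', hfc'⟩ := exists_deriv_eq_zero hz hf.continuous.continuousOn
    (hf1.trans hf2.symm)
  have hc'I : c' ∈ Icc z1 z2 := ⟨hc'.1.le, hc'.2.le⟩
  have hgc' : 7 * η / 8 ≤ |g c'| := by
    have e1 := hfg' c' hc'I
    rw [hfc', zero_sub, abs_neg] at e1
    have := hlow c' hc'I
    linarith
  obtain ⟨c, hc, hmax⟩ := (isCompact_Icc (a := z1) (b := z2)).exists_isMaxOn
    ⟨z1, left_mem_Icc.mpr hz.le⟩ (f := fun x => |g x|) h1.continuous.abs.continuousOn
  have hM : ∀ x ∈ Icc z1 z2, |g x| ≤ |g c| := fun x hx => hmax hx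
  have hMbig : 7 * η / 8 ≤ |g c| := hgc'.trans (hM c' hc'I)
  rcases le_total 0 (g c) with h0 | h0
  · rw [abs_of_nonneg h0] at hMbig
    apply gap_line_aux hm hη h1 h2 hode hz hg1 hg2 hc _ hMbig
    intro x hx
    have := hM x hx
    rwa [abs_of_nonneg h0] at this
  · rw [abs_of_nonpos h0] at hMbig
    have e1 : deriv (fun s => -g s) = fun s => -deriv g s := deriv_neg_fun g
    have e2 : deriv (deriv fun s => -g s) = fun s => -deriv (deriv g) s := by
      rw [e1, deriv_neg_fun]
    apply gap_line_aux (g := fun s => -g s) hm hη h1.neg (by rw [e1]; exact h2.neg) _ hz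
      (by rwa [abs_neg]) (by rwa [abs_neg]) hc _ hMbig
    · intro x hx
      rw [e2]
      have := hode x hx
      simp only
      linarith
    · intro x hx
      have := hM x hx
      rw [abs_of_nonpos h0] at this
      rwa [abs_neg]

/-- A function with derivative `e^{-|x|}`. -/
noncomputable def Psi (x : ℝ) : ℝ := if 0 ≤ x then 1 - Real.exp (-x) else Real.exp x - 1

lemma Psi_lt (x : ℝ) : Psi x < 1 := by
  unfold Psi
  split_ifs with h
  · have := Real.exp_pos (-x)
    linarith
  · push Not at h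
    have := Real.exp_lt_exp.mpr h
    rw [Real.exp_zero] at this
    linarith

lemma neg_one_lt_Psi (x : ℝ) : -1 < Psi x := by
  unfold Psi
  split_ifs with h
  · have := Real.exp_le_one_iff.mpr (neg_nonpos.mpr h)
    linarith
  · have := Real.exp_pos x
    linarith

lemma Psi_diff {x y M : ℝ} (hxy : x ≤ y) (hx : |x| ≤ M) (hy : |y| ≤ M) :
    (y - x) * Real.exp (-M) ≤ Psi y - Psi x := by
  have key : ∀ s t, 0 ≤ s → s ≤ t → t ≤ M →
      (t - s) * Real.exp (-M) ≤ Real.exp (-s) - Real.exp (-t) := by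
    intro s t _ hst ht
    have h1 : Real.exp (-s) = Real.exp (-t) * Real.exp (t - s) := by
      rw [← Real.exp_add]; congr 1; ring
    have h2 := Real.add_one_le_exp (t - s)
    have h3 : Real.exp (-M) ≤ Real.exp (-t) := Real.exp_le_exp.mpr (by linarith)
    rw [h1]
    have h4 := Real.exp_pos (-t)
    have h5 : (t - s) * Real.exp (-M) ≤ (t - s) * Real.exp (-t) :=
      mul_le_mul_of_nonneg_left h3 (by linarith)
    nlinarith
  have hM := abs_le.mp hx
  have hM' := abs_le.mp hy
  unfold Psi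
  split_ifs with h1 h2 h2
  · have := key x y h2 hxy hM'.2
    linarith
  · push Not at h2
    have e1 := key 0 y le_rfl h1 hM'.2
    have e2 := key 0 (-x) le_rfl (by linarith) (by linarith)
    rw [neg_zero, Real.exp_zero] at e1 e2
    rw [neg_neg] at e2
    linarith
  · exact absurd (h2.trans hxy) h1
  · push Not at h1
    have := key (-y) (-x) (by linarith) (by linarith) (by linarith)
    rw [neg_neg, neg_neg] at this
    linarith

/-- The number of points with weighted gaps is bounded. -/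
lemma count_of_gaps {Γ a0 : ℝ} {N : ℕ} {z : ℕ → ℝ} (hΓ : 0 < Γ)
    (ha0 : 1 ≤ Real.exp (-a0) ^ 2 * Γ) (hz : ∀ i, i + 1 < N → z i < z (i + 1))
    (hza : ∀ i, i < N → |z i| ≤ a0)
    (hgap : ∀ i, i + 1 < N → ∀ m : ℝ, 0 ≤ m →
      (∀ x ∈ Icc (z i) (z (i + 1)), Γ * Real.exp (-|x|) ^ 2 ≤ m) →
      6 / 7 ≤ m * (z (i + 1) - z i) ^ 2) :
    (N : ℝ) ≤ 6 * Real.sqrt Γ + 1 := by
  rcases Nat.eq_zero_or_pos N with h0 | hN
  · subst h0
    have := Real.sqrt_nonneg Γ
    push_cast
    linarith
  set s := Real.sqrt Γ with hs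
  have hs0 : 0 < s := Real.sqrt_pos.mpr hΓ
  have hss : s ^ 2 = Γ := Real.sq_sqrt hΓ.le
  have hea : 1 ≤ Real.exp (-a0) * s := by
    have h1 : 1 ≤ (Real.exp (-a0) * s) ^ 2 := by
      rw [mul_pow, hss]; exact ha0
    by_contra hcon
    push Not at hcon
    have h2 : 0 ≤ Real.exp (-a0) * s := by positivity
    have := pow_lt_one₀ h2 hcon (two_ne_zero)
    linarith
  have he1 : Real.exp 1 < 2.72 := by
    have := Real.exp_one_lt_d9
    norm_num at this ⊢
    linarith
  have hstep : ∀ i, i + 1 < N → 1 / (3 * s) ≤ Psi (z (i + 1)) - Psi (z i) := by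
    intro i hi
    have hlt := hz i hi
    have hi1 := hza i (by omega)
    have hi2 := hza (i + 1) hi
    by_cases hδ : z (i + 1) - z i ≤ 1
    · -- short gap
      obtain ⟨t0, ht0, hmin⟩ := (isCompact_Icc (a := z i) (b := z (i + 1))).exists_isMinOn
        ⟨z i, left_mem_Icc.mpr hlt.le⟩ (f := fun x => |x|) continuous_abs.continuousOn
      have hM : ∀ x ∈ Icc (z i) (z (i + 1)), |x| ≤ |t0| + 1 := by
        intro x hx
        have h1 := abs_sub_abs_le_abs_sub x t0
        have h2 : |x - t0| ≤ 1 := by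
          rw [abs_le]
          constructor
          · linarith [hx.1, ht0.2]
          · linarith [hx.2, ht0.1]
        linarith
      have h1 := Psi_diff hlt.le (hM _ (left_mem_Icc.mpr hlt.le))
        (hM _ (right_mem_Icc.mpr hlt.le))
      have h2 := hgap i hi (Γ * Real.exp (-|t0|) ^ 2) (by positivity) (by
        intro x hx
        have : |t0| ≤ |x| := hmin hx
        gcongr)
      have h3 : Real.exp (-(|t0| + 1)) * 2.72 ≥ Real.exp (-|t0|) := by
        have : Real.exp (-|t0|) = Real.exp (-(|t0| + 1)) * Real.exp 1 := by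
          rw [← Real.exp_add]; congr 1; ring
        rw [this]
        have := Real.exp_pos (-(|t0| + 1))
        nlinarith
      set δ := z (i + 1) - z i with hδd
      set E := Real.exp (-|t0|) with hE
      have hE0 : 0 < E := Real.exp_pos _
      have hδ0 : 0 < δ := by linarith
      have h4 : 6 / 7 ≤ (s * E * δ) ^ 2 := by
        calc 6 / 7 ≤ Γ * E ^ 2 * δ ^ 2 := h2
          _ = (s * E * δ) ^ 2 := by rw [← hss]; ring
      have h5 : 0.92 ≤ s * E * δ := by
        by_contra hcon
        push Not at hcon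
        have h6 : 0 ≤ s * E * δ := by positivity
        nlinarith
      have h7 : δ * E ≤ 2.72 * (Psi (z (i + 1)) - Psi (z i)) := by nlinarith
      rw [div_le_iff₀ (by positivity)]
      nlinarith
    · -- long gap
      push Not at hδ
      have hx := abs_le.mp hi1
      have hy := abs_le.mp hi2
      have h1 := Psi_diff (show z i ≤ z (i + 1) from hlt.le) hi1 hi2
      rw [div_le_iff₀ (by positivity)]
      have h2 := Real.exp_pos (-a0)
      have h3 : Real.exp (-a0) ≤ Psi (z (i + 1)) - Psi (z i) := by nlinarith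
      nlinarith
  have hsum : ∀ n, n < N → Psi (z 0) + n * (1 / (3 * s)) ≤ Psi (z n) := by
    intro n
    induction n with
    | zero => intro _; simp
    | succ n ih =>
      intro hn
      have := ih (by omega)
      have h2 := hstep n hn
      push_cast
      linarith
  have h1 := hsum (N - 1) (by omega)
  have h2 := Psi_lt (z (N - 1))
  have h3 := neg_one_lt_Psi (z 0)
  have h4 : ((N - 1 : ℕ) : ℝ) * (1 / (3 * s)) < 2 := by linarith
  rw [mul_one_div, div_lt_iff₀ (by positivity)] at h4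
  rw [Nat.cast_sub hN] at h4
  push_cast at h4
  linarith

end Pool.Agent.H24.Sturm
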