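import Mathlib

set_option autoImplicit false

/-!
# Conformal metrics on rectangular tori, Laplace eigenfunctions, doubling index

The torus is `ℝ² / (L₁ ℤ × L₂ ℤ)`; points are represented by points of the plane `ℝ × ℝ`, and
functions on the torus by doubly periodic functions `u : ℝ → ℝ → ℝ`.  The metric is
`w(x, y) (dx² + dy²)`.
-/

namespace Pool.Agent.H24.Torus

open Set MeasureTheory

/-- `p` and `q` represent the same point of the torus `ℝ² / (L₁ ℤ × L₂ ℤ)`. -/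
def SamePoint (L1 L2 : ℝ) (p q : ℝ × ℝ) : Prop :=
  ∃ j k : ℤ, q.1 = p.1 + j * L1 ∧ q.2 = p.2 + k * L2

/-- Length of the path `γ` restricted to `[0, 1]` for the metric `w (dx² + dy²)`. -/
noncomputable def pathLength (w : ℝ → ℝ → ℝ) (γ : ℝ → ℝ × ℝ) : ℝ :=
  ∫ t in (0 : ℝ)..1,
    Real.sqrt (w (γ t).1 (γ t).2 * ((deriv γ t).1 ^ 2 + (deriv γ t).2 ^ 2))

/-- Riemannian distance on the torus: infimum of the lengths of `C¹` paths of the plane from `p`
to a representative of the class of `q`. -/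
noncomputable def torusDist (w : ℝ → ℝ → ℝ) (L1 L2 : ℝ) (p q : ℝ × ℝ) : ℝ :=
  sInf {ℓ | ∃ γ : ℝ → ℝ × ℝ, ContDiff ℝ 1 γ ∧ γ 0 = p ∧ SamePoint L1 L2 q (γ 1) ∧
    ℓ = pathLength w γ}

/-- The geodesic disc `B(p, r)` of the torus, as a doubly periodic subset of the plane. -/
def geodDisc (w : ℝ → ℝ → ℝ) (L1 L2 : ℝ) (p : ℝ × ℝ) (r : ℝ) : Set (ℝ × ℝ) :=
  {q | torusDist w L1 L2 p q < r}

/-- `sup_S |u|`. -/
noncomputable def supAbs (u : ℝ → ℝ → ℝ) (S : Set (ℝ × ℝ)) : ℝ :=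
  sSup ((fun q : ℝ × ℝ => |u q.1 q.2|) '' S)

/-- The doubling index `log₂ (sup_{B(p,2r)} |u| / sup_{B(p,r)} |u|)`. -/
noncomputable def doublingIndex (w : ℝ → ℝ → ℝ) (L1 L2 : ℝ) (u : ℝ → ℝ → ℝ) (p : ℝ × ℝ)
    (r : ℝ) : ℝ :=
  Real.logb 2 (supAbs u (geodDisc w L1 L2 p (2 * r)) / supAbs u (geodDisc w L1 L2 p r))

/-- Partial derivative in the first variable. -/
noncomputable def dx (u : ℝ → ℝ → ℝ) : ℝ → ℝ → ℝ := fun x y => deriv (fun s => u s y) x

/-- Partial derivative in the second variable. -/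
noncomputable def dy (u : ℝ → ℝ → ℝ) : ℝ → ℝ → ℝ := fun x y => deriv (fun t => u x t) y

/-- The Laplace-Beltrami operator of the metric `w (dx² + dy²)`. -/
noncomputable def laplaceBeltrami (w u : ℝ → ℝ → ℝ) : ℝ → ℝ → ℝ :=
  fun x y => (w x y)⁻¹ * (dx (dx u) x y + dy (dy u) x y)

/-- `u` is a smooth function of two variables. -/
def Smooth2 (u : ℝ → ℝ → ℝ) : Prop := ContDiff ℝ (⊤ : ℕ∞) (fun p : ℝ × ℝ => u p.1 p.2)

/-- `u` is doubly periodic, i.e. a function on the torus. -/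
def Periodic2 (L1 L2 : ℝ) (u : ℝ → ℝ → ℝ) : Prop :=
  ∀ x y, u (x + L1) y = u x y ∧ u x (y + L2) = u x y

/-- `u` is a Laplace eigenfunction with eigenvalue `lam` on the torus with the metric
`w (dx² + dy²)`: smooth, not identically zero, and `Δ u + lam u = 0`. -/
structure IsEigenfunction (w : ℝ → ℝ → ℝ) (L1 L2 lam : ℝ) (u : ℝ → ℝ → ℝ) : Prop where
  smooth : Smooth2 u
  periodic : Periodic2 L1 L2 u
  eq : ∀ x y, laplaceBeltrami w u x y + lam * u x y = 0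
  ne_zero : ∃ x y, u x y ≠ 0

/-- An admissible covering (with constants `C, C₁, C₂`) by `N` geodesic discs of radius
`C / √lam` with centres `p i`. -/
structure IsAdmissibleCovering (w : ℝ → ℝ → ℝ) (L1 L2 lam : ℝ) (u : ℝ → ℝ → ℝ)
    (C C1 C2 : ℝ) (N : ℕ) (p : Fin N → ℝ × ℝ) : Prop where
  cover : ∀ q : ℝ × ℝ, ∃ i, q ∈ geodDisc w L1 L2 (p i) (C / Real.sqrt lam)
  card_lower : C2⁻¹ * lam ≤ (N : ℝ)
  card_upper : (N : ℝ) ≤ C2 * lam
  overlap : ∀ q : ℝ × ℝ,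
    (({i | q ∈ geodDisc w L1 L2 (p i) (C / Real.sqrt lam)} : Set (Fin N)).ncard : ℝ) ≤ C1
  zero : ∀ i, u (p i).1 (p i).2 = 0

/-! ### Comparison with the Euclidean metric -/

lemma integrand_continuous {w : ℝ → ℝ → ℝ} (hw : Continuous (fun p : ℝ × ℝ => w p.1 p.2))
    {γ : ℝ → ℝ × ℝ} (hγ : ContDiff ℝ 1 γ) :
    Continuous (fun t => Real.sqrt (w (γ t).1 (γ t).2 *
      ((deriv γ t).1 ^ 2 + (deriv γ t).2 ^ 2))) := by
  have h1 : Continuous (deriv γ) := hγ.continuous_deriv_one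
  have h2 : Continuous γ := hγ.continuous
  apply Real.continuous_sqrt.comp
  apply Continuous.mul (hw.comp h2)
  exact ((continuous_fst.comp h1).pow 2).add ((continuous_snd.comp h1).pow 2)

lemma pathLength_nonneg (w : ℝ → ℝ → ℝ) (γ : ℝ → ℝ × ℝ) : 0 ≤ pathLength w γ :=
  intervalIntegral.integral_nonneg zero_le_one fun _ _ => Real.sqrt_nonneg _

/-- The straight path. -/
lemma straight_mem {w : ℝ → ℝ → ℝ} (L1 L2 : ℝ) (p q : ℝ × ℝ) :
    pathLength w (fun t => (p.1 + t * (q.1 - p.1), p.2 + t * (q.2 - p.2))) ∈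
      {ℓ | ∃ γ : ℝ → ℝ × ℝ, ContDiff ℝ 1 γ ∧ γ 0 = p ∧ SamePoint L1 L2 q (γ 1) ∧
        ℓ = pathLength w γ} := by
  refine ⟨_, ?_, ?_, ⟨0, 0, ?_, ?_⟩, rfl⟩
  · fun_prop
  · simp
  · simp
  · simp

lemma torusDist_le {w : ℝ → ℝ → ℝ} {W : ℝ} (hW : ∀ x y, w x y ≤ W)
    (hwc : Continuous (fun p : ℝ × ℝ => w p.1 p.2)) (L1 L2 : ℝ) (p q : ℝ × ℝ) :
    torusDist w L1 L2 p q ≤
      Real.sqrt W * Real.sqrt ((q.1 - p.1) ^ 2 + (q.2 - p.2) ^ 2) := by
  refine (csInf_le ⟨0, ?_⟩ (straight_mem L1 L2 p q)).trans ?_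
  · rintro _ ⟨γ, _, _, _, rfl⟩
    exact pathLength_nonneg w γ
  · unfold pathLength
    set γ : ℝ → ℝ × ℝ := fun t => (p.1 + t * (q.1 - p.1), p.2 + t * (q.2 - p.2)) with hγ
    have hder : ∀ t, deriv γ t = (q.1 - p.1, q.2 - p.2) := by
      intro t
      have h1 : HasDerivAt (fun t : ℝ => p.1 + t * (q.1 - p.1)) (q.1 - p.1) t := by
        have := ((hasDerivAt_id t).mul_const (q.1 - p.1)).const_add p.1
        exact this.congr_deriv (by simp)
      have h2 : HasDerivAt (fun t : ℝ => p.2 + t * (q.2 - p.2)) (q.2 - p.2) t := by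
        have := ((hasDerivAt_id t).mul_const (q.2 - p.2)).const_add p.2
        exact this.congr_deriv (by simp)
      exact (h1.prodMk h2).deriv
    have hcd : ContDiff ℝ 1 γ := by fun_prop
    have hle : ∀ t ∈ Icc (0 : ℝ) 1, Real.sqrt (w (γ t).1 (γ t).2 *
        ((deriv γ t).1 ^ 2 + (deriv γ t).2 ^ 2)) ≤
        Real.sqrt W * Real.sqrt ((q.1 - p.1) ^ 2 + (q.2 - p.2) ^ 2) := by
      intro t _
      rw [hder]
      rw [← Real.sqrt_mul' _ (by positivity)]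
      apply Real.sqrt_le_sqrt
      apply mul_le_mul_of_nonneg_right (hW _ _) (by positivity)
    calc ∫ t in (0 : ℝ)..1, Real.sqrt (w (γ t).1 (γ t).2 *
          ((deriv γ t).1 ^ 2 + (deriv γ t).2 ^ 2))
        ≤ ∫ _ in (0 : ℝ)..1, Real.sqrt W * Real.sqrt ((q.1 - p.1) ^ 2 + (q.2 - p.2) ^ 2) :=
          intervalIntegral.integral_mono_on zero_le_one
            ((integrand_continuous hwc hcd).intervalIntegrable _ _)
            (continuous_const.intervalIntegrable _ _) hle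
      _ = _ := by simp

lemma abs_sub_le_of_path {w : ℝ → ℝ → ℝ} {w0 : ℝ} (hw0 : 0 < w0) (hw : ∀ x y, w0 ≤ w x y)
    (hwc : Continuous (fun p : ℝ × ℝ => w p.1 p.2)) {γ : ℝ → ℝ × ℝ} (hγ : ContDiff ℝ 1 γ) :
    |(γ 1).1 - (γ 0).1| ≤ pathLength w γ / Real.sqrt w0 ∧
      |(γ 1).2 - (γ 0).2| ≤ pathLength w γ / Real.sqrt w0 := by
  have hs : 0 < Real.sqrt w0 := Real.sqrt_pos.mpr hw0
  have hdc : Continuous (deriv γ) := hγ.continuous_deriv_one
  have hd : ∀ t, HasDerivAt γ (deriv γ t) t := fun t =>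
    (hγ.differentiable one_ne_zero t).hasDerivAt
  have hint := (integrand_continuous hwc hγ).intervalIntegrable (0 : ℝ) 1 (μ := volume)
  have key : ∀ (f f' : ℝ → ℝ), (∀ t, HasDerivAt f (f' t) t) → Continuous f' →
      (∀ t, f' t ^ 2 ≤ (deriv γ t).1 ^ 2 + (deriv γ t).2 ^ 2) →
      |f 1 - f 0| ≤ pathLength w γ / Real.sqrt w0 := by
    intro f f' hf hf'c hle
    have h1 : ∫ t in (0 : ℝ)..1, f' t = f 1 - f 0 :=
      intervalIntegral.integral_eq_sub_of_hasDerivAt (fun t _ => hf t)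
        (hf'c.intervalIntegrable _ _)
    rw [← h1, le_div_iff₀ hs]
    calc |∫ t in (0 : ℝ)..1, f' t| * Real.sqrt w0
        ≤ (∫ t in (0 : ℝ)..1, |f' t|) * Real.sqrt w0 :=
          mul_le_mul_of_nonneg_right
            (intervalIntegral.abs_integral_le_integral_abs zero_le_one) hs.le
      _ = ∫ t in (0 : ℝ)..1, |f' t| * Real.sqrt w0 := by
          rw [intervalIntegral.integral_mul_const]
      _ ≤ pathLength w γ := by
          unfold pathLength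
          apply intervalIntegral.integral_mono_on zero_le_one
            ((hf'c.abs.mul continuous_const).intervalIntegrable _ _) hint
          intro t _
          show |f' t| * Real.sqrt w0 ≤ _
          rw [← Real.sqrt_sq_eq_abs, ← Real.sqrt_mul' _ hw0.le, mul_comm]
          apply Real.sqrt_le_sqrt
          apply mul_le_mul (hw _ _) (hle t) (by positivity)
          exact hw0.le.trans (hw _ _)
  constructor
  · apply key (fun t => (γ t).1) (fun t => (deriv γ t).1)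
      (fun t => (hd t).fst) (continuous_fst.comp hdc)
    intro t
    nlinarith [sq_nonneg (deriv γ t).2]
  · apply key (fun t => (γ t).2) (fun t => (deriv γ t).2)
      (fun t => (hd t).snd) (continuous_snd.comp hdc)
    intro t
    nlinarith [sq_nonneg (deriv γ t).1]

/-- A point of a geodesic disc has a representative in a Euclidean square. -/
lemma exists_rep_of_mem_geodDisc {w : ℝ → ℝ → ℝ} {w0 : ℝ} (hw0 : 0 < w0)
    (hw : ∀ x y, w0 ≤ w x y) (hwc : Continuous (fun p : ℝ × ℝ => w p.1 p.2)) {L1 L2 r : ℝ}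
    {p q : ℝ × ℝ} (hq : q ∈ geodDisc w L1 L2 p r) :
    ∃ q' : ℝ × ℝ, SamePoint L1 L2 q q' ∧ |q'.1 - p.1| < r / Real.sqrt w0 ∧
      |q'.2 - p.2| < r / Real.sqrt w0 := by
  have hs : 0 < Real.sqrt w0 := Real.sqrt_pos.mpr hw0
  obtain ⟨_, ⟨γ, hγ, h0, h1, rfl⟩, hlt⟩ := exists_lt_of_csInf_lt
    ⟨_, straight_mem L1 L2 p q⟩ hq
  obtain ⟨e1, e2⟩ := abs_sub_le_of_path hw0 hw hwc hγ
  rw [h0] at e1 e2
  have e3 : pathLength w γ / Real.sqrt w0 < r / Real.sqrt w0 := by gcongr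
  exact ⟨γ 1, h1, lt_of_le_of_lt e1 e3, lt_of_le_of_lt e2 e3⟩

/-- A small Euclidean square is contained in a geodesic disc. -/
lemma mem_geodDisc_of_close {w : ℝ → ℝ → ℝ} {W : ℝ} (hW0 : 0 < W) (hW : ∀ x y, w x y ≤ W)
    (hwc : Continuous (fun p : ℝ × ℝ => w p.1 p.2)) {L1 L2 r : ℝ} (hr : 0 < r)
    {p q : ℝ × ℝ} (h1 : |q.1 - p.1| ≤ r / (2 * Real.sqrt W))
    (h2 : |q.2 - p.2| ≤ r / (2 * Real.sqrt W)) : q ∈ geodDisc w L1 L2 p r := by
  have hs : 0 < Real.sqrt W := Real.sqrt_pos.mpr hW0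
  refine lt_of_le_of_lt (torusDist_le hW hwc L1 L2 p q) ?_
  set a : ℝ := r / (2 * Real.sqrt W) with ha
  have ha0 : 0 < a := by rw [ha]; positivity
  have h3 : (q.1 - p.1) ^ 2 + (q.2 - p.2) ^ 2 ≤ 2 * a ^ 2 := by
    have e1 : (q.1 - p.1) ^ 2 ≤ a ^ 2 := sq_le_sq' (by linarith [(abs_le.mp h1).1]) (abs_le.mp h1).2
    have e2 : (q.2 - p.2) ^ 2 ≤ a ^ 2 := sq_le_sq' (by linarith [(abs_le.mp h2).1]) (abs_le.mp h2).2
    linarith
  have h4 : Real.sqrt ((q.1 - p.1) ^ 2 + (q.2 - p.2) ^ 2) < 2 * a := by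
    rw [Real.sqrt_lt' (by positivity)]
    nlinarith
  calc Real.sqrt W * Real.sqrt ((q.1 - p.1) ^ 2 + (q.2 - p.2) ^ 2)
      < Real.sqrt W * (2 * a) := mul_lt_mul_of_pos_left h4 hs
    _ = r := by rw [ha]; field_simp

lemma Periodic2.int {L1 L2 : ℝ} {u : ℝ → ℝ → ℝ} (h : Periodic2 L1 L2 u) {p q : ℝ × ℝ}
    (hpq : SamePoint L1 L2 p q) : u q.1 q.2 = u p.1 p.2 := by
  obtain ⟨j, k, h1, h2⟩ := hpq
  have e1 : ∀ y, Function.Periodic (fun x => u x y) L1 := fun y x => (h x y).1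
  have e2 : ∀ x, Function.Periodic (fun y => u x y) L2 := fun x y => (h x y).2
  rw [h1, h2]
  have e3 : u (p.1 + j * L1) (p.2 + k * L2) = u p.1 (p.2 + k * L2) :=
    (e1 (p.2 + k * L2)).int_mul j p.1
  have e4 : u p.1 (p.2 + k * L2) = u p.1 p.2 := (e2 p.1).int_mul k p.2
  rw [e3, e4]

/-- The doubling index of the geodesic disc of radius `r` is at most `log₂ E` if
`|u| ≤ E sup |u|` for concentric Euclidean squares. -/
lemma doublingIndex_le {w : ℝ → ℝ → ℝ} {w0 W : ℝ} (hw0 : 0 < w0) (hw : ∀ x y, w0 ≤ w x y)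
    (hW : ∀ x y, w x y ≤ W) (hwc : Continuous (fun p : ℝ × ℝ => w p.1 p.2)) {L1 L2 : ℝ}
    {u : ℝ → ℝ → ℝ} (hu : Periodic2 L1 L2 u) (hubdd : ∃ B, ∀ x y, |u x y| ≤ B)
    {p : ℝ × ℝ} {r E : ℝ} (hr : 0 < r) (hE : 1 ≤ E)
    (h : ∀ m : ℝ, (∀ x y, |x - p.1| ≤ r / (2 * Real.sqrt W) →
        |y - p.2| ≤ r / (2 * Real.sqrt W) → |u x y| ≤ m) →
      ∀ x y, |x - p.1| ≤ 2 * r / Real.sqrt w0 → |y - p.2| ≤ 2 * r / Real.sqrt w0 →
        |u x y| ≤ E * m) :
    doublingIndex w L1 L2 u p r ≤ Real.logb 2 E := by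
  obtain ⟨B, hB⟩ := hubdd
  have hW0 : 0 < W := lt_of_lt_of_le hw0 ((hw 0 0).trans (hW 0 0))
  set m : ℝ := supAbs u (geodDisc w L1 L2 p r) with hm
  have hbdd : ∀ S : Set (ℝ × ℝ), BddAbove ((fun q : ℝ × ℝ => |u q.1 q.2|) '' S) := by
    intro S
    refine ⟨B, ?_⟩
    rintro _ ⟨q, _, rfl⟩
    exact hB _ _
  have hmle : ∀ x y, |x - p.1| ≤ r / (2 * Real.sqrt W) →
      |y - p.2| ≤ r / (2 * Real.sqrt W) → |u x y| ≤ m := by
    intro x y hx hy
    exact le_csSup (hbdd _) ⟨(x, y), mem_geodDisc_of_close hW0 hW hwc hr hx hy, rfl⟩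
  have hpmem : p ∈ geodDisc w L1 L2 p (2 * r) := by
    apply mem_geodDisc_of_close hW0 hW hwc (by positivity)
    · simp only [sub_self, abs_zero]; positivity
    · simp only [sub_self, abs_zero]; positivity
  have hm0 : 0 ≤ m := (abs_nonneg (u p.1 p.2)).trans (hmle _ _
    (by simp only [sub_self, abs_zero]; positivity)
    (by simp only [sub_self, abs_zero]; positivity))
  have hsup : supAbs u (geodDisc w L1 L2 p (2 * r)) ≤ E * m := by
    apply csSup_le (Set.Nonempty.image _ ⟨p, hpmem⟩)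
    rintro _ ⟨q, hq, rfl⟩
    obtain ⟨q', hqq', h1, h2⟩ := exists_rep_of_mem_geodDisc hw0 hw hwc hq
    have := h m hmle q'.1 q'.2 h1.le h2.le
    rw [hu.int hqq'] at this
    exact this
  unfold doublingIndex
  rw [← hm]
  rcases hm0.eq_or_lt with h0 | h0
  · rw [← h0, div_zero, Real.logb_zero]
    exact Real.logb_nonneg (by norm_num) hE
  · have hsup0 : 0 ≤ supAbs u (geodDisc w L1 L2 p (2 * r)) :=
      (abs_nonneg (u p.1 p.2)).trans (le_csSup (hbdd _) ⟨p, hpmem, rfl⟩)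
    have hratio : supAbs u (geodDisc w L1 L2 p (2 * r)) / m ≤ E := by
      rw [div_le_iff₀ h0]; exact hsup
    rcases (div_nonneg hsup0 h0.le).eq_or_lt with h1 | h1
    · rw [← h1, Real.logb_zero]
      exact Real.logb_nonneg (by norm_num) hE
    · exact Real.logb_le_logb_of_le (by norm_num) h1 hratio

end Pool.Agent.H24.Torus
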